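import Mathlib

/-!
# FBC: definitions, part 1

The class `Cl` of functions obtained from `+`, `*`, `∸` by composition and minimisation, and the
group.
-/

namespace Pool.Agent.FBC

/-! ## total functions closed under composition and minimisation -/

/-- Functions `ℕ^k → ℕ` obtained from projections, constants, `+`, `*`, `∸` by composition and
(total) minimisation. -/
inductive Cl : ∀ {k : ℕ}, ((Fin k → ℕ) → ℕ) → Prop
  | proj {k : ℕ} (i : Fin k) : Cl (fun v => v i)
  | const {k : ℕ} (n : ℕ) : Cl (fun _ : Fin k → ℕ => n)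
  | add {k : ℕ} {f g : (Fin k → ℕ) → ℕ} : Cl f → Cl g → Cl (fun v => f v + g v)
  | mul {k : ℕ} {f g : (Fin k → ℕ) → ℕ} : Cl f → Cl g → Cl (fun v => f v * g v)
  | sub {k : ℕ} {f g : (Fin k → ℕ) → ℕ} : Cl f → Cl g → Cl (fun v => f v - g v)
  | mu {k : ℕ} {f : (Fin (k + 1) → ℕ) → ℕ} (hf : Cl f)
      (h : ∀ v : Fin k → ℕ, ∃ n, f (Fin.cons n v) = 0) :
      Cl (fun v => Nat.find (h v))

/-! ## the group -/

/-- `F_4` -/
abbrev F4 : Type := FreeGroup (Fin 4)

/-- `x ↦ x, w ↦ w x, z ↦ (w x)⁻¹ z (w x), a ↦ a` for `x, w, z, a = of 0, of 1, of 2, of 3` -/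
def phiHom : F4 →* F4 := FreeGroup.lift ![FreeGroup.of 0, FreeGroup.of 1 * FreeGroup.of 0,
  (FreeGroup.of 1 * FreeGroup.of 0)⁻¹ * FreeGroup.of 2 * (FreeGroup.of 1 * FreeGroup.of 0),
  FreeGroup.of 3]

/-- its inverse -/
def phiInv : F4 →* F4 := FreeGroup.lift ![FreeGroup.of 0, FreeGroup.of 1 * (FreeGroup.of 0)⁻¹,
  FreeGroup.of 1 * FreeGroup.of 2 * (FreeGroup.of 1)⁻¹, FreeGroup.of 3]

/-- Relations satisfied by the generators `t, s, z, a`. -/
structure Rel {G : Type*} [Group G] (t s z a : G) : Prop where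
  tt : Commute t (s⁻¹ * t * s)
  zs : Commute z s
  at' : Commute a t

end Pool.Agent.FBC
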