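import Pool.Agent.FBC.Defs1

/-!
# FBC module Halt: a primitive recursive predicate whose first zeros dominate all computable
functions

For a number `a` let `e a` be the exponent of `2` in `a` (iterated halving) and
`E a k = 0` if `Code.evaln k (Code.ofNatCode (e a)) a` is `some _`, `1` otherwise
(`Nat.Partrec.Code.primrec_evaln`).
Given a computable `g` let `c` be a code of `comp id G` where `G a = ∑ i ≤ a, g i`,
`id` any code of the identity; `evaln` on the composition needs
`k > G a` (the guard of the outer code is applied to the value `G a`; `evaln_bound`). Put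
`e = encodeCode c`, `a = 2 ^ e * (2 * m + 1) ≤ 2 ^ (e + 1) * (m + 1)`, `a ≥ m`; `k` = the first `k`
with `E a k = 0` (exists by `evaln_complete`); `k > G a ≥ g m`.
-/

namespace Pool.Agent.FBC

open Nat.Partrec (Code)
open Nat.Partrec.Code

/-- one step of halving; the second component counts the steps -/
def hstep (p : ℕ × ℕ) : ℕ × ℕ := bif decide (p.1 % 2 = 0) then (p.1 / 2, p.2 + 1) else p

theorem hstep_primrec : Primrec hstep := by
  unfold hstep
  refine Primrec.cond ?_ ?_ Primrec.id
  · have h1 : Primrec (fun p : ℕ × ℕ => p.1 % 2) :=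
      Primrec.nat_mod.comp Primrec.fst (Primrec.const 2)
    exact (Primrec.eq.comp h1 (Primrec.const 0)).decide
  · exact Primrec.pair (Primrec.nat_div.comp Primrec.fst (Primrec.const 2))
      (Primrec.succ.comp Primrec.snd)

/-- exponent of `2` (of a positive number) -/
def hexp (a : ℕ) : ℕ := (hstep^[a] (a, 0)).2

theorem hexp_primrec : Primrec hexp := by
  unfold hexp
  exact Primrec.snd.comp (Primrec.nat_iterate Primrec.id
    (Primrec.pair Primrec.id (Primrec.const 0)) (hstep_primrec.comp Primrec.snd).to₂)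

theorem hstep_even (x c : ℕ) : hstep (2 * x, c) = (x, c + 1) := by
  simp [hstep]

theorem hstep_odd (x c : ℕ) : hstep (2 * x + 1, c) = (2 * x + 1, c) := by
  have : (2 * x + 1) % 2 = 1 := by omega
  simp [hstep, this]

theorem hstep_iter_odd (n x c : ℕ) : hstep^[n] (2 * x + 1, c) = (2 * x + 1, c) := by
  induction n with
  | zero => rfl
  | succ n ih => rw [Function.iterate_succ_apply, hstep_odd, ih]

theorem hstep_iter (e : ℕ) : ∀ (n x c : ℕ), e ≤ n →
    hstep^[n] (2 ^ e * (2 * x + 1), c) = (2 * x + 1, c + e) := by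
  induction e with
  | zero => intro n x c _; simpa using hstep_iter_odd n x c
  | succ e ih =>
    intro n x c h
    obtain ⟨n, rfl⟩ : ∃ k, n = k + 1 := ⟨n - 1, by omega⟩
    rw [Function.iterate_succ_apply]
    have : 2 ^ (e + 1) * (2 * x + 1) = 2 * (2 ^ e * (2 * x + 1)) := by ring
    rw [this, hstep_even, ih n x (c + 1) (by omega)]
    congr 1; omega

theorem hexp_eq (e x : ℕ) : hexp (2 ^ e * (2 * x + 1)) = e := by
  have h1 : e < 2 ^ e := Nat.lt_two_pow_self
  have h2 : 2 ^ e ≤ 2 ^ e * (2 * x + 1) := Nat.le_mul_of_pos_right _ (by omega)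
  unfold hexp
  rw [hstep_iter e _ x 0 (by omega)]
  simp

/-- the predicate -/
def hE (a k : ℕ) : ℕ := bif (evaln k (Denumerable.ofNat Code (hexp a)) a).isSome then 0 else 1

theorem hE_primrec : Primrec₂ hE := by
  have h0 : Primrec (fun p : ℕ × ℕ => ((p.2, Denumerable.ofNat Code (hexp p.1)), p.1)) :=
    Primrec.pair (Primrec.pair Primrec.snd
      ((Primrec.ofNat Code).comp (hexp_primrec.comp Primrec.fst))) Primrec.fst
  have h1 : Primrec (fun p : ℕ × ℕ => evaln p.2 (Denumerable.ofNat Code (hexp p.1)) p.1) :=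
    primrec_evaln.comp h0
  exact Primrec.cond (Primrec.option_isSome.comp h1) (Primrec.const 0) (Primrec.const 1)

theorem hE_nat : Nat.Primrec (fun n => hE n.unpair.1 n.unpair.2) :=
  Primrec.nat_iff.1 (hE_primrec.comp (Primrec.fst.comp Primrec.unpair)
    (Primrec.snd.comp Primrec.unpair))

/-- sums of the first values -/
def hG (g : ℕ → ℕ) (a : ℕ) : ℕ := Nat.rec (g 0) (fun n ih => ih + g (n + 1)) a

theorem hG_computable {g : ℕ → ℕ} (hg : Computable g) : Computable (hG g) := by
  have h1 : Computable (fun p : ℕ × ℕ × ℕ => p.2.2) := Computable.snd.comp Computable.snd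
  have h2 : Computable (fun p : ℕ × ℕ × ℕ => g (p.2.1 + 1)) :=
    hg.comp (Computable.succ.comp (Computable.fst.comp Computable.snd))
  have h3 : Computable₂ (fun (_ : ℕ) (p : ℕ × ℕ) => p.2 + g (p.1 + 1)) :=
    (Primrec.nat_add.to_comp.comp h1 h2).to₂
  exact Computable.nat_rec Computable.id (Computable.const (g 0)) h3

theorem le_hG (g : ℕ → ℕ) (a : ℕ) : ∀ m ≤ a, g m ≤ hG g a := by
  induction a with
  | zero => intro m hm; obtain rfl : m = 0 := by omega
            exact le_rfl
  | succ a ih =>
    intro m hm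
    have e : hG g (a + 1) = hG g a + g (a + 1) := rfl
    rw [e]
    rcases Nat.lt_or_ge a m with h | h
    · obtain rfl : m = a + 1 := by omega
      omega
    · have := ih m h
      omega

theorem halt : ∃ E : ℕ → ℕ → ℕ, Nat.Primrec (fun n => E n.unpair.1 n.unpair.2) ∧
    ∀ g : ℕ → ℕ, Computable g → ∃ C : ℕ, ∀ m, ∃ a k, a ≤ C * (m + 1) ∧ g m ≤ k ∧
      E a k = 0 ∧ ∀ k' < k, E a k' ≠ 0 := by
  refine ⟨hE, hE_nat, fun g hg => ?_⟩
  obtain ⟨cG, hcG⟩ := exists_code.1 (Partrec.nat_iff.1 (hG_computable hg))
  set c : Code := Code.comp Code.id cG with hc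
  have hev : ∀ a, hG g a ∈ eval c a := by
    intro a
    rw [hc]
    have : eval cG a = Part.some (hG g a) := by rw [hcG]; rfl
    have h2 : eval (Code.comp Code.id cG) a = eval cG a >>= eval Code.id := rfl
    rw [h2, this]
    refine Part.mem_bind_iff.2 ⟨hG g a, Part.mem_some _, ?_⟩
    rw [eval_id]
    exact Part.mem_some _
  set e := Encodable.encode c with he
  refine ⟨2 ^ (e + 1), fun m => ?_⟩
  set a := 2 ^ e * (2 * m + 1) with ha
  have hexa : Denumerable.ofNat Code (hexp a) = c := by
    rw [ha, hexp_eq, he, Denumerable.ofNat_encode]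
  have hma : m ≤ a := by
    have : 1 * (2 * m + 1) ≤ 2 ^ e * (2 * m + 1) := Nat.mul_le_mul_right _ Nat.one_le_two_pow
    omega
  have hex : ∃ k, hE a k = 0 := by
    obtain ⟨k, hk⟩ := evaln_complete.1 (hev a)
    refine ⟨k, ?_⟩
    unfold hE
    rw [hexa]
    have : evaln k c a = some (hG g a) := hk
    rw [this]; rfl
  classical
  refine ⟨a, Nat.find hex, ?_, ?_, Nat.find_spec hex, fun k' hk' => Nat.find_min hex hk'⟩
  · rw [ha, pow_succ]
    nlinarith [Nat.one_le_two_pow (n := e)]
  · refine (le_hG g a m hma).trans ?_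
    have h := Nat.find_spec hex
    generalize Nat.find hex = k at h
    unfold hE at h
    rw [hexa] at h
    rcases hev' : evaln k c a with _ | y
    · rw [hev'] at h; simp at h
    · have h1 : y ∈ evaln k c a := hev'
      -- the composition
      rcases k with _ | k
      · simp [evaln] at h1
      · rw [hc] at h1
        simp only [evaln, Option.mem_def, bind, Option.bind_eq_some_iff] at h1
        obtain ⟨_, _, x, hx, hy⟩ := h1
        have hb : x < k + 1 := evaln_bound hy
        have hxe : x ∈ eval cG a := evaln_sound hx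
        rw [hcG] at hxe
        have : x = hG g a := by simpa using hxe
        omega

end Pool.Agent.FBC
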