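import Pool.Agent.FBC.ClA

/-!
# FBC module ClB: primitive recursive functions are in `Cl`

Induction on `Nat.Primrec f`; the case of primitive recursion uses the beta function: the value at
`n` is `beta w n` for the least `w` which codes the sequence of the values at `0, ..., n`.
-/

namespace Pool.Agent.FBC

/-- one variable functions can be applied to elements of `Cl` -/
theorem Cl.comp1 {f : ℕ → ℕ} (hf : Cl (fun v : Fin 1 → ℕ => f (v 0))) {k : ℕ}
    {g : (Fin k → ℕ) → ℕ} (hg : Cl g) : Cl (fun v => f (g v)) :=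
  Cl.subst hf (g := fun _ => g) (fun _ => hg)

/-- the sequence defined by primitive recursion -/
def precSeq (f g : ℕ → ℕ) (a : ℕ) : ℕ → ℕ
  | 0 => f a
  | y + 1 => g (Nat.pair a (Nat.pair y (precSeq f g a y)))

theorem precSeq_eq (f g : ℕ → ℕ) (a n : ℕ) :
    precSeq f g a n = Nat.rec (f a) (fun y IH => g (Nat.pair a (Nat.pair y IH))) n := by
  induction n with
  | zero => rfl
  | succ n ih => simp only [precSeq, ih]

/-- the distance of `beta w (i + 1)` and its desired value; `(v 0, v 1, v 2) = (i, w, x)` -/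
def precD (g : ℕ → ℕ) (v : Fin 3 → ℕ) : ℕ :=
  (Nat.beta (v 1) (v 0 + 1) -
    g (Nat.pair (v 2).unpair.1 (Nat.pair (v 0) (Nat.beta (v 1) (v 0))))) +
  (g (Nat.pair (v 2).unpair.1 (Nat.pair (v 0) (Nat.beta (v 1) (v 0)))) -
    Nat.beta (v 1) (v 0 + 1))

theorem precD_cl {g : ℕ → ℕ} (hg : Cl (fun v : Fin 1 → ℕ => g (v 0))) : Cl (precD g) := by
  have h0 : Cl (fun v : Fin 3 → ℕ => v 0) := Cl.proj 0
  have h1 : Cl (fun v : Fin 3 → ℕ => v 1) := Cl.proj 1
  have h2 : Cl (fun v : Fin 3 → ℕ => v 2) := Cl.proj 2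
  have hb : Cl (fun v : Fin 3 → ℕ => Nat.beta (v 1) (v 0)) := Cl.beta h1 h0
  have hb' : Cl (fun v : Fin 3 → ℕ => Nat.beta (v 1) (v 0 + 1)) :=
    Cl.beta h1 (Cl.add h0 (Cl.const 1))
  have hg' : Cl (fun v : Fin 3 → ℕ =>
      g (Nat.pair (v 2).unpair.1 (Nat.pair (v 0) (Nat.beta (v 1) (v 0))))) :=
    Cl.comp1 hg (Cl.pair (Cl.left h2) (Cl.pair h0 hb))
  exact Cl.add (Cl.sub hb' hg') (Cl.sub hg' hb')

theorem precD_eq_zero {g : ℕ → ℕ} {v : Fin 3 → ℕ} : precD g v = 0 ↔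
    Nat.beta (v 1) (v 0 + 1) =
      g (Nat.pair (v 2).unpair.1 (Nat.pair (v 0) (Nat.beta (v 1) (v 0)))) := by
  unfold precD
  omega

/-- the function whose least zero `i` is the least place where the sequence coded by `w` is wrong;
`(v 0, v 1, v 2) = (i, w, x)` -/
def precB (g : ℕ → ℕ) (v : Fin 3 → ℕ) : ℕ := ((v 2).unpair.2 - v 0) * (1 - precD g v)

theorem precB_cl {g : ℕ → ℕ} (hg : Cl (fun v : Fin 1 → ℕ => g (v 0))) : Cl (precB g) := by
  have h0 : Cl (fun v : Fin 3 → ℕ => v 0) := Cl.proj 0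
  have h2 : Cl (fun v : Fin 3 → ℕ => v 2) := Cl.proj 2
  exact Cl.mul (Cl.sub (Cl.right h2) h0) (Cl.sub (Cl.const 1) (precD_cl hg))

theorem precB_ex (g : ℕ → ℕ) (v : Fin 2 → ℕ) : ∃ n, precB g (Fin.cons n v) = 0 := by
  refine ⟨(v 1).unpair.2, ?_⟩
  have h : (Fin.cons (v 1).unpair.2 v : Fin 3 → ℕ) 2 = v 1 := rfl
  have h' : (Fin.cons (v 1).unpair.2 v : Fin 3 → ℕ) 0 = (v 1).unpair.2 := rfl
  simp only [precB, h, h', Nat.sub_self, Nat.zero_mul]

/-- least wrong place -/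
def precM (g : ℕ → ℕ) (v : Fin 2 → ℕ) : ℕ := Nat.find (precB_ex g v)

theorem precM_cl {g : ℕ → ℕ} (hg : Cl (fun v : Fin 1 → ℕ => g (v 0))) : Cl (precM g) :=
  Cl.mu (precB_cl hg) (precB_ex g)

/-- the test that `w` codes the right sequence; `(v 0, v 1) = (w, x)` -/
def precC (f g : ℕ → ℕ) (v : Fin 2 → ℕ) : ℕ :=
  (Nat.beta (v 0) 0 - f (v 1).unpair.1) + (f (v 1).unpair.1 - Nat.beta (v 0) 0) +
    ((v 1).unpair.2 - precM g v)

theorem precC_cl {f g : ℕ → ℕ} (hf : Cl (fun v : Fin 1 → ℕ => f (v 0)))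
    (hg : Cl (fun v : Fin 1 → ℕ => g (v 0))) : Cl (precC f g) := by
  have h0 : Cl (fun v : Fin 2 → ℕ => v 0) := Cl.proj 0
  have h1 : Cl (fun v : Fin 2 → ℕ => v 1) := Cl.proj 1
  have hb : Cl (fun v : Fin 2 → ℕ => Nat.beta (v 0) 0) := Cl.beta h0 (Cl.const 0)
  have hf' : Cl (fun v : Fin 2 → ℕ => f (v 1).unpair.1) := Cl.comp1 hf (Cl.left h1)
  exact Cl.add (Cl.add (Cl.sub hb hf') (Cl.sub hf' hb)) (Cl.sub (Cl.right h1) (precM_cl hg))

theorem precC_eq_zero {f g : ℕ → ℕ} {w x : ℕ} : precC f g (Fin.cons w fun _ => x) = 0 ↔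
    Nat.beta w 0 = f x.unpair.1 ∧ ∀ i < x.unpair.2, Nat.beta w (i + 1) =
      g (Nat.pair x.unpair.1 (Nat.pair i (Nat.beta w i))) := by
  have e0 : (Fin.cons w (fun _ => x) : Fin 2 → ℕ) 0 = w := rfl
  have e1 : (Fin.cons w (fun _ => x) : Fin 2 → ℕ) 1 = x := rfl
  have key : x.unpair.2 ≤ precM g (Fin.cons w fun _ => x) ↔
      ∀ i < x.unpair.2, Nat.beta w (i + 1) =
        g (Nat.pair x.unpair.1 (Nat.pair i (Nat.beta w i))) := by
    unfold precM
    rw [Nat.le_find_iff]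
    refine forall_congr' fun i => forall_congr' fun hi => ?_
    have d0 : (Fin.cons i (Fin.cons w (fun _ => x) : Fin 2 → ℕ) : Fin 3 → ℕ) 0 = i := rfl
    have d1 : (Fin.cons i (Fin.cons w (fun _ => x) : Fin 2 → ℕ) : Fin 3 → ℕ) 1 = w := rfl
    have d2 : (Fin.cons i (Fin.cons w (fun _ => x) : Fin 2 → ℕ) : Fin 3 → ℕ) 2 = x := rfl
    have hD := @precD_eq_zero g (Fin.cons i (Fin.cons w (fun _ => x) : Fin 2 → ℕ))
    rw [d0, d1, d2] at hD
    rw [← hD]
    unfold precB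
    rw [d0, d2, Nat.mul_eq_zero]
    omega
  unfold precC
  rw [← key, e0, e1]
  omega

theorem precC_ex (f g : ℕ → ℕ) (v : Fin 1 → ℕ) : ∃ n, precC f g (Fin.cons n v) = 0 := by
  obtain ⟨x, rfl⟩ : ∃ x : ℕ, v = fun _ => x :=
    ⟨v 0, funext fun i => by rw [Subsingleton.elim i 0]⟩
  set l : List ℕ := (List.range (x.unpair.2 + 1)).map (precSeq f g x.unpair.1) with hl
  have hlen : l.length = x.unpair.2 + 1 := by simp [hl]
  have hval : ∀ i, i < x.unpair.2 + 1 → Nat.beta (Nat.unbeta l) i = precSeq f g x.unpair.1 i := by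
    intro i hi
    have h := Nat.beta_unbeta_coe l ⟨i, by rw [hlen]; exact hi⟩
    simpa [hl] using h
  refine ⟨Nat.unbeta l, precC_eq_zero.2 ⟨?_, ?_⟩⟩
  · rw [hval 0 (Nat.succ_pos _)]
    rfl
  · intro i hi
    rw [hval (i + 1) (by omega), hval i (by omega)]
    rfl

theorem prec_cl {f g : ℕ → ℕ} (hf : Cl (fun v : Fin 1 → ℕ => f (v 0)))
    (hg : Cl (fun v : Fin 1 → ℕ => g (v 0))) :
    Cl (fun v : Fin 1 → ℕ => precSeq f g (v 0).unpair.1 (v 0).unpair.2) := by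
  have h0 : Cl (fun v : Fin 1 → ℕ => v 0) := Cl.proj 0
  have hW : Cl (fun v : Fin 1 → ℕ => Nat.find (precC_ex f g v)) :=
    Cl.mu (precC_cl hf hg) (precC_ex f g)
  have hB : Cl (fun v : Fin 1 → ℕ => Nat.beta (Nat.find (precC_ex f g v)) (v 0).unpair.2) :=
    Cl.beta hW (Cl.right h0)
  have e : (fun v : Fin 1 → ℕ => precSeq f g (v 0).unpair.1 (v 0).unpair.2) =
      fun v : Fin 1 → ℕ => Nat.beta (Nat.find (precC_ex f g v)) (v 0).unpair.2 := by
    funext v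
    obtain ⟨x, rfl⟩ : ∃ x : ℕ, v = fun _ => x :=
      ⟨v 0, funext fun i => by rw [Subsingleton.elim i 0]⟩
    have h := precC_eq_zero.1 (Nat.find_spec (precC_ex f g fun _ => x))
    have key : ∀ i, i ≤ x.unpair.2 →
        Nat.beta (Nat.find (precC_ex f g fun _ => x)) i = precSeq f g x.unpair.1 i := by
      intro i
      induction i with
      | zero => intro _; exact h.1
      | succ i ih =>
        intro hi
        rw [h.2 i (by omega), ih (by omega)]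
        rfl
    exact (key _ le_rfl).symm
  rw [e]
  exact hB

theorem primrec_cl {f : ℕ → ℕ} (hf : Nat.Primrec f) {k : ℕ} {g : (Fin k → ℕ) → ℕ} (hg : Cl g) :
    Cl (fun v => f (g v)) := by
  suffices h : Cl (fun v : Fin 1 → ℕ => f (v 0)) from h.comp1 hg
  clear hg
  have h0 : Cl (fun v : Fin 1 → ℕ => v 0) := Cl.proj 0
  induction hf with
  | zero => exact Cl.const 0
  | succ => exact Cl.add h0 (Cl.const 1)
  | left => exact Cl.left h0
  | right => exact Cl.right h0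
  | pair _ _ ih1 ih2 => exact Cl.pair ih1 ih2
  | comp _ _ ih1 ih2 => exact Cl.comp1 ih1 ih2
  | prec _ _ ih1 ih2 =>
    have h := prec_cl ih1 ih2
    simp only [precSeq_eq] at h
    exact h

end Pool.Agent.FBC
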