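import Pool.Agent.FBC.Defs1

/-!
# FBC: definitions, part 2

Rudimentary relations, reversible programs on registers (with invariants), space bounded clean
programs, residue machines, the subgroup generated by a residue machine, the action.
-/

namespace Pool.Agent.FBC

/-! ## rudimentary relations -/

/-- The relations on `ℕ` obtained from `x + y = z` and `x * y = z` by negation, conjunction and
bounded quantification (rudimentary relations, i.e. the `Δ₀` relations). -/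
inductive Rud : ∀ {k : ℕ}, ((Fin k → ℕ) → Prop) → Prop
  | add {k : ℕ} (i j l : Fin k) : Rud (fun v => v i + v j = v l)
  | mul {k : ℕ} (i j l : Fin k) : Rud (fun v => v i * v j = v l)
  | not {k : ℕ} {Q : (Fin k → ℕ) → Prop} : Rud Q → Rud (fun v => ¬ Q v)
  | and {k : ℕ} {Q Q' : (Fin k → ℕ) → Prop} : Rud Q → Rud Q' → Rud (fun v => Q v ∧ Q' v)
  | bex {k : ℕ} {Q : (Fin (k + 1) → ℕ) → Prop} (i : Fin k) : Rud Q →
      Rud (fun v : Fin k → ℕ => ∃ n, n ≤ v i ∧ Q (Fin.cons n v))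

/-! ## reversible programs -/

/-- increment of a register -/
def inc (i : ℕ) (x : ℕ → ℕ) : ℕ → ℕ := Function.update x i (x i + 1)

/-- sum of the registers below `R` -/
def mass (R : ℕ) (x : ℕ → ℕ) : ℕ := ∑ i ∈ Finset.range R, x i

/-- Reversible programs. `cond i j P Q`: if register `i` is `0` then `P` (which has to end with
register `j` equal to `0`), otherwise decrement `i`, do `Q`, increment `j`.
`loop i j P`: from register `i` equal to `0`, as long as register `j` is not `0`: decrement `j`,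
do `P`, increment `i`. -/
inductive Prog : Type
  | skip : Prog
  | inc (i : ℕ) : Prog
  | dec (i : ℕ) : Prog
  | seq (P Q : Prog) : Prog
  | cond (i j : ℕ) (P Q : Prog) : Prog
  | loop (i j : ℕ) (P : Prog) : Prog

/-- Semantics of programs (a partial injection on states), all states on the way in `I`. -/
def Big (I : (ℕ → ℕ) → Prop) : Prog → (ℕ → ℕ) → (ℕ → ℕ) → Prop
  | .skip => fun x y => x = y ∧ I x
  | .inc i => fun x y => y = FBC.inc i x ∧ I x ∧ I y
  | .dec i => fun x y => x = FBC.inc i y ∧ I x ∧ I y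
  | .seq P Q => fun x z => ∃ y, Big I P x y ∧ Big I Q y z
  | .cond i j P Q => fun x y => I x ∧ I y ∧ ((x i = 0 ∧ Big I P x y ∧ y j = 0) ∨
      ∃ x' y', x = FBC.inc i x' ∧ Big I Q x' y' ∧ y = FBC.inc j y')
  | .loop i j P => fun x y => I x ∧ I y ∧ x i = 0 ∧ y j = 0 ∧
      Relation.ReflTransGen
        (fun u v => I u ∧ I v ∧ ∃ u' v', u = FBC.inc j u' ∧ Big I P u' v' ∧ v = FBC.inc i v') x y

/-- the inverse program -/
def Prog.inv : Prog → Prog
  | .skip => .skip
  | .inc i => .dec i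
  | .dec i => .inc i
  | .seq P Q => .seq Q.inv P.inv
  | .cond i j P Q => .cond j i P.inv Q.inv
  | .loop i j P => .loop j i P.inv

/-- all registers of the program are in `U` -/
def Prog.In (U : Set ℕ) : Prog → Prop
  | .skip => True
  | .inc i => i ∈ U
  | .dec i => i ∈ U
  | .seq P Q => P.In U ∧ Q.In U
  | .cond i j P Q => i ∈ U ∧ j ∈ U ∧ P.In U ∧ Q.In U
  | .loop i j P => i ∈ U ∧ j ∈ U ∧ P.In U

/-- `f : ℕ^k → ℕ` is cleanly computable with space `σ`: for all choices of input registers, output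
register and scratch registers `b, …, b + m - 1` (which have to contain `0` and contain `0` at the
end) some program adds `f (inputs)` to the output register and changes nothing else; on the way
the sum of all registers is at most its initial value plus `σ (inputs)`. -/
def Clean {k : ℕ} (f σ : (Fin k → ℕ) → ℕ) : Prop :=
  ∃ m : ℕ, ∀ (inp : Fin k → ℕ) (out b : ℕ), (∀ i, inp i < b) → out < b → (∀ i, inp i ≠ out) →
    ∃ P : Prog, P.In {r | r = out ∨ (∃ i, r = inp i) ∨ (b ≤ r ∧ r < b + m)} ∧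
      ∀ (R : ℕ) (x : ℕ → ℕ), b + m ≤ R → (∀ r, b ≤ r → r < b + m → x r = 0) →
        Big (fun u => mass R u ≤ mass R x + σ (fun i => x (inp i))) P x
          (Function.update x out (x out + f (fun i => x (inp i))))

/-- `out += x i`, scratch register `t` -/
def copy (i out t : ℕ) : Prog :=
  .seq (.loop t i (.inc out)) (.loop i t .skip)

/-- the search program: from `n = 0`, `a = 0` to `n = μ`, `a = 0` if `U` is the program which
computes `a += f (n, …)` -/
def search (n a : ℕ) (U : Prog) : Prog :=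
  .seq U (.loop n a (.seq (.inc a) (.seq U.inv (.seq (.inc n) (.seq U (.dec n))))))

/-- the state with the registers `0, 1, 2` equal to `n, a, f` and the others `0` -/
def st (n a f : ℕ) : ℕ → ℕ := fun i => if i = 0 then n else if i = 1 then a else
  if i = 2 then f else 0

/-! ## residue machines -/

/-- A residue machine. `E v r v' c` says that the class `r` modulo `p v` of the copy of `ℤ` at the
vertex `v` is connected to the class `c` modulo `q v'` of the copy of `ℤ` at `v'`. -/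
structure RM (V : Type) where
  p : V → ℕ
  q : V → ℕ
  E : V → ℕ → V → ℕ → Prop
  hp : ∀ v, 0 < p v
  hq : ∀ v, 0 < q v
  one : ∀ v, p v = 1 ∨ q v = 1
  lt : ∀ {v r v' c}, E v r v' c → r < p v ∧ c < q v'
  det : ∀ {v r v₁ c₁ v₂ c₂}, E v r v₁ c₁ → E v r v₂ c₂ → v₁ = v₂ ∧ c₁ = c₂
  inj : ∀ {v r v₁ r₁ w c}, E v r w c → E v₁ r₁ w c → v = v₁ ∧ r = r₁

/-- One step: `(v, p v * k + r) ↦ (v', q v' * k + c)` if `E v r v' c`. -/
def RM.Step {V : Type} (M : RM V) (a b : V × ℤ) : Prop :=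
  ∃ (k : ℤ) (r c : ℕ), M.E a.1 r b.1 c ∧ a.2 = M.p a.1 * k + r ∧ b.2 = M.q b.1 * k + c

/-- `n` steps -/
inductive RM.Run {V : Type} (M : RM V) : ℕ → V × ℤ → V × ℤ → Prop
  | refl (a : V × ℤ) : M.Run 0 a a
  | step {n : ℕ} {a b c : V × ℤ} : M.Step a b → M.Run n b c → M.Run (n + 1) a c

/-- `n` steps, all points except possibly the last one in `J` -/
inductive RM.RunJ {V : Type} (M : RM V) (J : V × ℤ → Prop) : ℕ → V × ℤ → V × ℤ → Prop
  | refl (a : V × ℤ) : M.RunJ J 0 a a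
  | step {n : ℕ} {a b c : V × ℤ} : J a → M.Step a b → M.RunJ J n b c → M.RunJ J (n + 1) a c

/-- every class has an edge -/
structure RM.Total {V : Type} (M : RM V) : Prop where
  out : ∀ v r, r < M.p v → ∃ w c, M.E v r w c
  inn : ∀ w c, c < M.q w → ∃ v r, M.E v r w c

/-- A residue machine with a vertex `inn` without incoming edges and a vertex `out` without
outgoing edges. -/
structure Frag where
  V : Type
  fin : Finite V
  M : RM V
  inn : V
  out : V
  qin : M.q inn = 1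
  pout : M.p out = 1
  noin : ∀ {v r c}, ¬ M.E v r inn c
  noout : ∀ {r v c}, ¬ M.E out r v c

/-- The integer `∏_{i < R} π_i ^ (x i)`, `π_i` the `i`-th prime number. -/
noncomputable def code (R : ℕ) (x : ℕ → ℕ) : ℤ :=
  ((∏ i ∈ Finset.range R, (Nat.nth Nat.Prime i) ^ (x i) : ℕ) : ℤ)

/-- codes of the states in `I` -/
def Jc {V : Type} (R : ℕ) (I : (ℕ → ℕ) → Prop) : V × ℤ → Prop :=
  fun b => ∃ x, I x ∧ b.2 = code R x

/-- The fragment realises the program (on registers below `R`). -/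
def Frag.Real (F : Frag) (R : ℕ) (P : Prog) : Prop :=
  ∀ (I : (ℕ → ℕ) → Prop) (x y : ℕ → ℕ), Big I P x y →
    ∃ n, F.M.RunJ (Jc R I) n (F.inn, code R x) (F.out, code R y)

/-- Two more lines: the orbit of `(u, 1)` is `…, (w, 4), (w, 2), (w, 1), (u, 1), (u, 3), (u, 9), …`
and `(κ, k) ↦ (κ, 2 * k)`. -/
def RM.Ld {V : Type} (M : RM V) (u : V) : Prop :=
  ∃ w κ : V, M.p w = 2 ∧ M.q w = 1 ∧ M.E w 0 w 0 ∧ M.E w 1 u 1 ∧ M.p κ = 1 ∧ M.q κ = 2 ∧
    M.E κ 0 κ 0

/-- The main residue machine. Start at `(v0, 1)`; `(v0, 2 * k) ↦ (v0, k)`, `(u, k) ↦ (u, 3 * k)`.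
For `N` in `Dm` it visits `(mS, 2 ^ N)` and later `(j, 3 ^ (nu N))`; if it is at time `i` in a
point with coordinate `z` then for some `N` with `2 ^ (lo N) ≤ 2 * z` all coordinates up to time `i`
are at most `Y N`. -/
structure Mach {V : Type} (M : RM V) (v0 u j mS : V) (Dm : ℕ → Prop) (nu lo Y : ℕ → ℕ) :
    Prop where
  p0 : M.p v0 = 2
  q0 : M.q v0 = 1
  e0 : M.E v0 0 v0 0
  pu : M.p u = 1
  qu : M.q u = 3
  eu : M.E u 0 u 0
  qj : M.q j = 1
  pm : M.p mS = 1
  qm : M.q mS = 2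
  ld : M.Ld u
  hit : ∀ N, Dm N → ∃ i₁ i₂, M.Run i₁ (v0, 1) (mS, 2 ^ N) ∧
    M.Run i₂ (mS, 2 ^ N) (j, 3 ^ (nu N))
  ctl : ∀ i : ℕ, ∃ (b : V × ℤ) (N : ℕ), M.Run i (v0, 1) b ∧ (2 : ℤ) ^ (lo N) ≤ 2 * b.2 ∧
    ∀ i' ≤ i, ∃ b' : V × ℤ, M.Run i' (v0, 1) b' ∧ 1 ≤ b'.2 ∧ b'.2 ≤ (Y N : ℤ)

/-! ## the subgroup -/

section sub

variable {V : Type} (M : RM V) (EA : V → ℕ → V → ℕ → Prop) {G : Type*} [Group G] (t s a : G)
  (e : V → ℕ)

/-- the translation by `1` at the vertex `v` -/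
def tau (v : V) : G := if M.q v = 1 then t else s⁻¹ * t * s

/-- the element `τ_v ^ z a ^ (e v)` which moves the base point to the point `(v, z)` -/
def pt (v : V) (z : ℤ) : G := (tau M t s v) ^ z * a ^ (e v)

/-- generators of the subgroup `L` -/
def gens : Set G :=
  {g | ∃ v, M.q v = 1 ∧ g = (a ^ (e v))⁻¹ * ((t ^ (M.p v))⁻¹ * (s⁻¹ * t * s)) * a ^ (e v)} ∪
  {g | ∃ v, M.q v ≠ 1 ∧ g = (a ^ (e v))⁻¹ * (((s⁻¹ * t * s) ^ (M.q v))⁻¹ * t) * a ^ (e v)} ∪
  {g | ∃ v r w c, M.E v r w c ∧ g = (pt M t s a e w c)⁻¹ * s * pt M t s a e v r} ∪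
  {g | ∃ v c w c', EA v c w c' ∧ g = (pt M t s a e w c')⁻¹ * a * pt M t s a e v c}

end sub

/-- `EA v c w c'`: the letter `a` maps the class `c` modulo `q v` at `v` to the class `c'` modulo
`q w` at `w`. -/
structure EAok {V : Type} (M : RM V) (EA : V → ℕ → V → ℕ → Prop) : Prop where
  lt : ∀ {v c w c'}, EA v c w c' → c < M.q v ∧ c' < M.q w
  det : ∀ {v c w₁ c₁ w₂ c₂}, EA v c w₁ c₁ → EA v c w₂ c₂ → w₁ = w₂ ∧ c₁ = c₂

/-- The action on the points `(v, z, m)`: `(v, z)` a point, `m` the weight. -/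
structure ActS {V : Type} (M : RM V) (EA : V → ℕ → V → ℕ → Prop) (e : V → ℕ) (v0 : V)
    (lam : V → ℤ) (T S A : Equiv.Perm (V × ℤ × ℤ)) : Prop where
  hT : ∀ v z m, T (v, z, m) = (v, z + M.q v, m)
  hT' : ∀ v z m, (S⁻¹ * T * S) (v, z, m) = (v, z + M.p v, m + lam v)
  hS : ∀ v z, ∃ (k : ℤ) (r c : ℕ) (w : V), M.E v r w c ∧ z = M.p v * k + r ∧
    ∀ m, S (v, z, m) = (w, M.q w * k + c, m - lam v * k)
  hA : ∀ v z, ∃ (k : ℤ) (c c' : ℕ) (w : V), EA v c w c' ∧ z = M.q v * k + c ∧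
    ∀ m, A (v, z, m) = (w, M.q w * k + c', m)
  hAe : ∀ v k m, (A ^ (e v)) (v0, M.q v0 * k, m) = (v, M.q v * k, m)
  tt : Commute T (S⁻¹ * T * S)
  at' : Commute A T

end Pool.Agent.FBC
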