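import Pool.Agent.FBC.Defs
import Pool.Agent.helper12.FD.Defs

/-!
# FBC: rudimentary relations, rational powers
-/

namespace Pool.Agent.FBC

theorem rud_congr {k : ℕ} {Q Q' : (Fin k → ℕ) → Prop} (h : Rud Q) (hQ : ∀ v, Q v ↔ Q' v) :
    Rud Q' := by
  have : Q = Q' := funext fun v => propext (hQ v)
  rw [← this]
  exact h

theorem rud_eq {k : ℕ} (i j : Fin k) : Rud (fun v : Fin k → ℕ => v i = v j) := by
  have h1 : Rud (fun w : Fin (k + 1) → ℕ => w 0 + w 0 = w 0 ∧ w i.succ + w 0 = w j.succ) :=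
    Rud.and (Rud.add 0 0 0) (Rud.add i.succ 0 j.succ)
  refine rud_congr (Rud.bex i h1) fun v => ?_
  show (∃ n, n ≤ v i ∧ (n + n = n ∧ v i + n = v j)) ↔ v i = v j
  constructor
  · rintro ⟨n, -, h, h'⟩
    omega
  · intro h
    exact ⟨0, by omega, by omega, by omega⟩

theorem rud_pow {k : ℕ} (m : ℕ) : ∀ i j : Fin k, Rud (fun v : Fin k → ℕ => v i ^ (m + 1) = v j) := by
  induction m generalizing k with
  | zero =>
    intro i j
    exact rud_congr (rud_eq i j) fun v => by simp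
  | succ m ih =>
    intro i j
    have h1 : Rud (fun w : Fin (k + 1) → ℕ => w i.succ ^ (m + 1) = w 0 ∧
        w 0 * w i.succ = w j.succ) :=
      Rud.and (ih i.succ 0) (Rud.mul 0 i.succ j.succ)
    refine rud_congr (Rud.bex j h1) fun v => ?_
    show (∃ n, n ≤ v j ∧ (v i ^ (m + 1) = n ∧ n * v i = v j)) ↔ v i ^ (m + 1 + 1) = v j
    constructor
    · rintro ⟨n, -, rfl, h⟩
      rw [pow_succ]
      exact h
    · intro h
      refine ⟨v i ^ (m + 1), ?_, rfl, by rw [← pow_succ]; exact h⟩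
      rw [← h]
      rcases Nat.eq_zero_or_pos (v i) with h0 | h0
      · rw [h0]; simp
      · exact Nat.pow_le_pow_right h0 (by omega)

theorem rud_exle {Q : (Fin 3 → ℕ) → Prop} (h : Rud Q) (i : Fin 2) {R : ℕ → ℕ → Prop}
    (hR : ∀ n N, R n N ↔ ∃ m, m ≤ ![n, N] i ∧ Q ![m, n, N]) :
    Rud (fun v : Fin 2 → ℕ => R (v 0) (v 1)) := by
  refine rud_congr (Rud.bex i h) fun v => ?_
  have e : ![v 0, v 1] = v := by
    funext l
    fin_cases l <;> rfl
  rw [hR, e]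
  rfl

/-- the partial function `m ^ q ↦ m ^ p` -/
def PowR (p q : ℕ) (n N : ℕ) : Prop := ∃ m, m ≤ n ∧ m ^ (q + 1) = n ∧ m ^ (p + 1) = N

theorem rud_powR (p q : ℕ) : Rud (fun v : Fin 2 → ℕ => PowR p q (v 0) (v 1)) := by
  refine rud_exle (Q := fun v : Fin 3 → ℕ => v 0 ^ (q + 1) = v 1 ∧ v 0 ^ (p + 1) = v 2)
    (Rud.and (rud_pow q 0 1) (rud_pow p 0 2)) 0 fun n N => ?_
  rfl

theorem powR_fun (p q n N N' : ℕ) (h : PowR p q n N) (h' : PowR p q n N') : N = N' := by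
  obtain ⟨m, -, h1, h2⟩ := h
  obtain ⟨m', -, h1', h2'⟩ := h'
  have : m = m' := Nat.pow_left_injective (n := q + 1) (by omega) (by
    show m ^ (q + 1) = m' ^ (q + 1)
    rw [h1, h1'])
  rw [← h2, ← h2', this]

theorem powR_self (p q m : ℕ) : PowR p q (m ^ (q + 1)) (m ^ (p + 1)) :=
  ⟨m, Nat.le_self_pow (by omega) m, rfl, rfl⟩

/-- the largest `m` with `m ^ (q + 1) ≤ n` -/
def rt (q n : ℕ) : ℕ := Nat.findGreatest (fun m => m ^ (q + 1) ≤ n) n

theorem rt_le (q n : ℕ) : rt q n ^ (q + 1) ≤ n := by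
  have h := Nat.findGreatest_spec (P := fun m => m ^ (q + 1) ≤ n) (m := 0) (n := n)
    (Nat.zero_le _) (by simp)
  exact h

theorem le_rt {q n m : ℕ} (h : m ^ (q + 1) ≤ n) : m ≤ rt q n := by
  refine Nat.le_findGreatest ?_ h
  exact (Nat.le_self_pow (by omega) m).trans h

theorem lt_rt (q n : ℕ) : n < (rt q n + 1) ^ (q + 1) := by
  by_contra h
  have := le_rt (q := q) (n := n) (m := rt q n + 1) (by omega)
  omega

/-- the function `g` of `PowR p q` -/
def gp (p q n : ℕ) : ℕ := max n (rt q n ^ (p + 1))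

theorem gp_greatest (p q n : ℕ) :
    IsGreatest {N | N = n ∨ ∃ n', n' ≤ n ∧ PowR p q n' N} (gp p q n) := by
  constructor
  · rcases le_total (rt q n ^ (p + 1)) n with h | h
    · left
      exact max_eq_left h
    · right
      refine ⟨_, rt_le q n, ?_⟩
      have : gp p q n = rt q n ^ (p + 1) := max_eq_right h
      rw [this]
      exact powR_self p q _
  · rintro N (h | ⟨n', h, m, -, h1, h2⟩)
    · rw [h]
      exact le_max_left _ _
    · rw [← h2]
      refine le_trans ?_ (le_max_right _ _)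
      exact Nat.pow_le_pow_left (le_rt (by omega)) _

theorem gp_dbl (p q : ℕ) : ∃ C, ∀ n, 2 * gp p q n ≤ gp p q (C * n + C) := by
  refine ⟨2 ^ (q + 1), fun n => ?_⟩
  set C := 2 ^ (q + 1) with hC
  have hC2 : 2 ≤ C := by
    rw [hC]
    exact Nat.le_self_pow (by omega) 2
  have h1 : 2 * rt q n ≤ rt q (C * n + C) := by
    refine le_rt ?_
    rw [mul_pow, ← hC]
    have := Nat.mul_le_mul_left C (rt_le q n)
    omega
  rcases le_total (rt q n ^ (p + 1)) n with h | h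
  · have e : gp p q n = n := max_eq_left h
    rw [e]
    refine le_trans ?_ (le_max_left _ _)
    nlinarith
  · have e : gp p q n = rt q n ^ (p + 1) := max_eq_right h
    rw [e]
    refine le_trans ?_ (le_max_right _ _)
    calc 2 * rt q n ^ (p + 1) ≤ 2 ^ (p + 1) * rt q n ^ (p + 1) :=
          Nat.mul_le_mul_right _ (Nat.le_self_pow (by omega) 2)
      _ = (2 * rt q n) ^ (p + 1) := (mul_pow _ _ _).symm
      _ ≤ _ := Nat.pow_le_pow_left h1 _

/-- `⌊n ^ ((p + 1) / (q + 1))⌋` -/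
noncomputable def fl (p q n : ℕ) : ℕ := ⌊(n : ℝ) ^ (((p + 1 : ℕ) : ℝ) / ((q + 1 : ℕ) : ℝ))⌋₊

theorem gp_le_fl {p q : ℕ} (hqp : q ≤ p) (n : ℕ) : gp p q n ≤ fl p q n := by
  have hq : (0 : ℝ) < ((q + 1 : ℕ) : ℝ) := by positivity
  have hr : (1 : ℝ) ≤ ((p + 1 : ℕ) : ℝ) / ((q + 1 : ℕ) : ℝ) := by
    rw [le_div_iff₀ hq, one_mul]
    exact_mod_cast Nat.succ_le_succ hqp
  refine max_le ?_ ?_
  · refine Nat.le_floor ?_
    rcases Nat.eq_zero_or_pos n with h0 | h0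
    · subst h0
      simp only [Nat.cast_zero]
      exact Real.rpow_nonneg le_rfl _
    · have h1 : (1 : ℝ) ≤ (n : ℝ) := by exact_mod_cast h0
      calc (n : ℝ) = (n : ℝ) ^ (1 : ℝ) := (Real.rpow_one _).symm
        _ ≤ _ := Real.rpow_le_rpow_of_exponent_le h1 hr
  · refine Nat.le_floor ?_
    have h1 : ((rt q n : ℕ) : ℝ) ^ (q + 1) ≤ (n : ℝ) := by exact_mod_cast rt_le q n
    have h2 : (((rt q n : ℕ) : ℝ) ^ (q + 1)) ^ (((p + 1 : ℕ) : ℝ) / ((q + 1 : ℕ) : ℝ)) ≤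
        (n : ℝ) ^ (((p + 1 : ℕ) : ℝ) / ((q + 1 : ℕ) : ℝ)) :=
      Real.rpow_le_rpow (by positivity) h1 (by positivity)
    refine le_trans (le_of_eq ?_) h2
    rw [← Real.rpow_natCast (((rt q n : ℕ) : ℝ)) (q + 1), ← Real.rpow_mul (by positivity),
      mul_div_cancel₀ _ hq.ne', Real.rpow_natCast]
    push_cast
    rfl

theorem fl_le_gp {p q : ℕ} (n : ℕ) : fl p q n ≤ gp p q (2 ^ (q + 1) * n + 2 ^ (q + 1)) := by
  have hq : (0 : ℝ) < ((q + 1 : ℕ) : ℝ) := by positivity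
  have h1 : (n : ℝ) < (((rt q n : ℕ) : ℝ) + 1) ^ (q + 1) := by exact_mod_cast lt_rt q n
  have h2 : (n : ℝ) ^ (((p + 1 : ℕ) : ℝ) / ((q + 1 : ℕ) : ℝ)) ≤
      ((((rt q n : ℕ) : ℝ) + 1) ^ (q + 1)) ^ (((p + 1 : ℕ) : ℝ) / ((q + 1 : ℕ) : ℝ)) :=
    Real.rpow_le_rpow (by positivity) h1.le (by positivity)
  have h3 : ((((rt q n : ℕ) : ℝ) + 1) ^ (q + 1)) ^ (((p + 1 : ℕ) : ℝ) / ((q + 1 : ℕ) : ℝ)) =
      (((rt q n + 1) ^ (p + 1) : ℕ) : ℝ) := by
    rw [← Real.rpow_natCast (((rt q n : ℕ) : ℝ) + 1) (q + 1), ← Real.rpow_mul (by positivity),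
      mul_div_cancel₀ _ hq.ne', Real.rpow_natCast]
    push_cast
    rfl
  have h4 : fl p q n ≤ (rt q n + 1) ^ (p + 1) := by
    refine Nat.floor_le_of_le ?_
    rw [← h3]
    exact h2
  refine h4.trans ((Nat.pow_le_pow_left ?_ _).trans (le_max_right _ _))
  refine le_rt ?_
  have h5 := rt_le q n
  rcases Nat.eq_zero_or_pos (rt q n) with h0 | h0
  · rw [h0]
    have : 0 < 2 ^ (q + 1) := by positivity
    simp only [zero_add, one_pow]
    omega
  · calc (rt q n + 1) ^ (q + 1) ≤ (2 * rt q n) ^ (q + 1) := Nat.pow_le_pow_left (by omega) _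
      _ = 2 ^ (q + 1) * rt q n ^ (q + 1) := mul_pow _ _ _
      _ ≤ 2 ^ (q + 1) * n := Nat.mul_le_mul_left _ h5
      _ ≤ _ := Nat.le_add_right _ _

open Pool.Agent.helper12.FD in
theorem eqv_shift {d g f : ℕ → ℕ} (hd : Monotone d) (h : Eqv d g) (h1 : ∀ n, g n ≤ f n) (K : ℕ)
    (h2 : ∀ n, f n ≤ g (K * n + K)) : Eqv d f := by
  obtain ⟨⟨C, hC, hC1⟩, ⟨D, hD, hD1⟩⟩ := h
  refine ⟨⟨C, hC, fun n => ?_⟩, ⟨D * K + D, by nlinarith, fun n => ?_⟩⟩
  · have e1 := hC1 n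
    have e2 := Nat.mul_le_mul_left C (h1 (C * n + C))
    omega
  · have e1 := hD1 (K * n + K)
    have e2 : d (D * (K * n + K) + D) ≤ d ((D * K + D) * n + (D * K + D)) := by
      apply hd
      have : D * (K * n + K) + D = D * K * n + (D * K + D) := by ring
      rw [this]
      have : D * K * n ≤ (D * K + D) * n := Nat.mul_le_mul_right _ (by omega)
      omega
    have e3 : D * d (D * (K * n + K) + D) ≤ (D * K + D) * d ((D * K + D) * n + (D * K + D)) :=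
      Nat.mul_le_mul (by omega) e2
    have e4 : D * (K * n + K) + D ≤ (D * K + D) * n + (D * K + D) := by
      have : D * (K * n + K) + D = D * K * n + (D * K + D) := by ring
      rw [this]
      have : D * K * n ≤ (D * K + D) * n := Nat.mul_le_mul_right _ (by omega)
      omega
    have e5 := h2 n
    omega

end Pool.Agent.FBC
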