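import Pool.Agent.FBC.RevA

/-!
# FBC module RevC: minimisation is cleanly computable

`big_search`: one round of the loop goes from (`n = i`, `a = f i ≠ 0`) to (`n = i + 1`,
`a = f (i + 1)`): dec a, then inc a; U.inv (`a = 0`); inc n; U (`a = f (i + 1)`); dec n; then the
loop increments `n`. All states on the way are states of the runs of `U` or have a smaller mass.
`clean_mu`: registers `n = b`, `a = b + 1`, `t = b + 2`, scratch of `f` from `b + 3` on; `U` = the
program of `Clean f` for the inputs `Fin.cons n inp`, output `a`. Then `W = search n a U`,
`copy n out t`, `W.inv` (`big_inv` for the state in which `out` is already increased).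
-/

namespace Pool.Agent.FBC

theorem search_in {S : Set ℕ} {n a : ℕ} {U : Prog} (hn : n ∈ S) (ha : a ∈ S) (hU : U.In S) :
    (search n a U).In S :=
  ⟨hU, hn, ha, ha, in_inv hU, hn, hU, hn⟩

theorem big_search {R n a : ℕ} (hn : n < R) (ha : a < R) (hna : n ≠ a) {U : Prog} (x : ℕ → ℕ)
    (f : ℕ → ℕ) (s : ℕ) (hxn : x n = 0) (hxa : x a = 0) (m : ℕ)
    (hU : ∀ i ≤ m, Big (fun u => mass R u ≤ mass R x + s) U (Function.update x n i)
      (Function.update (Function.update x n i) a (f i)))
    (h0 : f m = 0) (h1 : ∀ i < m, f i ≠ 0) :
    Big (fun u => mass R u ≤ mass R x + s) (search n a U) x (Function.update x n m) := by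
  set I : (ℕ → ℕ) → Prop := fun u => mass R u ≤ mass R x + s with hI
  -- the states between the rounds
  set u : ℕ → (ℕ → ℕ) := fun i => Function.update (Function.update x n i) a (f i) with hu
  have hIu : ∀ i ≤ m, I (u i) := fun i hi => big_right (hU i hi)
  have hIn : ∀ i ≤ m, I (Function.update x n i) := fun i hi => big_left (hU i hi)
  have hx0 : Function.update x n 0 = x := by
    rw [← hxn]; exact Function.update_eq_self n x
  have hum : u m = Function.update x n m := by
    simp only [hu, h0]
    funext r
    by_cases hr : r = a
    · subst hr
      rw [Function.update_self, Function.update_of_ne (Ne.symm hna), hxa]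
    · rw [Function.update_of_ne hr]
  have hstart : Big I U x (u 0) := by
    have := hU 0 (Nat.zero_le m)
    rw [hx0] at this
    simp only [hu]
    rw [hx0]
    exact this
  refine ⟨u 0, hstart, big_right hstart, hIn m le_rfl, ?_, ?_, ?_⟩
  · simp only [hu]
    rw [Function.update_of_ne hna, Function.update_self]
  · rw [Function.update_of_ne (Ne.symm hna), hxa]
  · rw [← hum]
    -- one round
    have hstep : ∀ i < m, (fun p q => I p ∧ I q ∧ ∃ p' q', p = inc a p' ∧
        Big I (.seq (.inc a) (.seq U.inv (.seq (.inc n) (.seq U (.dec n))))) p' q' ∧
        q = inc n q') (u i) (u (i + 1)) := by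
      intro i hi
      have hfi := h1 i hi
      set p' : ℕ → ℕ := Function.update (Function.update x n i) a (f i - 1) with hp'
      set q' : ℕ → ℕ := Function.update (Function.update x n i) a (f (i + 1)) with hq'
      have e1 : u i = inc a p' := by
        simp only [inc, hp', Function.update_self, Function.update_idem, hu]
        congr 1
        omega
      have e2 : u (i + 1) = inc n q' := by
        have h3 : q' n = i := by
          simp only [hq']
          rw [Function.update_of_ne hna, Function.update_self]
        simp only [inc, h3]
        simp only [hq', hu]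
        funext r
        by_cases hr : r = a
        · subst hr
          rw [Function.update_self, Function.update_of_ne (Ne.symm hna), Function.update_self]
        · rw [Function.update_of_ne hr]
          by_cases hr2 : r = n
          · subst hr2
            rw [Function.update_self, Function.update_self]
          · rw [Function.update_of_ne hr2, Function.update_of_ne hr2, Function.update_of_ne hr,
              Function.update_of_ne hr2]
      have m1 : mass R (u i) = mass R p' + 1 := by rw [e1]; exact mass_inc ha p'
      have m2 : mass R (u (i + 1)) = mass R q' + 1 := by rw [e2]; exact mass_inc hn q'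
      have hIp : I p' := by
        have := hIu i hi.le
        simp only [hI] at this ⊢
        omega
      have hIq : I q' := by
        have := hIu (i + 1) hi
        simp only [hI] at this ⊢
        omega
      refine ⟨hIu i hi.le, hIu (i + 1) hi, p', q', e1, ?_, e2⟩
      refine ⟨u i, ⟨e1, hIp, hIu i hi.le⟩, Function.update x n i, ?_, Function.update x n (i + 1),
        ⟨?_, hIn i hi.le, hIn (i + 1) hi⟩, u (i + 1), hU (i + 1) hi, e2, hIu (i + 1) hi, hIq⟩
      · rw [big_inv]
        exact hU i hi.le
      · simp only [inc, Function.update_self, Function.update_idem]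
    have key : ∀ k ≤ m, Relation.ReflTransGen (fun p q => I p ∧ I q ∧ ∃ p' q', p = inc a p' ∧
        Big I (.seq (.inc a) (.seq U.inv (.seq (.inc n) (.seq U (.dec n))))) p' q' ∧
        q = inc n q') (u 0) (u k) := by
      intro k
      induction k with
      | zero => intro _; exact Relation.ReflTransGen.refl
      | succ k ih => intro hk; exact (ih (by omega)).tail (hstep k (by omega))
    exact key m le_rfl

/-- minimisation; `mu v` is the first zero of `n ↦ f (Fin.cons n v)` -/
theorem clean_mu {k : ℕ} {f σ : (Fin (k + 1) → ℕ) → ℕ} (hf : Clean f σ)
    (mu s : (Fin k → ℕ) → ℕ) (h0 : ∀ v, f (Fin.cons (mu v) v) = 0)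
    (h1 : ∀ v n, n < mu v → f (Fin.cons n v) ≠ 0)
    (hs : ∀ v n, n ≤ mu v → n + f (Fin.cons n v) + σ (Fin.cons n v) ≤ s v) :
    Clean mu (fun v => 4 * s v + 4) := by
  obtain ⟨m0, hf⟩ := hf
  refine ⟨m0 + 3, fun inp out b hinp hout hne => ?_⟩
  obtain ⟨U, hUin, hU⟩ := hf (Fin.cons b inp) (b + 1) (b + 3) (by
    intro i
    refine Fin.cases ?_ ?_ i
    · rw [Fin.cons_zero]; omega
    · intro j
      rw [Fin.cons_succ]
      have := hinp j
      omega) (by omega) (by
    intro i
    refine Fin.cases ?_ ?_ i
    · rw [Fin.cons_zero]; omega
    · intro j
      rw [Fin.cons_succ]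
      have := hinp j
      omega)
  set S : Set ℕ := {r | r = out ∨ (∃ i, r = inp i) ∨ (b ≤ r ∧ r < b + (m0 + 3))} with hS
  have hUS : U.In S := by
    refine in_mono ?_ hUin
    rintro r (hr | ⟨i, hr⟩ | ⟨hr1, hr2⟩)
    · right; right
      omega
    · revert hr
      refine Fin.cases ?_ ?_ i
      · intro hr
        rw [Fin.cons_zero] at hr
        right; right
        omega
      · intro j hr
        rw [Fin.cons_succ] at hr
        exact Or.inr (Or.inl ⟨j, hr⟩)
    · right; right
      omega
  have hbS : b ∈ S := by right; right; omega
  have hb1S : b + 1 ∈ S := by right; right; omega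
  have hb2S : b + 2 ∈ S := by right; right; omega
  have hoS : out ∈ S := Or.inl rfl
  have hW : (search b (b + 1) U).In S := search_in hbS hb1S hUS
  refine ⟨.seq (search b (b + 1) U) (.seq (copy b out (b + 2)) (search b (b + 1) U).inv),
    ⟨hW, copy_in hbS hoS hb2S, in_inv hW⟩, fun R x hR hx => ?_⟩
  -- the run of the search
  have hrun : ∀ (w : ℕ → ℕ) (v : Fin k → ℕ), (∀ i, w (inp i) = v i) →
      (∀ r, b ≤ r → r < b + (m0 + 3) → w r = 0) →
      Big (fun u => mass R u ≤ mass R w + s v) (search b (b + 1) U) w
        (Function.update w b (mu v)) := by
    intro w v hwv hw0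
    refine big_search (by omega) (by omega) (by omega) w (fun i => f (Fin.cons i v)) (s v)
      (hw0 b le_rfl (by omega)) (hw0 (b + 1) (by omega) (by omega)) (mu v) ?_ (h0 v) ?_
    · intro i hi
      have h2 := hU R (Function.update w b i) (by omega) (by
        intro r hr1 hr2
        rw [Function.update_of_ne (by omega)]
        exact hw0 r (by omega) (by omega))
      have e1 : (fun j => Function.update w b i ((Fin.cons b inp : Fin (k + 1) → ℕ) j))
          = (Fin.cons i v : Fin (k + 1) → ℕ) := by
        funext j
        refine Fin.cases ?_ ?_ j
        · rw [Fin.cons_zero, Fin.cons_zero, Function.update_self]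
        · intro j
          rw [Fin.cons_succ, Fin.cons_succ, Function.update_of_ne (by have := hinp j; omega)]
          exact hwv j
      have e2 : Function.update w b i (b + 1) = 0 := by
        rw [Function.update_of_ne (by omega)]
        exact hw0 (b + 1) (by omega) (by omega)
      rw [e1, e2, zero_add] at h2
      refine big_mono ?_ h2
      intro u hu
      have e3 := mass_update (R := R) (i := b) (by omega) w i
      rw [hw0 b le_rfl (by omega)] at e3
      have e4 := hs v i hi
      omega
    · intro i hi
      exact h1 v i hi
  set v : Fin k → ℕ := fun i => x (inp i) with hv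
  have hmu : mu v ≤ s v := by
    have := hs v (mu v) le_rfl
    omega
  set c := mu v with hc
  -- first part
  have r1 := hrun x v (fun i => rfl) hx
  -- second part
  have hx1n : Function.update x b c b = c := Function.update_self ..
  have hx1o : Function.update x b c out = x out := Function.update_of_ne (by omega) ..
  have r2 := big_copy (R := R) (i := b) (out := out) (t := b + 2) (by omega) (by omega) (by omega)
    (by omega) (by omega) (by omega) (Function.update x b c) (by
      rw [Function.update_of_ne (by omega)]
      exact hx (b + 2) (by omega) (by omega))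
  rw [hx1n, hx1o] at r2
  -- third part
  set x3 : ℕ → ℕ := Function.update x out (x out + c) with hx3
  have r3 := hrun x3 v (fun i => by
      rw [hx3, Function.update_of_ne (hne i)]) (fun r hr1 hr2 => by
      rw [hx3, Function.update_of_ne (by omega)]
      exact hx r hr1 hr2)
  have e5 : Function.update x3 b (mu v) = Function.update (Function.update x b c) out (x out + c) := by
    rw [hx3, ← hc]
    exact Function.update_comm (by omega) _ _ _
  rw [e5] at r3
  have m1 := mass_update (R := R) (i := b) (by omega) x c
  rw [hx b le_rfl (by omega)] at m1
  have m3 := mass_update (R := R) (i := out) (by omega) x (x out + c)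
  rw [← hx3] at m3
  refine ⟨Function.update x b c, big_mono ?_ r1,
    Function.update (Function.update x b c) out (x out + c), big_mono ?_ r2, ?_⟩
  · intro u hu
    change mass R u ≤ mass R x + (4 * s v + 4)
    omega
  · rintro u ⟨-, hu⟩
    change mass R u ≤ mass R x + (4 * s v + 4)
    omega
  · rw [big_inv]
    refine big_mono ?_ r3
    intro u hu
    change mass R u ≤ mass R x + (4 * s v + 4)
    omega

end Pool.Agent.FBC
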