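import Pool.Agent.FBC.RevA

/-!
# FBC module RevS: truncated differences are cleanly computable

Scratch `A, B, D, E, F, G, H = b, …, b + 6`, scratch of `f`, `g` from `b + 7` on.
`U`: `A += f`, then `B += g`.
`L = loop D B (seq (cond A F (inc G) skip) (cond G H (dec F) skip))`: one round with `A = 0`
(`cond A F`: `inc G`, `F = 0` holds; `cond G H`: dec G, skip, inc H) gives `H + 1`; one round with
`A ≠ 0` (dec A, skip, inc F; then `G = 0`: dec F, ends with `H = 0`) gives `A - 1` and needs
`H = 0`, true: `H ≠ 0` implies `A = 0`. After `L`: `A = f - g`, `B = 0`, `D = g`, `H = g - f`,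
`F = G = 0`. Then `copy A out E`, then `L.inv`, then `U.inv` (`big_inv`, for the state in which
`out` is already increased).
-/

namespace Pool.Agent.FBC

/-- the state `x` with the registers `b, b + 1, b + 2, b + 4, b + 5, b + 6` changed -/
def revS_s (x : ℕ → ℕ) (b a c d f g h : ℕ) : ℕ → ℕ := fun r =>
  if r = b then a else if r = b + 1 then c else if r = b + 2 then d else if r = b + 4 then f else
    if r = b + 5 then g else if r = b + 6 then h else x r

theorem revS_inc0 (x : ℕ → ℕ) (b a c d f g h : ℕ) :
    inc b (revS_s x b a c d f g h) = revS_s x b (a + 1) c d f g h := by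
  funext r
  by_cases h0 : r = b
  · subst h0; simp [inc, revS_s]
  · simp [inc, revS_s, h0]

theorem revS_inc1 (x : ℕ → ℕ) (b a c d f g h : ℕ) :
    inc (b + 1) (revS_s x b a c d f g h) = revS_s x b a (c + 1) d f g h := by
  funext r
  by_cases h0 : r = b + 1
  · subst h0; simp [inc, revS_s]
  · simp [inc, revS_s, h0]

theorem revS_inc2 (x : ℕ → ℕ) (b a c d f g h : ℕ) :
    inc (b + 2) (revS_s x b a c d f g h) = revS_s x b a c (d + 1) f g h := by
  funext r
  by_cases h0 : r = b + 2
  · subst h0; simp [inc, revS_s]
  · simp [inc, revS_s, h0]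

theorem revS_inc4 (x : ℕ → ℕ) (b a c d f g h : ℕ) :
    inc (b + 4) (revS_s x b a c d f g h) = revS_s x b a c d (f + 1) g h := by
  funext r
  by_cases h0 : r = b + 4
  · subst h0; simp [inc, revS_s]
  · simp [inc, revS_s, h0]

theorem revS_inc5 (x : ℕ → ℕ) (b a c d f g h : ℕ) :
    inc (b + 5) (revS_s x b a c d f g h) = revS_s x b a c d f (g + 1) h := by
  funext r
  by_cases h0 : r = b + 5
  · subst h0; simp [inc, revS_s]
  · simp [inc, revS_s, h0]

theorem revS_inc6 (x : ℕ → ℕ) (b a c d f g h : ℕ) :
    inc (b + 6) (revS_s x b a c d f g h) = revS_s x b a c d f g (h + 1) := by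
  funext r
  by_cases h0 : r = b + 6
  · subst h0; simp [inc, revS_s]
  · simp [inc, revS_s, h0]

theorem revS_mass {R b : ℕ} (hR : b + 7 ≤ R) (x : ℕ → ℕ)
    (hx : ∀ r, b ≤ r → r < b + 7 → x r = 0) (a c d f g h : ℕ) :
    mass R (revS_s x b a c d f g h) = mass R x + a + c + d + f + g + h := by
  have e : revS_s x b a c d f g h = Function.update (Function.update (Function.update
      (Function.update (Function.update (Function.update x b a) (b + 1) c) (b + 2) d) (b + 4) f)
      (b + 5) g) (b + 6) h := by
    funext r
    by_cases h6 : r = b + 6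
    · subst h6; simp [revS_s]
    by_cases h5 : r = b + 5
    · subst h5; simp [revS_s]
    by_cases h4 : r = b + 4
    · subst h4; simp [revS_s]
    by_cases h2 : r = b + 2
    · subst h2; simp [revS_s]
    by_cases h1 : r = b + 1
    · subst h1; simp [revS_s]
    by_cases h0 : r = b
    · subst h0; simp [revS_s]
    simp [revS_s, h6, h5, h4, h2, h1, h0]
  have e1 := mass_update (R := R) (i := b) (by omega) x a
  have e2 := mass_update (R := R) (i := b + 1) (by omega) (Function.update x b a) c
  have e3 := mass_update (R := R) (i := b + 2) (by omega)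
    (Function.update (Function.update x b a) (b + 1) c) d
  have e4 := mass_update (R := R) (i := b + 4) (by omega)
    (Function.update (Function.update (Function.update x b a) (b + 1) c) (b + 2) d) f
  have e5 := mass_update (R := R) (i := b + 5) (by omega)
    (Function.update (Function.update (Function.update (Function.update x b a) (b + 1) c)
      (b + 2) d) (b + 4) f) g
  have e6 := mass_update (R := R) (i := b + 6) (by omega)
    (Function.update (Function.update (Function.update (Function.update (Function.update x b a)
      (b + 1) c) (b + 2) d) (b + 4) f) (b + 5) g) h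
  rw [← e] at e6
  rw [hx b (by omega) (by omega)] at e1
  rw [Function.update_of_ne (by omega), hx (b + 1) (by omega) (by omega)] at e2
  rw [Function.update_of_ne (by omega), Function.update_of_ne (by omega),
    hx (b + 2) (by omega) (by omega)] at e3
  rw [Function.update_of_ne (by omega), Function.update_of_ne (by omega),
    Function.update_of_ne (by omega), hx (b + 4) (by omega) (by omega)] at e4
  rw [Function.update_of_ne (by omega), Function.update_of_ne (by omega),
    Function.update_of_ne (by omega), Function.update_of_ne (by omega),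
    hx (b + 5) (by omega) (by omega)] at e5
  rw [Function.update_of_ne (by omega), Function.update_of_ne (by omega),
    Function.update_of_ne (by omega), Function.update_of_ne (by omega),
    Function.update_of_ne (by omega), hx (b + 6) (by omega) (by omega)] at e6
  omega

/-- the body of the loop -/
def revS_B (b : ℕ) : Prog :=
  .seq (.cond b (b + 4) (.inc (b + 5)) .skip) (.cond (b + 5) (b + 6) (.dec (b + 4)) .skip)

theorem revS_body {I : (ℕ → ℕ) → Prop} (x : ℕ → ℕ) (b a c d h : ℕ) (hh : h ≠ 0 → a = 0)
    (hI : ∀ a' f' g' h', a' + f' + g' + h' ≤ a + h + 1 → I (revS_s x b a' c d f' g' h')) :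
    Big I (revS_B b) (revS_s x b a c d 0 0 h)
      (revS_s x b (a - 1) c d 0 0 (if a = 0 then h + 1 else h)) := by
  by_cases ha : a = 0
  · subst ha
    refine ⟨revS_s x b 0 c d 0 1 h, ?_, ?_⟩
    · refine ⟨hI _ _ _ _ (by omega), hI _ _ _ _ (by omega), Or.inl ⟨?_, ⟨?_, ?_, ?_⟩, ?_⟩⟩
      · simp [revS_s]
      · rw [revS_inc5]
      · exact hI _ _ _ _ (by omega)
      · exact hI _ _ _ _ (by omega)
      · simp [revS_s]
    · rw [if_pos rfl]
      refine ⟨hI _ _ _ _ (by omega), hI _ _ _ _ (by omega), Or.inr
        ⟨revS_s x b 0 c d 0 0 h, revS_s x b 0 c d 0 0 h, ?_, ⟨rfl, ?_⟩, ?_⟩⟩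
      · rw [revS_inc5]
      · exact hI _ _ _ _ (by omega)
      · rw [revS_inc6]
  · have hh0 : h = 0 := by
      by_contra h1
      exact ha (hh h1)
    subst hh0
    obtain ⟨a, rfl⟩ := Nat.exists_eq_succ_of_ne_zero ha
    rw [if_neg (Nat.succ_ne_zero a)]
    refine ⟨revS_s x b a c d 1 0 0, ?_, ?_⟩
    · refine ⟨hI _ _ _ _ (by omega), hI _ _ _ _ (by omega), Or.inr
        ⟨revS_s x b a c d 0 0 0, revS_s x b a c d 0 0 0, ?_, ⟨rfl, ?_⟩, ?_⟩⟩
      · rw [revS_inc0]
      · exact hI _ _ _ _ (by omega)
      · rw [revS_inc4]
    · refine ⟨hI _ _ _ _ (by omega), hI _ _ _ _ (by omega), Or.inl ⟨?_, ⟨?_, ?_, ?_⟩, ?_⟩⟩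
      · simp [revS_s]
      · rw [revS_inc4]
        rfl
      · exact hI _ _ _ _ (by omega)
      · exact hI _ _ _ _ (by omega)
      · simp [revS_s]

theorem revS_core {R b : ℕ} (hR : b + 7 ≤ R) (x : ℕ → ℕ)
    (hx : ∀ r, b ≤ r → r < b + 7 → x r = 0) (F G : ℕ) :
    Big (fun u => mass R u ≤ mass R x + F + 2 * G + 1) (.loop (b + 2) (b + 1) (revS_B b))
      (revS_s x b F G 0 0 0 0) (revS_s x b (F - G) 0 G 0 0 (G - F)) := by
  have hm := revS_mass hR x hx
  refine ⟨?_, ?_, ?_, ?_, ?_⟩
  · show mass R _ ≤ _
    rw [hm]; omega
  · show mass R _ ≤ _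
    rw [hm]; omega
  · simp [revS_s]
  · simp [revS_s]
  · have key : ∀ l, l ≤ G → Relation.ReflTransGen (fun u v =>
        (mass R u ≤ mass R x + F + 2 * G + 1) ∧ (mass R v ≤ mass R x + F + 2 * G + 1) ∧
        ∃ u' v', u = inc (b + 1) u' ∧
          Big (fun u => mass R u ≤ mass R x + F + 2 * G + 1) (revS_B b) u' v' ∧
          v = inc (b + 2) v') (revS_s x b F G 0 0 0 0)
        (revS_s x b (F - l) (G - l) l 0 0 (l - F)) := by
      intro l
      induction l with
      | zero =>
        intro _
        rw [Nat.zero_sub]
        exact Relation.ReflTransGen.refl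
      | succ l ih =>
        intro hl
        refine (ih (by omega)).tail ⟨?_, ?_, ?_⟩
        · rw [hm]; omega
        · rw [hm]; omega
        · refine ⟨revS_s x b (F - l) (G - (l + 1)) l 0 0 (l - F),
            revS_s x b (F - (l + 1)) (G - (l + 1)) l 0 0 (l + 1 - F), ?_, ?_, ?_⟩
          · rw [revS_inc1]
            congr 1
            omega
          · have hb := revS_body (I := fun u => mass R u ≤ mass R x + F + 2 * G + 1) x b (F - l)
              (G - (l + 1)) l (l - F) (by omega) (by
                intro a' f' g' h' h1
                show mass R _ ≤ _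
                rw [hm]
                omega)
            have e1 : F - l - 1 = F - (l + 1) := by omega
            have e2 : (if F - l = 0 then l - F + 1 else l - F) = l + 1 - F := by
              split_ifs with h0 <;> omega
            rw [e1, e2] at hb
            exact hb
          · rw [revS_inc2]
    have h := key G le_rfl
    rwa [Nat.sub_self] at h

theorem clean_sub {k : ℕ} {f g σ τ : (Fin k → ℕ) → ℕ} (hf : Clean f σ) (hg : Clean g τ) :
    Clean (fun v => f v - g v) (fun v => σ v + τ v + 4 * f v + 4 * g v + 4) := by
  obtain ⟨mf, hf⟩ := hf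
  obtain ⟨mg, hg⟩ := hg
  refine ⟨7 + (mf + mg), ?_⟩
  intro inp out b hinp hout hne
  obtain ⟨P, hP, hP'⟩ := hf inp b (b + 7) (fun i => (hinp i).trans (by omega)) (by omega)
    (fun i => (hinp i).ne)
  obtain ⟨Q, hQ, hQ'⟩ := hg inp (b + 1) (b + 7) (fun i => (hinp i).trans (by omega)) (by omega)
    (fun i => ((hinp i).trans (by omega)).ne)
  have hPU : P.In {r | r = out ∨ (∃ i, r = inp i) ∨ (b ≤ r ∧ r < b + (7 + (mf + mg)))} := by
    refine in_mono ?_ hP
    rintro r (h | h | h)
    · right; right; omega
    · right; left; exact h
    · right; right; omega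
  have hQU : Q.In {r | r = out ∨ (∃ i, r = inp i) ∨ (b ≤ r ∧ r < b + (7 + (mf + mg)))} := by
    refine in_mono ?_ hQ
    rintro r (h | h | h)
    · right; right; omega
    · right; left; exact h
    · right; right; omega
  have hr : ∀ j, j < 7 → b + j ∈
      {r | r = out ∨ (∃ i, r = inp i) ∨ (b ≤ r ∧ r < b + (7 + (mf + mg)))} := by
    intro j hj
    right; right; omega
  have hoU : out ∈ {r | r = out ∨ (∃ i, r = inp i) ∨ (b ≤ r ∧ r < b + (7 + (mf + mg)))} := by
    left; rfl
  have hLU : (Prog.loop (b + 2) (b + 1) (revS_B b)).In
      {r | r = out ∨ (∃ i, r = inp i) ∨ (b ≤ r ∧ r < b + (7 + (mf + mg)))} :=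
    ⟨hr 2 (by norm_num), hr 1 (by norm_num),
      ⟨hr 0 (by norm_num), hr 4 (by norm_num), hr 5 (by norm_num), trivial⟩,
      ⟨hr 5 (by norm_num), hr 6 (by norm_num), hr 4 (by norm_num), trivial⟩⟩
  refine ⟨.seq P (.seq Q (.seq (.loop (b + 2) (b + 1) (revS_B b))
    (.seq (copy b out (b + 3)) (.seq (Prog.loop (b + 2) (b + 1) (revS_B b)).inv
      (.seq Q.inv P.inv))))), ?_, ?_⟩
  · exact ⟨hPU, hQU, hLU, copy_in (hr 0 (by norm_num)) hoU (hr 3 (by norm_num)), in_inv hLU,
      in_inv hQU, in_inv hPU⟩
  intro R x hR hx
  set F := f (fun i => x (inp i)) with hF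
  set G := g (fun i => x (inp i)) with hG
  -- the base states
  have hbase : ∀ o r, b ≤ r → r < b + (7 + (mf + mg)) → Function.update x out o r = 0 := by
    intro o r h1 h2
    rw [Function.update_of_ne (by omega)]
    exact hx r h1 h2
  have hbase7 : ∀ o r, b ≤ r → r < b + 7 → Function.update x out o r = 0 :=
    fun o r h1 h2 => hbase o r h1 (by omega)
  have hinpo1 : ∀ (o : ℕ), (fun i => Function.update x out o (inp i)) = fun i => x (inp i) := by
    intro o
    funext i
    rw [Function.update_of_ne (hne i)]
  have hinpo2 : ∀ (o a : ℕ), (fun i => Function.update (Function.update x out o)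
      b a (inp i)) = fun i => x (inp i) := by
    intro o a
    funext i
    rw [Function.update_of_ne (by have := hinp i; omega), Function.update_of_ne (hne i)]
  have hm1 : ∀ o, mass R (Function.update x out o) + x out = mass R x + o :=
    fun o => mass_update (by omega) x o
  have hm2 : ∀ o a, mass R (Function.update (Function.update x out o) b a) + x out =
      mass R x + o + a := by
    intro o a
    have h1 := hm1 o
    have h2 := mass_update (R := R) (i := b) (by omega) (Function.update x out o) a
    rw [hbase o b le_rfl (by omega)] at h2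
    omega
  -- the state after P and Q
  have hS : ∀ o, Function.update (Function.update (Function.update x out o) b F) (b + 1) G =
      revS_s (Function.update x out o) b F G 0 0 0 0 := by
    intro o
    funext r
    by_cases h0 : r = b
    · subst h0; simp [revS_s]
    by_cases h1 : r = b + 1
    · subst h1; simp [revS_s]
    have h3 : (if r = b + 2 then 0 else if r = b + 4 then 0 else if r = b + 5 then 0 else
        if r = b + 6 then 0 else Function.update x out o r) = Function.update x out o r := by
      split_ifs with h2 h4 h5 h6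
      · exact (hbase o r (by omega) (by omega)).symm
      · exact (hbase o r (by omega) (by omega)).symm
      · exact (hbase o r (by omega) (by omega)).symm
      · exact (hbase o r (by omega) (by omega)).symm
      · rfl
    rw [revS_s, if_neg h0, if_neg h1, h3, Function.update_of_ne h1, Function.update_of_ne h0]
  -- the runs of P and Q from the state with out register equal to o
  have runP : ∀ o, Big (fun u => mass R u + x out ≤ mass R x + o + σ (fun i => x (inp i))) P
      (Function.update x out o) (Function.update (Function.update x out o) b F) := by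
    intro o
    have h := hP' R (Function.update x out o) (by omega) (by
      intro r h1 h2
      exact hbase o r (by omega) (by omega))
    rw [hinpo1 o, hbase o b le_rfl (by omega), zero_add] at h
    refine big_mono ?_ h
    intro u hu
    have := hm1 o
    omega
  have runQ : ∀ o, Big (fun u => mass R u + x out ≤ mass R x + o + F + τ (fun i => x (inp i))) Q
      (Function.update (Function.update x out o) b F)
      (revS_s (Function.update x out o) b F G 0 0 0 0) := by
    intro o
    have h := hQ' R (Function.update (Function.update x out o) b F) (by omega) (by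
      intro r h1 h2
      rw [Function.update_of_ne (by omega)]
      exact hbase o r (by omega) (by omega))
    rw [hinpo2 o F, Function.update_of_ne (show b + 1 ≠ b by omega),
      hbase o (b + 1) (by omega) (by omega), zero_add, hS o] at h
    refine big_mono ?_ h
    intro u hu
    have := hm2 o F
    omega
  have runL : ∀ o, Big (fun u => mass R u + x out ≤ mass R x + o + F + 2 * G + 1)
      (.loop (b + 2) (b + 1) (revS_B b)) (revS_s (Function.update x out o) b F G 0 0 0 0)
      (revS_s (Function.update x out o) b (F - G) 0 G 0 0 (G - F)) := by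
    intro o
    have h := revS_core (R := R) (b := b) (by omega) (Function.update x out o) (hbase7 o) F G
    refine big_mono ?_ h
    intro u hu
    have := hm1 o
    omega
  -- the copy
  have e3 : revS_s (Function.update x out (x out)) b (F - G) 0 G 0 0 (G - F) (b + 3) = 0 := by
    have : Function.update x out (x out) (b + 3) = 0 := hbase _ _ (by omega) (by omega)
    simp [revS_s] at this ⊢
    exact this
  have hc := big_copy (R := R) (i := b) (out := out) (t := b + 3) (by omega) (by omega) (by omega)
    (by omega) (by omega) (by omega) _ e3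
  have e0 : revS_s (Function.update x out (x out)) b (F - G) 0 G 0 0 (G - F) b = F - G := by
    simp [revS_s]
  have eo : revS_s (Function.update x out (x out)) b (F - G) 0 G 0 0 (G - F) out = x out := by
    simp [revS_s, show out ≠ b by omega, show out ≠ b + 1 by omega, show out ≠ b + 2 by omega,
      show out ≠ b + 4 by omega, show out ≠ b + 5 by omega, show out ≠ b + 6 by omega]
  have eu : Function.update (revS_s (Function.update x out (x out)) b (F - G) 0 G 0 0 (G - F)) out
      (x out + (F - G)) =
      revS_s (Function.update x out (x out + (F - G))) b (F - G) 0 G 0 0 (G - F) := by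
    funext r
    by_cases h0 : r = out
    · subst h0
      simp [revS_s, show r ≠ b by omega, show r ≠ b + 1 by omega, show r ≠ b + 2 by omega,
        show r ≠ b + 4 by omega, show r ≠ b + 5 by omega, show r ≠ b + 6 by omega]
    · simp [revS_s, h0]
  have hmc := revS_mass (R := R) (b := b) (by omega) (Function.update x out (x out)) (hbase7 _)
    (F - G) 0 G 0 0 (G - F)
  rw [e0, eo, eu, hmc] at hc
  have hm0 := hm1 (x out)
  have hx0 : Function.update x out (x out) = x := Function.update_eq_self _ _
  have runP0 := runP (x out)
  rw [hx0] at runP0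
  have runQ0 := runQ (x out)
  rw [hx0] at runQ0
  have runL0 := runL (x out)
  rw [hx0] at runL0 hc hm0
  refine ⟨_, big_mono ?_ runP0, _, big_mono ?_ runQ0, _, big_mono ?_ runL0, _, big_mono ?_ hc, _,
    big_mono ?_ (big_inv.2 (runL (x out + (F - G)))), _,
    big_mono ?_ (big_inv.2 (runQ (x out + (F - G)))),
    big_mono ?_ (big_inv.2 (runP (x out + (F - G))))⟩
  all_goals
    intro u hu
    dsimp only at hu ⊢
    rw [← hF, ← hG]
    omega

end Pool.Agent.FBC
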