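import Pool.Agent.FBC.RevM
import Pool.Agent.FBC.RevS
import Pool.Agent.FBC.RevC

/-!
# FBC module RudC: rudimentary relations are decided in linear space

`LC B f`: `f` is cleanly computable in space `C * (B v + 1)` and `f v ≤ C * (B v + 1)`.
-/

namespace Pool.Agent.FBC

open Classical in
/-- `0` if `Q v`, `1` otherwise -/
noncomputable def ind01 {k : ℕ} (Q : (Fin k → ℕ) → Prop) (v : Fin k → ℕ) : ℕ :=
  if Q v then 0 else 1

theorem clean_reindex {k l : ℕ} {f σ : (Fin k → ℕ) → ℕ} (hf : Clean f σ) (ρ : Fin k → Fin l) :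
    Clean (fun v : Fin l → ℕ => f (fun i => v (ρ i))) (fun v => σ (fun i => v (ρ i))) := by
  obtain ⟨m, hm⟩ := hf
  refine ⟨m, fun inp out b h1 h2 h3 => ?_⟩
  obtain ⟨P, hP, hB⟩ := hm (fun i => inp (ρ i)) out b (fun i => h1 _) h2 (fun i => h3 _)
  refine ⟨P, in_mono ?_ hP, hB⟩
  rintro r (h | ⟨i, h⟩ | h)
  · exact Or.inl h
  · exact Or.inr (Or.inl ⟨ρ i, h⟩)
  · exact Or.inr (Or.inr h)

/-- clean in space linear in `B`, and bounded by a linear function of `B` -/
private def LC {k : ℕ} (B : (Fin k → ℕ) → ℕ) (f : (Fin k → ℕ) → ℕ) : Prop :=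
  ∃ C : ℕ, Clean f (fun v => C * (B v + 1)) ∧ ∀ v, f v ≤ C * (B v + 1)

private theorem lc_mk {k : ℕ} {B f σ : (Fin k → ℕ) → ℕ} (hf : Clean f σ) (C : ℕ)
    (h1 : ∀ v, σ v ≤ C * (B v + 1)) (h2 : ∀ v, f v ≤ C * (B v + 1)) : LC B f :=
  ⟨C, clean_mono hf h1, h2⟩

private theorem lc_proj {k : ℕ} {B : (Fin k → ℕ) → ℕ} (i : Fin k) (h : ∀ v, v i ≤ B v) :
    LC B (fun v => v i) :=
  lc_mk (clean_proj i) 1 (fun v => by have := h v; omega) (fun v => by have := h v; omega)

private theorem lc_const {k : ℕ} {B : (Fin k → ℕ) → ℕ} (n : ℕ) : LC B (fun _ => n) :=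
  lc_mk (clean_const n) n (fun _ => Nat.le_mul_of_pos_right n (Nat.succ_pos _))
    (fun _ => Nat.le_mul_of_pos_right n (Nat.succ_pos _))

private theorem lc_add {k : ℕ} {B f g : (Fin k → ℕ) → ℕ} (hf : LC B f) (hg : LC B g) :
    LC B (fun v => f v + g v) := by
  obtain ⟨C, h1, h2⟩ := hf
  obtain ⟨D, h3, h4⟩ := hg
  refine lc_mk (clean_add h1 h3) (2 * C + 2 * D) (fun v => ?_) (fun v => ?_)
  · have e : (2 * C + 2 * D) * (B v + 1) = 2 * (C * (B v + 1)) + 2 * (D * (B v + 1)) := by ring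
    have := h2 v
    have := h4 v
    omega
  · have e : (2 * C + 2 * D) * (B v + 1) = 2 * (C * (B v + 1)) + 2 * (D * (B v + 1)) := by ring
    have := h2 v
    have := h4 v
    omega

private theorem lc_sub {k : ℕ} {B f g : (Fin k → ℕ) → ℕ} (hf : LC B f) (hg : LC B g) :
    LC B (fun v => f v - g v) := by
  obtain ⟨C, h1, h2⟩ := hf
  obtain ⟨D, h3, h4⟩ := hg
  refine lc_mk (clean_sub h1 h3) (5 * C + 5 * D + 4) (fun v => ?_) (fun v => ?_)
  · have e : (5 * C + 5 * D + 4) * (B v + 1) =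
      5 * (C * (B v + 1)) + 5 * (D * (B v + 1)) + 4 * B v + 4 := by ring
    have := h2 v
    have := h4 v
    omega
  · have e : (5 * C + 5 * D + 4) * (B v + 1) =
      5 * (C * (B v + 1)) + 5 * (D * (B v + 1)) + 4 * B v + 4 := by ring
    have := h2 v
    have := h4 v
    omega

private theorem lc_mul {k : ℕ} {B f g : (Fin k → ℕ) → ℕ} (hf : LC B f) (hg : LC B g) (E : ℕ)
    (hE : ∀ v, f v * g v ≤ E * (B v + 1)) : LC B (fun v => f v * g v) := by
  obtain ⟨C, h1, h2⟩ := hf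
  obtain ⟨D, h3, h4⟩ := hg
  refine lc_mk (clean_mul h1 h3) (3 * C + 3 * D + E + 2) (fun v => ?_) (fun v => ?_)
  · have e : (3 * C + 3 * D + E + 2) * (B v + 1) =
      3 * (C * (B v + 1)) + 3 * (D * (B v + 1)) + E * (B v + 1) + 2 * B v + 2 := by ring
    have := h2 v
    have := h4 v
    have := hE v
    omega
  · have e : (3 * C + 3 * D + E + 2) * (B v + 1) =
      3 * (C * (B v + 1)) + 3 * (D * (B v + 1)) + E * (B v + 1) + 2 * B v + 2 := by ring
    have := hE v
    omega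

private theorem lc_congr {k : ℕ} {B f g : (Fin k → ℕ) → ℕ} (hf : LC B f) (h : ∀ v, g v = f v) :
    LC B g := by
  have : g = f := funext h
  rwa [this]

private theorem lc_reindex {k l : ℕ} {B f : (Fin k → ℕ) → ℕ} (hf : LC B f) (ρ : Fin k → Fin l)
    {B' : (Fin l → ℕ) → ℕ} (E : ℕ) (h : ∀ v : Fin l → ℕ, B (fun i => v (ρ i)) ≤ E * (B' v + 1)) :
    LC B' (fun v => f (fun i => v (ρ i))) := by
  obtain ⟨C, h1, h2⟩ := hf
  have key : ∀ v : Fin l → ℕ, C * (B (fun i => v (ρ i)) + 1) ≤ C * (E + 1) * (B' v + 1) := by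
    intro v
    have h3 : B (fun i => v (ρ i)) + 1 ≤ (E + 1) * (B' v + 1) := by
      have e : (E + 1) * (B' v + 1) = E * (B' v + 1) + B' v + 1 := by ring
      have := h v
      omega
    calc C * (B (fun i => v (ρ i)) + 1) ≤ C * ((E + 1) * (B' v + 1)) := Nat.mul_le_mul_left _ h3
      _ = C * (E + 1) * (B' v + 1) := by ring
  exact lc_mk (clean_reindex h1 ρ) (C * (E + 1)) key (fun v => (h2 _).trans (key v))

private theorem lc_mu {k : ℕ} {B f : (Fin (k + 1) → ℕ) → ℕ} (hf : LC B f)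
    {B' : (Fin k → ℕ) → ℕ} (mu : (Fin k → ℕ) → ℕ) (h0 : ∀ v, f (Fin.cons (mu v) v) = 0)
    (h1 : ∀ v n, n < mu v → f (Fin.cons n v) ≠ 0) (E : ℕ)
    (hs : ∀ v n, n ≤ mu v → n + B (Fin.cons n v) ≤ E * (B' v + 1)) : LC B' mu := by
  obtain ⟨C, hc, hb⟩ := hf
  have key : ∀ v n, n ≤ mu v → n + f (Fin.cons n v) + C * (B (Fin.cons n v) + 1) ≤
      (E + 2 * C * (E + 1)) * (B' v + 1) := by
    intro v n hn
    have a1 := hs v n hn
    have a2 := hb (Fin.cons n v)
    have a3 : C * (B (Fin.cons n v) + 1) ≤ C * ((E + 1) * (B' v + 1)) := by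
      apply Nat.mul_le_mul_left
      have e : (E + 1) * (B' v + 1) = E * (B' v + 1) + B' v + 1 := by ring
      omega
    have e : (E + 2 * C * (E + 1)) * (B' v + 1) =
      E * (B' v + 1) + 2 * (C * ((E + 1) * (B' v + 1))) := by ring
    omega
  have hm := clean_mu hc mu (fun v => (E + 2 * C * (E + 1)) * (B' v + 1)) h0 h1 key
  refine lc_mk hm (4 * (E + 2 * C * (E + 1)) + 4) (fun v => ?_) (fun v => ?_)
  · have e : (4 * (E + 2 * C * (E + 1)) + 4) * (B' v + 1) =
      4 * ((E + 2 * C * (E + 1)) * (B' v + 1)) + 4 * B' v + 4 := by ring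
    omega
  · have e : (4 * (E + 2 * C * (E + 1)) + 4) * (B' v + 1) =
      4 * ((E + 2 * C * (E + 1)) * (B' v + 1)) + 4 * B' v + 4 := by ring
    have := key v (mu v) le_rfl
    omega

/-- the sum of the arguments -/
private def S {k : ℕ} (v : Fin k → ℕ) : ℕ := ∑ i, v i

private theorem le_S {k : ℕ} (v : Fin k → ℕ) (i : Fin k) : v i ≤ S v :=
  Finset.single_le_sum (f := v) (fun _ _ => Nat.zero_le _) (Finset.mem_univ i)

private theorem S_cons {k : ℕ} (n : ℕ) (v : Fin k → ℕ) :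
    S (Fin.cons n v : Fin (k + 1) → ℕ) = n + S v := by
  simp [S, Fin.sum_univ_succ]

private theorem lc_eq {k : ℕ} {B f g : (Fin k → ℕ) → ℕ} (hf : LC B f) (hg : LC B g) :
    LC B (ind01 (fun v => f v = g v)) := by
  refine lc_congr (lc_sub (lc_const 1) (lc_sub (lc_const 1)
    (lc_add (lc_sub hf hg) (lc_sub hg hf)))) (fun v => ?_)
  simp only [ind01]
  split_ifs <;> omega

private theorem lc_not {k : ℕ} {B : (Fin k → ℕ) → ℕ} {Q : (Fin k → ℕ) → Prop}
    (h : LC B (ind01 Q)) : LC B (ind01 (fun v => ¬ Q v)) := by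
  refine lc_congr (lc_sub (lc_const 1) h) (fun v => ?_)
  simp only [ind01]
  split_ifs <;> simp_all

private theorem lc_and {k : ℕ} {B : (Fin k → ℕ) → ℕ} {Q Q' : (Fin k → ℕ) → Prop}
    (h : LC B (ind01 Q)) (h' : LC B (ind01 Q')) : LC B (ind01 (fun v => Q v ∧ Q' v)) := by
  refine lc_congr (lc_sub (lc_const 1) (lc_sub (lc_const 1) (lc_add h h'))) (fun v => ?_)
  simp only [ind01]
  split_ifs <;> simp_all

/-- bounded search -/
private theorem search_ex {k : ℕ} (Q : (Fin (k + 1) → ℕ) → Prop) (i : Fin k) (v : Fin k → ℕ) :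
    ∃ n : ℕ, ind01 Q (Fin.cons n v) * ((Fin.cons n v : Fin (k + 1) → ℕ) i.succ + 1 -
      (Fin.cons n v : Fin (k + 1) → ℕ) 0) = 0 :=
  ⟨v i + 1, by simp⟩

/-- least `n ≤ v i` with `Q (n, v)`, or `v i + 1` -/
private noncomputable def sr {k : ℕ} (Q : (Fin (k + 1) → ℕ) → Prop) (i : Fin k)
    (v : Fin k → ℕ) : ℕ := Nat.find (search_ex Q i v)

private theorem sr_spec {k : ℕ} (Q : (Fin (k + 1) → ℕ) → Prop) (i : Fin k) (v : Fin k → ℕ) :
    ind01 Q (Fin.cons (sr Q i v) v) * ((Fin.cons (sr Q i v) v : Fin (k + 1) → ℕ) i.succ + 1 -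
      (Fin.cons (sr Q i v) v : Fin (k + 1) → ℕ) 0) = 0 :=
  Nat.find_spec (search_ex Q i v)

private theorem sr_lt {k : ℕ} (Q : (Fin (k + 1) → ℕ) → Prop) (i : Fin k) (v : Fin k → ℕ) (n : ℕ)
    (hn : n < sr Q i v) :
    ind01 Q (Fin.cons n v) * ((Fin.cons n v : Fin (k + 1) → ℕ) i.succ + 1 -
      (Fin.cons n v : Fin (k + 1) → ℕ) 0) ≠ 0 :=
  Nat.find_min (search_ex Q i v) hn

private theorem search_le {k : ℕ} (Q : (Fin (k + 1) → ℕ) → Prop) (i : Fin k) (v : Fin k → ℕ) :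
    sr Q i v ≤ v i + 1 :=
  Nat.find_min' (search_ex Q i v) (by simp)

private theorem search_spec {k : ℕ} (Q : (Fin (k + 1) → ℕ) → Prop) (i : Fin k) (v : Fin k → ℕ)
    (h : sr Q i v ≤ v i) : Q (Fin.cons (sr Q i v) v) := by
  have h1 := sr_spec Q i v
  rcases Nat.mul_eq_zero.1 h1 with h2 | h2
  · by_contra h3
    simp only [ind01] at h2
    rw [if_neg h3] at h2
    omega
  · rw [Fin.cons_succ, Fin.cons_zero] at h2
    omega

private theorem search_min {k : ℕ} (Q : (Fin (k + 1) → ℕ) → Prop) (i : Fin k) (v : Fin k → ℕ)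
    (n : ℕ) (h : Q (Fin.cons n v)) : sr Q i v ≤ n :=
  Nat.find_min' (search_ex Q i v) (by simp [ind01, h])

private theorem lc_search {k : ℕ} {Q : (Fin (k + 1) → ℕ) → Prop} (i : Fin k)
    (h : LC S (ind01 Q)) : LC S (sr Q i) := by
  have h1 : LC (S (k := k + 1)) (fun w => ind01 Q w * (w i.succ + 1 - w 0)) := by
    refine lc_mul h (lc_sub (lc_add (lc_proj i.succ (fun w => le_S w _)) (lc_const 1))
      (lc_proj 0 (fun w => le_S w _))) 1 (fun w => ?_)
    have h2 := le_S w i.succ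
    have h3 : ind01 Q w ≤ 1 := by
      simp only [ind01]
      split_ifs <;> omega
    calc ind01 Q w * (w i.succ + 1 - w 0) ≤ 1 * (w i.succ + 1 - w 0) := Nat.mul_le_mul_right _ h3
      _ ≤ 1 * (S w + 1) := by omega
  refine lc_mu h1 _ (fun v => sr_spec Q i v) (fun v n hn => sr_lt Q i v n hn) 4
    (fun v n hn => ?_)
  have h2 := search_le Q i v
  have h3 := le_S v i
  rw [S_cons]
  omega

private theorem lc_bex {k : ℕ} {Q : (Fin (k + 1) → ℕ) → Prop} (i : Fin k)
    (h : LC S (ind01 Q)) :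
    LC S (ind01 (fun v : Fin k → ℕ => ∃ n, n ≤ v i ∧ Q (Fin.cons n v))) := by
  refine lc_congr (lc_sub (lc_search i h) (lc_proj i (fun v => le_S v i))) (fun v => ?_)
  have h1 := search_le Q i v
  by_cases h2 : ∃ n, n ≤ v i ∧ Q (Fin.cons n v)
  · obtain ⟨n, h3, h4⟩ := h2
    have h5 := search_min Q i v n h4
    have h6 : ∃ n, n ≤ v i ∧ Q (Fin.cons n v) := ⟨n, h3, h4⟩
    simp only [ind01]
    rw [if_pos h6]
    omega
  · have h3 : ¬ sr Q i v ≤ v i := fun h4 => h2 ⟨_, h4, search_spec Q i v h4⟩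
    simp only [ind01]
    rw [if_neg h2]
    omega

/-! ### products -/

private theorem div_ex (y z : ℕ) : ∃ n : ℕ, z - n * (y + (1 - y)) = 0 :=
  ⟨z, by
    have h : 1 ≤ y + (1 - y) := by omega
    have := Nat.mul_le_mul_left z h
    omega⟩

/-- `⌈z / max y 1⌉` -/
private noncomputable def dv (y z : ℕ) : ℕ := Nat.find (div_ex y z)

private theorem div_le (y z : ℕ) : dv y z * (y + (1 - y)) ≤ z + (y + (1 - y)) := by
  rcases Nat.eq_zero_or_pos (dv y z) with h | h
  · rw [h]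
    omega
  · have h1 : ¬ (z - (dv y z - 1) * (y + (1 - y)) = 0) :=
      Nat.find_min (div_ex y z) (Nat.sub_lt h Nat.one_pos)
    have e : dv y z * (y + (1 - y)) = (dv y z - 1) * (y + (1 - y)) + (y + (1 - y)) := by
      conv_lhs => rw [← Nat.sub_add_cancel h]
      ring
    omega

private theorem div_eq {x y z : ℕ} (hy : y ≠ 0) :
    x * y = z ↔ x = dv y z ∧ dv y z * y = z := by
  constructor
  · intro h
    have e : y + (1 - y) = y := by omega
    have h1 : dv y z = x := by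
      rw [dv, Nat.find_eq_iff]
      constructor
      · rw [e, h]
        omega
      · intro n hn
        rw [e]
        have h2 : (n + 1) * y ≤ x * y := Nat.mul_le_mul_right y hn
        have h3 : (n + 1) * y = n * y + y := by ring
        omega
    rw [h1]
    exact ⟨rfl, h⟩
  · rintro ⟨h1, h2⟩
    rw [h1]
    exact h2

private theorem lc_div {k : ℕ} (j l : Fin k) :
    LC S (fun v : Fin k → ℕ => dv (v j) (v l)) := by
  have h1 : LC (fun w : Fin (k + 1) → ℕ => S w + w 0 * (w j.succ + (1 - w j.succ)))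
      (fun w => w l.succ - w 0 * (w j.succ + (1 - w j.succ))) := by
    have p : ∀ i : Fin (k + 1), LC (fun w : Fin (k + 1) → ℕ =>
        S w + w 0 * (w j.succ + (1 - w j.succ))) (fun w => w i) :=
      fun i => lc_proj i (fun w => (le_S w i).trans (Nat.le_add_right _ _))
    refine lc_sub (p _) (lc_mul (p _) (lc_add (p _) (lc_sub (lc_const 1) (p _))) 1
      (fun w => ?_))
    omega
  refine lc_mu h1 _ (fun v => ?_) (fun v n hn => ?_) 8 (fun v n hn => ?_)
  · exact Nat.find_spec (div_ex (v j) (v l))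
  · exact Nat.find_min (div_ex (v j) (v l)) hn
  · have h2 := div_le (v j) (v l)
    have h3 := le_S v j
    have h4 := le_S v l
    have h5 : n * (v j + (1 - v j)) ≤ dv (v j) (v l) * (v j + (1 - v j)) :=
      Nat.mul_le_mul_right _ hn
    have h6 : n ≤ n * (v j + (1 - v j)) := Nat.le_mul_of_pos_right n (by omega)
    have h7 : (Fin.cons n v : Fin (k + 1) → ℕ) 0 = n := rfl
    have h8 : (Fin.cons n v : Fin (k + 1) → ℕ) j.succ = v j := rfl
    show n + (S (Fin.cons n v : Fin (k + 1) → ℕ) + (Fin.cons n v : Fin (k + 1) → ℕ) 0 *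
      ((Fin.cons n v : Fin (k + 1) → ℕ) j.succ + (1 - (Fin.cons n v : Fin (k + 1) → ℕ) j.succ))) ≤ _
    rw [S_cons, h7, h8]
    omega

private theorem lc_prod {k : ℕ} (i j l : Fin k) :
    LC S (ind01 (fun v : Fin k → ℕ => v i * v j = v l)) := by
  have p : ∀ i : Fin k, LC S (fun v : Fin k → ℕ => v i) := fun i => lc_proj i (fun v => le_S v i)
  have q := lc_div j l
  have qy : LC S (fun v : Fin k → ℕ => dv (v j) (v l) * v j) := by
    refine lc_mul q (p j) 3 (fun v => ?_)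
    have h2 := div_le (v j) (v l)
    have h3 := le_S v j
    have h4 := le_S v l
    have h5 : dv (v j) (v l) * v j ≤
      dv (v j) (v l) * (v j + (1 - v j)) :=
      Nat.mul_le_mul_left _ (Nat.le_add_right _ _)
    omega
  have hA := lc_and (lc_eq (p i) q) (lc_eq qy (p l))
  have hB := lc_eq (p l) (lc_const (B := S (k := k)) 0)
  have ht : LC S (fun v : Fin k → ℕ => 1 - v j) := lc_sub (lc_const 1) (p j)
  refine lc_congr (lc_add (lc_sub hB (lc_sub (lc_const 1) ht)) (lc_sub hA ht)) (fun v => ?_)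
  have le1 : ∀ Q : (Fin k → ℕ) → Prop, ind01 Q v ≤ 1 := by
    intro Q
    simp only [ind01]
    split_ifs <;> omega
  have hA1 := le1 (fun v : Fin k → ℕ => v i = dv (v j) (v l) ∧
    dv (v j) (v l) * v j = v l)
  have hB1 := le1 (fun v : Fin k → ℕ => v l = 0)
  by_cases hy : v j = 0
  · have e : ind01 (fun v : Fin k → ℕ => v i * v j = v l) v =
        ind01 (fun v : Fin k → ℕ => v l = 0) v := by
      by_cases hz : v l = 0
      · simp [ind01, hy, hz]
      · have hz' : ¬ (0 = v l) := fun h => hz h.symm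
        simp [ind01, hy, hz, hz']
    rw [e]
    omega
  · have e : ind01 (fun v : Fin k → ℕ => v i * v j = v l) v =
        ind01 (fun v : Fin k → ℕ => v i = dv (v j) (v l) ∧
          dv (v j) (v l) * v j = v l) v := by
      have e' := div_eq (x := v i) (z := v l) hy
      by_cases hz : v i * v j = v l
      · simp only [ind01]
        rw [if_pos hz, if_pos (e'.1 hz)]
      · simp only [ind01]
        rw [if_neg hz, if_neg (fun h => hz (e'.2 h))]
    rw [e]
    omega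

private theorem rud_lc {k : ℕ} {Q : (Fin k → ℕ) → Prop} (hQ : Rud Q) : LC S (ind01 Q) := by
  induction hQ with
  | add i j l =>
    exact lc_eq (lc_add (lc_proj i (fun v => le_S v i)) (lc_proj j (fun v => le_S v j)))
      (lc_proj l (fun v => le_S v l))
  | mul i j l => exact lc_prod i j l
  | not _ ih => exact lc_not ih
  | and _ _ ih ih' => exact lc_and ih ih'
  | bex i _ ih => exact lc_bex i ih

theorem rud_clean {k : ℕ} {Q : (Fin k → ℕ) → Prop} (hQ : Rud Q) :
    ∃ C : ℕ, Clean (ind01 Q) (fun v => C * (∑ i, v i + 1)) := by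
  obtain ⟨C, h, -⟩ := rud_lc hQ
  exact ⟨C, h⟩

/-- the least `n ≤ N` with `R n N`, and `N + 1` if there is none -/
theorem rud_nu {R : ℕ → ℕ → Prop} (hR : Rud (fun v : Fin 2 → ℕ => R (v 0) (v 1))) :
    ∃ (nu : ℕ → ℕ) (C : ℕ), Clean (fun v : Fin 1 → ℕ => nu (v 0)) (fun v => C * (v 0 + 1)) ∧
      (∀ N, nu N ≤ N + 1) ∧ (∀ N, nu N ≤ N → R (nu N) N) ∧
      (∀ N n, n ≤ N → R n N → nu N ≤ n) := by
  obtain ⟨C, hc, -⟩ := lc_search (Q := fun v : Fin 2 → ℕ => R (v 0) (v 1)) (0 : Fin 1) (rud_lc hR)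
  refine ⟨fun N => sr (fun v : Fin 2 → ℕ => R (v 0) (v 1)) (0 : Fin 1) (fun _ => N), C, ?_,
    fun N => search_le _ (0 : Fin 1) (fun _ => N), fun N hN => ?_, fun N n hn hR' => ?_⟩
  · have e1 : (fun v : Fin 1 → ℕ => sr (fun v : Fin 2 → ℕ => R (v 0) (v 1)) (0 : Fin 1)
        (fun _ => v 0)) = sr (fun v : Fin 2 → ℕ => R (v 0) (v 1)) (0 : Fin 1) := by
      funext v
      congr 1
      funext i
      rw [Subsingleton.elim i 0]
    have e2 : (fun v : Fin 1 → ℕ => C * (v 0 + 1)) = (fun v => C * (S v + 1)) := by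
      funext v
      simp [S]
    rw [e1, e2]
    exact hc
  · exact search_spec (fun v : Fin 2 → ℕ => R (v 0) (v 1)) (0 : Fin 1) (fun _ => N) hN
  · exact search_min (fun v : Fin 2 → ℕ => R (v 0) (v 1)) (0 : Fin 1) (fun _ => N) n hR'

end Pool.Agent.FBC
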