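import Pool.Agent.FBC.Ctl
import Pool.Agent.FBC.RudC

/-!
# FBC: the machine of a partial function with rudimentary graph
-/

namespace Pool.Agent.FBC

theorem rud_le : Rud (fun v : Fin 2 → ℕ => v 0 ≤ v 1) := by
  have h : Rud (fun w : Fin 3 → ℕ => w 1 + w 0 = w 2) := Rud.add 1 0 2
  have h2 := Rud.bex (k := 2) 1 h
  have : (fun v : Fin 2 → ℕ => v 0 ≤ v 1) = (fun v : Fin 2 → ℕ => ∃ n, n ≤ v 1 ∧
      (fun w : Fin 3 → ℕ => w 1 + w 0 = w 2) (Fin.cons n v)) := by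
    funext v
    apply propext
    show v 0 ≤ v 1 ↔ ∃ n, n ≤ v 1 ∧ v 0 + n = v 1
    constructor
    · intro h
      exact ⟨v 1 - v 0, by omega, by omega⟩
    · rintro ⟨n, _, h⟩
      omega
  rw [this]
  exact h2

theorem machB (R : ℕ → ℕ → Prop) (hR : Rud (fun v : Fin 2 → ℕ => R (v 0) (v 1)))
    (hfun : ∀ n N N', R n N → R n N' → N = N') :
    ∃ (V : Type) (_ : Finite V) (M : RM V) (v0 u j mS : V) (Dm : ℕ → Prop)
    (nu lo Y : ℕ → ℕ) (D : ℕ), M.Total ∧ Mach M v0 u j mS Dm nu lo Y ∧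
    (∀ N, Y N ≤ D ^ (N + 1)) ∧
    (∀ N, Dm N → R (nu N) N ∧ nu N ≤ N) ∧
    (∀ N n, n ≤ N → R n N → Dm N ∧ nu N ≤ n) ∧
    (∀ N, (Dm N ∧ lo N = nu N) ∨ (¬ Dm N ∧ lo N = N)) := by
  classical
  set Q : (Fin 2 → ℕ) → Prop := fun v => R (v 0) (v 1) ∧ v 0 ≤ v 1 with hQdef
  have hQ : Rud Q := Rud.and hR rud_le
  obtain ⟨C1, hT⟩ := rud_clean hQ
  obtain ⟨nu, C2, hn, hn1, hn2, hn3⟩ := rud_nu (R := fun n N => Q ![n, N]) (by
    have : (fun v : Fin 2 → ℕ => (fun n N => Q ![n, N]) (v 0) (v 1)) = Q := by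
      funext v
      show Q ![v 0, v 1] = Q v
      congr 1
      funext i
      fin_cases i <;> rfl
    rw [this]
    exact hQ)
  have hQ2 : ∀ n N, Q ![n, N] ↔ R n N ∧ n ≤ N := fun n N => Iff.rfl
  set T : ℕ → ℕ → ℕ := fun n N => ind01 Q ![n, N] with hTdef
  have hT0 : ∀ n N, T n N = 0 ↔ R n N ∧ n ≤ N := by
    intro n N
    rw [← hQ2]
    show ind01 Q ![n, N] = 0 ↔ _
    unfold ind01
    split_ifs with h
    · simp [h]
    · simp [h]
  have hT1 : ∀ n N, T n N ≤ 1 := by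
    intro n N
    show ind01 Q ![n, N] ≤ 1
    unfold ind01
    split_ifs <;> omega
  have hTc : Clean (fun v : Fin 2 → ℕ => T (v 0) (v 1)) (fun v => C1 * (∑ i, v i + 1)) := by
    have : (fun v : Fin 2 → ℕ => T (v 0) (v 1)) = ind01 Q := by
      funext v
      show ind01 Q ![v 0, v 1] = ind01 Q v
      congr 1
      funext i
      fin_cases i <;> rfl
    rw [this]
    exact hT
  set K : ℕ := 2 * C1 + C2 + 2 with hK
  let s : ℕ → ℕ := fun N => K * (N + 1)
  have hs : Monotone s := fun x y hxy => Nat.mul_le_mul_left _ (by omega)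
  have hdm : ∀ N, T (nu N) N = 0 → nu N ≤ N := fun N h => ((hT0 _ _).1 h).2
  obtain ⟨V, hV, M, v0, u, j, mS, D, htot, hD, hm⟩ := mach_exists T nu _ _ hTc hn
    (fun n N N' h h' => hfun n N N' ((hT0 _ _).1 h).1 ((hT0 _ _).1 h').1) hdm s hs
    (fun N => by show N ≤ K * (N + 1); nlinarith)
    (fun N => by
      have := hn1 N
      show nu N ≤ K * (N + 1)
      nlinarith)
    (fun N => by
      show C2 * (N + 1) ≤ K * (N + 1)
      exact Nat.mul_le_mul_right _ (by omega))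
    (fun N m hmN => by
      have h1 := hT1 (nu N) m
      have h2 := hn1 N
      constructor
      · show T (nu N) m ≤ K * (N + 1)
        nlinarith
      · show C1 * (∑ i, ![nu N, m] i + 1) ≤ K * (N + 1)
        simp only [Fin.sum_univ_two, Matrix.cons_val_zero, Matrix.cons_val_one]
        calc C1 * (nu N + m + 1) ≤ C1 * (2 * (N + 1)) := Nat.mul_le_mul_left _ (by omega)
          _ ≤ K * (N + 1) := by rw [hK]; nlinarith)
  refine ⟨V, hV, M, v0, u, j, mS, _, _, _, _, D ^ (20 * K + 20), htot, hm, fun N => ?_,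
    fun N h => ?_, fun N n hnN hRn => ?_, fun N => ?_⟩
  · show D ^ (20 * (K * (N + 1)) + 20) ≤ _
    rw [← pow_mul]
    apply Nat.pow_le_pow_right (by omega)
    nlinarith
  · exact (hT0 _ _).1 h
  · have h1 := hn3 N n hnN ⟨hRn, hnN⟩
    refine ⟨?_, h1⟩
    show T (nu N) N = 0
    rw [hT0]
    exact hn2 N (by omega)
  · show (T (nu N) N = 0 ∧ (if T (nu N) N = 0 then nu N else N) = nu N) ∨
      (¬ T (nu N) N = 0 ∧ (if T (nu N) N = 0 then nu N else N) = N)
    by_cases h : T (nu N) N = 0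
    · left; simp [h]
    · right; simp [h]

end Pool.Agent.FBC
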