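import Pool.Agent.FBC.Defs

/-!
# FBC module Act: the action of a total residue machine

`ow v r`, `oc v r` the vertex and the class reached from the class `r` at `v`, `iv w c`, `ir w c`
the vertex and the class from which the class `c` at `w` is reached.
`T (v, z, m) = (v, z + q v, m)`; `S (v, z, m) = (w, q w * (z / p v) + c, m - lam v * (z / p v))`
with `w = ow v (z % p v)`, `c = oc v (z % p v)`. Then `S * T' = T * S` for
`T' (v, z, m) = (v, z + p v, m + lam v)`, so `T' = S⁻¹ * T * S`.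
`rho`: a permutation of `V` which is one cycle; `e v` is a number with `rho ^ (e v) v0 = v`.
`EA v c w c'` iff `(c = 0 ∧ c' = 0 ∧ w = rho v) ∨ (0 < c ∧ c < q v ∧ w = v ∧ c' = c)`.
`A (v, z, m) = (rho v, q (rho v) * (z / q v), m)` if `q v` divides `z`, otherwise `(v, z, m)`.
-/

namespace Pool.Agent.FBC

namespace ActM

/-- quotient -/
def dv (n : ℕ) (z : ℤ) : ℤ := z / n

/-- remainder -/
def md (n : ℕ) (z : ℤ) : ℕ := (z % n).toNat

theorem md_cast {n : ℕ} (hn : 0 < n) (z : ℤ) : ((md n z : ℕ) : ℤ) = z % n :=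
  Int.toNat_of_nonneg (Int.emod_nonneg _ (by omega))

theorem md_lt {n : ℕ} (hn : 0 < n) (z : ℤ) : md n z < n := by
  have h := md_cast hn z
  have h2 : z % (n : ℤ) < n := Int.emod_lt_of_pos _ (by omega)
  omega

theorem eq_dv_md {n : ℕ} (hn : 0 < n) (z : ℤ) : z = n * dv n z + md n z := by
  rw [md_cast hn, dv]
  exact (Int.mul_ediv_add_emod z n).symm

theorem dv_eq {n r : ℕ} (hr : r < n) (k : ℤ) : dv n (n * k + r) = k := by
  unfold dv
  rw [Int.add_comm, Int.add_mul_ediv_left _ _ (by omega : (n : ℤ) ≠ 0),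
    Int.ediv_eq_zero_of_lt (by omega) (by omega), zero_add]

theorem md_eq {n r : ℕ} (hr : r < n) (k : ℤ) : md n (n * k + r) = r := by
  have h1 := eq_dv_md (by omega : 0 < n) (n * k + r)
  rw [dv_eq hr] at h1
  omega

theorem dv_add {n : ℕ} (hn : 0 < n) (z : ℤ) : dv n (z + n) = dv n z + 1 := by
  conv_lhs => rw [eq_dv_md hn z]
  rw [show (n : ℤ) * dv n z + md n z + n = n * (dv n z + 1) + md n z by ring]
  exact dv_eq (md_lt hn z) _

theorem md_add {n : ℕ} (hn : 0 < n) (z : ℤ) : md n (z + n) = md n z := by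
  conv_lhs => rw [eq_dv_md hn z]
  rw [show (n : ℤ) * dv n z + md n z + n = n * (dv n z + 1) + md n z by ring]
  exact md_eq (md_lt hn z) _

theorem dv_mul {n : ℕ} (hn : 0 < n) (k : ℤ) : dv n (n * k) = k := by
  have := dv_eq hn k
  simpa using this

theorem md_mul {n : ℕ} (hn : 0 < n) (k : ℤ) : md n (n * k) = 0 := by
  have := md_eq hn k
  simpa using this

section

variable {V : Type} (M : RM V)

/-- translation by `q v` -/
def T : Equiv.Perm (V × ℤ × ℤ) where
  toFun x := (x.1, x.2.1 + M.q x.1, x.2.2)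
  invFun x := (x.1, x.2.1 - M.q x.1, x.2.2)
  left_inv x := by simp
  right_inv x := by simp

/-- translation by `p v`, with weight -/
def T' (lam : V → ℤ) : Equiv.Perm (V × ℤ × ℤ) where
  toFun x := (x.1, x.2.1 + M.p x.1, x.2.2 + lam x.1)
  invFun x := (x.1, x.2.1 - M.p x.1, x.2.2 - lam x.1)
  left_inv x := by simp
  right_inv x := by simp

/-- the letter `s` -/
def S (lam : V → ℤ) (ow iv : V → ℕ → V) (oc ir : V → ℕ → ℕ)
    (ho : ∀ v r, r < M.p v → M.E v r (ow v r) (oc v r))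
    (hi : ∀ w c, c < M.q w → M.E (iv w c) (ir w c) w c) : Equiv.Perm (V × ℤ × ℤ) where
  toFun x := (ow x.1 (md (M.p x.1) x.2.1),
    M.q (ow x.1 (md (M.p x.1) x.2.1)) * dv (M.p x.1) x.2.1 + oc x.1 (md (M.p x.1) x.2.1),
    x.2.2 - lam x.1 * dv (M.p x.1) x.2.1)
  invFun x := (iv x.1 (md (M.q x.1) x.2.1),
    M.p (iv x.1 (md (M.q x.1) x.2.1)) * dv (M.q x.1) x.2.1 + ir x.1 (md (M.q x.1) x.2.1),
    x.2.2 + lam (iv x.1 (md (M.q x.1) x.2.1)) * dv (M.q x.1) x.2.1)
  left_inv x := by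
    obtain ⟨v, z, m⟩ := x
    have hr := md_lt (M.hp v) z
    have hz := eq_dv_md (M.hp v) z
    generalize md (M.p v) z = r at hr hz
    generalize dv (M.p v) z = k at hz
    subst hz
    simp only [dv_eq hr, md_eq hr]
    have h1 := ho v r hr
    generalize ow v r = w at h1
    generalize oc v r = c at h1
    have hc := (M.lt h1).2
    simp only [dv_eq hc, md_eq hc]
    obtain ⟨h2, h3⟩ := M.inj (hi w c hc) h1
    rw [h2, h3, sub_add_cancel]
  right_inv x := by
    obtain ⟨v, z, m⟩ := x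
    have hr := md_lt (M.hq v) z
    have hz := eq_dv_md (M.hq v) z
    generalize md (M.q v) z = r at hr hz
    generalize dv (M.q v) z = k at hz
    subst hz
    simp only [dv_eq hr, md_eq hr]
    have h1 := hi v r hr
    generalize iv v r = w at h1
    generalize ir v r = c at h1
    have hc := (M.lt h1).1
    simp only [dv_eq hc, md_eq hc]
    obtain ⟨h2, h3⟩ := M.det (ho w c hc) h1
    rw [h2, h3, add_sub_cancel_right]

/-- the letter `a` -/
def A (rho : Equiv.Perm V) : Equiv.Perm (V × ℤ × ℤ) where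
  toFun x := if md (M.q x.1) x.2.1 = 0 then
    (rho x.1, M.q (rho x.1) * dv (M.q x.1) x.2.1, x.2.2) else x
  invFun x := if md (M.q x.1) x.2.1 = 0 then
    (rho.symm x.1, M.q (rho.symm x.1) * dv (M.q x.1) x.2.1, x.2.2) else x
  left_inv x := by
    obtain ⟨v, z, m⟩ := x
    by_cases h : md (M.q v) z = 0
    · have hz := eq_dv_md (M.hq v) z
      rw [h, Nat.cast_zero, add_zero] at hz
      simp only [if_pos h, md_mul (M.hq (rho v)), if_true, dv_mul (M.hq (rho v)),
        Equiv.symm_apply_apply]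
      rw [← hz]
    · simp only [if_neg h]
  right_inv x := by
    obtain ⟨v, z, m⟩ := x
    by_cases h : md (M.q v) z = 0
    · have hz := eq_dv_md (M.hq v) z
      rw [h, Nat.cast_zero, add_zero] at hz
      simp only [if_pos h, md_mul (M.hq (rho.symm v)), if_true, dv_mul (M.hq (rho.symm v)),
        Equiv.apply_symm_apply]
      rw [← hz]
    · simp only [if_neg h]

theorem T_apply (v : V) (z m : ℤ) : T M (v, z, m) = (v, z + M.q v, m) := rfl

theorem T'_apply (lam : V → ℤ) (v : V) (z m : ℤ) :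
    T' M lam (v, z, m) = (v, z + M.p v, m + lam v) := rfl

theorem S_apply {lam : V → ℤ} {ow iv : V → ℕ → V} {oc ir : V → ℕ → ℕ}
    {ho : ∀ v r, r < M.p v → M.E v r (ow v r) (oc v r)}
    {hi : ∀ w c, c < M.q w → M.E (iv w c) (ir w c) w c} (v : V) (z m : ℤ) :
    S M lam ow iv oc ir ho hi (v, z, m) = (ow v (md (M.p v) z),
    M.q (ow v (md (M.p v) z)) * dv (M.p v) z + oc v (md (M.p v) z),
    m - lam v * dv (M.p v) z) := rfl

theorem A_apply (rho : Equiv.Perm V) (v : V) (z m : ℤ) :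
    A M rho (v, z, m) = if md (M.q v) z = 0 then (rho v, M.q (rho v) * dv (M.q v) z, m)
      else (v, z, m) := rfl

theorem A_mul (rho : Equiv.Perm V) (v : V) (k m : ℤ) :
    A M rho (v, M.q v * k, m) = (rho v, M.q (rho v) * k, m) := by
  rw [A_apply, if_pos (md_mul (M.hq v) k), dv_mul (M.hq v)]

theorem A_pow_mul (rho : Equiv.Perm V) (n : ℕ) (v : V) (k m : ℤ) :
    (A M rho ^ n) (v, M.q v * k, m) = ((rho ^ n) v, M.q ((rho ^ n) v) * k, m) := by
  induction n with
  | zero => rfl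
  | succ n ih => rw [pow_succ', Equiv.Perm.mul_apply, ih, A_mul, pow_succ', Equiv.Perm.mul_apply]

theorem T_T' (lam : V → ℤ) : Commute (T M) (T' M lam) := by
  refine Equiv.ext fun x => ?_
  obtain ⟨v, z, m⟩ := x
  rw [Equiv.Perm.mul_apply, Equiv.Perm.mul_apply, T_apply, T'_apply, T'_apply, T_apply,
    add_right_comm]

theorem A_T (rho : Equiv.Perm V) : Commute (A M rho) (T M) := by
  refine Equiv.ext fun x => ?_
  obtain ⟨v, z, m⟩ := x
  rw [Equiv.Perm.mul_apply, Equiv.Perm.mul_apply, T_apply, A_apply, A_apply,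
    md_add (M.hq v), dv_add (M.hq v)]
  split_ifs with h
  · rw [T_apply, mul_add, mul_one]
  · rw [T_apply]

theorem S_T' {lam : V → ℤ} {ow iv : V → ℕ → V} {oc ir : V → ℕ → ℕ}
    {ho : ∀ v r, r < M.p v → M.E v r (ow v r) (oc v r)}
    {hi : ∀ w c, c < M.q w → M.E (iv w c) (ir w c) w c} :
    S M lam ow iv oc ir ho hi * T' M lam = T M * S M lam ow iv oc ir ho hi := by
  refine Equiv.ext fun x => ?_
  obtain ⟨v, z, m⟩ := x
  rw [Equiv.Perm.mul_apply, Equiv.Perm.mul_apply, T'_apply, S_apply, S_apply, T_apply,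
    md_add (M.hp v), dv_add (M.hp v)]
  refine Prod.ext rfl (Prod.ext ?_ ?_)
  · simp only
    ring
  · simp only
    ring

/-- there is a permutation which is one cycle -/
theorem exists_rot [Finite V] (v0 : V) : ∃ (rho : Equiv.Perm V) (e : V → ℕ), e v0 = 0 ∧
    ∀ v, (rho ^ (e v)) v0 = v := by
  classical
  have := Fintype.ofFinite V
  obtain ⟨f, hf, -⟩ := Finset.exists_cycleOn (Finset.univ : Finset V)
  have h : ∀ v, ∃ i : ℕ, (f ^ i) v0 = v := by
    intro v
    obtain ⟨n, -, hn⟩ := hf.exists_pow_eq (a := v0) (b := v) (by simp) (by simp)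
    exact ⟨n, hn⟩
  choose e he using h
  refine ⟨f, fun v => if v = v0 then 0 else e v, by simp, fun v => ?_⟩
  by_cases hv : v = v0
  · simp [hv]
  · simp [hv, he]

end

end ActM

open ActM in
theorem act {V : Type} [Finite V] (M : RM V) (hM : M.Total) (v0 : V) :
    ∃ (e : V → ℕ) (EA : V → ℕ → V → ℕ → Prop), e v0 = 0 ∧ EAok M EA ∧
      ∀ lam : V → ℤ, ∃ T S A : Equiv.Perm (V × ℤ × ℤ), ActS M EA e v0 lam T S A := by
  obtain ⟨rho, e, he0, he⟩ := exists_rot v0
  have : Nonempty V := ⟨v0⟩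
  have ho := hM.out
  have hi := hM.inn
  choose! ow oc ho using ho
  choose! iv ir hi using hi
  refine ⟨e, fun v c w c' => (c = 0 ∧ c' = 0 ∧ w = rho v) ∨ (0 < c ∧ c < M.q v ∧ w = v ∧ c' = c),
    he0, ⟨?_, ?_⟩, fun lam => ?_⟩
  · rintro v c w c' (⟨rfl, rfl, rfl⟩ | ⟨h1, h2, rfl, rfl⟩)
    · exact ⟨M.hq _, M.hq _⟩
    · exact ⟨h2, h2⟩
  · rintro v c w₁ c₁ w₂ c₂ (⟨rfl, rfl, rfl⟩ | ⟨h1, h2, rfl, rfl⟩) (⟨h3, rfl, rfl⟩ | ⟨h3, h4, rfl, rfl⟩)
    · exact ⟨rfl, rfl⟩
    · omega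
    · omega
    · exact ⟨rfl, rfl⟩
  · refine ⟨T M, S M lam ow iv oc ir ho hi, A M rho, ?_⟩
    have hT' : (S M lam ow iv oc ir ho hi)⁻¹ * T M * S M lam ow iv oc ir ho hi = T' M lam := by
      rw [mul_assoc, ← S_T', inv_mul_cancel_left]
    refine ⟨T_apply M, ?_, ?_, ?_, ?_, ?_, A_T M rho⟩
    · intro v z m
      rw [hT', T'_apply]
    · intro v z
      exact ⟨dv (M.p v) z, md (M.p v) z, oc v (md (M.p v) z), ow v (md (M.p v) z),
        ho v _ (md_lt (M.hp v) z), eq_dv_md (M.hp v) z, fun m => S_apply M v z m⟩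
    · intro v z
      by_cases h : md (M.q v) z = 0
      · refine ⟨dv (M.q v) z, 0, 0, rho v, Or.inl ⟨rfl, rfl, rfl⟩, ?_, fun m => ?_⟩
        · have hz := eq_dv_md (M.hq v) z
          rw [h] at hz
          exact hz
        · rw [A_apply, if_pos h, Nat.cast_zero, add_zero]
      · refine ⟨dv (M.q v) z, md (M.q v) z, md (M.q v) z, v,
          Or.inr ⟨Nat.pos_of_ne_zero h, md_lt (M.hq v) z, rfl, rfl⟩, eq_dv_md (M.hq v) z,
          fun m => ?_⟩
        rw [A_apply, if_neg h, ← eq_dv_md (M.hq v) z]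
    · intro v k m
      rw [A_pow_mul, he]
    · rw [hT']
      exact T_T' M lam

end Pool.Agent.FBC
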