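import Pool.Agent.FBC.Prog
import Pool.Agent.FBC.Defs1

/-!
# FBC: arithmetic programs

Every function of the class `Cl` is computed by a reversible program.
-/

namespace Pool.Agent.FBC

open Function

namespace Prog

theorem Run.congr {P : Prog} {a b b' : St} (h : Run P a b) (e : b = b') : Run P a b' := e ▸ h

theorem Run.congr' {P : Prog} {a a' b b' : St} (h : Run P a b) (e : a = a') (e' : b = b') :
    Run P a' b' := e ▸ e' ▸ h

/-- compute, use, uncompute -/
theorem Run.conj {P Q : Prog} {a a' b b' : St} (h1 : Run P a a') (h2 : Run Q a' b')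
    (h3 : Run P b b') : Run (P.seq (Q.seq P.inv)) a b :=
  ⟨a', h1, b', h2, (run_inv P _ _).mpr h3⟩

/-- `y += x i`, temporary register `t` -/
def cp (i y t : ℕ) : Prog :=
  seq (loop i t (seq (dec i) (seq (inc y) (inc t)))) (loop t i (seq (dec t) (inc i)))

theorem run_cp {i y t : ℕ} (hiy : i ≠ y) (hit : i ≠ t) (hyt : y ≠ t) (ρ : St) (ht : ρ t = 0) :
    Run (cp i y t) ρ (update ρ y (ρ y + ρ i)) := by
  have hyi := hiy.symm
  have hti := hit.symm
  have hty := hyt.symm
  obtain ⟨n, hn⟩ : ∃ n, n = ρ i := ⟨_, rfl⟩
  let σ : ℕ → St := fun k => update (update (update ρ i (n - k)) y (ρ y + k)) t k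
  let τ : ℕ → St := fun k => update (update (update ρ i k) y (ρ y + n)) t (n - k)
  have e0 : σ 0 = ρ := by
    funext r
    simp only [σ, update_apply]
    split_ifs <;> (try subst_vars) <;> first | rfl | omega
  have e1 : σ n = τ 0 := by
    funext r
    simp only [σ, τ, update_apply]
    split_ifs <;> (try subst_vars) <;> first | rfl | omega
  have e2 : τ n = update ρ y (ρ y + ρ i) := by
    funext r
    simp only [τ, update_apply]
    split_ifs <;> (try subst_vars) <;> first | rfl | omega
  have r1 : Run (loop i t (seq (dec i) (seq (inc y) (inc t)))) (σ 0) (σ n) := by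
    apply Run.loop σ n
    · simp [σ]
    · simp [σ, *]
    · intro k hk
      have hi : σ k i = n - k := by simp [σ, *]
      refine ⟨by omega, ⟨_, run_dec i _ (by omega), _, run_inc y _, ?_⟩, by simp [σ]⟩
      change σ (k + 1) = _
      funext r
      simp only [σ, update_apply]
      split_ifs <;> (try subst_vars) <;> first | rfl | omega
  have r2 : Run (loop t i (seq (dec t) (inc i))) (τ 0) (τ n) := by
    apply Run.loop τ n
    · simp [τ, *]
    · simp [τ]
    · intro k hk
      have hi : τ k t = n - k := by simp [τ, *]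
      have hi' : τ (k + 1) i = k + 1 := by simp [τ, *]
      refine ⟨by omega, ⟨_, run_dec t _ (by omega), ?_⟩, by omega⟩
      change τ (k + 1) = _
      funext r
      simp only [τ, update_apply]
      split_ifs <;> (try subst_vars) <;> first | rfl | omega
  rw [e0] at r1
  rw [e1] at r1
  rw [e2] at r2
  exact r1.seq r2

/-- `y += x b * x (b + 1)` -/
def ml (b y : ℕ) : Prog :=
  seq (loop b (b + 2) (seq (dec b) (seq (cp (b + 1) y (b + 3)) (inc (b + 2)))))
    (loop (b + 2) b (seq (dec (b + 2)) (inc b)))

theorem run_ml {b y : ℕ} (hy : y < b) (ρ : St) (h2 : ρ (b + 2) = 0) (h3 : ρ (b + 3) = 0) :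
    Run (ml b y) ρ (update ρ y (ρ y + ρ b * ρ (b + 1))) := by
  obtain ⟨n, hn⟩ : ∃ n, n = ρ b := ⟨_, rfl⟩
  obtain ⟨m, hm⟩ : ∃ m, m = ρ (b + 1) := ⟨_, rfl⟩
  let σ : ℕ → St := fun k => update (update (update ρ b (n - k)) y (ρ y + k * m)) (b + 2) k
  let τ : ℕ → St := fun k => update (update (update ρ b k) y (ρ y + n * m)) (b + 2) (n - k)
  have e0 : σ 0 = ρ := by
    funext r
    simp only [σ, update_apply, Nat.zero_mul]
    split_ifs <;> (try subst_vars) <;> first | rfl | omega
  have e1 : σ n = τ 0 := by
    funext r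
    simp only [σ, τ, update_apply]
    split_ifs <;> (try subst_vars) <;> first | rfl | omega
  have e2 : τ n = update ρ y (ρ y + ρ b * ρ (b + 1)) := by
    funext r
    simp only [τ, update_apply]
    split_ifs <;> (try subst_vars) <;> first | rfl | omega
  have r1 : Run (loop b (b + 2) (seq (dec b) (seq (cp (b + 1) y (b + 3)) (inc (b + 2)))))
      (σ 0) (σ n) := by
    apply Run.loop σ n
    · simp [σ]
    · simp only [σ, update_apply]
      split_ifs <;> omega
    · intro k hk
      have hi : σ k b = n - k := by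
        simp only [σ, update_apply]
        split_ifs <;> omega
      refine ⟨by omega, ⟨_, run_dec b _ (by omega), _,
        run_cp (i := b + 1) (y := y) (t := b + 3) (by omega) (by omega) (by omega) _ ?_, ?_⟩,
        by simp [σ]⟩
      · simp only [σ, update_apply]
        split_ifs <;> omega
      · change σ (k + 1) = _
        funext r
        simp only [σ, update_apply, Nat.add_mul, Nat.one_mul]
        split_ifs <;> (try subst_vars) <;> first | rfl | omega
  have r2 : Run (loop (b + 2) b (seq (dec (b + 2)) (inc b))) (τ 0) (τ n) := by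
    apply Run.loop τ n
    · simp only [τ, update_apply]
      split_ifs <;> omega
    · simp [τ]
    · intro k hk
      have hi : τ k (b + 2) = n - k := by simp [τ]
      have hi' : τ (k + 1) b = k + 1 := by
        simp only [τ, update_apply]
        split_ifs <;> omega
      refine ⟨by omega, ⟨_, run_dec (b + 2) _ (by omega), ?_⟩, by omega⟩
      change τ (k + 1) = _
      funext r
      simp only [τ, update_apply]
      split_ifs <;> (try subst_vars) <;> first | rfl | omega
  rw [e0] at r1
  rw [e1] at r1
  rw [e2] at r2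
  exact r1.seq r2

/-- one round of the comparison of `x b` and `x (b + 1)`; flag `b + 3`, counters `b + 4`, `b + 5` -/
def sbBody (b : ℕ) : Prog :=
  seq (ite (b + 1) (b + 3) (inc (b + 3)) skip)
    (seq (ite (b + 3) (b + 3) (seq (dec (b + 1)) (inc (b + 4))) (inc (b + 5)))
      (ite (b + 5) (b + 5) skip (dec (b + 3))))

/-- comparison -/
def sbLoop (b : ℕ) : Prog :=
  loop b (b + 2) (seq (dec b) (seq (sbBody b) (inc (b + 2))))

theorem run_sbBody {b : ℕ} (ρ : St) (h3 : ρ (b + 3) = 0) (h : ρ (b + 1) ≠ 0 → ρ (b + 5) = 0) :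
    Run (sbBody b) ρ (if ρ (b + 1) = 0 then update ρ (b + 5) (ρ (b + 5) + 1)
      else update (update ρ (b + 1) (ρ (b + 1) - 1)) (b + 4) (ρ (b + 4) + 1)) := by
  by_cases h1 : ρ (b + 1) = 0
  · rw [if_pos h1]
    refine ⟨ρ, Or.inr ⟨h1, rfl, h3⟩, _, Or.inr ⟨h3, run_inc _ _, ?_⟩, Or.inl ⟨?_, rfl, ?_⟩⟩
    · rw [update_of_ne (by omega)]; exact h3
    · rw [update_self]; omega
    · rw [update_self]; omega
  · rw [if_neg h1]
    have h5 := h h1
    refine ⟨_, Or.inl ⟨h1, run_inc _ _, by rw [update_self]; omega⟩,
      update (update (update ρ (b + 3) 1) (b + 1) (ρ (b + 1) - 1)) (b + 4) (ρ (b + 4) + 1),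
      Or.inl ⟨by rw [update_self]; omega, ⟨_, run_dec _ _ ?_, ?_⟩, ?_⟩, Or.inr ⟨?_, ?_, ?_⟩⟩
    · rw [update_of_ne (by omega)]; exact h1
    · change _ = _
      funext r
      simp only [update_apply]
      split_ifs <;> (try subst_vars) <;> first | rfl | omega
    · simp only [update_apply]
      split_ifs <;> omega
    · simp only [update_apply]
      split_ifs <;> omega
    · change _ = _
      funext r
      simp only [update_apply]
      split_ifs <;> (try subst_vars) <;> first | rfl | omega
    · simp only [update_apply]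
      split_ifs <;> omega

theorem run_sbLoop {b : ℕ} (ρ : St) (h2 : ρ (b + 2) = 0) (h3 : ρ (b + 3) = 0)
    (h4 : ρ (b + 4) = 0) (h5 : ρ (b + 5) = 0) :
    Run (sbLoop b) ρ (update (update (update (update (update ρ b 0) (b + 1) (ρ (b + 1) - ρ b))
      (b + 2) (ρ b)) (b + 4) (min (ρ b) (ρ (b + 1)))) (b + 5) (ρ b - ρ (b + 1))) := by
  obtain ⟨n, hn⟩ : ∃ n, n = ρ b := ⟨_, rfl⟩
  obtain ⟨m, hm⟩ : ∃ m, m = ρ (b + 1) := ⟨_, rfl⟩
  let σ : ℕ → St := fun k => update (update (update (update (update ρ b (n - k)) (b + 1) (m - k))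
    (b + 2) k) (b + 4) (min k m)) (b + 5) (k - m)
  have e0 : σ 0 = ρ := by
    funext r
    simp only [σ, update_apply]
    split_ifs <;> (try subst_vars) <;> first | rfl | omega
  have e1 : σ n = (update (update (update (update (update ρ b 0) (b + 1) (ρ (b + 1) - ρ b))
      (b + 2) (ρ b)) (b + 4) (min (ρ b) (ρ (b + 1)))) (b + 5) (ρ b - ρ (b + 1))) := by
    funext r
    simp only [σ, update_apply]
    split_ifs <;> (try subst_vars) <;> first | rfl | omega
  have r1 : Run (sbLoop b) (σ 0) (σ n) := by
    apply Run.loop σ n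
    · simp only [σ, update_apply]
      split_ifs <;> omega
    · simp only [σ, update_apply]
      split_ifs <;> omega
    · intro k hk
      have hi : σ k b = n - k := by
        simp only [σ, update_apply]
        split_ifs <;> omega
      have hv : (update (σ k) b (σ k b - 1)) (b + 1) = m - k := by
        simp only [σ, update_apply]
        split_ifs <;> omega
      refine ⟨by omega, ⟨_, run_dec b _ (by omega), _, run_sbBody _ ?_ ?_, ?_⟩, ?_⟩
      · simp only [σ, update_apply]
        split_ifs <;> omega
      · rw [hv]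
        intro h
        simp only [σ, update_apply]
        split_ifs <;> omega
      · change σ (k + 1) = _
        rw [hv]
        by_cases hk' : m - k = 0
        · rw [if_pos hk']
          funext r
          simp only [σ, update_apply]
          split_ifs <;> (try subst_vars) <;> first | rfl | omega
        · rw [if_neg hk']
          funext r
          simp only [σ, update_apply]
          split_ifs <;> (try subst_vars) <;> first | rfl | omega
      · simp only [σ, update_apply]
        split_ifs <;> omega
  rw [e0, e1] at r1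
  exact r1

/-- `y += x b - x (b + 1)` -/
def sb (b y : ℕ) : Prog := seq (sbLoop b) (seq (cp (b + 5) y (b + 3)) (sbLoop b).inv)

theorem run_sb {b y : ℕ} (hy : y < b) (ρ : St) (h2 : ρ (b + 2) = 0) (h3 : ρ (b + 3) = 0)
    (h4 : ρ (b + 4) = 0) (h5 : ρ (b + 5) = 0) :
    Run (sb b y) ρ (update ρ y (ρ y + (ρ b - ρ (b + 1)))) := by
  refine Run.conj (run_sbLoop ρ h2 h3 h4 h5)
    (run_cp (i := b + 5) (y := y) (t := b + 3) (by omega) (by omega) (by omega) _ ?_) ?_
  · simp only [update_apply]
    split_ifs <;> omega
  · have h := run_sbLoop (b := b) (update ρ y (ρ y + (ρ b - ρ (b + 1))))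
      (by rw [update_of_ne (by omega)]; exact h2) (by rw [update_of_ne (by omega)]; exact h3)
      (by rw [update_of_ne (by omega)]; exact h4) (by rw [update_of_ne (by omega)]; exact h5)
    refine h.congr ?_
    funext r
    simp only [update_apply]
    split_ifs <;> (try subst_vars) <;> first | rfl | omega

/-- `y += n` -/
def incN (y : ℕ) : ℕ → Prog
  | 0 => skip
  | n + 1 => seq (incN y n) (inc y)

theorem run_incN (y n : ℕ) (ρ : St) : Run (incN y n) ρ (update ρ y (ρ y + n)) := by
  induction n with
  | zero => exact (update_eq_self y ρ).symm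
  | succ n ih =>
    refine ⟨_, ih, ?_⟩
    change _ = _
    rw [update_self, update_idem]
    rfl

end Prog

open Prog

/-- `f` is computed by programs: `y += f (x (xs 0), .., x (xs (k - 1)))`, for all states which are
zero from `b` on -/
def Computes {k : ℕ} (f : (Fin k → ℕ) → ℕ) : Prop :=
  ∀ (xs : Fin k → ℕ) (y b : ℕ), (∀ i, xs i < b) → y < b → (∀ i, xs i ≠ y) →
    ∃ P : Prog, ∀ ρ : St, (∀ r, b ≤ r → ρ r = 0) →
      Run P ρ (update ρ y (ρ y + f (fun i => ρ (xs i))))

theorem computes_pair {k : ℕ} {f g : (Fin k → ℕ) → ℕ} (hf : Computes f) (hg : Computes g)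
    (xs : Fin k → ℕ) (b : ℕ) (hxs : ∀ i, xs i < b) :
    ∃ P : Prog, ∀ ρ : St, (∀ r, b ≤ r → ρ r = 0) →
      Run P ρ (update (update ρ b (f (fun i => ρ (xs i)))) (b + 1) (g (fun i => ρ (xs i)))) := by
  obtain ⟨P, hP⟩ := hf xs b (b + 1) (fun i => by have := hxs i; omega) (by omega)
    (fun i => by have := hxs i; omega)
  obtain ⟨Q, hQ⟩ := hg xs (b + 1) (b + 2) (fun i => by have := hxs i; omega) (by omega)
    (fun i => by have := hxs i; omega)
  refine ⟨seq P Q, fun ρ hρ => ?_⟩
  have h1 := hP ρ (fun r hr => hρ r (by omega))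
  have h2 := hQ (update ρ b (ρ b + f (fun i => ρ (xs i)))) (fun r hr => by
    rw [update_of_ne (by omega)]; exact hρ r (by omega))
  have e1 : (fun i => update ρ b (ρ b + f (fun i => ρ (xs i))) (xs i)) = fun i => ρ (xs i) := by
    funext i
    rw [update_of_ne (by have := hxs i; omega)]
  rw [e1, update_of_ne (by omega), hρ b le_rfl, hρ (b + 1) (by omega), Nat.zero_add,
    Nat.zero_add] at h2
  rw [hρ b le_rfl, Nat.zero_add] at h1
  exact h1.seq h2

theorem computes_binop {k : ℕ} {f g : (Fin k → ℕ) → ℕ} (hf : Computes f) (hg : Computes g)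
    (op : ℕ → ℕ → ℕ) (G : ℕ → ℕ → Prog)
    (hG : ∀ (b y : ℕ), y < b → ∀ ρ : St, (∀ r, b + 2 ≤ r → ρ r = 0) →
      Run (G b y) ρ (update ρ y (ρ y + op (ρ b) (ρ (b + 1))))) :
    Computes (fun v => op (f v) (g v)) := by
  intro xs y b hxs hy hne
  obtain ⟨P, hP⟩ := computes_pair hf hg xs b hxs
  refine ⟨seq P (seq (G b y) P.inv), fun ρ hρ => ?_⟩
  have h1 := hP ρ hρ
  have h2 := hG b y hy (update (update ρ b (f (fun i => ρ (xs i)))) (b + 1)
    (g (fun i => ρ (xs i)))) (fun r hr => by
      rw [update_of_ne (by omega), update_of_ne (by omega)]; exact hρ r (by omega))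
  refine Run.conj h1 h2 ?_
  set F := f (fun i => ρ (xs i)) with hF
  set Γ := g (fun i => ρ (xs i)) with hΓ
  have h3 := hP (update ρ y (ρ y + op F Γ)) (fun r hr => by
    rw [update_of_ne (by omega)]; exact hρ r hr)
  have e1 : (fun i => update ρ y (ρ y + op F Γ) (xs i)) = fun i => ρ (xs i) := by
    funext i
    rw [update_of_ne (hne i)]
  rw [e1, ← hF, ← hΓ] at h3
  refine h3.congr ?_
  have a1 : update (update ρ b F) (b + 1) Γ y = ρ y := by
    rw [update_of_ne (by omega), update_of_ne (by omega)]
  have a2 : update (update ρ b F) (b + 1) Γ b = F := by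
    rw [update_of_ne (by omega), update_self]
  have a3 : update (update ρ b F) (b + 1) Γ (b + 1) = Γ := update_self _ _ _
  rw [a1, a2, a3]
  funext r
  simp only [update_apply]
  split_ifs <;> (try subst_vars) <;> first | rfl | omega

theorem computes_mu {k : ℕ} {f : (Fin (k + 1) → ℕ) → ℕ} (hf : Computes f)
    (h : ∀ v : Fin k → ℕ, ∃ n, f (Fin.cons n v) = 0) : Computes (fun v => Nat.find (h v)) := by
  intro xs y b hxs hy hne
  obtain ⟨P, hP⟩ := hf (Fin.cons (b + 1) xs) b (b + 2)
    (fun i => by
      refine Fin.cases ?_ (fun i => ?_) i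
      · rw [Fin.cons_zero]; omega
      · rw [Fin.cons_succ]; have := hxs i; omega) (by omega)
    (fun i => by
      refine Fin.cases ?_ (fun i => ?_) i
      · rw [Fin.cons_zero]; omega
      · rw [Fin.cons_succ]; have := hxs i; omega)
  -- the value of `f` at the candidate `j`
  have hPj : ∀ (ρ : St), (∀ r, b ≤ r → ρ r = 0) → ∀ j : ℕ, Run P (update ρ (b + 1) j)
      (update (update ρ (b + 1) j) b (f (Fin.cons j (fun i => ρ (xs i))))) := by
    intro ρ hρ j
    have h1 := hP (update ρ (b + 1) j) (fun r hr => by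
      rw [update_of_ne (by omega)]; exact hρ r (by omega))
    have e1 : (fun i => update ρ (b + 1) j ((Fin.cons (b + 1) xs : Fin (k + 1) → ℕ) i))
        = (Fin.cons j (fun i => ρ (xs i)) : Fin (k + 1) → ℕ) := by
      funext i
      refine Fin.cases ?_ (fun i => ?_) i
      · rw [Fin.cons_zero, Fin.cons_zero, update_self]
      · rw [Fin.cons_succ, Fin.cons_succ, update_of_ne (by have := hxs i; omega)]
    have e2 : update ρ (b + 1) j b = 0 := by
      rw [update_of_ne (by omega)]; exact hρ b le_rfl
    rw [e1, e2, Nat.zero_add] at h1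
    exact h1
  set L : Prog := loop b (b + 1) (seq P.inv (seq (inc (b + 1)) P)) with hL
  have hR : ∀ (ρ : St), (∀ r, b ≤ r → ρ r = 0) → Run (seq P L) ρ
      (update ρ (b + 1) (Nat.find (h (fun i => ρ (xs i))))) := by
    intro ρ hρ
    set v : Fin k → ℕ := fun i => ρ (xs i) with hv
    set m := Nat.find (h v) with hm
    have hm0 : f (Fin.cons m v) = 0 := Nat.find_spec (h v)
    let σ : ℕ → St := fun j => update (update ρ (b + 1) j) b (f (Fin.cons j v))
    have s0 : Run P ρ (σ 0) := by
      have h1 := hPj ρ hρ 0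
      have e0 : update ρ (b + 1) 0 = ρ := by
        rw [← hρ (b + 1) (by omega), update_eq_self]
      refine h1.congr' e0 rfl
    have s1 : Run L (σ 0) (σ m) := by
      apply Run.loop σ m
      · simp only [σ]
        rw [update_of_ne (by omega), update_self]
      · simp only [σ]
        rw [update_self]
        exact hm0
      · intro j hj
        refine ⟨?_, ⟨update ρ (b + 1) j, (run_inv P _ _).mpr (hPj ρ hρ j),
          update ρ (b + 1) (j + 1), ?_, hPj ρ hρ (j + 1)⟩, ?_⟩
        · simp only [σ]
          rw [update_self]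
          exact Nat.find_min (h v) hj
        · change _ = _
          rw [update_self, update_idem]
        · simp only [σ]
          rw [update_of_ne (by omega), update_self]
          omega
    refine (s0.seq s1).congr ?_
    simp only [σ]
    rw [hm0]
    have : update (update ρ (b + 1) m) b 0 = update (update ρ (b + 1) m) b
        (update ρ (b + 1) m b) := by
      congr 1
      rw [update_of_ne (by omega), hρ b le_rfl]
    rw [this, update_eq_self]
  refine ⟨seq (seq P L) (seq (cp (b + 1) y (b + 2)) (seq P L).inv), fun ρ hρ => ?_⟩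
  have h1 := hR ρ hρ
  set v : Fin k → ℕ := fun i => ρ (xs i) with hv
  set m := Nat.find (h v) with hm
  have h2 := run_cp (i := b + 1) (y := y) (t := b + 2) (by omega) (by omega) (by omega)
    (update ρ (b + 1) m) (by rw [update_of_ne (by omega)]; exact hρ _ (by omega))
  refine Run.conj h1 h2 ?_
  have h3 := hR (update ρ y (ρ y + m)) (fun r hr => by
    rw [update_of_ne (by omega)]; exact hρ r hr)
  have e1 : (fun i => update ρ y (ρ y + m) (xs i)) = v := by
    funext i
    rw [update_of_ne (hne i)]
  rw [e1, ← hm] at h3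
  refine h3.congr ?_
  rw [update_self, update_of_ne (by omega)]
  exact update_comm (by omega) _ _ _

/-- every function of the class `Cl` is computed by a reversible program -/
theorem computes_of_cl {k : ℕ} {f : (Fin k → ℕ) → ℕ} (hf : Cl f) : Computes f := by
  induction hf with
  | proj i =>
    intro xs y b hxs hy hne
    exact ⟨cp (xs i) y b, fun ρ hρ => run_cp (hne i) (by have := hxs i; omega) (by omega) ρ
      (hρ b le_rfl)⟩
  | const n =>
    intro xs y b hxs hy hne
    exact ⟨incN y n, fun ρ hρ => run_incN y n ρ⟩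
  | add hf hg ihf ihg =>
    refine computes_binop ihf ihg (fun a b => a + b)
      (fun b y => seq (cp b y (b + 2)) (cp (b + 1) y (b + 2))) ?_
    intro b y hy ρ hρ
    refine ⟨_, run_cp (i := b) (y := y) (t := b + 2) (by omega) (by omega) (by omega) ρ
      (hρ _ le_rfl), ?_⟩
    refine (run_cp (i := b + 1) (y := y) (t := b + 2) (by omega) (by omega) (by omega) _
      (by rw [update_of_ne (by omega)]; exact hρ _ le_rfl)).congr ?_
    rw [update_self, update_of_ne (by omega), update_idem, Nat.add_assoc]
  | mul hf hg ihf ihg =>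
    refine computes_binop ihf ihg (fun a b => a * b) (fun b y => ml b y) ?_
    intro b y hy ρ hρ
    exact run_ml hy ρ (hρ _ (by omega)) (hρ _ (by omega))
  | sub hf hg ihf ihg =>
    refine computes_binop ihf ihg (fun a b => a - b) (fun b y => sb b y) ?_
    intro b y hy ρ hρ
    exact run_sb hy ρ (hρ _ (by omega)) (hρ _ (by omega)) (hρ _ (by omega)) (hρ _ (by omega))
  | mu hf h ih => exact computes_mu ih h

end Pool.Agent.FBC
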