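import Pool.Agent.FBC.Defs1

/-!
# FBC module ClA: the class `Cl` contains the usual elementary functions
-/

namespace Pool.Agent.FBC

theorem Cl.mu' {k : ℕ} {f : (Fin (k + 1) → ℕ) → ℕ} (hf : Cl f) (m : (Fin k → ℕ) → ℕ)
    (h0 : ∀ v, f (Fin.cons (m v) v) = 0) (h1 : ∀ v n, n < m v → f (Fin.cons n v) ≠ 0) : Cl m := by
  have h : ∀ v : Fin k → ℕ, ∃ n, f (Fin.cons n v) = 0 := fun v => ⟨m v, h0 v⟩
  have e : m = fun v => Nat.find (h v) := by
    funext v
    exact ((Nat.find_eq_iff (h v)).2 ⟨h0 v, fun n hn => h1 v n hn⟩).symm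
  rw [e]
  exact Cl.mu hf h

theorem Cl.reindex {k l : ℕ} {f : (Fin k → ℕ) → ℕ} (hf : Cl f) (ρ : Fin k → Fin l) :
    Cl (fun v : Fin l → ℕ => f (fun i => v (ρ i))) := by
  induction hf generalizing l with
  | proj i => exact Cl.proj (ρ i)
  | const n => exact Cl.const n
  | add _ _ h1 h2 => exact Cl.add (h1 ρ) (h2 ρ)
  | mul _ _ h1 h2 => exact Cl.mul (h1 ρ) (h2 ρ)
  | sub _ _ h1 h2 => exact Cl.sub (h1 ρ) (h2 ρ)
  | mu hf h ih =>
    rename_i k f
    have e : ∀ (n : ℕ) (v : Fin l → ℕ), (fun i => (Fin.cons n v : Fin (l + 1) → ℕ)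
        ((Fin.cons 0 (fun i => (ρ i).succ) : Fin (k + 1) → Fin (l + 1)) i)) =
        (Fin.cons n (fun i => v (ρ i)) : Fin (k + 1) → ℕ) := by
      intro n v
      funext i
      refine Fin.cases ?_ (fun i => ?_) i <;> rfl
    apply Cl.mu' (ih (Fin.cons 0 (fun i => (ρ i).succ)))
    · intro v
      exact (congrArg f (e _ v)).trans (Nat.find_spec (h fun i => v (ρ i)))
    · intro v n hn h3
      exact Nat.find_min (h fun i => v (ρ i)) hn ((congrArg f (e _ v)).symm.trans h3)

theorem Cl.subst {k l : ℕ} {f : (Fin k → ℕ) → ℕ} (hf : Cl f) {g : Fin k → (Fin l → ℕ) → ℕ}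
    (hg : ∀ i, Cl (g i)) : Cl (fun v : Fin l → ℕ => f (fun i => g i v)) := by
  induction hf generalizing l with
  | proj i => exact hg i
  | const n => exact Cl.const n
  | add _ _ h1 h2 => exact Cl.add (h1 hg) (h2 hg)
  | mul _ _ h1 h2 => exact Cl.mul (h1 hg) (h2 hg)
  | sub _ _ h1 h2 => exact Cl.sub (h1 hg) (h2 hg)
  | mu hf h ih =>
    rename_i k f
    have key := ih (l := l + 1)
      (g := Fin.cons (fun u => u 0) (fun i u => g i (fun j => u j.succ))) (by
        intro i
        refine Fin.cases ?_ (fun i => ?_) i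
        · exact Cl.proj 0
        · exact (hg i).reindex Fin.succ)
    have e : ∀ (n : ℕ) (v : Fin l → ℕ), (fun i =>
        (Fin.cons (fun u => u 0) (fun i u => g i (fun j => u j.succ)) :
          Fin (k + 1) → (Fin (l + 1) → ℕ) → ℕ) i (Fin.cons n v)) =
        (Fin.cons n (fun i => g i v) : Fin (k + 1) → ℕ) := by
      intro n v
      funext i
      refine Fin.cases ?_ (fun i => ?_) i <;> rfl
    apply Cl.mu' key
    · intro v
      exact (congrArg f (e _ v)).trans (Nat.find_spec (h fun i => g i v))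
    · intro v n hn h3
      exact Nat.find_min (h fun i => g i v) hn ((congrArg f (e _ v)).symm.trans h3)

theorem Cl.ite0 {k : ℕ} {c f g : (Fin k → ℕ) → ℕ} (hc : Cl c) (hf : Cl f) (hg : Cl g) :
    Cl (fun v => if c v = 0 then f v else g v) := by
  have h : Cl (fun v => (1 - c v) * f v + (1 - (1 - c v)) * g v) :=
    (((Cl.const 1).sub hc).mul hf).add (((Cl.const 1).sub ((Cl.const 1).sub hc)).mul hg)
  convert h using 2 with v
  by_cases h0 : c v = 0
  · rw [if_pos h0, h0]; simp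
  · rw [if_neg h0]
    have : 1 - c v = 0 := by omega
    rw [this]; simp

/-- The test `f < g`. -/
theorem Cl.iteLt {k : ℕ} {a b f g : (Fin k → ℕ) → ℕ} (ha : Cl a) (hb : Cl b) (hf : Cl f)
    (hg : Cl g) : Cl (fun v => if a v < b v then f v else g v) := by
  have h : Cl (fun v => if (a v + 1) - b v = 0 then f v else g v) :=
    Cl.ite0 ((ha.add (Cl.const 1)).sub hb) hf hg
  have e : ∀ v, (if a v < b v then f v else g v) = if (a v + 1) - b v = 0 then f v else g v := by
    intro v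
    by_cases h1 : a v < b v
    · rw [if_pos h1, if_pos (by omega)]
    · rw [if_neg h1, if_neg (by omega)]
  rw [funext e]
  exact h

theorem Cl.pair {k : ℕ} {f g : (Fin k → ℕ) → ℕ} (hf : Cl f) (hg : Cl g) :
    Cl (fun v => Nat.pair (f v) (g v)) := by
  unfold Nat.pair
  exact Cl.iteLt hf hg ((hg.mul hg).add hf) (((hf.mul hf).add hf).add hg)

/-- minimisation of a composed function -/
theorem Cl.min {k : ℕ} {f : (Fin (k + 1) → ℕ) → ℕ} (hf : Cl f) (m : (Fin k → ℕ) → ℕ)
    (h0 : ∀ v, f (Fin.cons (m v) v) = 0) (h1 : ∀ v n, n < m v → f (Fin.cons n v) ≠ 0) : Cl m :=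
  Cl.mu' hf m h0 h1

theorem Cl.sqrt {k : ℕ} {f : (Fin k → ℕ) → ℕ} (hf : Cl f) : Cl (fun v => (f v).sqrt) := by
  have hf' : Cl (fun u : Fin (k + 1) → ℕ => f (fun j => u j.succ)) := hf.reindex Fin.succ
  have key : Cl (fun u : Fin (k + 1) → ℕ => (f (fun j => u j.succ) + 1) - (u 0 + 1) * (u 0 + 1)) :=
    (hf'.add (Cl.const 1)).sub (((Cl.proj 0).add (Cl.const 1)).mul ((Cl.proj 0).add (Cl.const 1)))
  apply Cl.mu' key
  · intro v
    change (f v + 1) - ((f v).sqrt + 1) * ((f v).sqrt + 1) = 0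
    have := Nat.lt_succ_sqrt (f v)
    simp only [Nat.succ_eq_add_one] at this
    omega
  · intro v n hn
    change (f v + 1) - (n + 1) * (n + 1) ≠ 0
    have h2 : (n + 1) * (n + 1) ≤ f v := by
      have h3 := Nat.sqrt_le (f v)
      exact le_trans (Nat.mul_le_mul (by omega) (by omega)) h3
    omega

theorem Cl.left {k : ℕ} {f : (Fin k → ℕ) → ℕ} (hf : Cl f) : Cl (fun v => (f v).unpair.1) := by
  have h : Cl (fun v => if f v - (f v).sqrt * (f v).sqrt < (f v).sqrt then
      f v - (f v).sqrt * (f v).sqrt else (f v).sqrt) :=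
    Cl.iteLt (hf.sub (hf.sqrt.mul hf.sqrt)) hf.sqrt (hf.sub (hf.sqrt.mul hf.sqrt)) hf.sqrt
  convert h using 2 with v
  unfold Nat.unpair
  simp only
  split_ifs <;> rfl

theorem Cl.right {k : ℕ} {f : (Fin k → ℕ) → ℕ} (hf : Cl f) : Cl (fun v => (f v).unpair.2) := by
  have h : Cl (fun v => if f v - (f v).sqrt * (f v).sqrt < (f v).sqrt then
      (f v).sqrt else f v - (f v).sqrt * (f v).sqrt - (f v).sqrt) :=
    Cl.iteLt (hf.sub (hf.sqrt.mul hf.sqrt)) hf.sqrt hf.sqrt
      ((hf.sub (hf.sqrt.mul hf.sqrt)).sub hf.sqrt)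
  convert h using 2 with v
  unfold Nat.unpair
  simp only
  split_ifs <;> rfl

theorem Cl.div {k : ℕ} {f g : (Fin k → ℕ) → ℕ} (hf : Cl f) (hg : Cl g) :
    Cl (fun v => f v / g v) := by
  have hf' : Cl (fun u : Fin (k + 1) → ℕ => f (fun j => u j.succ)) := hf.reindex Fin.succ
  have hg' : Cl (fun u : Fin (k + 1) → ℕ => g (fun j => u j.succ)) := hg.reindex Fin.succ
  have key : Cl (fun u : Fin (k + 1) → ℕ => if g (fun j => u j.succ) = 0 then 0 else
      (f (fun j => u j.succ) + 1) - (u 0 + 1) * g (fun j => u j.succ)) :=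
    Cl.ite0 hg' (Cl.const 0) ((hf'.add (Cl.const 1)).sub (((Cl.proj 0).add (Cl.const 1)).mul hg'))
  apply Cl.mu' key
  · intro v
    change (if g v = 0 then 0 else (f v + 1) - (f v / g v + 1) * g v) = 0
    split_ifs with h
    · rfl
    · have h1 : f v < (f v / g v + 1) * g v := by
        have h2 := Nat.div_add_mod (f v) (g v)
        have h3 := Nat.mod_lt (f v) (Nat.pos_of_ne_zero h)
        calc f v = g v * (f v / g v) + f v % g v := h2.symm
          _ < g v * (f v / g v) + g v := by omega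
          _ = (f v / g v + 1) * g v := by ring
      omega
  · intro v n hn
    change (if g v = 0 then 0 else (f v + 1) - (n + 1) * g v) ≠ 0
    change n < f v / g v at hn
    split_ifs with h
    · rw [h, Nat.div_zero] at hn; omega
    · have h1 : (n + 1) * g v ≤ f v := by
        calc (n + 1) * g v ≤ (f v / g v) * g v := Nat.mul_le_mul_right _ (by omega)
          _ ≤ f v := Nat.div_mul_le_self _ _
      omega

theorem Cl.mod {k : ℕ} {f g : (Fin k → ℕ) → ℕ} (hf : Cl f) (hg : Cl g) :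
    Cl (fun v => f v % g v) := by
  have h : Cl (fun v => f v - g v * (f v / g v)) := hf.sub (hg.mul (hf.div hg))
  convert h using 2 with v
  have := Nat.div_add_mod (f v) (g v)
  omega

theorem Cl.beta {k : ℕ} {f g : (Fin k → ℕ) → ℕ} (hf : Cl f) (hg : Cl g) :
    Cl (fun v => Nat.beta (f v) (g v)) := by
  unfold Nat.beta
  exact hf.left.mod (((hg.add (Cl.const 1)).mul hf.right).add (Cl.const 1))

end Pool.Agent.FBC
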