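import Pool.Agent.FBC.RevM
import Pool.Agent.FBC.RevS
import Pool.Agent.FBC.RevC

/-!
# FBC module ClC: the class `Cl` is cleanly computable (with some space)

Induction on `Cl`; case `mu`: `clean_mu` with
`s v = ∑ n ∈ range (mu v + 1), (n + f (cons n v) + σ (cons n v))`.
-/

namespace Pool.Agent.FBC

theorem cl_clean {k : ℕ} {f : (Fin k → ℕ) → ℕ} (hf : Cl f) : ∃ σ, Clean f σ := by
  induction hf with
  | proj i => exact ⟨_, clean_proj i⟩
  | const n => exact ⟨_, clean_const n⟩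
  | add _ _ ih1 ih2 =>
    obtain ⟨σ, h⟩ := ih1
    obtain ⟨τ, h'⟩ := ih2
    exact ⟨_, clean_add h h'⟩
  | mul _ _ ih1 ih2 =>
    obtain ⟨σ, h⟩ := ih1
    obtain ⟨τ, h'⟩ := ih2
    exact ⟨_, clean_mul h h'⟩
  | sub _ _ ih1 ih2 =>
    obtain ⟨σ, h⟩ := ih1
    obtain ⟨τ, h'⟩ := ih2
    exact ⟨_, clean_sub h h'⟩
  | @mu k f hf h ih =>
    obtain ⟨σ, hσ⟩ := ih
    refine ⟨_, clean_mu hσ (fun v => Nat.find (h v))
      (fun v => ∑ n ∈ Finset.range (Nat.find (h v) + 1),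
        (n + f (Fin.cons n v) + σ (Fin.cons n v)))
      (fun v => Nat.find_spec (h v)) (fun v n hn => Nat.find_min (h v) hn) (fun v n hn => ?_)⟩
    exact Finset.single_le_sum
      (f := fun n : ℕ => n + f (Fin.cons n v : Fin (k + 1) → ℕ)
        + σ (Fin.cons n v : Fin (k + 1) → ℕ))
      (fun _ _ => Nat.zero_le _) (Finset.mem_range.2 (by omega))

end Pool.Agent.FBC
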