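import Pool.Agent.FBC.Defs

/-!
# FBC module Comp: the compiler (programs to residue machines)

All by explicit fragments; edges as inductive predicates on sums of types so that `det`, `inj`
are proved by `cases` on both edges. `π i = Nat.nth Nat.Prime i`, `d i` = vertex with
`p = π i, q = 1`, `m i` = vertex with `p = 1, q = π i`, `w` = vertex with `p = q = 1`.
* skip: one vertex `w` (`inn = out`).
* inc i: `w, m i`, edge `(w,0) → (m i,0)`; dec i: `d i, w`, edge `(d i,0) → (w,0)`.
* seq F G: edges of both and `(F.out,0) → (G.inn,0)`.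
* cond i j: vertices of `FP`, `FQ` and `d = d i` (= inn), `mZ = m i`, `dZ = d j`, `m = m j` (= out):
  `(d,0) → (FQ.inn,0)`, `(d,r) → (mZ,r)` for `0 < r < π i`, `(mZ,0) → (FP.inn,0)`,
  `(FP.out,0) → (dZ,0)`, `(dZ,r) → (m,r)` for `0 < r < π j`, `(FQ.out,0) → (m,0)`.
* loop i j: vertices of `FP` and `dZ = d i` (= inn), `m = m i`, `d = d j`, `mZ = m j` (= out):
  `(dZ,r) → (m,r)` for `0 < r < π i`, `(FP.out,0) → (m,0)`, `(m,0) → (d,0)`,
  `(d,0) → (FP.inn,0)`, `(d,r) → (mZ,r)` for `0 < r < π j`.
`code R (inc i x) = π i * code R x` for `i < R`; `x i = 0` iff `code R x` is not divisible by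
`π i`; then `code R x = π i * k + r` with `0 < r < π i` (`Int.emod_emod_of_dvd` etc.).
`RunJ`: all points except possibly the last are in `J`; every point of the run is the code of a
state which occurs in the derivation of `Big I P x y`, so in `I`. (`Big I P x y` implies `I x`,
`I y`: reprove it here by induction, or import RevA: `big_left`, `big_right`.)
-/

namespace Pool.Agent.FBC

/-! ### codes -/

theorem prime_pr (i : ℕ) : (Nat.nth Nat.Prime i).Prime := Nat.prime_nth_prime i

theorem pr_pos (i : ℕ) : 0 < Nat.nth Nat.Prime i := (prime_pr i).pos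

theorem code_inc {R i : ℕ} (hi : i < R) (x : ℕ → ℕ) :
    code R (inc i x) = (Nat.nth Nat.Prime i : ℤ) * code R x := by
  unfold code
  rw [← Nat.cast_mul]
  congr 1
  have hm : i ∈ Finset.range R := Finset.mem_range.mpr hi
  rw [← Finset.mul_prod_erase _ _ hm, ← Finset.mul_prod_erase (Finset.range R)
    (fun i => Nat.nth Nat.Prime i ^ x i) hm, ← mul_assoc]
  congr 1
  · simp only [inc, Function.update_self]
    rw [pow_succ, mul_comm]
  · refine Finset.prod_congr rfl fun j hj => ?_
    simp only [inc]
    rw [Function.update_of_ne (Finset.ne_of_mem_erase hj)]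

theorem code_zero {R i : ℕ} (hi : i < R) (x : ℕ → ℕ) (hx : x i = 0) :
    ∃ (k : ℤ) (r : ℕ), 0 < r ∧ r < Nat.nth Nat.Prime i ∧
      code R x = (Nat.nth Nat.Prime i : ℤ) * k + r := by
  set N : ℕ := ∏ i ∈ Finset.range R, (Nat.nth Nat.Prime i) ^ (x i) with hN
  refine ⟨((N / Nat.nth Nat.Prime i : ℕ) : ℤ), N % Nat.nth Nat.Prime i, ?_,
    Nat.mod_lt _ (pr_pos i), ?_⟩
  · rw [Nat.pos_iff_ne_zero]
    intro h0
    have hd : Nat.nth Nat.Prime i ∣ N := Nat.dvd_of_mod_eq_zero h0
    rw [hN, (prime_pr i).prime.dvd_finsetProd_iff] at hd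
    obtain ⟨j, -, hj⟩ := hd
    have h1 := (prime_pr i).dvd_of_dvd_pow hj
    have h2 := (Nat.prime_dvd_prime_iff_eq (prime_pr i) (prime_pr j)).mp h1
    have h3 : i = j := Nat.nth_injective Nat.infinite_setOfPred_prime h2
    subst h3
    rw [hx, pow_zero] at hj
    exact (prime_pr i).one_lt.ne' (Nat.dvd_one.mp hj)
  · unfold code
    rw [← hN, ← Nat.cast_mul, ← Nat.cast_add]
    congr 1
    exact (Nat.div_add_mod _ _).symm

/-! ### runs -/

theorem RM.RunJ.trans {V : Type} {M : RM V} {J : V × ℤ → Prop} {m n : ℕ} {a b c : V × ℤ}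
    (h1 : M.RunJ J m a b) (h2 : M.RunJ J n b c) : M.RunJ J (m + n) a c := by
  induction h1 with
  | refl a => rw [Nat.zero_add]; exact h2
  | step hJ hs _ ih =>
    rw [Nat.succ_add]
    exact RM.RunJ.step hJ hs (ih h2)

/-- reachability by a run with all points except possibly the last one in `J` -/
def Rch {V : Type} (M : RM V) (J : V × ℤ → Prop) (a b : V × ℤ) : Prop := ∃ n, M.RunJ J n a b

theorem Rch.refl {V : Type} {M : RM V} {J : V × ℤ → Prop} (a : V × ℤ) : Rch M J a a :=
  ⟨0, .refl a⟩

theorem Rch.trans {V : Type} {M : RM V} {J : V × ℤ → Prop} {a b c : V × ℤ}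
    (h1 : Rch M J a b) (h2 : Rch M J b c) : Rch M J a c := by
  obtain ⟨m, h1⟩ := h1
  obtain ⟨n, h2⟩ := h2
  exact ⟨m + n, h1.trans h2⟩

/-- one step along an edge -/
theorem Rch.edge {V : Type} {M : RM V} {J : V × ℤ → Prop} {v w : V} {r c : ℕ} {z z' : ℤ} (k : ℤ)
    (hE : M.E v r w c) (hz : z = M.p v * k + r) (hz' : z' = M.q w * k + c) (hJ : J (v, z)) :
    Rch M J (v, z) (w, z') :=
  ⟨1, .step hJ ⟨k, r, c, hE, hz, hz'⟩ (.refl _)⟩

/-- runs are transported by maps which preserve the edges -/
theorem Rch.map {V V' : Type} {M : RM V} {M' : RM V'} (f : V → V')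
    (hp : ∀ v, M'.p (f v) = M.p v) (hq : ∀ v, M'.q (f v) = M.q v)
    (hE : ∀ v r w c, M.E v r w c → M'.E (f v) r (f w) c) {J : V × ℤ → Prop} {J' : V' × ℤ → Prop}
    (hJ : ∀ v z, J (v, z) → J' (f v, z)) {a b : V × ℤ} (h : Rch M J a b) :
    Rch M' J' (f a.1, a.2) (f b.1, b.2) := by
  obtain ⟨n, h⟩ := h
  induction h with
  | refl a => exact Rch.refl _
  | @step n a b c hJa hs _ ih =>
    refine Rch.trans ?_ ih
    obtain ⟨k, r, c', h1, h2, h3⟩ := hs
    exact Rch.edge k (hE _ _ _ _ h1) (by rw [hp]; exact h2) (by rw [hq]; exact h3)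
      (hJ a.1 a.2 hJa)

theorem big_left' {I : (ℕ → ℕ) → Prop} (P : Prog) : ∀ {x y : ℕ → ℕ}, Big I P x y → I x := by
  induction P with
  | skip => intro x y h; exact h.2
  | inc i => intro x y h; exact h.2.1
  | dec i => intro x y h; exact h.2.1
  | seq P Q ihP ihQ =>
    rintro x y ⟨z, h1, -⟩
    exact ihP h1
  | cond i j P Q ihP ihQ => intro x y h; exact h.1
  | loop i j P ihP => intro x y h; exact h.1

theorem big_right' {I : (ℕ → ℕ) → Prop} (P : Prog) : ∀ {x y : ℕ → ℕ}, Big I P x y → I y := by
  induction P with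
  | skip =>
    rintro x y ⟨rfl, h⟩
    exact h
  | inc i => intro x y h; exact h.2.2
  | dec i => intro x y h; exact h.2.2
  | seq P Q ihP ihQ =>
    rintro x y ⟨z, -, h2⟩
    exact ihQ h2
  | cond i j P Q ihP ihQ => intro x y h; exact h.2.1
  | loop i j P ihP => intro x y h; exact h.2.1

theorem jc {V : Type} {R : ℕ} {I : (ℕ → ℕ) → Prop} {x : ℕ → ℕ} (h : I x) (v : V) :
    Jc R I (v, code R x) := ⟨x, h, rfl⟩

/-! ### skip -/

/-- one vertex -/
def fskip : Frag where
  V := Unit
  fin := inferInstance
  M := {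
    p := fun _ => 1
    q := fun _ => 1
    E := fun _ _ _ _ => False
    hp := fun _ => one_pos
    hq := fun _ => one_pos
    one := fun _ => Or.inl rfl
    lt := fun h => h.elim
    det := fun h => h.elim
    inj := fun h => h.elim }
  inn := ()
  out := ()
  qin := rfl
  pout := rfl
  noin := fun h => h
  noout := fun h => h

theorem fskip_real (R : ℕ) : fskip.Real R .skip := by
  rintro I x y ⟨rfl, -⟩
  exact ⟨0, .refl _⟩

/-! ### increments and decrements -/

/-- two vertices, one edge from the class `0` at `false` to the class `0` at `true` -/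
def f2 (p q : ℕ) (hp : 0 < p) (hq : 0 < q) : Frag where
  V := Bool
  fin := inferInstance
  M := {
    p := fun b => if b then 1 else p
    q := fun b => if b then q else 1
    E := fun v r w c => v = false ∧ r = 0 ∧ w = true ∧ c = 0
    hp := fun b => by cases b <;> simp [hp]
    hq := fun b => by cases b <;> simp [hq]
    one := fun b => by cases b <;> simp
    lt := by
      rintro v r w c ⟨rfl, rfl, rfl, rfl⟩
      simp [hp, hq]
    det := by
      rintro v r w c w' c' ⟨-, -, rfl, rfl⟩ ⟨-, -, rfl, rfl⟩
      exact ⟨rfl, rfl⟩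
    inj := by
      rintro v r v' r' w c ⟨rfl, rfl, -, -⟩ ⟨rfl, rfl, -, -⟩
      exact ⟨rfl, rfl⟩ }
  inn := false
  out := true
  qin := rfl
  pout := rfl
  noin := by
    rintro v r c ⟨-, -, h, -⟩
    exact Bool.noConfusion h
  noout := by
    rintro v r c ⟨h, -, -, -⟩
    exact Bool.noConfusion h

theorem finc_real {R i : ℕ} (hi : i < R) :
    (f2 1 (Nat.nth Nat.Prime i) one_pos (pr_pos i)).Real R (.inc i) := by
  rintro I x y ⟨rfl, hx, -⟩
  refine Rch.edge (v := false) (w := true) (r := 0) (c := 0) (code R x) ⟨rfl, rfl, rfl, rfl⟩ ?_ ?_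
    (jc hx _)
  · simp [f2]
  · simp [f2, code_inc hi]

theorem fdec_real {R i : ℕ} (hi : i < R) :
    (f2 (Nat.nth Nat.Prime i) 1 (pr_pos i) one_pos).Real R (.dec i) := by
  rintro I x y ⟨rfl, hx, -⟩
  refine Rch.edge (v := false) (w := true) (r := 0) (c := 0) (code R y) ⟨rfl, rfl, rfl, rfl⟩ ?_ ?_
    (jc hx _)
  · simp [f2, code_inc hi]
  · simp [f2]

/-! ### composition -/

/-- the edges of the composition -/
inductive SeqE (F G : Frag) : F.V ⊕ G.V → ℕ → F.V ⊕ G.V → ℕ → Prop
  | l {v r w c} : F.M.E v r w c → SeqE F G (.inl v) r (.inl w) c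
  | r {v r w c} : G.M.E v r w c → SeqE F G (.inr v) r (.inr w) c
  | lr : SeqE F G (.inl F.out) 0 (.inr G.inn) 0

/-- the composition -/
def fseq (F G : Frag) : Frag where
  V := F.V ⊕ G.V
  fin := by
    have := F.fin
    have := G.fin
    infer_instance
  M := {
    p := Sum.elim F.M.p G.M.p
    q := Sum.elim F.M.q G.M.q
    E := SeqE F G
    hp := by
      rintro (v | v)
      · exact F.M.hp v
      · exact G.M.hp v
    hq := by
      rintro (v | v)
      · exact F.M.hq v
      · exact G.M.hq v
    one := by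
      rintro (v | v)
      · exact F.M.one v
      · exact G.M.one v
    lt := by
      rintro v r w c h
      cases h with
      | l h => exact F.M.lt h
      | r h => exact G.M.lt h
      | lr =>
        simp only [Sum.elim_inl, Sum.elim_inr]
        rw [F.pout, G.qin]
        exact ⟨one_pos, one_pos⟩
    det := by
      intro v r w c w' c' h h'
      cases h with
      | l h =>
        cases h' with
        | l h' =>
          obtain ⟨rfl, rfl⟩ := F.M.det h h'
          exact ⟨rfl, rfl⟩
        | lr => exact (F.noout h).elim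
      | r h =>
        cases h' with
        | r h' =>
          obtain ⟨rfl, rfl⟩ := G.M.det h h'
          exact ⟨rfl, rfl⟩
      | lr =>
        cases h' with
        | l h' => exact (F.noout h').elim
        | lr => exact ⟨rfl, rfl⟩
    inj := by
      intro v r v' r' w c h h'
      cases h with
      | l h =>
        cases h' with
        | l h' =>
          obtain ⟨rfl, rfl⟩ := F.M.inj h h'
          exact ⟨rfl, rfl⟩
      | r h =>
        cases h' with
        | r h' =>
          obtain ⟨rfl, rfl⟩ := G.M.inj h h'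
          exact ⟨rfl, rfl⟩
        | lr => exact (G.noin h).elim
      | lr =>
        cases h' with
        | r h' => exact (G.noin h').elim
        | lr => exact ⟨rfl, rfl⟩ }
  inn := .inl F.inn
  out := .inr G.out
  qin := F.qin
  pout := G.pout
  noin := by
    intro v r c h
    cases h with
    | l h => exact F.noin h
  noout := by
    intro v r c h
    cases h with
    | r h => exact G.noout h

theorem fseq_real {F G : Frag} {R : ℕ} {P Q : Prog} (hF : F.Real R P) (hG : G.Real R Q) :
    (fseq F G).Real R (.seq P Q) := by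
  rintro I x z ⟨y, h1, h2⟩
  have r1 : Rch (fseq F G).M (Jc R I) (.inl F.inn, code R x) (.inl F.out, code R y) :=
    Rch.map (M := F.M) (M' := (fseq F G).M) Sum.inl (fun _ => rfl) (fun _ => rfl)
      (fun _ _ _ _ h => SeqE.l h) (fun _ _ h => h) (hF I x y h1)
  have r2 : Rch (fseq F G).M (Jc R I) (.inr G.inn, code R y) (.inr G.out, code R z) :=
    Rch.map (M := G.M) (M' := (fseq F G).M) Sum.inr (fun _ => rfl) (fun _ => rfl)
      (fun _ _ _ _ h => SeqE.r h) (fun _ _ h => h) (hG I y z h2)
  refine r1.trans (Rch.trans ?_ r2)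
  refine Rch.edge (code R y) SeqE.lr ?_ ?_ (jc (big_right' P h1) _)
  · have : (fseq F G).M.p (.inl F.out) = 1 := F.pout
    rw [this]
    simp
  · have : (fseq F G).M.q (.inr G.inn) = 1 := G.qin
    rw [this]
    simp

/-! ### conditionals -/

/-- vertices of a conditional -/
inductive VC (A B : Type) : Type
  | P (v : A)
  | Q (v : B)
  | d
  | mZ
  | dZ
  | m

theorem VC.fin {A B : Type} [Finite A] [Finite B] : Finite (VC A B) := by
  refine Finite.of_injective (β := A ⊕ B ⊕ Fin 4) (fun v => match v with
    | .P v => .inl v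
    | .Q v => .inr (.inl v)
    | .d => .inr (.inr 0)
    | .mZ => .inr (.inr 1)
    | .dZ => .inr (.inr 2)
    | .m => .inr (.inr 3)) ?_
  intro v w h
  cases v <;> cases w <;> simp_all

/-- modulus of the source -/
def VC.p {A B : Type} (pA : A → ℕ) (pB : B → ℕ) (a b : ℕ) : VC A B → ℕ
  | .P v => pA v
  | .Q v => pB v
  | .d => a
  | .mZ => 1
  | .dZ => b
  | .m => 1

/-- modulus of the target -/
def VC.q {A B : Type} (pA : A → ℕ) (pB : B → ℕ) (a b : ℕ) : VC A B → ℕ
  | .P v => pA v
  | .Q v => pB v
  | .d => 1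
  | .mZ => a
  | .dZ => 1
  | .m => b

/-- the edges of a conditional -/
inductive CondE (F G : Frag) (a b : ℕ) : VC F.V G.V → ℕ → VC F.V G.V → ℕ → Prop
  | P {v r w c} : F.M.E v r w c → CondE F G a b (.P v) r (.P w) c
  | Q {v r w c} : G.M.E v r w c → CondE F G a b (.Q v) r (.Q w) c
  | d0 : CondE F G a b .d 0 (.Q G.inn) 0
  | d1 {r} : 0 < r → r < a → CondE F G a b .d r .mZ r
  | z0 : CondE F G a b .mZ 0 (.P F.inn) 0
  | z1 : CondE F G a b (.P F.out) 0 .dZ 0
  | e1 {r} : 0 < r → r < b → CondE F G a b .dZ r .m r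
  | e0 : CondE F G a b (.Q G.out) 0 .m 0

/-- the conditional -/
def fcond (F G : Frag) (a b : ℕ) (ha : 0 < a) (hb : 0 < b) : Frag where
  V := VC F.V G.V
  fin := by
    have := F.fin
    have := G.fin
    exact VC.fin
  M := {
    p := VC.p F.M.p G.M.p a b
    q := VC.q F.M.q G.M.q a b
    E := CondE F G a b
    hp := by
      intro v
      cases v with
      | P v => exact F.M.hp v
      | Q v => exact G.M.hp v
      | d => exact ha
      | mZ => exact one_pos
      | dZ => exact hb
      | m => exact one_pos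
    hq := by
      intro v
      cases v with
      | P v => exact F.M.hq v
      | Q v => exact G.M.hq v
      | d => exact one_pos
      | mZ => exact ha
      | dZ => exact one_pos
      | m => exact hb
    one := by
      intro v
      cases v with
      | P v => exact F.M.one v
      | Q v => exact G.M.one v
      | d => exact Or.inr rfl
      | mZ => exact Or.inl rfl
      | dZ => exact Or.inr rfl
      | m => exact Or.inl rfl
    lt := by
      intro v r w c h
      cases h with
      | P h => exact F.M.lt h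
      | Q h => exact G.M.lt h
      | d0 => exact ⟨ha, by simp only [VC.q]; rw [G.qin]; exact one_pos⟩
      | d1 h1 h2 => exact ⟨h2, h2⟩
      | z0 => exact ⟨one_pos, by simp only [VC.q]; rw [F.qin]; exact one_pos⟩
      | z1 => exact ⟨by simp only [VC.p]; rw [F.pout]; exact one_pos, one_pos⟩
      | e1 h1 h2 => exact ⟨h2, h2⟩
      | e0 => exact ⟨by simp only [VC.p]; rw [G.pout]; exact one_pos, hb⟩
    det := by
      intro v r w c w' c' h h'
      cases h with
      | P h =>
        cases h' with
        | P h' =>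
          obtain ⟨rfl, rfl⟩ := F.M.det h h'
          exact ⟨rfl, rfl⟩
        | z1 => exact (F.noout h).elim
      | Q h =>
        cases h' with
        | Q h' =>
          obtain ⟨rfl, rfl⟩ := G.M.det h h'
          exact ⟨rfl, rfl⟩
        | e0 => exact (G.noout h).elim
      | d0 =>
        cases h' with
        | d0 => exact ⟨rfl, rfl⟩
        | d1 h1 h2 => exact (lt_irrefl _ h1).elim
      | d1 h1 h2 =>
        cases h' with
        | d0 => exact (lt_irrefl _ h1).elim
        | d1 h1' h2' => exact ⟨rfl, rfl⟩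
      | z0 =>
        cases h'
        exact ⟨rfl, rfl⟩
      | z1 =>
        cases h' with
        | P h' => exact (F.noout h').elim
        | z1 => exact ⟨rfl, rfl⟩
      | e1 h1 h2 =>
        cases h'
        exact ⟨rfl, rfl⟩
      | e0 =>
        cases h' with
        | Q h' => exact (G.noout h').elim
        | e0 => exact ⟨rfl, rfl⟩
    inj := by
      intro v r v' r' w c h h'
      cases h with
      | P h =>
        cases h' with
        | P h' =>
          obtain ⟨rfl, rfl⟩ := F.M.inj h h'
          exact ⟨rfl, rfl⟩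
        | z0 => exact (F.noin h).elim
      | Q h =>
        cases h' with
        | Q h' =>
          obtain ⟨rfl, rfl⟩ := G.M.inj h h'
          exact ⟨rfl, rfl⟩
        | d0 => exact (G.noin h).elim
      | d0 =>
        cases h' with
        | Q h' => exact (G.noin h').elim
        | d0 => exact ⟨rfl, rfl⟩
      | d1 h1 h2 =>
        cases h'
        exact ⟨rfl, rfl⟩
      | z0 =>
        cases h' with
        | P h' => exact (F.noin h').elim
        | z0 => exact ⟨rfl, rfl⟩
      | z1 =>
        cases h'
        exact ⟨rfl, rfl⟩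
      | e1 h1 h2 =>
        cases h' with
        | e1 h1' h2' => exact ⟨rfl, rfl⟩
        | e0 => exact (lt_irrefl _ h1).elim
      | e0 =>
        cases h' with
        | e1 h1 h2 => exact (lt_irrefl _ h1).elim
        | e0 => exact ⟨rfl, rfl⟩ }
  inn := .d
  out := .m
  qin := rfl
  pout := rfl
  noin := by
    intro v r c h
    cases h
  noout := by
    intro r v c h
    cases h

theorem fcond_real {F G : Frag} {R i j : ℕ} {P Q : Prog} (hi : i < R) (hj : j < R)
    (hF : F.Real R P) (hG : G.Real R Q) :
    (fcond F G _ _ (pr_pos i) (pr_pos j)).Real R (.cond i j P Q) := by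
  rintro I x y ⟨hx, hy, ⟨hxi, hP, hyj⟩ | ⟨x', y', rfl, hQ, rfl⟩⟩
  · obtain ⟨k, r, hr0, hr, hk⟩ := code_zero hi x hxi
    obtain ⟨k', r', hr0', hr', hk'⟩ := code_zero hj y hyj
    set M := (fcond F G _ _ (pr_pos i) (pr_pos j)).M with hM
    have s1 : Rch M (Jc R I) (.d, code R x) (.mZ, code R x) :=
      Rch.edge k (CondE.d1 hr0 hr) hk hk (jc hx _)
    have s2 : Rch M (Jc R I) (.mZ, code R x) (.P F.inn, code R x) := by
      refine Rch.edge (code R x) CondE.z0 ?_ ?_ (jc hx _)
      · have : M.p .mZ = 1 := rfl
        rw [this]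
        simp
      · have : M.q (.P F.inn) = 1 := F.qin
        rw [this]
        simp
    have s3 : Rch M (Jc R I) (.P F.inn, code R x) (.P F.out, code R y) :=
      Rch.map (M := F.M) (M' := M) VC.P (fun _ => rfl) (fun _ => rfl)
        (fun _ _ _ _ h => CondE.P h) (fun _ _ h => h) (hF I x y hP)
    have s4 : Rch M (Jc R I) (.P F.out, code R y) (.dZ, code R y) := by
      refine Rch.edge (code R y) CondE.z1 ?_ ?_ (jc hy _)
      · have : M.p (.P F.out) = 1 := F.pout
        rw [this]
        simp
      · have : M.q .dZ = 1 := rfl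
        rw [this]
        simp
    have s5 : Rch M (Jc R I) (.dZ, code R y) (.m, code R y) :=
      Rch.edge k' (CondE.e1 hr0' hr') hk' hk' (jc hy _)
    exact s1.trans (s2.trans (s3.trans (s4.trans s5)))
  · set M := (fcond F G _ _ (pr_pos i) (pr_pos j)).M with hM
    have s1 : Rch M (Jc R I) (.d, code R (inc i x')) (.Q G.inn, code R x') := by
      refine Rch.edge (code R x') CondE.d0 ?_ ?_ (jc hx _)
      · rw [code_inc hi]
        have : M.p .d = Nat.nth Nat.Prime i := rfl
        rw [this]
        simp
      · have : M.q (.Q G.inn) = 1 := G.qin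
        rw [this]
        simp
    have s2 : Rch M (Jc R I) (.Q G.inn, code R x') (.Q G.out, code R y') :=
      Rch.map (M := G.M) (M' := M) VC.Q (fun _ => rfl) (fun _ => rfl)
        (fun _ _ _ _ h => CondE.Q h) (fun _ _ h => h) (hG I x' y' hQ)
    have s3 : Rch M (Jc R I) (.Q G.out, code R y') (.m, code R (inc j y')) := by
      refine Rch.edge (code R y') CondE.e0 ?_ ?_ (jc (big_right' Q hQ) _)
      · have : M.p (.Q G.out) = 1 := G.pout
        rw [this]
        simp
      · rw [code_inc hj]
        have : M.q .m = Nat.nth Nat.Prime j := rfl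
        rw [this]
        simp
    exact s1.trans (s2.trans s3)

/-! ### loops -/

/-- vertices of a loop -/
inductive VL (A : Type) : Type
  | P (v : A)
  | dZ
  | m
  | d
  | mZ

theorem VL.fin {A : Type} [Finite A] : Finite (VL A) := by
  refine Finite.of_injective (β := A ⊕ Fin 4) (fun v => match v with
    | .P v => .inl v
    | .dZ => .inr 0
    | .m => .inr 1
    | .d => .inr 2
    | .mZ => .inr 3) ?_
  intro v w h
  cases v <;> cases w <;> simp_all

/-- modulus of the source -/
def VL.p {A : Type} (pA : A → ℕ) (a b : ℕ) : VL A → ℕ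
  | .P v => pA v
  | .dZ => a
  | .m => 1
  | .d => b
  | .mZ => 1

/-- modulus of the target -/
def VL.q {A : Type} (pA : A → ℕ) (a b : ℕ) : VL A → ℕ
  | .P v => pA v
  | .dZ => 1
  | .m => a
  | .d => 1
  | .mZ => b

/-- the edges of a loop -/
inductive LoopE (F : Frag) (a b : ℕ) : VL F.V → ℕ → VL F.V → ℕ → Prop
  | P {v r w c} : F.M.E v r w c → LoopE F a b (.P v) r (.P w) c
  | z {r} : 0 < r → r < a → LoopE F a b .dZ r .m r
  | b : LoopE F a b (.P F.out) 0 .m 0
  | md : LoopE F a b .m 0 .d 0
  | d0 : LoopE F a b .d 0 (.P F.inn) 0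
  | d1 {r} : 0 < r → r < b → LoopE F a b .d r .mZ r

/-- the loop -/
def floop (F : Frag) (a b : ℕ) (ha : 0 < a) (hb : 0 < b) : Frag where
  V := VL F.V
  fin := by
    have := F.fin
    exact VL.fin
  M := {
    p := VL.p F.M.p a b
    q := VL.q F.M.q a b
    E := LoopE F a b
    hp := by
      intro v
      cases v with
      | P v => exact F.M.hp v
      | dZ => exact ha
      | m => exact one_pos
      | d => exact hb
      | mZ => exact one_pos
    hq := by
      intro v
      cases v with
      | P v => exact F.M.hq v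
      | dZ => exact one_pos
      | m => exact ha
      | d => exact one_pos
      | mZ => exact hb
    one := by
      intro v
      cases v with
      | P v => exact F.M.one v
      | dZ => exact Or.inr rfl
      | m => exact Or.inl rfl
      | d => exact Or.inr rfl
      | mZ => exact Or.inl rfl
    lt := by
      intro v r w c h
      cases h with
      | P h => exact F.M.lt h
      | z h1 h2 => exact ⟨h2, h2⟩
      | b => exact ⟨by simp only [VL.p]; rw [F.pout]; exact one_pos, ha⟩
      | md => exact ⟨one_pos, one_pos⟩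
      | d0 => exact ⟨hb, by simp only [VL.q]; rw [F.qin]; exact one_pos⟩
      | d1 h1 h2 => exact ⟨h2, h2⟩
    det := by
      intro v r w c w' c' h h'
      cases h with
      | P h =>
        cases h' with
        | P h' =>
          obtain ⟨rfl, rfl⟩ := F.M.det h h'
          exact ⟨rfl, rfl⟩
        | b => exact (F.noout h).elim
      | z h1 h2 =>
        cases h'
        exact ⟨rfl, rfl⟩
      | b =>
        cases h' with
        | P h' => exact (F.noout h').elim
        | b => exact ⟨rfl, rfl⟩
      | md =>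
        cases h'
        exact ⟨rfl, rfl⟩
      | d0 =>
        cases h' with
        | d0 => exact ⟨rfl, rfl⟩
        | d1 h1 h2 => exact (lt_irrefl _ h1).elim
      | d1 h1 h2 =>
        cases h' with
        | d0 => exact (lt_irrefl _ h1).elim
        | d1 h1' h2' => exact ⟨rfl, rfl⟩
    inj := by
      intro v r v' r' w c h h'
      cases h with
      | P h =>
        cases h' with
        | P h' =>
          obtain ⟨rfl, rfl⟩ := F.M.inj h h'
          exact ⟨rfl, rfl⟩
        | d0 => exact (F.noin h).elim
      | z h1 h2 =>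
        cases h' with
        | z h1' h2' => exact ⟨rfl, rfl⟩
        | b => exact (lt_irrefl _ h1).elim
      | b =>
        cases h' with
        | z h1 h2 => exact (lt_irrefl _ h1).elim
        | b => exact ⟨rfl, rfl⟩
      | md =>
        cases h'
        exact ⟨rfl, rfl⟩
      | d0 =>
        cases h' with
        | P h' => exact (F.noin h').elim
        | d0 => exact ⟨rfl, rfl⟩
      | d1 h1 h2 =>
        cases h'
        exact ⟨rfl, rfl⟩ }
  inn := .dZ
  out := .mZ
  qin := rfl
  pout := rfl
  noin := by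
    intro v r c h
    cases h
  noout := by
    intro r v c h
    cases h

theorem floop_real {F : Frag} {R i j : ℕ} {P : Prog} (hi : i < R) (hj : j < R)
    (hF : F.Real R P) :
    (floop F _ _ (pr_pos i) (pr_pos j)).Real R (.loop i j P) := by
  rintro I x y ⟨hx, hy, hxi, hyj, hxy⟩
  obtain ⟨k, r, hr0, hr, hk⟩ := code_zero hi x hxi
  obtain ⟨k', r', hr0', hr', hk'⟩ := code_zero hj y hyj
  set M := (floop F _ _ (pr_pos i) (pr_pos j)).M with hM
  have s1 : Rch M (Jc R I) (.dZ, code R x) (.m, code R x) :=
    Rch.edge k (LoopE.z hr0 hr) hk hk (jc hx _)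
  have smd : ∀ u, I u → Rch M (Jc R I) (.m, code R u) (.d, code R u) := by
    intro u hu
    refine Rch.edge (code R u) LoopE.md ?_ ?_ (jc hu _)
    · have : M.p .m = 1 := rfl
      rw [this]
      simp
    · have : M.q .d = 1 := rfl
      rw [this]
      simp
  have s2 : Rch M (Jc R I) (.m, code R x) (.m, code R y) := by
    clear hk hk' s1 hxi hyj
    induction hxy with
    | refl => exact Rch.refl _
    | @tail u v _ huv ih =>
      obtain ⟨hu, hv, u', v', rfl, hP, rfl⟩ := huv
      refine (ih hu).trans ((smd _ hu).trans ?_)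
      have t1 : Rch M (Jc R I) (.d, code R (inc j u')) (.P F.inn, code R u') := by
        refine Rch.edge (code R u') LoopE.d0 ?_ ?_ (jc hu _)
        · rw [code_inc hj]
          have : M.p .d = Nat.nth Nat.Prime j := rfl
          rw [this]
          simp
        · have : M.q (.P F.inn) = 1 := F.qin
          rw [this]
          simp
      have t2 : Rch M (Jc R I) (.P F.inn, code R u') (.P F.out, code R v') :=
        Rch.map (M := F.M) (M' := M) VL.P (fun _ => rfl) (fun _ => rfl)
          (fun _ _ _ _ h => LoopE.P h) (fun _ _ h => h) (hF I u' v' hP)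
      have t3 : Rch M (Jc R I) (.P F.out, code R v') (.m, code R (inc i v')) := by
        refine Rch.edge (code R v') LoopE.b ?_ ?_ (jc (big_right' P hP) _)
        · have : M.p (.P F.out) = 1 := F.pout
          rw [this]
          simp
        · rw [code_inc hi]
          have : M.q .m = Nat.nth Nat.Prime i := rfl
          rw [this]
          simp
      exact t1.trans (t2.trans t3)
  have s3 : Rch M (Jc R I) (.d, code R y) (.mZ, code R y) :=
    Rch.edge k' (LoopE.d1 hr0' hr') hk' hk' (jc hy _)
  exact s1.trans (s2.trans ((smd y hy).trans s3))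

theorem compile (R : ℕ) (P : Prog) (hP : P.In {r | r < R}) : ∃ F : Frag, F.Real R P := by
  induction P with
  | skip => exact ⟨fskip, fskip_real R⟩
  | inc i => exact ⟨_, finc_real hP⟩
  | dec i => exact ⟨_, fdec_real hP⟩
  | seq P Q ihP ihQ =>
    obtain ⟨F, hF⟩ := ihP hP.1
    obtain ⟨G, hG⟩ := ihQ hP.2
    exact ⟨_, fseq_real hF hG⟩
  | cond i j P Q ihP ihQ =>
    obtain ⟨hi, hj, hP1, hQ1⟩ := hP
    obtain ⟨F, hF⟩ := ihP hP1
    obtain ⟨G, hG⟩ := ihQ hQ1
    exact ⟨_, fcond_real hi hj hF hG⟩
  | loop i j P ihP =>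
    obtain ⟨hi, hj, hP1⟩ := hP
    obtain ⟨F, hF⟩ := ihP hP1
    exact ⟨_, floop_real hi hj hF⟩

end Pool.Agent.FBC
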