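import Pool.Agent.FBC.Defs

/-!
# FBC module Compl: completion of residue machines

`complete`: `I2 = Σ v, Fin (p v)`, `I1 = Σ v, Fin (q v)`; `E` is a partial injection from `I2` to
`I1`. Let `d = |#I2 - #I1|`; `V' = V ⊕ Fin d`; the new vertices have `(p, q) = (1, 2)` if
`#I2 ≥ #I1` and `(2, 1)` otherwise; then `#I2' = #I1'` and the partial injection extends to a
bijection (e.g. compose with some equivalence `I1' ≃ I2'` and use `Equiv.extendSubtype`, or
`Equiv.Set.sumCompl` and `Fintype.card` of the two complements).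
`mach_complete`: all data of `Mach` are mapped by `ι`; a run is mapped to a run.
-/

namespace Pool.Agent.FBC

/-- A partial injection between two finite types of the same cardinality extends to a
bijection. -/
theorem exists_equiv_of_partial {α β : Type} [Finite α] [Finite β]
    (h : Nat.card α = Nat.card β) (R : α → β → Prop)
    (hdet : ∀ a b b', R a b → R a b' → b = b') (hinj : ∀ a a' b, R a b → R a' b → a = a') :
    ∃ e : α ≃ β, ∀ a b, R a b → e a = b := by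
  classical
  have := Fintype.ofFinite α
  have := Fintype.ofFinite β
  rw [Nat.card_eq_fintype_card, Nat.card_eq_fintype_card] at h
  rcases isEmpty_or_nonempty β with hb | ⟨⟨b0⟩⟩
  · exact ⟨Fintype.equivOfCardEq h, fun a b _ => (hb.false b).elim⟩
  · let f : α → β := fun a => if h : ∃ b, R a b then h.choose else b0
    have hf : ∀ a b, R a b → f a = b := by
      intro a b hab
      have hex : ∃ b, R a b := ⟨b, hab⟩
      have : f a = hex.choose := dif_pos hex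
      rw [this]
      exact hdet a _ _ hex.choose_spec hab
    obtain ⟨g, hg⟩ := Set.MapsTo.exists_equiv_extend_of_card_eq (t := (Finset.univ : Finset β))
      (s := {a | ∃ b, R a b}) (f := f) (by rw [h, Finset.card_univ])
      (fun a _ => Finset.mem_coe.2 (Finset.mem_univ _))
      (by
        rintro a ⟨b, hb⟩ a' ⟨b', hb'⟩ he
        rw [hf a b hb, hf a' b' hb'] at he
        exact hinj a a' b hb (he ▸ hb'))
    refine ⟨g.trans (Equiv.subtypeUnivEquiv fun b => Finset.mem_univ b), fun a b hab => ?_⟩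
    have h1 := hg a ⟨b, hab⟩
    rw [hf a b hab] at h1
    simpa using h1

/-- The machine with given `p`, `q` and a bijection of the classes. -/
def ofEquiv {V : Type} (p q : V → ℕ) (hp : ∀ v, 0 < p v) (hq : ∀ v, 0 < q v)
    (one : ∀ v, p v = 1 ∨ q v = 1) (e : (Σ v, Fin (p v)) ≃ (Σ v, Fin (q v))) : RM V where
  p := p
  q := q
  E v r w c := ∃ (hr : r < p v) (hc : c < q w), e ⟨v, ⟨r, hr⟩⟩ = ⟨w, ⟨c, hc⟩⟩
  hp := hp
  hq := hq
  one := one
  lt := by
    rintro v r v' c ⟨hr, hc, -⟩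
    exact ⟨hr, hc⟩
  det := by
    rintro v r v₁ c₁ v₂ c₂ ⟨hr, hc, h⟩ ⟨hr', hc', h'⟩
    have := h.symm.trans h'
    rw [Sigma.mk.injEq] at this
    obtain ⟨rfl, h2⟩ := this
    refine ⟨rfl, ?_⟩
    have := eq_of_heq h2
    exact congrArg Fin.val this
  inj := by
    rintro v r v₁ r₁ w c ⟨hr, hc, h⟩ ⟨hr', hc', h'⟩
    have := e.injective (h.trans h'.symm)
    rw [Sigma.mk.injEq] at this
    obtain ⟨rfl, h2⟩ := this
    refine ⟨rfl, ?_⟩
    have := eq_of_heq h2
    exact congrArg Fin.val this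

theorem ofEquiv_total {V : Type} (p q : V → ℕ) (hp : ∀ v, 0 < p v) (hq : ∀ v, 0 < q v)
    (one : ∀ v, p v = 1 ∨ q v = 1) (e : (Σ v, Fin (p v)) ≃ (Σ v, Fin (q v))) :
    (ofEquiv p q hp hq one e).Total where
  out v r hr := ⟨(e ⟨v, ⟨r, hr⟩⟩).1, (e ⟨v, ⟨r, hr⟩⟩).2, hr, (e ⟨v, ⟨r, hr⟩⟩).2.2, rfl⟩
  inn w c hc := by
    refine ⟨(e.symm ⟨w, ⟨c, hc⟩⟩).1, (e.symm ⟨w, ⟨c, hc⟩⟩).2, (e.symm ⟨w, ⟨c, hc⟩⟩).2.2, hc, ?_⟩
    exact e.apply_symm_apply _

theorem complete {V : Type} [Finite V] (M : RM V) :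
    ∃ (V' : Type) (_ : Finite V') (M' : RM V') (ι : V → V'), Function.Injective ι ∧ M'.Total ∧
      (∀ v, M'.p (ι v) = M.p v) ∧ (∀ v, M'.q (ι v) = M.q v) ∧
      (∀ v r w c, M.E v r w c → M'.E (ι v) r (ι w) c) := by
  classical
  have := Fintype.ofFinite V
  -- the number of new vertices and their types
  obtain ⟨d, pp, qq, hpq, hsum⟩ : ∃ d pp qq : ℕ, ((pp = 1 ∧ qq = 2) ∨ (pp = 2 ∧ qq = 1)) ∧
      (∑ v, M.p v) + d * pp = (∑ v, M.q v) + d * qq := by
    rcases le_total (∑ v, M.q v) (∑ v, M.p v) with h | h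
    · exact ⟨(∑ v, M.p v) - ∑ v, M.q v, 1, 2, Or.inl ⟨rfl, rfl⟩, by omega⟩
    · exact ⟨(∑ v, M.q v) - ∑ v, M.p v, 2, 1, Or.inr ⟨rfl, rfl⟩, by omega⟩
  let p : V ⊕ Fin d → ℕ := Sum.elim M.p fun _ => pp
  let q : V ⊕ Fin d → ℕ := Sum.elim M.q fun _ => qq
  have hp : ∀ v, 0 < p v := by
    rintro (v | i)
    · exact M.hp v
    · show 0 < pp
      omega
  have hq : ∀ v, 0 < q v := by
    rintro (v | i)
    · exact M.hq v
    · show 0 < qq
      omega
  have one : ∀ v, p v = 1 ∨ q v = 1 := by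
    rintro (v | i)
    · exact M.one v
    · show pp = 1 ∨ qq = 1
      omega
  have hcard : Nat.card (Σ v, Fin (p v)) = Nat.card (Σ v, Fin (q v)) := by
    rw [Nat.card_eq_fintype_card, Nat.card_eq_fintype_card, Fintype.card_sigma,
      Fintype.card_sigma]
    simp only [Fintype.card_fin, Fintype.sum_sum_type, p, q, Sum.elim_inl, Sum.elim_inr,
      Finset.sum_const, Finset.card_univ, smul_eq_mul]
    exact hsum
  let R : (Σ v, Fin (p v)) → (Σ v, Fin (q v)) → Prop := fun x y =>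
    ∃ v w, x.1 = .inl v ∧ y.1 = .inl w ∧ M.E v x.2 w y.2
  obtain ⟨e, he⟩ := exists_equiv_of_partial hcard R
    (by
      rintro ⟨x, r⟩ ⟨y, c⟩ ⟨y', c'⟩ ⟨v, w, hx, hy, hE⟩ ⟨v', w', hx', hy', hE'⟩
      simp only at hx hy hE hx' hy' hE'
      subst hx hy hy'
      obtain rfl := Sum.inl_injective hx'
      obtain ⟨rfl, h2⟩ := M.det hE hE'
      have : c = c' := Fin.ext h2
      rw [this])
    (by
      rintro ⟨x, r⟩ ⟨x', r'⟩ ⟨y, c⟩ ⟨v, w, hx, hy, hE⟩ ⟨v', w', hx', hy', hE'⟩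
      simp only at hx hy hE hx' hy' hE'
      subst hx hy hx'
      obtain rfl := Sum.inl_injective hy'
      obtain ⟨rfl, h2⟩ := M.inj hE hE'
      have : r = r' := Fin.ext h2
      rw [this])
  refine ⟨V ⊕ Fin d, inferInstance, ofEquiv p q hp hq one e, Sum.inl, Sum.inl_injective,
    ofEquiv_total p q hp hq one e, fun v => rfl, fun v => rfl, fun v r w c h => ?_⟩
  obtain ⟨hr, hc⟩ := M.lt h
  exact ⟨hr, hc, he ⟨.inl v, ⟨r, hr⟩⟩ ⟨.inl w, ⟨c, hc⟩⟩ ⟨v, w, rfl, rfl, h⟩⟩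

section

variable {V V' : Type} {M : RM V} {M' : RM V'} {ι : V → V'} (hp : ∀ v, M'.p (ι v) = M.p v)
  (hq : ∀ v, M'.q (ι v) = M.q v) (hE : ∀ v r w c, M.E v r w c → M'.E (ι v) r (ι w) c)

include hp hq hE

theorem RM.Step.map {a b : V × ℤ} (h : M.Step a b) : M'.Step (ι a.1, a.2) (ι b.1, b.2) := by
  obtain ⟨k, r, c, h1, h2, h3⟩ := h
  exact ⟨k, r, c, hE _ _ _ _ h1, by simpa [hp] using h2, by simpa [hq] using h3⟩

theorem RM.Run.map {n : ℕ} {a b : V × ℤ} (h : M.Run n a b) :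
    M'.Run n (ι a.1, a.2) (ι b.1, b.2) := by
  induction h with
  | refl a => exact .refl _
  | step h1 _ ih => exact .step (h1.map hp hq hE) ih

end

theorem mach_complete {V : Type} [Finite V] {M : RM V} {v0 u j mS : V} {Dm : ℕ → Prop}
    {nu lo Y : ℕ → ℕ} (h : Mach M v0 u j mS Dm nu lo Y) :
    ∃ (V' : Type) (_ : Finite V') (M' : RM V') (v0' u' j' mS' : V'), M'.Total ∧
      Mach M' v0' u' j' mS' Dm nu lo Y := by
  obtain ⟨V', hV', M', ι, -, htot, hp, hq, hE⟩ := complete M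
  refine ⟨V', hV', M', ι v0, ι u, ι j, ι mS, htot, ?_⟩
  exact
    { p0 := by rw [hp, h.p0]
      q0 := by rw [hq, h.q0]
      e0 := hE _ _ _ _ h.e0
      pu := by rw [hp, h.pu]
      qu := by rw [hq, h.qu]
      eu := hE _ _ _ _ h.eu
      qj := by rw [hq, h.qj]
      pm := by rw [hp, h.pm]
      qm := by rw [hq, h.qm]
      ld := by
        obtain ⟨w, κ, a1, a2, a3, a4, a5, a6, a7⟩ := h.ld
        exact ⟨ι w, ι κ, by rw [hp, a1], by rw [hq, a2], hE _ _ _ _ a3, hE _ _ _ _ a4,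
          by rw [hp, a5], by rw [hq, a6], hE _ _ _ _ a7⟩
      hit := by
        intro N hN
        obtain ⟨i₁, i₂, h1, h2⟩ := h.hit N hN
        exact ⟨i₁, i₂, h1.map hp hq hE, h2.map hp hq hE⟩
      ctl := by
        intro i
        obtain ⟨b, N, h1, h2, h3⟩ := h.ctl i
        refine ⟨(ι b.1, b.2), N, h1.map hp hq hE, h2, fun i' hi' => ?_⟩
        obtain ⟨b', h4, h5, h6⟩ := h3 i' hi'
        exact ⟨(ι b'.1, b'.2), h4.map hp hq hE, h5, h6⟩ }

end Pool.Agent.FBC
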