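import Pool.Agent.FBC.RevC

/-!
# FBC module MProg: the main program

Registers `0 = N`, `1 = n`, `2 = flag`, `3, 4` = copies, `5` = second value, `6` = test value,
`7` = scratch of `copy`, scratch of the clean programs from `8` on; `R` large.
`P1` = `copy 0 3 7`; (`reg 5 += nu (reg 0)`); (`reg 2 += T (reg 5, reg 0)`); inverse of the second;
inverse of the first. Lower bound for the masses: register `3` contains `N` and is not touched
(`big_frame`), except during the two copies (`big_copy`).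
`P2` = (a) `copy 0 3 7`; (b) `reg 1 += nu (reg 0)`; (c) inverse of (a); (d) `copy 1 4 7`;
(e) `search 5 6 U` with `U` = the program for `reg 6 += T (reg 1, reg 5)`: it leads to `reg 5 = N`
because `N` is the only (so the first) zero of `T (nu N) ·`; (f) inverse of `copy 5 0 7` (it leads
from `reg 0 = N = reg 5` to `reg 0 = 0`); (g) inverse of (e); (h) inverse of (d).
Lower bound: up to (f) registers `0` and `5`/copies have mass `≥ N`, afterwards register `4`
contains `nu N`.
Space: every intermediate mass is at most `20 * s N + 20` (very generous).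
-/

namespace Pool.Agent.FBC

/-- the state with the registers `0, …, 6` given and the others `0` -/
def mpst7 (n a f c d e g : ℕ) : ℕ → ℕ
  | 0 => n
  | 1 => a
  | 2 => f
  | 3 => c
  | 4 => d
  | 5 => e
  | 6 => g
  | _ + 7 => 0

theorem mp_st_eq (n a f : ℕ) : st n a f = mpst7 n a f 0 0 0 0 := by
  funext i
  rcases i with _ | _ | _ | _ | _ | _ | _ | i <;> simp [st, mpst7]

theorem mp_st7_ge (n a f c d e g : ℕ) {r : ℕ} (hr : 7 ≤ r) : mpst7 n a f c d e g r = 0 := by
  obtain ⟨k, rfl⟩ := Nat.exists_eq_add_of_le' hr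
  rfl

theorem mp_upd0 (n a f c d e g v : ℕ) :
    Function.update (mpst7 n a f c d e g) 0 v = mpst7 v a f c d e g := by
  funext i
  rcases i with _ | _ | _ | _ | _ | _ | _ | i <;> simp [Function.update, mpst7]

theorem mp_upd1 (n a f c d e g v : ℕ) :
    Function.update (mpst7 n a f c d e g) 1 v = mpst7 n v f c d e g := by
  funext i
  rcases i with _ | _ | _ | _ | _ | _ | _ | i <;> simp [Function.update, mpst7]

theorem mp_upd2 (n a f c d e g v : ℕ) :
    Function.update (mpst7 n a f c d e g) 2 v = mpst7 n a v c d e g := by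
  funext i
  rcases i with _ | _ | _ | _ | _ | _ | _ | i <;> simp [Function.update, mpst7]

theorem mp_upd3 (n a f c d e g v : ℕ) :
    Function.update (mpst7 n a f c d e g) 3 v = mpst7 n a f v d e g := by
  funext i
  rcases i with _ | _ | _ | _ | _ | _ | _ | i <;> simp [Function.update, mpst7]

theorem mp_upd4 (n a f c d e g v : ℕ) :
    Function.update (mpst7 n a f c d e g) 4 v = mpst7 n a f c v e g := by
  funext i
  rcases i with _ | _ | _ | _ | _ | _ | _ | i <;> simp [Function.update, mpst7]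

theorem mp_upd5 (n a f c d e g v : ℕ) :
    Function.update (mpst7 n a f c d e g) 5 v = mpst7 n a f c d v g := by
  funext i
  rcases i with _ | _ | _ | _ | _ | _ | _ | i <;> simp [Function.update, mpst7]

theorem mp_upd6 (n a f c d e g v : ℕ) :
    Function.update (mpst7 n a f c d e g) 6 v = mpst7 n a f c d e v := by
  funext i
  rcases i with _ | _ | _ | _ | _ | _ | _ | i <;> simp [Function.update, mpst7]

theorem mp_mass_st7 {R : ℕ} (hR : 8 ≤ R) (n a f c d e g : ℕ) :
    mass R (mpst7 n a f c d e g) = n + a + f + c + d + e + g := by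
  obtain ⟨k, rfl⟩ := Nat.exists_eq_add_of_le hR
  rw [mass, Finset.sum_range_add]
  have h : ∑ x ∈ Finset.range k, mpst7 n a f c d e g (8 + x) = 0 :=
    Finset.sum_eq_zero fun x _ => mp_st7_ge n a f c d e g (by omega)
  rw [h]
  simp [Finset.sum_range_succ, mpst7]

theorem mp_le_mass {R r : ℕ} (hr : r < R) (u : ℕ → ℕ) : u r ≤ mass R u :=
  Finset.single_le_sum (f := u) (fun _ _ => Nat.zero_le _) (Finset.mem_range.2 hr)

/-- a program which does not touch register `r` -/
theorem mp_seg {R r lo hi h' : ℕ} {U : Set ℕ} {P : Prog} {x y : ℕ → ℕ} (hP : P.In U) (hr : r ∉ U)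
    (hrR : r < R) (h : Big (fun u => mass R u ≤ h') P x y) (hlo : lo ≤ x r) (hhi : h' ≤ hi) :
    Big (fun u => lo ≤ mass R u + 1 ∧ mass R u ≤ hi) P x y := by
  refine big_mono ?_ (big_frame hP h)
  rintro u ⟨h1, h2⟩
  have h3 := h2 r hr
  have h4 := mp_le_mass hrR u
  constructor <;> omega

/-- copies -/
theorem mp_segcopy {R i out t lo hi : ℕ} (hi' : i < R) (ho : out < R) (ht : t < R) (h1 : i ≠ out)
    (h2 : i ≠ t) (h3 : out ≠ t) (x : ℕ → ℕ) (hx : x t = 0) (hlo : lo ≤ mass R x)
    (hhi : mass R x + x i ≤ hi) {y : ℕ → ℕ} (hy : Function.update x out (x out + x i) = y) :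
    Big (fun u => lo ≤ mass R u + 1 ∧ mass R u ≤ hi) (copy i out t) x y := by
  subst hy
  refine big_mono ?_ (big_copy hi' ho ht h1 h2 h3 x hx)
  rintro u ⟨h4, h5⟩
  constructor <;> omega

theorem main_prog (T : ℕ → ℕ → ℕ) (nu : ℕ → ℕ) (σT : (Fin 2 → ℕ) → ℕ) (σn : (Fin 1 → ℕ) → ℕ)
    (hT : Clean (fun v : Fin 2 → ℕ => T (v 0) (v 1)) σT)
    (hn : Clean (fun v : Fin 1 → ℕ => nu (v 0)) σn)
    (huniq : ∀ n N N', T n N = 0 → T n N' = 0 → N = N')
    (s : ℕ → ℕ) (hs0 : ∀ N, N ≤ s N) (hs1 : ∀ N, nu N ≤ s N) (hs2 : ∀ N, σn ![N] ≤ s N)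
    (hs3 : ∀ N m, m ≤ N → T (nu N) m ≤ s N ∧ σT ![nu N, m] ≤ s N) :
    ∃ (R : ℕ) (P1 P2 : Prog), 3 ≤ R ∧ P1.In {r | r < R} ∧ P2.In {r | r < R} ∧
      (∀ N, Big (fun u => N ≤ mass R u + 1 ∧ mass R u ≤ 20 * s N + 20) P1
        (st N 0 0) (st N 0 (T (nu N) N))) ∧
      (∀ N, T (nu N) N = 0 → nu N ≤ N →
        Big (fun u => nu N ≤ mass R u + 1 ∧ mass R u ≤ 20 * s N + 20) P2
          (st N 0 0) (st 0 (nu N) 0)) := by
  obtain ⟨mT, hT⟩ := hT
  obtain ⟨mn, hn⟩ := hn
  -- the four clean programs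
  obtain ⟨B, hBin, hB⟩ := hn ![0] 5 8 (by intro i; fin_cases i; simp) (by norm_num)
    (by intro i; fin_cases i; simp)
  obtain ⟨B', hB'in, hB'⟩ := hn ![0] 1 8 (by intro i; fin_cases i; simp) (by norm_num)
    (by intro i; fin_cases i; simp)
  obtain ⟨C, hCin, hC⟩ := hT ![5, 0] 2 8 (by intro i; fin_cases i <;> simp) (by norm_num)
    (by intro i; fin_cases i <;> simp)
  obtain ⟨U, hUin, hU⟩ := hT ![1, 5] 6 8 (by intro i; fin_cases i <;> simp) (by norm_num)
    (by intro i; fin_cases i <;> simp)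
  set R : ℕ := 8 + mT + mn with hR
  have hR8 : 8 ≤ R := by omega
  have hRT : 8 + mT ≤ R := by omega
  have hRn : 8 + mn ≤ R := by omega
  have hvec2 : ∀ v : Fin 2 → ℕ, v = ![v 0, v 1] := by
    intro v; funext i; fin_cases i <;> rfl
  have hvec1 : ∀ v : Fin 1 → ℕ, v = ![v 0] := by
    intro v; funext i; fin_cases i; rfl
  -- runs of the four programs
  have rB : ∀ n a f c d e g : ℕ, Big (fun u => mass R u ≤ n + a + f + c + d + e + g + σn ![n]) B
      (mpst7 n a f c d e g) (mpst7 n a f c d (e + nu n) g) := by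
    intro n a f c d e g
    have h := hB R (mpst7 n a f c d e g) hRn (fun r hr _ => mp_st7_ge n a f c d e g (by omega))
    rw [hvec1 (fun i => mpst7 n a f c d e g ((![0] : Fin 1 → ℕ) i)), mp_upd5, mp_mass_st7 hR8] at h
    exact h
  have rB' : ∀ n a f c d e g : ℕ,
      Big (fun u => mass R u ≤ n + a + f + c + d + e + g + σn ![n]) B'
      (mpst7 n a f c d e g) (mpst7 n (a + nu n) f c d e g) := by
    intro n a f c d e g
    have h := hB' R (mpst7 n a f c d e g) hRn (fun r hr _ => mp_st7_ge n a f c d e g (by omega))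
    rw [hvec1 (fun i => mpst7 n a f c d e g ((![0] : Fin 1 → ℕ) i)), mp_upd1, mp_mass_st7 hR8] at h
    exact h
  have rC : ∀ n a f c d e g : ℕ,
      Big (fun u => mass R u ≤ n + a + f + c + d + e + g + σT ![e, n]) C
      (mpst7 n a f c d e g) (mpst7 n a (f + T e n) c d e g) := by
    intro n a f c d e g
    have h := hC R (mpst7 n a f c d e g) hRT (fun r hr _ => mp_st7_ge n a f c d e g (by omega))
    rw [hvec2 (fun i => mpst7 n a f c d e g ((![5, 0] : Fin 2 → ℕ) i)), mp_upd2, mp_mass_st7 hR8] at h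
    exact h
  have rU : ∀ n a f c d e g : ℕ,
      Big (fun u => mass R u ≤ n + a + f + c + d + e + g + σT ![a, e]) U
      (mpst7 n a f c d e g) (mpst7 n a f c d e (g + T a e)) := by
    intro n a f c d e g
    have h := hU R (mpst7 n a f c d e g) hRT (fun r hr _ => mp_st7_ge n a f c d e g (by omega))
    rw [hvec2 (fun i => mpst7 n a f c d e g ((![1, 5] : Fin 2 → ℕ) i)), mp_upd6, mp_mass_st7 hR8] at h
    exact h
  -- registers
  have iB : B.In {r | r < R} := in_mono (by
    rintro r (h | ⟨i, h⟩ | ⟨-, h⟩)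
    · simp only [Set.mem_ofPred_eq]; omega
    · fin_cases i; simp at h; simp only [Set.mem_ofPred_eq]; omega
    · simp only [Set.mem_ofPred_eq]; omega) hBin
  have iB' : B'.In {r | r < R} := in_mono (by
    rintro r (h | ⟨i, h⟩ | ⟨-, h⟩)
    · simp only [Set.mem_ofPred_eq]; omega
    · fin_cases i; simp at h; simp only [Set.mem_ofPred_eq]; omega
    · simp only [Set.mem_ofPred_eq]; omega) hB'in
  have iC : C.In {r | r < R} := in_mono (by
    rintro r (h | ⟨i, h⟩ | ⟨-, h⟩)
    · simp only [Set.mem_ofPred_eq]; omega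
    · fin_cases i <;> simp at h <;> simp only [Set.mem_ofPred_eq] <;> omega
    · simp only [Set.mem_ofPred_eq]; omega) hCin
  have iU : U.In {r | r < R} := in_mono (by
    rintro r (h | ⟨i, h⟩ | ⟨-, h⟩)
    · simp only [Set.mem_ofPred_eq]; omega
    · fin_cases i <;> simp at h <;> simp only [Set.mem_ofPred_eq] <;> omega
    · simp only [Set.mem_ofPred_eq]; omega) hUin
  have nB : B.In {r | r ≠ 3} := in_mono (by
    rintro r (h | ⟨i, h⟩ | ⟨h, -⟩)
    · simp only [Set.mem_ofPred_eq]; omega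
    · fin_cases i; simp at h; simp only [Set.mem_ofPred_eq]; omega
    · simp only [Set.mem_ofPred_eq]; omega) hBin
  have nB' : B'.In {r | r ≠ 3} := in_mono (by
    rintro r (h | ⟨i, h⟩ | ⟨h, -⟩)
    · simp only [Set.mem_ofPred_eq]; omega
    · fin_cases i; simp at h; simp only [Set.mem_ofPred_eq]; omega
    · simp only [Set.mem_ofPred_eq]; omega) hB'in
  have nC : C.In {r | r ≠ 3} := in_mono (by
    rintro r (h | ⟨i, h⟩ | ⟨h, -⟩)
    · simp only [Set.mem_ofPred_eq]; omega
    · fin_cases i <;> simp at h <;> simp only [Set.mem_ofPred_eq] <;> omega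
    · simp only [Set.mem_ofPred_eq]; omega) hCin
  have nU : U.In {r | r ≠ 4} := in_mono (by
    rintro r (h | ⟨i, h⟩ | ⟨h, -⟩)
    · simp only [Set.mem_ofPred_eq]; omega
    · fin_cases i <;> simp at h <;> simp only [Set.mem_ofPred_eq] <;> omega
    · simp only [Set.mem_ofPred_eq]; omega) hUin
  have n3 : (3 : ℕ) ∉ {r : ℕ | r ≠ 3} := by simp
  have n4 : (4 : ℕ) ∉ {r : ℕ | r ≠ 4} := by simp
  have icopy : ∀ i j : ℕ, i < 8 → j < 8 → (copy i j 7).In {r | r < R} := by
    intro i j hi hj
    exact copy_in (by simp only [Set.mem_ofPred_eq]; omega) (by simp only [Set.mem_ofPred_eq]; omega)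
      (by simp only [Set.mem_ofPred_eq]; omega)
  have iS : (search 5 6 U).In {r | r < R} :=
    search_in (by simp only [Set.mem_ofPred_eq]; omega) (by simp only [Set.mem_ofPred_eq]; omega) iU
  have nS : (search 5 6 U).In {r | r ≠ 4} := search_in (by simp) (by simp) nU
  have nc50 : (copy 5 0 7).In {r | r ≠ 4} := copy_in (by simp) (by simp) (by simp)
  refine ⟨R, .seq (copy 0 3 7) (.seq B (.seq C (.seq B.inv (copy 0 3 7).inv))),
    .seq (copy 0 3 7) (.seq B' (.seq (copy 0 3 7).inv (.seq (copy 1 4 7)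
      (.seq (search 5 6 U) (.seq (copy 5 0 7).inv (.seq (search 5 6 U).inv (copy 1 4 7).inv)))))),
    by omega, ?_, ?_, ?_, ?_⟩
  · exact ⟨icopy 0 3 (by norm_num) (by norm_num), iB, iC, in_inv iB,
      in_inv (icopy 0 3 (by norm_num) (by norm_num))⟩
  · exact ⟨icopy 0 3 (by norm_num) (by norm_num), iB', in_inv (icopy 0 3 (by norm_num)
      (by norm_num)), icopy 1 4 (by norm_num) (by norm_num), iS,
      in_inv (icopy 5 0 (by norm_num) (by norm_num)), in_inv iS,
      in_inv (icopy 1 4 (by norm_num) (by norm_num))⟩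
  · intro N
    have e0 := hs0 N
    have e1 := hs1 N
    have e2 := hs2 N
    obtain ⟨e3, e4⟩ := hs3 N N le_rfl
    rw [mp_st_eq, mp_st_eq]
    refine ⟨mpst7 N 0 0 N 0 0 0, ?_, mpst7 N 0 0 N 0 (nu N) 0, ?_,
      mpst7 N 0 (T (nu N) N) N 0 (nu N) 0, ?_, mpst7 N 0 (T (nu N) N) N 0 0 0, ?_, ?_⟩
    · refine mp_segcopy (by omega) (by omega) (by omega) (by norm_num) (by norm_num) (by norm_num)
        _ rfl ?_ ?_ ?_
      · rw [mp_mass_st7 hR8]; omega
      · rw [mp_mass_st7 hR8]; simp only [mpst7]; omega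
      · rw [mp_upd3]; simp [mpst7]
    · have h := rB N 0 0 N 0 0 0
      rw [Nat.zero_add] at h
      exact mp_seg nB n3 (by omega) h (by simp [mpst7]) (by omega)
    · have h := rC N 0 0 N 0 (nu N) 0
      rw [Nat.zero_add] at h
      exact mp_seg nC n3 (by omega) h (by simp [mpst7]) (by omega)
    · have h := rB N 0 (T (nu N) N) N 0 0 0
      rw [Nat.zero_add] at h
      exact big_inv.2 (mp_seg nB n3 (by omega) h (by simp [mpst7]) (by omega))
    · refine big_inv.2 (mp_segcopy (by omega) (by omega) (by omega) (by norm_num) (by norm_num)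
        (by norm_num) _ rfl ?_ ?_ ?_)
      · rw [mp_mass_st7 hR8]; omega
      · rw [mp_mass_st7 hR8]; simp only [mpst7]; omega
      · rw [mp_upd3]; simp [mpst7]
  · intro N hTN hnN
    have e0 := hs0 N
    have e1 := hs1 N
    have e2 := hs2 N
    rw [mp_st_eq, mp_st_eq]
    -- the search
    have hsearch : ∀ n : ℕ, n ≤ N → Big (fun u => nu N ≤ mass R u + 1 ∧
        mass R u ≤ 20 * s N + 20) (search 5 6 U)
        (mpst7 n (nu N) 0 0 (nu N) 0 0) (mpst7 n (nu N) 0 0 (nu N) N 0) := by
      intro n hnN'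
      have h := big_search (R := R) (n := 5) (a := 6) (U := U) (by omega) (by omega) (by norm_num)
        (mpst7 n (nu N) 0 0 (nu N) 0 0) (fun i => T (nu N) i) (2 * s N) rfl rfl N
        (by
          intro i hi
          obtain ⟨e3, e4⟩ := hs3 N i hi
          rw [mp_upd5, mp_upd6]
          have h := rU n (nu N) 0 0 (nu N) i 0
          rw [Nat.zero_add] at h
          refine big_mono ?_ h
          intro u hu
          rw [mp_mass_st7 hR8]
          omega) hTN
        (by
          intro i hi h0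
          have := huniq _ _ _ h0 hTN
          omega)
      rw [mp_upd5, mp_mass_st7 hR8] at h
      exact mp_seg nS n4 (by omega) h (by simp [mpst7]) (by omega)
    refine ⟨mpst7 N 0 0 N 0 0 0, ?_, mpst7 N (nu N) 0 N 0 0 0, ?_, mpst7 N (nu N) 0 0 0 0 0, ?_,
      mpst7 N (nu N) 0 0 (nu N) 0 0, ?_, mpst7 N (nu N) 0 0 (nu N) N 0, ?_,
      mpst7 0 (nu N) 0 0 (nu N) N 0, ?_, mpst7 0 (nu N) 0 0 (nu N) 0 0, ?_, ?_⟩
    · refine mp_segcopy (by omega) (by omega) (by omega) (by norm_num) (by norm_num) (by norm_num)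
        _ rfl ?_ ?_ ?_
      · rw [mp_mass_st7 hR8]; omega
      · rw [mp_mass_st7 hR8]; simp only [mpst7]; omega
      · rw [mp_upd3]; simp [mpst7]
    · have h := rB' N 0 0 N 0 0 0
      rw [Nat.zero_add] at h
      exact mp_seg nB' n3 (by omega) h (by simp only [mpst7]; omega) (by omega)
    · refine big_inv.2 (mp_segcopy (by omega) (by omega) (by omega) (by norm_num) (by norm_num)
        (by norm_num) _ rfl ?_ ?_ ?_)
      · rw [mp_mass_st7 hR8]; omega
      · rw [mp_mass_st7 hR8]; simp only [mpst7]; omega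
      · rw [mp_upd3]; simp [mpst7]
    · refine mp_segcopy (by omega) (by omega) (by omega) (by norm_num) (by norm_num)
        (by norm_num) _ rfl ?_ ?_ ?_
      · rw [mp_mass_st7 hR8]; omega
      · rw [mp_mass_st7 hR8]; simp only [mpst7]; omega
      · rw [mp_upd4]; simp [mpst7]
    · exact hsearch N le_rfl
    · refine big_inv.2 ?_
      refine mp_seg (h' := nu N + nu N + N + N) nc50 n4 (by omega) ?_ (by simp [mpst7]) (by omega)
      have h := big_copy (R := R) (i := 5) (out := 0) (t := 7) (by omega) (by omega) (by omega)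
        (by norm_num) (by norm_num) (by norm_num) (mpst7 0 (nu N) 0 0 (nu N) N 0) rfl
      rw [mp_upd0, mp_mass_st7 hR8] at h
      simp only [mpst7, Nat.zero_add] at h
      refine big_mono ?_ h
      rintro u ⟨-, h5⟩
      omega
    · exact big_inv.2 (hsearch 0 (Nat.zero_le _))
    · refine big_inv.2 (mp_segcopy (by omega) (by omega) (by omega) (by norm_num) (by norm_num)
        (by norm_num) _ rfl ?_ ?_ ?_)
      · rw [mp_mass_st7 hR8]; omega
      · rw [mp_mass_st7 hR8]; simp only [mpst7]; omega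
      · rw [mp_upd4]; simp [mpst7]

end Pool.Agent.FBC
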