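import Pool.Agent.FBC.MMach
import Pool.Agent.FBC.MProg
import Pool.Agent.FBC.Compl

/-!
# FBC module Ctl: control of the orbit; existence of the main machine

`code_bounds`: `D` = the `R`-th prime number (at least `2`).
`mach_of_stages`: times `t 0 = 1` (point `(mS, 1)`), `t (N + 1) = t N + n_N` (point
`(mS, 2 ^ (N + 1))`), `n_N ≥ 1` because the two points are different. Every time `i ≥ 1` is in one
interval `t N ≤ i < t (N + 1)`, and its point is in `Jc R (I N)`, so its coordinate `z` is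
`code R x` with `lo N ≤ mass R x + 1`, `mass R x ≤ hi N`; `i = 0`: use `N = 0`.
A prefix of a run is a run (split `RunJ`). `hi` is monotone.
`mach_exists`: `main_prog`, `main_mach` (with `I N u := lo N ≤ mass R u + 1 ∧ mass R u ≤ 20 * s N +
20`), `mach_of_stages`, `mach_complete`.
-/

namespace Pool.Agent.FBC

theorem code_bounds (R : ℕ) : ∃ D : ℕ, 2 ≤ D ∧ ∀ x : ℕ → ℕ,
    (2 : ℤ) ^ (mass R x) ≤ code R x ∧ code R x ≤ (D : ℤ) ^ (mass R x) := by
  have hp : ∀ i, Nat.Prime (Nat.nth Nat.Prime i) := Nat.prime_nth_prime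
  refine ⟨Nat.nth Nat.Prime R, (hp R).two_le, fun x => ?_⟩
  have h1 : 2 ^ (mass R x) ≤ ∏ i ∈ Finset.range R, (Nat.nth Nat.Prime i) ^ (x i) := by
    unfold mass
    rw [← Finset.prod_pow_eq_pow_sum]
    exact Finset.prod_le_prod' fun i _ => Nat.pow_le_pow_left (hp i).two_le _
  have h2 : ∏ i ∈ Finset.range R, (Nat.nth Nat.Prime i) ^ (x i) ≤
      (Nat.nth Nat.Prime R) ^ (mass R x) := by
    unfold mass
    rw [← Finset.prod_pow_eq_pow_sum]
    refine Finset.prod_le_prod' fun i hi => Nat.pow_le_pow_left ?_ _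
    exact Nat.nth_monotone Nat.infinite_setOfPred_prime (Finset.mem_range.1 hi).le
  unfold code
  constructor
  · exact_mod_cast h1
  · exact_mod_cast h2

namespace Ctl

theorem run_trans {V : Type} {M : RM V} {m n : ℕ} {a b c : V × ℤ}
    (h1 : M.Run m a b) (h2 : M.Run n b c) : M.Run (m + n) a c := by
  induction h1 with
  | refl a => simpa using h2
  | step h _ ih =>
    have := RM.Run.step h (ih h2)
    rwa [Nat.add_right_comm] at this

theorem run_of_runJ {V : Type} {M : RM V} {J : V × ℤ → Prop} {n : ℕ} {a b : V × ℤ}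
    (h : M.RunJ J n a b) : M.Run n a b := by
  induction h with
  | refl a => exact .refl a
  | step _ h _ ih => exact .step h ih

theorem run_zero {V : Type} {M : RM V} {a b : V × ℤ} (h : M.Run 0 a b) : a = b := by
  cases h
  rfl

theorem runJ_zero {V : Type} {M : RM V} {J : V × ℤ → Prop} {a b : V × ℤ}
    (h : M.RunJ J 0 a b) : a = b := by
  cases h
  rfl

theorem runJ_at {V : Type} {M : RM V} {J : V × ℤ → Prop} {n : ℕ} {a b : V × ℤ}
    (h : M.RunJ J n a b) : ∀ k < n, ∃ c, M.Run k a c ∧ J c := by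
  induction h with
  | refl a => intro k hk; omega
  | @step n a b c hJ hs hr ih =>
    intro k hk
    rcases k with _ | k
    · exact ⟨a, .refl a, hJ⟩
    · obtain ⟨d, hd, hJd⟩ := ih k (by omega)
      exact ⟨d, .step hs hd, hJd⟩

end Ctl

open Ctl in
theorem mach_of_stages {V : Type} (M : RM V) (v0 u j mS : V) (R : ℕ) (Dm : ℕ → Prop)
    (nu lo hi : ℕ → ℕ) (p0 : M.p v0 = 2) (q0 : M.q v0 = 1) (e0 : M.E v0 0 v0 0)
    (pu : M.p u = 1) (qu : M.q u = 3) (eu : M.E u 0 u 0) (qj : M.q j = 1) (pm : M.p mS = 1)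
    (qm : M.q mS = 2) (ld : M.Ld u) (h0 : M.Step (v0, 1) (mS, 1)) (hhi : Monotone hi)
    (h1 : ∀ N, ∃ n, M.RunJ (Jc R (fun x => lo N ≤ mass R x + 1 ∧ mass R x ≤ hi N)) n
      (mS, 2 ^ N) (mS, 2 ^ (N + 1)))
    (h2 : ∀ N, Dm N → ∃ n, M.RunJ (Jc R (fun x => lo N ≤ mass R x + 1 ∧ mass R x ≤ hi N)) n
      (mS, 2 ^ N) (j, 3 ^ (nu N))) :
    ∃ D : ℕ, 2 ≤ D ∧ Mach M v0 u j mS Dm nu lo (fun N => D ^ (hi N)) := by
  obtain ⟨D, hD, hc⟩ := code_bounds R
  refine ⟨D, hD, ?_⟩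
  have hD1 : (1 : ℤ) ≤ D := by exact_mod_cast (by omega : 1 ≤ D)
  -- points of a stage
  have hpt : ∀ N (c : V × ℤ), Jc R (fun x => lo N ≤ mass R x + 1 ∧ mass R x ≤ hi N) c →
      (2 : ℤ) ^ (lo N) ≤ 2 * c.2 ∧ 1 ≤ c.2 ∧ c.2 ≤ (D : ℤ) ^ (hi N) := by
    rintro N c ⟨x, ⟨hx1, hx2⟩, hx3⟩
    obtain ⟨hc1, hc2⟩ := hc x
    rw [← hx3] at hc1 hc2
    refine ⟨?_, ?_, ?_⟩
    · calc (2 : ℤ) ^ (lo N) ≤ 2 ^ (mass R x + 1) := pow_le_pow_right₀ (by norm_num) hx1
        _ = 2 * 2 ^ (mass R x) := by ring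
        _ ≤ 2 * c.2 := by linarith
    · exact le_trans (one_le_pow₀ (by norm_num)) hc1
    · exact le_trans hc2 (pow_le_pow_right₀ hD1 hx2)
  have hmono : ∀ {N N' : ℕ}, N ≤ N' → (D : ℤ) ^ (hi N) ≤ (D : ℤ) ^ (hi N') := fun h =>
    pow_le_pow_right₀ hD1 (hhi h)
  have hpos : ∀ N, ∀ n, M.RunJ (Jc R (fun x => lo N ≤ mass R x + 1 ∧ mass R x ≤ hi N)) n
      (mS, 2 ^ N) (mS, 2 ^ (N + 1)) → 1 ≤ n := by
    intro N n h
    rcases n with _ | n
    · exfalso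
      have h' : ((mS, 2 ^ N) : V × ℤ) = (mS, 2 ^ (N + 1)) := runJ_zero h
      have h3 : (2 : ℤ) ^ N = 2 ^ (N + 1) := (Prod.mk.inj h').2
      have h4 : (0 : ℤ) < 2 ^ N := by positivity
      rw [pow_succ] at h3
      linarith
    · omega
  -- time `0`
  have hlo0 : (2 : ℤ) ^ (lo 0) ≤ 2 := by
    obtain ⟨n, hn⟩ := h1 0
    have hn1 := hpos 0 n hn
    obtain ⟨c, hc0, hcJ⟩ := runJ_at hn 0 (by omega)
    have hc' : c = (mS, 2 ^ 0) := (run_zero hc0).symm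
    obtain ⟨x, ⟨hx1, hx2⟩, hx3⟩ := hcJ
    have hcb := (hc x).1
    rw [← hx3, hc'] at hcb
    have hm : mass R x = 0 := by
      by_contra hne
      have h5 : (2 : ℤ) ^ 1 ≤ 2 ^ (mass R x) :=
        pow_le_pow_right₀ (by norm_num) (Nat.one_le_iff_ne_zero.2 hne)
      simp only [pow_zero] at hcb
      linarith
    have h6 : lo 0 ≤ 1 := by omega
    calc (2 : ℤ) ^ (lo 0) ≤ 2 ^ 1 := pow_le_pow_right₀ (by norm_num) h6
      _ = 2 := by norm_num
  -- main induction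
  have key : ∀ N, ∃ t, N + 1 ≤ t ∧ M.Run t (v0, 1) (mS, 2 ^ N) ∧ ∀ i < t, ∃ N' ≤ N,
      (∃ b, M.Run i (v0, 1) b ∧ (2 : ℤ) ^ (lo N') ≤ 2 * b.2) ∧
      ∀ i' ≤ i, ∃ b' : V × ℤ, M.Run i' (v0, 1) b' ∧ 1 ≤ b'.2 ∧ b'.2 ≤ (D : ℤ) ^ (hi N') := by
    intro N
    induction N with
    | zero =>
      refine ⟨1, by omega, ?_, ?_⟩
      · have := RM.Run.step h0 (RM.Run.refl (M := M) (mS, 1))
        simpa using this
      · intro i hi'
        have hi0 : i = 0 := by omega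
        subst hi0
        refine ⟨0, le_rfl, ⟨(v0, 1), .refl _, by simpa using hlo0⟩, ?_⟩
        intro i' hi'
        have : i' = 0 := by omega
        subst this
        exact ⟨(v0, 1), .refl _, le_rfl, one_le_pow₀ hD1⟩
    | succ N ih =>
      obtain ⟨t, ht, hrun, hpre⟩ := ih
      obtain ⟨n, hn⟩ := h1 N
      have hn1 := hpos N n hn
      have hlate : ∀ i, t ≤ i → i < t + n → ∃ b : V × ℤ, M.Run i (v0, 1) b ∧
          (2 : ℤ) ^ (lo N) ≤ 2 * b.2 ∧ 1 ≤ b.2 ∧ b.2 ≤ (D : ℤ) ^ (hi N) := by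
        intro i hti hit
        obtain ⟨c, hc1, hc2⟩ := runJ_at hn (i - t) (by omega)
        refine ⟨c, ?_, hpt N c hc2⟩
        have := run_trans hrun hc1
        rwa [show t + (i - t) = i by omega] at this
      refine ⟨t + n, by omega, run_trans hrun (run_of_runJ hn), ?_⟩
      intro i hit
      by_cases hti : i < t
      · obtain ⟨N', hN', h⟩ := hpre i hti
        exact ⟨N', by omega, h⟩
      · push Not at hti
        obtain ⟨b, hb1, hb2, hb3, hb4⟩ := hlate i hti hit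
        refine ⟨N, by omega, ⟨b, hb1, hb2⟩, ?_⟩
        intro i' hi'
        by_cases hti' : i' < t
        · obtain ⟨N', hN', -, h⟩ := hpre i' hti'
          obtain ⟨b', hb'1, hb'2, hb'3⟩ := h i' le_rfl
          exact ⟨b', hb'1, hb'2, hb'3.trans (hmono hN')⟩
        · push Not at hti'
          obtain ⟨b', hb'1, hb'2, hb'3, hb'4⟩ := hlate i' hti' (by omega)
          exact ⟨b', hb'1, hb'3, hb'4⟩
  refine ⟨p0, q0, e0, pu, qu, eu, qj, pm, qm, ld, ?_, ?_⟩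
  · intro N hN
    obtain ⟨t, -, hrun, -⟩ := key N
    obtain ⟨n, hn⟩ := h2 N hN
    exact ⟨t, n, hrun, run_of_runJ hn⟩
  · intro i
    obtain ⟨t, ht, -, hpre⟩ := key i
    obtain ⟨N', -, ⟨b, hb1, hb2⟩, hall⟩ := hpre i (by omega)
    refine ⟨b, N', hb1, hb2, ?_⟩
    intro i' hi'
    obtain ⟨b', h1', h2', h3'⟩ := hall i' hi'
    exact ⟨b', h1', h2', by push_cast; exact h3'⟩

open Classical in
theorem mach_exists (T : ℕ → ℕ → ℕ) (nu : ℕ → ℕ) (σT : (Fin 2 → ℕ) → ℕ) (σn : (Fin 1 → ℕ) → ℕ)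
    (hT : Clean (fun v : Fin 2 → ℕ => T (v 0) (v 1)) σT)
    (hn : Clean (fun v : Fin 1 → ℕ => nu (v 0)) σn)
    (huniq : ∀ n N N', T n N = 0 → T n N' = 0 → N = N')
    (hle : ∀ N, T (nu N) N = 0 → nu N ≤ N)
    (s : ℕ → ℕ) (hs : Monotone s) (hs0 : ∀ N, N ≤ s N) (hs1 : ∀ N, nu N ≤ s N)
    (hs2 : ∀ N, σn ![N] ≤ s N)
    (hs3 : ∀ N m, m ≤ N → T (nu N) m ≤ s N ∧ σT ![nu N, m] ≤ s N) :
    ∃ (V : Type) (_ : Finite V) (M : RM V) (v0 u j mS : V) (D : ℕ), M.Total ∧ 2 ≤ D ∧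
      Mach M v0 u j mS (fun N => T (nu N) N = 0) nu (fun N => if T (nu N) N = 0 then nu N else N)
        (fun N => D ^ (20 * s N + 20)) := by
  obtain ⟨R, P1, P2, hR, hI1, hI2, hb1, hb2⟩ :=
    main_prog T nu σT σn hT hn huniq s hs0 hs1 hs2 hs3
  obtain ⟨V, hV, M, v0, u, j, mS, p0, q0, e0, pu, qu, eu, qj, pm, qm, ld, h0, h1, h2⟩ :=
    main_mach R hR (fun N => T (nu N) N = 0) nu
      (fun N x => (if T (nu N) N = 0 then nu N else N) ≤ mass R x + 1 ∧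
        mass R x ≤ 20 * s N + 20) P1 P2 hI1 hI2
      (fun N => ⟨T (nu N) N, Iff.rfl, big_mono (fun x hx => ⟨by
        split_ifs with hz
        · exact (hle N hz).trans hx.1
        · exact hx.1, hx.2⟩) (hb1 N)⟩)
      (fun N hN => big_mono (fun x hx => ⟨by
        have hN' : T (nu N) N = 0 := hN
        rw [if_pos hN']
        exact hx.1, hx.2⟩) (hb2 N hN (hle N hN)))
  have := hV
  obtain ⟨D, hD, hM⟩ := mach_of_stages M v0 u j mS R (fun N => T (nu N) N = 0) nu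
    (fun N => if T (nu N) N = 0 then nu N else N) (fun N => 20 * s N + 20)
    p0 q0 e0 pu qu eu qj pm qm ld h0
    (fun N N' h => by
      have := hs h
      dsimp only
      omega) h1 h2
  obtain ⟨V', hV', M', v0', u', j', mS', hT', hM'⟩ := mach_complete hM
  exact ⟨V', hV', M', v0', u', j', mS', D, hT', hD, hM'⟩

end Pool.Agent.FBC
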