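import Pool.Agent.helper12.FD.Wl

/-!
# FBC module Dist: lower bounds for distortion functions

`W`, `wlen`, `dist` are from `Pool.Agent.helper12.FD.Defs`. `dist_lower`: `S₀ ⊆ closure S = ⊤`
gives (`exists_bound`, `W_trans`) `W S x (K * c)`, so `wlen S x ≤ K * c`; for all `m` with
`W T x m` one has `W T₀ x (K' * m)`, so `N ≤ C₀ * K' * m + C₀`; take `m = wlen T x` (attained,
`Nat.sInf_mem`). `wlen T x ≤ dist S T H (K * c)` by `le_csSup`: the set is bounded because only
finitely many `x` have `wlen S x ≤ n` (`S` finite, `closure S = ⊤`).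
-/

namespace Pool.Agent.FBC

open Pool.Agent.helper12.FD

theorem Dist_finite_ball {G : Type*} [Group G] {S : Set G} (hS : S.Finite) (n : ℕ) :
    {x : G | W S x n}.Finite := by
  induction n with
  | zero =>
    refine (Set.finite_singleton (1 : G)).subset ?_
    intro x hx
    exact W_zero hx
  | succ n ih =>
    have hS' : (S ∪ S⁻¹).Finite := hS.union hS.inv
    refine ((Set.Finite.mul hS' ih).union ih).subset ?_
    rintro x ⟨l, h1, h2, h3⟩
    rcases l with _ | ⟨y, l⟩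
    · right
      subst h3
      exact W_one n
    · left
      refine Set.mem_mul.2 ⟨y, ?_, l.prod, ?_, by simpa using h3⟩
      · exact h2 y (by simp)
      · exact ⟨l, by simpa using h1, fun x hx => h2 x (by simp [hx]), rfl⟩

theorem Dist_wlen_le {G : Type*} [Group G] {S : Set G} {g : G} {n : ℕ} (h : W S g n) :
    wlen S g ≤ n := Nat.sInf_le h

theorem Dist_W_wlen {G : Type*} [Group G] {S : Set G} {g : G} (h : g ∈ Subgroup.closure S) :
    W S g (wlen S g) := Nat.sInf_mem (s := {n | W S g n}) (exists_W h)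

theorem Dist_bdd {G : Type*} [Group G] {S T : Set G} (H : Subgroup G) (hS : S.Finite)
    (hS' : Subgroup.closure S = ⊤) (n : ℕ) :
    BddAbove {k | ∃ h ∈ H, wlen S h ≤ n ∧ wlen T h = k} := by
  refine (((Dist_finite_ball hS n).image (wlen T)).subset ?_).bddAbove
  rintro k ⟨h, -, hn, rfl⟩
  exact ⟨h, W_mono (Dist_W_wlen (by rw [hS']; trivial)) hn, rfl⟩

theorem Dist_le_dist {G : Type*} [Group G] {S T : Set G} {H : Subgroup G} (hS : S.Finite)
    (hS' : Subgroup.closure S = ⊤) {x : G} (hx : x ∈ H) {n : ℕ} (hn : wlen S x ≤ n) :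
    wlen T x ≤ dist S T H n :=
  le_csSup (Dist_bdd H hS hS' n) ⟨x, hx, hn, rfl⟩

theorem Dist_mono {G : Type*} [Group G] {S T : Set G} {H : Subgroup G} (hS : S.Finite)
    (hS' : Subgroup.closure S = ⊤) {m n : ℕ} (hmn : m ≤ n) :
    dist S T H m ≤ dist S T H n := by
  refine csSup_le' ?_
  rintro k ⟨h, hh, hn, rfl⟩
  exact Dist_le_dist hS hS' hh (hn.trans hmn)

theorem dist_lower {G : Type*} [Group G] {S T S₀ T₀ : Set G} {H : Subgroup G} (hS : S.Finite)
    (hS' : Subgroup.closure S = ⊤) (hT : T.Finite) (hT' : Subgroup.closure T = H)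
    (hS₀ : S₀.Finite) (hT₀ : Subgroup.closure T₀ = H) (C₀ : ℕ) :
    ∃ C : ℕ, ∀ (x : G) (c N : ℕ), x ∈ H → W S₀ x c → (∀ m, W T₀ x m → N ≤ C₀ * m + C₀) →
      N ≤ C * dist S T H (C * c) + C := by
  obtain ⟨K, hK⟩ := exists_bound (S := S₀) (S' := S) hS₀ (fun x _ => by rw [hS']; trivial)
  obtain ⟨K', hK'⟩ := exists_bound (S := T) (S' := T₀) hT (fun x hx => by
    rw [hT₀, ← hT']; exact Subgroup.subset_closure hx)
  refine ⟨K + C₀ * K' + C₀, fun x c N hx hc hN => ?_⟩
  have h1 : wlen S x ≤ K * c := Dist_wlen_le (W_trans hK hc)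
  have h2 : W T x (wlen T x) := Dist_W_wlen (by rw [hT']; exact hx)
  have h3 : N ≤ C₀ * (K' * wlen T x) + C₀ := hN _ (W_trans hK' h2)
  have h4 : wlen S x ≤ (K + C₀ * K' + C₀) * c :=
    h1.trans (Nat.mul_le_mul_right _ (by omega))
  have h5 : wlen T x ≤ dist S T H ((K + C₀ * K' + C₀) * c) := Dist_le_dist hS hS' hx h4
  calc N ≤ C₀ * (K' * wlen T x) + C₀ := h3
    _ = C₀ * K' * wlen T x + C₀ := by ring
    _ ≤ (K + C₀ * K' + C₀) * dist S T H ((K + C₀ * K' + C₀) * c) + (K + C₀ * K' + C₀) :=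
        Nat.add_le_add (Nat.mul_le_mul (by omega) h5) (by omega)

end Pool.Agent.FBC
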