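import Pool.Agent.helper12.FD.Wl

/-!
# FBC module DistUp: upper bounds for distortion functions

`wlen S x ≤ n` implies `W S x n` (`Nat.sInf_mem`, `closure S = ⊤`), so `W S₀ x (K * n)`, so
`W T₀ x (U (K * n))`, so `W T x (K' * U (K * n))`; `C = max K K'`, `U` monotone. `csSup_le'`.
-/

namespace Pool.Agent.FBC

open Pool.Agent.helper12.FD

theorem dist_upper {G : Type*} [Group G] {S T S₀ T₀ : Set G} {H : Subgroup G} (hS : S.Finite)
    (hS' : Subgroup.closure S = ⊤) (hT : T.Finite) (hT' : Subgroup.closure T = H)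
    (hS₀ : Subgroup.closure S₀ = ⊤) (hT₀ : T₀.Finite) (hT₀' : Subgroup.closure T₀ = H)
    (U : ℕ → ℕ) (hU : Monotone U) (h : ∀ x ∈ H, ∀ n, W S₀ x n → W T₀ x (U n)) :
    ∃ C : ℕ, ∀ n, dist S T H n ≤ C * U (C * n) := by
  obtain ⟨K, hK⟩ := exists_bound (S' := S₀) hS (fun x _ => by rw [hS₀]; trivial)
  obtain ⟨K', hK'⟩ := exists_bound (S' := T) hT₀ (fun x hx => by
    rw [hT', ← hT₀']
    exact Subgroup.subset_closure hx)
  refine ⟨max K K', fun n => ?_⟩
  refine csSup_le' ?_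
  rintro k ⟨x, hx, hn, rfl⟩
  have h1 : W S x (wlen S x) :=
    Nat.sInf_mem (s := {n | W S x n}) (exists_W (by rw [hS']; trivial))
  have h2 : W S₀ x (K * n) := W_trans hK (W_mono h1 hn)
  have h3 : W T x (K' * U (K * n)) := W_trans hK' (h x hx _ h2)
  have h4 : wlen T x ≤ K' * U (K * n) := Nat.sInf_le h3
  exact h4.trans (Nat.mul_le_mul (le_max_right K K')
    (hU (Nat.mul_le_mul_right n (le_max_left K K'))))

end Pool.Agent.FBC
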