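import Pool.Agent.FBC.Sub

/-!
# FBC module Wt: the action of the elements of the subgroup, weights

`shift`: the permutations `T, S, A` commute with `(v, z, m) ↦ (v, z, m + d)` (`hT`, `hS`, `hA`), so
all elements of the generated subgroup do.
`pt_apply`: `(A ^ (e v)) (v0, 0, m) = (v, 0, m)` (`hAe` with `k = 0`), then powers of
`T` (`q v = 1`) or of `S⁻¹ * T * S` (`q v ≠ 1`, then `p v = 1` by `M.one`).
`gens_wt`: every generator maps `(v0, 0, m)` to `(v0, 0, m + c)` with a constant `c` (compute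
with `pt_apply` and `hS`, `hA`, `M.det`/uniqueness of division with remainder); there are only
finitely many generators, `C₀` = the maximum of the `|c|`.
`run_wt`: `a.2 = M.p a.1 * k + r`, `S` subtracts `lam a.1 * k`; `k ≥ 0` if `a.2 ≥ 1`; if `p = 1`
then `k = a.2`.
-/

namespace Pool.Agent.FBC

open Pool.Agent.helper12.FD

variable {V : Type} {M : RM V} {EA : V → ℕ → V → ℕ → Prop} {e : V → ℕ} {v0 : V} {lam : V → ℤ}
  {T S A : Equiv.Perm (V × ℤ × ℤ)}

theorem wt_app_inv {α : Type*} (f : Equiv.Perm α) (x : α) : f (f⁻¹ x) = x := f.apply_symm_apply x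

theorem shift (h : ActS M EA e v0 lam T S A) {g : Equiv.Perm (V × ℤ × ℤ)}
    (hg : g ∈ Subgroup.closure {T, S, A}) (v : V) (z m d : ℤ) :
    g (v, z, m + d) = ((g (v, z, m)).1, (g (v, z, m)).2.1, (g (v, z, m)).2.2 + d) := by
  induction hg using Subgroup.closure_induction generalizing v z m d with
  | mem x hx =>
    simp only [Set.mem_insert_iff, Set.mem_singleton_iff] at hx
    rcases hx with rfl | rfl | rfl
    · rw [h.hT, h.hT]
    · obtain ⟨k, r, c, w, _, _, hm⟩ := h.hS v z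
      rw [hm, hm]
      ext
      · rfl
      · rfl
      · show m + d - lam v * k = m - lam v * k + d
        ring
    · obtain ⟨k, r, c, w, _, _, hm⟩ := h.hA v z
      rw [hm, hm]
  | one => rfl
  | mul x y _ _ hx hy =>
    rw [Equiv.Perm.mul_apply, hy, hx, Equiv.Perm.mul_apply]
  | inv x _ hx =>
    apply x.injective
    rw [wt_app_inv]
    generalize hp : x⁻¹ (v, z, m) = p
    obtain ⟨v', z', m'⟩ := p
    have h1 : x (v', z', m') = (v, z, m) := by rw [← hp, wt_app_inv]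
    show _ = x (v', z', m' + d)
    rw [hx, h1]

theorem wt_T_zpow (h : ActS M EA e v0 lam T S A) (j : ℤ) (v : V) (z m : ℤ) :
    (T ^ j) (v, z, m) = (v, z + j * M.q v, m) := by
  have h1 : ∀ n : ℕ, ∀ z, (T ^ n) (v, z, m) = (v, z + n * M.q v, m) := by
    intro n
    induction n with
    | zero => intro z; simp
    | succ n ih =>
      intro z
      rw [pow_succ', Equiv.Perm.mul_apply, ih, h.hT]
      congr 2
      push_cast
      ring
  obtain ⟨n, rfl | rfl⟩ := j.eq_nat_or_neg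
  · rw [zpow_natCast, h1]
  · rw [zpow_neg, zpow_natCast]
    apply (T ^ n).injective
    rw [wt_app_inv, h1]
    congr 2
    ring

theorem wt_T'_zpow (h : ActS M EA e v0 lam T S A) (j : ℤ) (v : V) (z m : ℤ) :
    ((S⁻¹ * T * S) ^ j) (v, z, m) = (v, z + j * M.p v, m + j * lam v) := by
  have h1 : ∀ n : ℕ, ∀ z m, ((S⁻¹ * T * S) ^ n) (v, z, m) =
      (v, z + n * M.p v, m + n * lam v) := by
    intro n
    induction n with
    | zero => intro z m; simp
    | succ n ih =>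
      intro z m
      rw [pow_succ', Equiv.Perm.mul_apply, ih, h.hT']
      ext
      · rfl
      · show z + n * M.p v + M.p v = z + ((n + 1 : ℕ) : ℤ) * M.p v
        push_cast
        ring
      · show m + n * lam v + lam v = m + ((n + 1 : ℕ) : ℤ) * lam v
        push_cast
        ring
  obtain ⟨n, rfl | rfl⟩ := j.eq_nat_or_neg
  · rw [zpow_natCast, h1]
  · rw [zpow_neg, zpow_natCast]
    apply ((S⁻¹ * T * S) ^ n).injective
    rw [wt_app_inv, h1]
    ext
    · rfl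
    · show z = z + -(n : ℤ) * M.p v + n * M.p v
      ring
    · show m = m + -(n : ℤ) * lam v + n * lam v
      ring

theorem wt_Ae_apply (h : ActS M EA e v0 lam T S A) (v : V) (m : ℤ) :
    (A ^ (e v)) (v0, 0, m) = (v, 0, m) := by
  have := h.hAe v 0 m
  rwa [mul_zero, mul_zero] at this

theorem wt_Ae_inv_apply (h : ActS M EA e v0 lam T S A) (v : V) (m : ℤ) :
    (A ^ (e v))⁻¹ (v, 0, m) = (v0, 0, m) := by
  apply (A ^ (e v)).injective
  rw [wt_app_inv, wt_Ae_apply h]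

theorem pt_apply (h : ActS M EA e v0 lam T S A) (v : V) (z m : ℤ) :
    pt M T S A e v z (v0, 0, m) = (v, z, m + if M.q v = 1 then 0 else lam v * z) := by
  unfold pt tau
  rw [Equiv.Perm.mul_apply, wt_Ae_apply h]
  split_ifs with hq
  · rw [wt_T_zpow h, hq]
    simp
  · have hp : M.p v = 1 := (M.one v).resolve_right hq
    rw [wt_T'_zpow h, hp]
    ext
    · rfl
    · show 0 + z * ((1 : ℕ) : ℤ) = z
      simp
    · show m + z * lam v = m + lam v * z
      ring

theorem wt_pt_inv_apply (h : ActS M EA e v0 lam T S A) (v : V) (z m : ℤ) :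
    (pt M T S A e v z)⁻¹ (v, z, m) = (v0, 0, m - if M.q v = 1 then 0 else lam v * z) := by
  apply (pt M T S A e v z).injective
  rw [wt_app_inv, pt_apply h, sub_add_cancel]

/-- uniqueness of the division with remainder -/
theorem wt_div_unique {p : ℕ} {k k' : ℤ} {r r' : ℕ} (hr : r < p) (hr' : r' < p)
    (h : (p : ℤ) * k + r = p * k' + r') : k = k' ∧ r = r' := by
  have h1 : ((p : ℤ) * k + r) / p = k := by
    rw [Int.mul_add_ediv_left _ _ (by omega), Int.ediv_eq_zero_of_lt (by omega) (by omega), add_zero]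
  have h2 : ((p : ℤ) * k' + r') / p = k' := by
    rw [Int.mul_add_ediv_left _ _ (by omega), Int.ediv_eq_zero_of_lt (by omega) (by omega), add_zero]
  have h3 : k = k' := by rw [← h1, ← h2, h]
  subst h3
  refine ⟨rfl, ?_⟩
  have : (r : ℤ) = r' := by linarith
  exact_mod_cast this

theorem wt_S_apply (h : ActS M EA e v0 lam T S A) {v w : V} {r c : ℕ} (hE : M.E v r w c) (k m : ℤ) :
    S (v, M.p v * k + r, m) = (w, M.q w * k + c, m - lam v * k) := by
  obtain ⟨k', r', c', w', hE', hz, hm⟩ := h.hS v (M.p v * k + r)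
  obtain ⟨rfl, rfl⟩ := wt_div_unique (M.lt hE).1 (M.lt hE').1 hz
  obtain ⟨rfl, rfl⟩ := M.det hE hE'
  exact hm m

theorem wt_A_apply (h : ActS M EA e v0 lam T S A) (hEA : EAok M EA) {v w : V} {c c' : ℕ}
    (hE : EA v c w c') (k m : ℤ) :
    A (v, M.q v * k + c, m) = (w, M.q w * k + c', m) := by
  obtain ⟨k', r', c1, w', hE', hz, hm⟩ := h.hA v (M.q v * k + c)
  obtain ⟨rfl, rfl⟩ := wt_div_unique (hEA.lt hE).1 (hEA.lt hE').1 hz
  obtain ⟨rfl, rfl⟩ := hEA.det hE hE'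
  exact hm m

theorem wt_gen_wt (h : ActS M EA e v0 lam T S A) (hEA : EAok M EA)
    {g : Equiv.Perm (V × ℤ × ℤ)} (hg : g ∈ gens M EA T S A e) :
    ∃ c : ℤ, ∀ m, g (v0, 0, m) = (v0, 0, m + c) := by
  rcases hg with ((⟨v, hq, rfl⟩ | ⟨v, hq, rfl⟩) | ⟨v, r, w, c, hE, rfl⟩) | ⟨v, c, w, c', hE, rfl⟩
  · refine ⟨lam v, fun m => ?_⟩
    simp only [Equiv.Perm.mul_apply]
    rw [wt_Ae_apply h]
    have h1 := wt_T'_zpow h 1 v 0 m
    rw [zpow_one] at h1
    simp only [Equiv.Perm.mul_apply] at h1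
    rw [h1]
    have h2 := wt_T_zpow h (-(M.p v : ℤ)) v (0 + 1 * M.p v) (m + 1 * lam v)
    rw [zpow_neg, zpow_natCast] at h2
    rw [h2, hq]
    have h3 : (0 : ℤ) + 1 * M.p v + -(M.p v : ℤ) * ((1 : ℕ) : ℤ) = 0 := by push_cast; ring
    rw [h3, wt_Ae_inv_apply h, one_mul]
  · refine ⟨-(M.q v * lam v), fun m => ?_⟩
    have hp : M.p v = 1 := (M.one v).resolve_right hq
    rw [Equiv.Perm.mul_apply, Equiv.Perm.mul_apply, Equiv.Perm.mul_apply, wt_Ae_apply h, h.hT]
    have h2 := wt_T'_zpow h (-(M.q v : ℤ)) v (0 + M.q v) m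
    rw [zpow_neg, zpow_natCast] at h2
    rw [h2, hp]
    have h3 : (0 : ℤ) + M.q v + -(M.q v : ℤ) * ((1 : ℕ) : ℤ) = 0 := by push_cast; ring
    rw [h3, wt_Ae_inv_apply h]
    ext
    · rfl
    · rfl
    · show m + -(M.q v : ℤ) * lam v = m + -(M.q v * lam v)
      ring
  · refine ⟨(if M.q v = 1 then 0 else lam v * r) - (if M.q w = 1 then 0 else lam w * c),
      fun m => ?_⟩
    rw [Equiv.Perm.mul_apply, Equiv.Perm.mul_apply, pt_apply h]
    have h1 := wt_S_apply h hE 0 (m + if M.q v = 1 then 0 else lam v * r)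
    rw [mul_zero, mul_zero, mul_zero, zero_add, zero_add, sub_zero] at h1
    rw [h1, wt_pt_inv_apply h, add_sub_assoc]
  · refine ⟨(if M.q v = 1 then 0 else lam v * c) - (if M.q w = 1 then 0 else lam w * c'),
      fun m => ?_⟩
    rw [Equiv.Perm.mul_apply, Equiv.Perm.mul_apply, pt_apply h]
    have h1 := wt_A_apply h hEA hE 0 (m + if M.q v = 1 then 0 else lam v * c)
    rw [mul_zero, mul_zero, zero_add, zero_add] at h1
    rw [h1, wt_pt_inv_apply h, add_sub_assoc]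

theorem gens_wt [Finite V] (h : ActS M EA e v0 lam T S A)
    (hEA : EAok M EA) :
    ∃ C₀ : ℕ, ∀ (g : Equiv.Perm (V × ℤ × ℤ)) (n : ℕ), W (gens M EA T S A e) g n →
      ∃ c : ℤ, |c| ≤ C₀ * n ∧ ∀ m, g (v0, 0, m) = (v0, 0, m + c) := by
  classical
  have hfin : (gens M EA T S A e).Finite := gens_finite M EA T S A e hEA
  choose! f hf using fun g (hg : g ∈ gens M EA T S A e) => wt_gen_wt h hEA hg
  obtain ⟨C₀, hC⟩ := (hfin.image fun g => (f g).natAbs).bddAbove
  have hC' : ∀ g ∈ gens M EA T S A e, |f g| ≤ (C₀ : ℤ) := by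
    intro g hg
    have h1 : (f g).natAbs ≤ C₀ := hC (Set.mem_image_of_mem _ hg)
    rw [Int.abs_eq_natAbs]
    exact_mod_cast h1
  refine ⟨C₀, fun g n hW => ?_⟩
  refine W_induction (P := fun g n => ∃ c : ℤ, |c| ≤ C₀ * n ∧
    ∀ m, g (v0, 0, m) = (v0, 0, m + c)) ⟨0, by simp, fun m => by simp⟩ ?_ ?_ hW
  · rintro y g n hy ⟨c, hc, hgc⟩
    have hy' : ∃ c' : ℤ, |c'| ≤ (C₀ : ℤ) ∧ ∀ m, y (v0, 0, m) = (v0, 0, m + c') := by
      rcases hy with hy | hy
      · exact ⟨f y, hC' y hy, hf y hy⟩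
      · refine ⟨-f y⁻¹, by rw [abs_neg]; exact hC' _ hy, fun m => ?_⟩
        have h1 := hf _ hy (m + -f y⁻¹)
        rw [neg_add_cancel_right] at h1
        rw [← h1, wt_app_inv]
    obtain ⟨c', hc', hyc⟩ := hy'
    refine ⟨c + c', ?_, fun m => ?_⟩
    · have := abs_add_le c c'
      push_cast
      linarith
    · rw [Equiv.Perm.mul_apply, hgc, hyc, add_assoc]
  · rintro g m n hmn ⟨c, hc, hgc⟩
    refine ⟨c, hc.trans ?_, hgc⟩
    have : (m : ℤ) ≤ n := by exact_mod_cast hmn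
    exact mul_le_mul_of_nonneg_left this (by positivity)

theorem step_S (h : ActS M EA e v0 lam T S A) {b c : V × ℤ} (hs : M.Step b c) :
    ∃ k : ℤ, (∃ r : ℕ, r < M.p b.1 ∧ b.2 = M.p b.1 * k + r) ∧
      ∀ m, S (b.1, b.2, m) = (c.1, c.2, m - lam b.1 * k) := by
  obtain ⟨k, r, c', hE, hb, hc⟩ := hs
  refine ⟨k, ⟨r, (M.lt hE).1, hb⟩, fun m => ?_⟩
  rw [hb, hc]
  exact wt_S_apply h hE k m

theorem run_S (h : ActS M EA e v0 lam T S A) {i : ℕ} {b c : V × ℤ} (hr : M.Run i b c) :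
    ∃ d : ℤ, ∀ m, (S ^ i) (b.1, b.2, m) = (c.1, c.2, m - d) := by
  induction hr with
  | refl a => exact ⟨0, fun m => by simp⟩
  | @step n a b c hs _ ih =>
    obtain ⟨k, _, hk⟩ := step_S h hs
    obtain ⟨d, hd⟩ := ih
    refine ⟨lam a.1 * k + d, fun m => ?_⟩
    rw [pow_succ, Equiv.Perm.mul_apply, hk, hd, sub_sub]

theorem run_wt (h : ActS M EA e v0 lam T S A) (hlam : ∀ v, 0 ≤ lam v) {i : ℕ} {b c : V × ℤ}
    (hr : M.Run i b c) (hpos : ∀ i' ≤ i, ∀ b', M.Run i' b b' → 1 ≤ b'.2) :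
    ∃ d : ℤ, 0 ≤ d ∧ (0 < i → M.p b.1 = 1 → lam b.1 * b.2 ≤ d) ∧
      ∀ m, (S ^ i) (b.1, b.2, m) = (c.1, c.2, m - d) := by
  induction hr with
  | refl a => exact ⟨0, le_rfl, fun h0 => absurd h0 (lt_irrefl 0), fun m => by simp⟩
  | @step n a b c hs hr ih =>
    obtain ⟨k, ⟨r, hr1, hr2⟩, hk⟩ := step_S h hs
    obtain ⟨d, hd0, _, hd⟩ := ih (fun i' hi' b' hb' => hpos (i' + 1) (by omega) b'
      (RM.Run.step hs hb'))
    have ha : 1 ≤ a.2 := hpos 0 (Nat.zero_le _) a (RM.Run.refl a)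
    have hk0 : 0 ≤ k := by
      by_contra hneg
      have h1 : k ≤ -1 := by omega
      have h2 : (M.p a.1 : ℤ) * k ≤ M.p a.1 * (-1) :=
        mul_le_mul_of_nonneg_left h1 (by positivity)
      have h3 : (r : ℤ) < M.p a.1 := by exact_mod_cast hr1
      linarith
    refine ⟨lam a.1 * k + d, by have := mul_nonneg (hlam a.1) hk0; linarith, fun _ hp => ?_,
      fun m => ?_⟩
    · have hr0 : r = 0 := by omega
      have : a.2 = k := by rw [hr2, hp, hr0]; simp
      rw [this]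
      linarith
    · rw [pow_succ, Equiv.Perm.mul_apply, hk, hd, sub_sub]

end Pool.Agent.FBC
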