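import Pool.Agent.FBC.Rew
import Pool.Agent.FBC.Wt

/-!
# FBC module ExpL: the exponential lower bound

See the notes in Low.lean, `expl`.
-/

namespace Pool.Agent.FBC

open Pool.Agent.helper12.FD

variable {V : Type} [Finite V] {M : RM V} {EA : V → ℕ → V → ℕ → Prop} {e : V → ℕ} {v0 : V}

/-- uniqueness of division with remainder -/
theorem ExpL_div {p : ℕ} {k k' : ℤ} {r r' : ℕ} (hr : r < p) (hr' : r' < p)
    (h : (p : ℤ) * k + r = p * k' + r') : k = k' ∧ r = r' := by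
  have hp : (0 : ℤ) < p := by exact_mod_cast (Nat.zero_le r).trans_lt hr
  have h1 : k = k' := by
    have e1 : ((p : ℤ) * k + r) / p = k := by
      rw [Int.mul_add_ediv_left _ _ hp.ne', Int.ediv_eq_zero_of_lt (by positivity)
        (by exact_mod_cast hr), add_zero]
    have e2 : ((p : ℤ) * k' + r') / p = k' := by
      rw [Int.mul_add_ediv_left _ _ hp.ne', Int.ediv_eq_zero_of_lt (by positivity)
        (by exact_mod_cast hr'), add_zero]
    rw [← e1, ← e2, h]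
  refine ⟨h1, ?_⟩
  subst h1
  have : (r : ℤ) = r' := by linarith
  exact_mod_cast this

section act

variable {lam : V → ℤ} {T S A : Equiv.Perm (V × ℤ × ℤ)}

omit [Finite V] in
theorem ExpL_S_u (h : ActS M EA e v0 lam T S A) {u : V} (pu : M.p u = 1) (qu : M.q u = 3)
    (eu : M.E u 0 u 0) (hl : lam u = 0) (x m : ℤ) (n : ℕ) :
    (S ^ n) (u, x, m) = (u, 3 ^ n * x, m) := by
  have h1 : ∀ x m : ℤ, S (u, x, m) = (u, 3 * x, m) := by
    intro x m
    obtain ⟨k, r, c, w, hE, hz, hS⟩ := h.hS u x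
    have hr : r = 0 := by
      have := (M.lt hE).1
      omega
    subst hr
    obtain ⟨rfl, rfl⟩ := M.det hE eu
    rw [hS]
    have hk : k = x := by
      rw [hz, pu]; simp
    simp [hk, qu, hl]
  induction n with
  | zero => simp
  | succ n ih =>
    rw [pow_succ', Equiv.Perm.mul_apply, ih, h1]
    simp [pow_succ', mul_assoc]

omit [Finite V] in
theorem ExpL_S_v0 (h : ActS M EA e v0 lam T S A) (p0 : M.p v0 = 2) (q0 : M.q v0 = 1)
    (e0 : M.E v0 0 v0 0) (hl : lam v0 = 1) (x m : ℤ) (n : ℕ) :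
    (S ^ n) (v0, 2 ^ n * x, m) = (v0, x, m - (2 ^ n - 1) * x) := by
  have h1 : ∀ x m : ℤ, S (v0, 2 * x, m) = (v0, x, m - x) := by
    intro x m
    obtain ⟨k, r, c, w, hE, hz, hS⟩ := h.hS v0 (2 * x)
    have hk : (2 : ℕ) * x + (0 : ℕ) = (2 : ℕ) * k + r := by
      rw [p0] at hz
      simpa using hz
    have hr2 : r < 2 := by
      have := (M.lt hE).1
      omega
    obtain ⟨rfl, rfl⟩ := ExpL_div (by norm_num) hr2 hk
    obtain ⟨rfl, rfl⟩ := M.det hE e0
    rw [hS]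
    simp [q0, hl]
  induction n generalizing m with
  | zero => simp
  | succ n ih =>
    rw [pow_succ, Equiv.Perm.mul_apply, pow_succ', mul_assoc, h1, ih]
    congr 2
    ring

omit [Finite V] in
theorem ExpL_S_v0_inv (h : ActS M EA e v0 lam T S A) (p0 : M.p v0 = 2) (q0 : M.q v0 = 1)
    (e0 : M.E v0 0 v0 0) (hl : lam v0 = 1) (x m : ℤ) (n : ℕ) :
    (S ^ n)⁻¹ (v0, x, m) = (v0, 2 ^ n * x, m + (2 ^ n - 1) * x) := by
  rw [Equiv.Perm.inv_eq_iff_eq, ExpL_S_v0 h p0 q0 e0 hl]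
  congr 2
  ring

end act

theorem expl (he : e v0 = 0)
    (hEA : EAok M EA)
    (hact : ∀ lam : V → ℤ, ∃ T S A : Equiv.Perm (V × ℤ × ℤ), ActS M EA e v0 lam T S A)
    {u j mS : V} {Dm : ℕ → Prop} {nu lo Y : ℕ → ℕ} (hm : Mach M v0 u j mS Dm nu lo Y)
    {G : Type} [Group G] (t s z a : G) (hrel : Rel t s z a)
    (univ : ∀ (K : Type) [Group K] (T S Z A : K), Rel T S Z A →
      ∃ ρ : G →* K, ρ t = T ∧ ρ s = S ∧ ρ z = Z ∧ ρ a = A) :
    ∃ C₀ : ℕ, ∀ n : ℕ,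
      ∃ x ∈ Subgroup.closure (insert (t⁻¹ * z * t) (gens M EA t s a e)),
        W {t, s, z, a} x (C₀ * n + C₀) ∧
        ∀ m, W (insert (t⁻¹ * z * t) (gens M EA t s a e)) x m → 2 ^ n ≤ C₀ * m + C₀ := by
  classical
  obtain ⟨T, S, A, hA⟩ := hact (fun v => if v = v0 then 1 else 0)
  set lam : V → ℤ := fun v => if v = v0 then 1 else 0 with hlam
  have hrel' : Rel T S (1 : Equiv.Perm (V × ℤ × ℤ)) A :=
    ⟨hA.tt, Commute.one_left _, hA.at'⟩
  obtain ⟨π, rfl, rfl, hπz, rfl⟩ := univ _ T S 1 A hrel'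
  have huv : u ≠ v0 := by
    rintro rfl
    have := hm.pu
    rw [hm.p0] at this
    omega
  have hlu : lam u = 0 := by simp [hlam, huv]
  have hlv : lam v0 = 1 := by simp [hlam]
  have tm : t ∈ Subgroup.closure ({t, s, a} : Set G) := Subgroup.subset_closure (by simp)
  have sm : s ∈ Subgroup.closure ({t, s, a} : Set G) := Subgroup.subset_closure (by simp)
  have am : a ∈ Subgroup.closure ({t, s, a} : Set G) := Subgroup.subset_closure (by simp)
  obtain ⟨C₁, hC₁⟩ := gens_wt hA hEA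
  refine ⟨C₁ + 4 * e u + 4, fun n => ?_⟩
  have hae : ∀ k : ℕ, W ({t, s, z, a} : Set G) (a ^ k) k := fun k => by
    simpa using W_pow (W_of_mem (S := ({t, s, z, a} : Set G)) (g := a) (by simp)) k
  have hse : ∀ k : ℕ, W ({t, s, z, a} : Set G) (s ^ k) k := fun k => by
    simpa using W_pow (W_of_mem (S := ({t, s, z, a} : Set G)) (g := s) (by simp)) k
  have hte : W ({t, s, z, a} : Set G) t 1 := W_of_mem (by simp)
  set g₁ : G := s ^ n * a ^ (e u) * (s ^ n)⁻¹ * t with hg₁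
  set g₂ : G := a ^ (e u) * (s ^ n)⁻¹ * (a ^ (e u))⁻¹ * s ^ n * a ^ (e u) * t with hg₂
  have g₁m : g₁ ∈ Subgroup.closure ({t, s, a} : Set G) :=
    mul_mem (mul_mem (mul_mem (pow_mem sm _) (pow_mem am _)) (inv_mem (pow_mem sm _))) tm
  have g₂m : g₂ ∈ Subgroup.closure ({t, s, a} : Set G) :=
    mul_mem (mul_mem (mul_mem (mul_mem (mul_mem (pow_mem am _) (inv_mem (pow_mem sm _)))
      (inv_mem (pow_mem am _))) (pow_mem sm _)) (pow_mem am _)) tm
  have g₁W : W ({t, s, z, a} : Set G) g₁ (n + e u + n + 1) :=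
    W_mul (W_mul (W_mul (hse n) (hae _)) (W_inv (hse n))) hte
  have g₂W : W ({t, s, z, a} : Set G) g₂ (e u + n + e u + n + e u + 1) :=
    W_mul (W_mul (W_mul (W_mul (W_mul (hae _) (W_inv (hse n))) (W_inv (hae _))) (hse n))
      (hae _)) hte
  have hπt : ∀ m : ℤ, π t (v0, 0, m) = (v0, 1, m) := by
    intro m
    rw [hA.hT, hm.q0]
    simp
  have hπa : ∀ k m : ℤ, (π a ^ (e u)) (v0, k, m) = (u, 3 * k, m) := by
    intro k m
    have := hA.hAe u k m
    rw [hm.q0, hm.qu] at this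
    simpa using this
  have hπ₁ : ∀ m : ℤ, π g₁ (v0, 0, m) = (u, 3 ^ n * (3 * 2 ^ n), m + (2 ^ n - 1)) := by
    intro m
    rw [hg₁]
    simp only [map_mul, map_pow, map_inv, Equiv.Perm.mul_apply]
    rw [hπt, ExpL_S_v0_inv hA hm.p0 hm.q0 hm.e0 hlv, hπa, ExpL_S_u hA hm.pu hm.qu hm.eu hlu]
    simp
  have hπ₂ : ∀ m : ℤ, π g₂ (v0, 0, m) =
      (u, 3 ^ n * (3 * 2 ^ n), m + (2 ^ n - 1) * 3 ^ n) := by
    intro m
    have h3 : ((π a ^ (e u))⁻¹) (u, 3 ^ n * (3 * 1), m) = (v0, 3 ^ n, m) := by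
      rw [Equiv.Perm.inv_eq_iff_eq, hπa]
      congr 2
      ring
    rw [hg₂]
    simp only [map_mul, map_pow, map_inv, Equiv.Perm.mul_apply]
    rw [hπt, hπa, ExpL_S_u hA hm.pu hm.qu hm.eu hlu, h3,
      ExpL_S_v0_inv hA hm.p0 hm.q0 hm.e0 hlv, hπa]
    congr 2
    ring
  have hπx : ∀ m : ℤ, π (g₂⁻¹ * g₁) (v0, 0, m) =
      (v0, 0, m + -((3 ^ n - 1) * (2 ^ n - 1))) := by
    intro m
    rw [map_mul, map_inv, Equiv.Perm.mul_apply, hπ₁, Equiv.Perm.inv_eq_iff_eq, hπ₂]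
    congr 2
    ring
  have xm : g₂⁻¹ * g₁ ∈ Subgroup.closure ({t, s, a} : Set G) := mul_mem (inv_mem g₂m) g₁m
  have hcl : g₂⁻¹ * g₁ ∈ Subgroup.closure (gens M EA t s a e) :=
    closure_of_fix hA hEA he t s a hrel.tt hrel.at' π rfl rfl rfl xm (hπx 0)
  refine ⟨g₂⁻¹ * g₁, Subgroup.closure_mono (Set.subset_insert _ _) hcl, ?_, ?_⟩
  · refine W_mono (W_mul (W_inv g₂W) g₁W) ?_
    nlinarith [Nat.zero_le (C₁ * n), Nat.zero_le (e u * n), Nat.zero_le C₁]
  · intro m hW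
    have h1 := W_map π hW
    have h2 : W (gens M EA (π t) (π s) (π a) e) (π (g₂⁻¹ * g₁)) (1 * m) := by
      refine W_trans ?_ h1
      rintro y ⟨x, hx, rfl⟩
      rcases hx with rfl | hx
      · have : π (t⁻¹ * z * t) = 1 := by
          rw [map_mul, map_mul, hπz, mul_one, ← map_mul, inv_mul_cancel, map_one]
        rw [this]
        exact W_one 1
      · refine W_of_mem ?_
        rw [← gens_map]
        exact ⟨x, hx, rfl⟩
    rw [one_mul] at h2
    obtain ⟨c, hc1, hc2⟩ := hC₁ _ _ h2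
    have h3 : c = -((3 ^ n - 1) * (2 ^ n - 1)) := by
      have h4 := (hc2 0).symm.trans (hπx 0)
      simp only [Prod.mk.injEq] at h4
      linarith [h4.2.2]
    rw [h3, abs_neg] at hc1
    have h5 : ((3 : ℤ) ^ n - 1) * (2 ^ n - 1) ≤ C₁ * m := (le_abs_self _).trans hc1
    have h6 : (2 : ℤ) ^ n ≤ (3 ^ n - 1) * (2 ^ n - 1) + 1 := by
      rcases Nat.eq_zero_or_pos n with rfl | hn
      · simp
      · have a1 : (3 : ℤ) ≤ 3 ^ n := by
          calc (3 : ℤ) = 3 ^ 1 := by norm_num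
            _ ≤ 3 ^ n := pow_le_pow_right₀ (by norm_num) hn
        have a2 : (2 : ℤ) ≤ 2 ^ n := by
          calc (2 : ℤ) = 2 ^ 1 := by norm_num
            _ ≤ 2 ^ n := pow_le_pow_right₀ (by norm_num) hn
        nlinarith
    have h7 : (2 : ℤ) ^ n ≤ C₁ * m + 1 := by linarith
    have h8 : 2 ^ n ≤ C₁ * m + 1 := by exact_mod_cast h7
    nlinarith [Nat.zero_le (e u * m), Nat.zero_le C₁, Nat.zero_le (e u), Nat.zero_le m]

end Pool.Agent.FBC
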