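import Pool.Agent.FBC.Defs1

/-!
# FBC module Grp: the group `F_4 ⋊ ℤ`

`φ` = the automorphism with `phiHom`, inverse `phiInv`. `t = inr (ofAdd 1)`,
`s = t * inl w`, `z = inl z`, `a = inl a` (`x, w, z, a = FreeGroup.of 0, 1, 2, 3`), and
`t * inl g * t⁻¹ = inl (φ g)`. Check: `s⁻¹ t s = w⁻¹ t w`; `t w t⁻¹ = w x` gives
`w⁻¹ t w = t (t⁻¹ w⁻¹ t) w = t x` because `t⁻¹ w t = w x⁻¹`; `t` commutes with `x`.
`s z s⁻¹ = t w z w⁻¹ t⁻¹ = φ (w z w⁻¹) = w x (w x)⁻¹ z (w x) (w x)⁻¹ = z`.
Lift: for `T S Z A` in `K` with the relations put `X = T⁻¹ S⁻¹ T S`, `W = T⁻¹ S`; use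
`SemidirectProduct.lift (FreeGroup.lift ![X, W, Z, A]) (zpowersHom K T) _`; the condition has to
be checked only for the generator `ofAdd 1` (and then for its powers, by induction or because both
sides are homomorphisms in the `ℤ` variable).
-/

namespace Pool.Agent.FBC

theorem phiInv_comp : phiInv.comp phiHom = MonoidHom.id F4 := by
  ext i
  fin_cases i <;> simp [phiHom, phiInv, mul_assoc]

theorem phiHom_comp : phiHom.comp phiInv = MonoidHom.id F4 := by
  ext i
  fin_cases i <;> simp [phiHom, phiInv, mul_assoc]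

/-- the automorphism -/
def phiAut : MulAut F4 where
  toFun := phiHom
  invFun := phiInv
  left_inv x := DFunLike.congr_fun phiInv_comp x
  right_inv x := DFunLike.congr_fun phiHom_comp x
  map_mul' := phiHom.map_mul

theorem phiAut_apply (x : F4) : phiAut x = phiHom x := rfl

section

/-- abbreviation for the group -/
abbrev GG : Type := F4 ⋊[zpowersHom (MulAut F4) phiAut] Multiplicative ℤ

/-- the stable letter -/
def gt : GG := SemidirectProduct.inr (Multiplicative.ofAdd 1)

/-- the inclusion of the free group -/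
def gi : F4 →* GG := SemidirectProduct.inl

theorem gt_conj (g : F4) : gt * gi g * gt⁻¹ = gi (phiHom g) := by
  have h := SemidirectProduct.inl_aut (φ := zpowersHom (MulAut F4) phiAut)
    (Multiplicative.ofAdd 1) g
  rw [zpowersHom_apply, toAdd_ofAdd, zpow_one, phiAut_apply, map_inv] at h
  exact h.symm

theorem gt_mul (g : F4) : gt * gi g = gi (phiHom g) * gt := by
  rw [← gt_conj, inv_mul_cancel_right]

theorem phi0 : phiHom (FreeGroup.of 0) = FreeGroup.of 0 := by simp [phiHom]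

theorem phi1 : phiHom (FreeGroup.of 1) = FreeGroup.of 1 * FreeGroup.of 0 := by simp [phiHom]

theorem phi2 : phiHom (FreeGroup.of 2) = (FreeGroup.of 1 * FreeGroup.of 0)⁻¹ * FreeGroup.of 2 *
    (FreeGroup.of 1 * FreeGroup.of 0) := by simp [phiHom]

theorem phi3 : phiHom (FreeGroup.of 3) = FreeGroup.of 3 := by simp [phiHom]

theorem rel_gg : Rel gt (gt * gi (FreeGroup.of 1)) (gi (FreeGroup.of 2)) (gi (FreeGroup.of 3)) := by
  constructor
  · have h0 : (gt * gi (FreeGroup.of 1))⁻¹ * gt * (gt * gi (FreeGroup.of 1)) =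
        gt * gi (FreeGroup.of 0) := by
      have h1 : gt * gi (FreeGroup.of 1) = gi (FreeGroup.of 1) * gi (FreeGroup.of 0) * gt := by
        rw [gt_mul, phi1, map_mul]
      have h2 : gt * gi (FreeGroup.of 0) = gi (FreeGroup.of 0) * gt := by
        rw [gt_mul, phi0]
      have h3 : (gt * gi (FreeGroup.of 1))⁻¹ * gt * (gt * gi (FreeGroup.of 1)) =
          (gi (FreeGroup.of 1))⁻¹ * (gt * gi (FreeGroup.of 1)) := by group
      rw [h3, h1, h2]
      group
    rw [h0]
    exact (Commute.refl _).mul_right (by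
      rw [Commute, SemiconjBy, gt_mul, phi0])
  · have h1 : gt * gi (FreeGroup.of 1 * FreeGroup.of 2 * (FreeGroup.of 1)⁻¹) * gt⁻¹ =
        gi (FreeGroup.of 2) := by
      rw [gt_conj]
      congr 1
      rw [map_mul, map_mul, map_inv, phi1, phi2]
      group
    rw [map_mul, map_mul, map_inv] at h1
    rw [Commute, SemiconjBy]
    have h2 : gt * gi (FreeGroup.of 1) * gi (FreeGroup.of 2) =
        (gt * (gi (FreeGroup.of 1) * gi (FreeGroup.of 2) * (gi (FreeGroup.of 1))⁻¹) * gt⁻¹) *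
          (gt * gi (FreeGroup.of 1)) := by group
    rw [h2, h1]
  · rw [Commute, SemiconjBy, gt_mul, phi3]

theorem closure_gg : Subgroup.closure {gt, gt * gi (FreeGroup.of 1), gi (FreeGroup.of 2),
    gi (FreeGroup.of 3)} = (⊤ : Subgroup GG) := by
  set H : Subgroup GG := Subgroup.closure {gt, gt * gi (FreeGroup.of 1), gi (FreeGroup.of 2),
    gi (FreeGroup.of 3)} with hH
  have ht : gt ∈ H := Subgroup.subset_closure (by simp)
  have hs : gt * gi (FreeGroup.of 1) ∈ H := Subgroup.subset_closure (by simp)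
  have hz : gi (FreeGroup.of 2) ∈ H := Subgroup.subset_closure (by simp)
  have ha : gi (FreeGroup.of 3) ∈ H := Subgroup.subset_closure (by simp)
  have hw : gi (FreeGroup.of 1) ∈ H := by
    have := H.mul_mem (H.inv_mem ht) hs
    rwa [inv_mul_cancel_left] at this
  have hx : gi (FreeGroup.of 0) ∈ H := by
    have h1 := gt_conj (FreeGroup.of 1)
    rw [phi1, map_mul] at h1
    have h2 : gi (FreeGroup.of 0) = (gi (FreeGroup.of 1))⁻¹ * (gt * gi (FreeGroup.of 1) * gt⁻¹) := by
      rw [h1, inv_mul_cancel_left]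
    rw [h2]
    exact H.mul_mem (H.inv_mem hw) (H.mul_mem (H.mul_mem ht hw) (H.inv_mem ht))
  have hall : ∀ g : F4, gi g ∈ H := by
    intro g
    have h : (⊤ : Subgroup F4) ≤ H.comap gi := by
      rw [← FreeGroup.closure_range_of, Subgroup.closure_le]
      rintro _ ⟨i, rfl⟩
      change gi (FreeGroup.of i) ∈ H
      fin_cases i
      · exact hx
      · exact hw
      · exact hz
      · exact ha
    exact h (Subgroup.mem_top g)
  rw [eq_top_iff]
  rintro y -
  rw [← SemidirectProduct.inl_left_mul_inr_right y]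
  refine H.mul_mem (hall _) ?_
  have h1 : (SemidirectProduct.inr y.right : GG) = gt ^ (Multiplicative.toAdd y.right) := by
    rw [gt, ← map_zpow, ← ofAdd_zsmul]
    simp
  rw [h1]
  exact H.zpow_mem ht _

theorem lift_gg (K : Type) [Group K] (T S Z A : K) (h : Rel T S Z A) :
    ∃ ρ : GG →* K, ρ gt = T ∧ ρ (gt * gi (FreeGroup.of 1)) = S ∧ ρ (gi (FreeGroup.of 2)) = Z ∧
      ρ (gi (FreeGroup.of 3)) = A := by
  set fn : F4 →* K := FreeGroup.lift ![T⁻¹ * S⁻¹ * T * S, T⁻¹ * S, Z, A] with hfn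
  have f0 : fn (FreeGroup.of 0) = T⁻¹ * S⁻¹ * T * S := by simp [hfn]
  have f1 : fn (FreeGroup.of 1) = T⁻¹ * S := by simp [hfn]
  have f2 : fn (FreeGroup.of 2) = Z := by simp [hfn]
  have f3 : fn (FreeGroup.of 3) = A := by simp [hfn]
  have htt : T * (S⁻¹ * T * S) = (S⁻¹ * T * S) * T := h.tt
  have hzs : Z * S = S * Z := h.zs
  have hat : A * T = T * A := h.at'
  have key : fn.comp phiHom = (MulAut.conj T).toMonoidHom.comp fn := by
    ext i
    have hw : fn (FreeGroup.of 1 * FreeGroup.of 0) = S * T⁻¹ := by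
      rw [map_mul, f1, f0]
      have : T⁻¹ * S * (T⁻¹ * S⁻¹ * T * S) = T⁻¹ * S * T⁻¹ * (S⁻¹ * T * S) := by group
      rw [this]
      have h3 : T⁻¹ * (S⁻¹ * T * S) = (S⁻¹ * T * S) * T⁻¹ := by
        have h4 : Commute T (S⁻¹ * T * S) := htt
        exact (h4.inv_left).eq
      rw [mul_assoc, h3]
      group
    fin_cases i
    · change fn (phiHom (FreeGroup.of 0)) = T * fn (FreeGroup.of 0) * T⁻¹
      rw [phi0, f0]
      have : T * (T⁻¹ * S⁻¹ * T * S) * T⁻¹ = T⁻¹ * (T * (S⁻¹ * T * S)) * T⁻¹ := by group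
      rw [this, htt]
      group
    · change fn (phiHom (FreeGroup.of 1)) = T * fn (FreeGroup.of 1) * T⁻¹
      rw [phi1, hw, f1]
      group
    · change fn (phiHom (FreeGroup.of 2)) = T * fn (FreeGroup.of 2) * T⁻¹
      rw [phi2, map_mul, map_mul, map_inv, hw, f2]
      have : (S * T⁻¹)⁻¹ * Z * (S * T⁻¹) = T * S⁻¹ * (Z * S) * T⁻¹ := by group
      rw [this, hzs]
      group
    · change fn (phiHom (FreeGroup.of 3)) = T * fn (FreeGroup.of 3) * T⁻¹
      rw [phi3, f3, ← hat]
      group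
  have key1 : ∀ g : F4, fn (phiHom g) = T * fn g * T⁻¹ := fun g => DFunLike.congr_fun key g
  have hpow : ∀ (n : ℤ) (g : F4), fn ((phiAut ^ n) g) = T ^ n * fn g * (T ^ n)⁻¹ := by
    intro n
    induction n with
    | zero => intro g; simp
    | succ n ih =>
      intro g
      rw [zpow_add, zpow_one, MulAut.mul_apply, ih, phiAut_apply, key1, zpow_add, zpow_one]
      group
    | pred n ih =>
      intro g
      have h1 : phiHom ((phiAut⁻¹) g) = g := by
        rw [← phiAut_apply]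
        exact MulAut.apply_inv_self _ phiAut g
      have h2 := key1 ((phiAut⁻¹) g)
      rw [h1] at h2
      rw [zpow_sub, zpow_one, MulAut.mul_apply, ih, zpow_sub, zpow_one, h2]
      group
  refine ⟨SemidirectProduct.lift fn (zpowersHom K T) ?_, ?_, ?_, ?_, ?_⟩
  · intro n
    ext g
    exact hpow n.toAdd (FreeGroup.of g)
  · rw [gt, SemidirectProduct.lift_inr, zpowersHom_apply, toAdd_ofAdd, zpow_one]
  · rw [map_mul, gt, gi, SemidirectProduct.lift_inr, SemidirectProduct.lift_inl, zpowersHom_apply,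
      toAdd_ofAdd, zpow_one, f1, mul_inv_cancel_left]
  · rw [gi, SemidirectProduct.lift_inl, f2]
  · rw [gi, SemidirectProduct.lift_inl, f3]

end

theorem grp : ∃ (φ : MulAut (FreeGroup (Fin 4)))
    (t s z a : FreeGroup (Fin 4) ⋊[zpowersHom (MulAut (FreeGroup (Fin 4))) φ] Multiplicative ℤ),
    Rel t s z a ∧ Subgroup.closure {t, s, z, a} = ⊤ ∧
    ∀ (K : Type) [Group K] (T S Z A : K), Rel T S Z A →
      ∃ ρ : (FreeGroup (Fin 4) ⋊[zpowersHom (MulAut (FreeGroup (Fin 4))) φ] Multiplicative ℤ) →* K,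
        ρ t = T ∧ ρ s = S ∧ ρ z = Z ∧ ρ a = A := by
  exact ⟨phiAut, gt, gt * gi (FreeGroup.of 1), gi (FreeGroup.of 2), gi (FreeGroup.of 3), rel_gg,
    closure_gg, fun K _ T S Z A h => lift_gg K T S Z A h⟩

end Pool.Agent.FBC
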