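import Pool.Agent.FBC.Sub

/-!
# FBC module Rew: rewriting of words

Induction with `W_induction` (letters on the left). `g = x * g'`, `x` a letter or its inverse,
`π g' (v0, 0, 0) = (v', z', m')`, `π g (v0, 0, 0) = (v, z, m)`:
`(pt v z)⁻¹ * x * g' = ((pt v z)⁻¹ * x * pt v' z') * ((pt v' z')⁻¹ * g')`; the first factor is
`rew_t`, `rew_s`, `rew_a` at `(v', z')` (from `hT`, `hS`, `hA`) or, if `x` is the inverse of a
letter, the inverse of such an element at `(v, z)` (`W_inv`). Growth: with `Q` = the maximum of all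
`p v`, `q v` one has `|z| + 1 ≤ (2 * Q + 2) * (|z'| + 1)` (`z = p * k + r`, `0 ≤ r < p`,
`|k| ≤ |z|`); take `B = 2 * Q + 4` or larger; the number of generators used in one step is at most
`2 * |k| + 1 ≤ B ^ n`.
-/

namespace Pool.Agent.FBC

open Pool.Agent.helper12.FD

/-- division with remainder: `|k| ≤ |p * k + r|` for `0 ≤ r < p` -/
theorem natAbs_le_of_div {p r : ℕ} (hr : r < p) (k : ℤ) :
    k.natAbs ≤ ((p : ℤ) * k + r).natAbs := by
  have hp : (1 : ℤ) ≤ p := by omega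
  rcases le_or_gt 0 k with hk | hk
  · have h1 : k ≤ (p : ℤ) * k := by nlinarith
    omega
  · have h1 : (p : ℤ) * (k + 1) ≤ k + 1 := by nlinarith
    have h2 : (p : ℤ) * k + r ≤ k := by
      have : (r : ℤ) < p := by exact_mod_cast hr
      nlinarith
    omega

theorem natAbs_mul_add_le {q c Q : ℕ} (hc : c < q) (hq : q ≤ Q) (k : ℤ) :
    ((q : ℤ) * k + c).natAbs ≤ Q * (k.natAbs + 1) := by
  calc ((q : ℤ) * k + c).natAbs ≤ ((q : ℤ) * k).natAbs + ((c : ℤ)).natAbs := Int.natAbs_add_le _ _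
    _ = q * k.natAbs + c := by rw [Int.natAbs_mul]; simp
    _ ≤ Q * k.natAbs + Q := by
        have := Nat.mul_le_mul_right k.natAbs hq
        omega
    _ = Q * (k.natAbs + 1) := by ring

/-- one letter -/
theorem rew_letter {V : Type} {M : RM V} {EA : V → ℕ → V → ℕ → Prop} {e : V → ℕ} {v0 : V}
    {lam : V → ℤ} {T S A : Equiv.Perm (V × ℤ × ℤ)} (h : ActS M EA e v0 lam T S A)
    (hEA : EAok M EA)
    {G : Type} [Group G] (t s a : G) (htt : Commute t (s⁻¹ * t * s)) (hat : Commute a t)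
    (π : G →* Equiv.Perm (V × ℤ × ℤ)) (ht : π t = T) (hs : π s = S) (ha : π a = A)
    {Q : ℕ} (hp : ∀ v, M.p v ≤ Q) (hq : ∀ v, M.q v ≤ Q) {x : G} (hx : x ∈ ({t, s, a} : Set G))
    {v w : V} {z y m m' : ℤ} (hxz : π x (v, z, m) = (w, y, m')) :
    ∃ K : ℕ, W (gens M EA t s a e) ((pt M t s a e w y)⁻¹ * x * pt M t s a e v z) (2 * K + 1) ∧
      K ≤ z.natAbs ∧ K ≤ y.natAbs ∧ y.natAbs ≤ Q * (z.natAbs + 1) ∧
      z.natAbs ≤ Q * (y.natAbs + 1) := by
  simp only [Set.mem_insert_iff, Set.mem_singleton_iff] at hx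
  rcases hx with rfl | rfl | rfl
  · rw [ht, h.hT] at hxz
    obtain ⟨rfl, h2⟩ := Prod.mk.inj hxz
    obtain ⟨rfl, -⟩ := Prod.mk.inj h2
    refine ⟨0, rew_t M EA _ s a e htt v z, by omega, by omega, ?_, ?_⟩
    · have h3 := hq v
      have h4 := M.hq v
      have h5 : Q * 1 ≤ Q * (z.natAbs + 1) := Nat.mul_le_mul_left _ (by omega)
      have h6 : z.natAbs ≤ Q * z.natAbs := Nat.le_mul_of_pos_left _ (by omega)
      have h7 : Q * (z.natAbs + 1) = Q * z.natAbs + Q := by ring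
      omega
    · have h3 := hq v
      have h4 := M.hq v
      have h6 : (z + M.q v).natAbs ≤ Q * (z + M.q v).natAbs := Nat.le_mul_of_pos_left _ (by omega)
      have h7 : Q * ((z + M.q v).natAbs + 1) = Q * (z + M.q v).natAbs + Q := by ring
      omega
  · rw [hs] at hxz
    obtain ⟨k, r, c, w', hE, rfl, hS⟩ := h.hS v z
    rw [hS m] at hxz
    obtain ⟨rfl, h2⟩ := Prod.mk.inj hxz
    obtain ⟨rfl, -⟩ := Prod.mk.inj h2
    obtain ⟨hr, hc⟩ := M.lt hE
    refine ⟨k.natAbs, rew_s M EA t _ a e htt hE k, natAbs_le_of_div hr k, natAbs_le_of_div hc k,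
      ?_, ?_⟩
    · exact (natAbs_mul_add_le hc (hq _) k).trans
        (Nat.mul_le_mul_left _ (Nat.succ_le_succ (natAbs_le_of_div hr k)))
    · exact (natAbs_mul_add_le hr (hp _) k).trans
        (Nat.mul_le_mul_left _ (Nat.succ_le_succ (natAbs_le_of_div hc k)))
  · rw [ha] at hxz
    obtain ⟨k, c, c', w', hE, rfl, hA⟩ := h.hA v z
    rw [hA m] at hxz
    obtain ⟨rfl, h2⟩ := Prod.mk.inj hxz
    obtain ⟨rfl, -⟩ := Prod.mk.inj h2
    obtain ⟨hr, hc⟩ := hEA.lt hE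
    refine ⟨k.natAbs, rew_a M EA t s _ e htt hat hE k, natAbs_le_of_div hr k,
      natAbs_le_of_div hc k, ?_, ?_⟩
    · exact (natAbs_mul_add_le hc (hq _) k).trans
        (Nat.mul_le_mul_left _ (Nat.succ_le_succ (natAbs_le_of_div hr k)))
    · exact (natAbs_mul_add_le hr (hq _) k).trans
        (Nat.mul_le_mul_left _ (Nat.succ_le_succ (natAbs_le_of_div hc k)))

theorem pt_zero {V : Type} (M : RM V) {G : Type} [Group G] (t s a : G) {e : V → ℕ} {v0 : V}
    (he : e v0 = 0) : pt M t s a e v0 0 = 1 := by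
  simp [pt, he]

/-- the numbers in one step -/
theorem rew_num {Q n K k' z y : ℕ} (hz : z + 1 ≤ (2 * Q + 4) ^ n) (hK : K ≤ z)
    (hy : y ≤ Q * (z + 1)) (hk' : k' ≤ n * (2 * Q + 4) ^ n) :
    y + 1 ≤ (2 * Q + 4) ^ (n + 1) ∧
      2 * K + 1 + k' ≤ (n + 1) * (2 * Q + 4) ^ (n + 1) := by
  set B := 2 * Q + 4 with hB
  set X := B ^ n with hX
  have h1 : B ^ (n + 1) = B * X := by rw [pow_succ]; ring
  rw [h1]
  constructor
  · have h2 : Q * (z + 1) ≤ Q * X := Nat.mul_le_mul_left _ hz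
    have h3 : B * X = Q * X + (Q * X + 4 * X) := by rw [hB]; ring
    have h4 : 1 ≤ X := by omega
    omega
  · have h2 : (n + 1) * (B * X) = (n + 1) * (2 * Q * X) + 4 * (n * X) + 4 * X := by
      rw [hB]; ring
    omega

theorem rew {V : Type} [Finite V] {M : RM V} {EA : V → ℕ → V → ℕ → Prop} {e : V → ℕ} {v0 : V}
    {lam : V → ℤ} {T S A : Equiv.Perm (V × ℤ × ℤ)} (h : ActS M EA e v0 lam T S A)
    (hEA : EAok M EA) (he : e v0 = 0)
    {G : Type} [Group G] (t s a : G) (htt : Commute t (s⁻¹ * t * s)) (hat : Commute a t)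
    (π : G →* Equiv.Perm (V × ℤ × ℤ)) (ht : π t = T) (hs : π s = S) (ha : π a = A) :
    ∃ B : ℕ, 2 ≤ B ∧ ∀ (n : ℕ) (g : G), W {t, s, a} g n → ∀ (v : V) (z m : ℤ),
      π g (v0, 0, 0) = (v, z, m) → z.natAbs + 1 ≤ B ^ n ∧
        W (gens M EA t s a e) ((pt M t s a e v z)⁻¹ * g) (n * B ^ n) := by
  classical
  have := Fintype.ofFinite V
  obtain ⟨Q, hp, hq⟩ : ∃ Q : ℕ, (∀ v, M.p v ≤ Q) ∧ ∀ v, M.q v ≤ Q := by
    refine ⟨∑ v, (M.p v + M.q v), fun v => ?_, fun v => ?_⟩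
    · have := Finset.single_le_sum (f := fun v => M.p v + M.q v) (fun i _ => Nat.zero_le _)
        (Finset.mem_univ v)
      exact le_trans (Nat.le_add_right _ _) this
    · have := Finset.single_le_sum (f := fun v => M.p v + M.q v) (fun i _ => Nat.zero_le _)
        (Finset.mem_univ v)
      exact le_trans (Nat.le_add_left _ _) this
  refine ⟨2 * Q + 4, by omega, fun n g hg => ?_⟩
  refine W_induction (P := fun g n => ∀ (v : V) (z m : ℤ),
    π g (v0, 0, 0) = (v, z, m) → z.natAbs + 1 ≤ (2 * Q + 4) ^ n ∧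
      W (gens M EA t s a e) ((pt M t s a e v z)⁻¹ * g) (n * (2 * Q + 4) ^ n)) ?_ ?_ ?_ hg
  · intro v z m hv
    rw [map_one, Equiv.Perm.one_apply] at hv
    obtain ⟨rfl, h2⟩ := Prod.mk.inj hv
    obtain ⟨rfl, -⟩ := Prod.mk.inj h2
    refine ⟨by simp, ?_⟩
    rw [pt_zero M t s a he]
    simpa using W_one 0
  · intro y g n hy hg v z m hv
    rw [map_mul, Equiv.Perm.mul_apply] at hv
    obtain ⟨⟨v', z', m'⟩, hg'⟩ : ∃ b, π g (v0, 0, 0) = b := ⟨_, rfl⟩
    rw [hg'] at hv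
    obtain ⟨h1, h2⟩ := hg v' z' m' hg'
    obtain ⟨K, hK, hKz, hzz⟩ : ∃ K : ℕ,
        W (gens M EA t s a e) ((pt M t s a e v z)⁻¹ * y * pt M t s a e v' z') (2 * K + 1) ∧
        K ≤ z'.natAbs ∧ z.natAbs ≤ Q * (z'.natAbs + 1) := by
      rcases hy with hy | hy
      · obtain ⟨K, a1, a2, a3, a4, a5⟩ := rew_letter h hEA t s a htt hat π ht hs ha hp hq hy hv
        exact ⟨K, a1, a2, a4⟩
      · have hv' : π y⁻¹ (v, z, m) = (v', z', m') := by
          rw [← hv, ← Equiv.Perm.mul_apply, ← map_mul, inv_mul_cancel, map_one, Equiv.Perm.one_apply]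
        obtain ⟨K, a1, a2, a3, a4, a5⟩ := rew_letter h hEA t s a htt hat π ht hs ha hp hq hy hv'
        refine ⟨K, ?_, a3, a5⟩
        have := W_inv a1
        simpa [mul_assoc] using this
    obtain ⟨h3, h4⟩ := rew_num h1 hKz hzz le_rfl
    refine ⟨h3, ?_⟩
    have h5 := W_mono (W_mul hK h2) h4
    have h6 : (pt M t s a e v z)⁻¹ * y * pt M t s a e v' z' * ((pt M t s a e v' z')⁻¹ * g) =
        (pt M t s a e v z)⁻¹ * (y * g) := by group
    rwa [h6] at h5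
  · intro g m n hmn hP v z m' hv
    obtain ⟨h1, h2⟩ := hP v z m' hv
    have h3 : (2 * Q + 4) ^ m ≤ (2 * Q + 4) ^ n := Nat.pow_le_pow_right (by omega) hmn
    exact ⟨h1.trans h3, W_mono h2 (Nat.mul_le_mul hmn h3)⟩

/-- from `rew`: `pt v0 0 = 1` -/
theorem closure_of_fix {V : Type} [Finite V] {M : RM V} {EA : V → ℕ → V → ℕ → Prop} {e : V → ℕ}
    {v0 : V} {lam : V → ℤ} {T S A : Equiv.Perm (V × ℤ × ℤ)}
    (h : ActS M EA e v0 lam T S A)
    (hEA : EAok M EA) (he : e v0 = 0)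
    {G : Type} [Group G] (t s a : G) (htt : Commute t (s⁻¹ * t * s)) (hat : Commute a t)
    (π : G →* Equiv.Perm (V × ℤ × ℤ)) (ht : π t = T) (hs : π s = S) (ha : π a = A) {g : G}
    (hg : g ∈ Subgroup.closure {t, s, a}) {m : ℤ} (hfix : π g (v0, 0, 0) = (v0, 0, m)) :
    g ∈ Subgroup.closure (gens M EA t s a e) := by
  obtain ⟨B, -, hB⟩ := rew h hEA he t s a htt hat π ht hs ha
  obtain ⟨n, hn⟩ := exists_W hg
  have h1 := (hB n g hn v0 0 m hfix).2
  rw [pt_zero M t s a he, inv_one, one_mul] at h1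
  exact W_mem_closure h1

end Pool.Agent.FBC
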