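import Pool.Agent.FBC.Lamp
import Pool.Agent.FBC.Rew
import Pool.Agent.FBC.Wt

/-!
# FBC module Low: the two lower bounds

Notation: `X = gens M EA t s a e`, `ζ = t⁻¹ * z * t`, `T₀ = insert ζ X`, `S₀ = {t, s, z, a}`;
`pt v0 1 = t` (`e v0 = 0`, `q v0 = 1`).

`low`. Take `lam` = indicator of `mS`, `T, S, A` from `hact lam`, `π : G →* Perm (V × ℤ × ℤ)` with
`t, s, z, a ↦ T, S, 1, A` (`univ`), `ρ` from `univ` and `lampRep T S A`. All elements `g` of
`closure {t, s, a}` satisfy `ρ g (f, κ) = (f, π g * κ)` and `ρ z (f, κ) = (f + ind S κ, κ)`.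
For `N` in `Dm`, `n = nu N`: `g = a ^ (e j) * (a ^ (e u))⁻¹ * s ^ (n + 1) * pt u 1`. Action of
`π g` on `(v0, 0, m)`: `(u, 1, m)` (`pt_apply`, `lam u = 0` as `q u = 3 ≠ q mS`), `(u, 3 ^ (n + 1), m)`
(`eu`, `p u = 1`), `(v0, 3 ^ n, m)` (`hAe` with `k = 3 ^ n`), `(j, 3 ^ n, m)` (`hAe`).
`x = g⁻¹ * z * g`, of length `≤ 2 * (n + 1 + e j + 2 * e u + …) + 1` in `S₀`.
Run from `(v0, 1)` to `(j, 3 ^ n)` of length `i = i₁ + i₂`: `h = g⁻¹ * s ^ i * t` is in `closure X`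
by `closure_of_fix` (module Rew). `x = h * ζ * h⁻¹` because `s ^ i` commutes with `z`.
If `W T₀ x m` then `lamp_bound` gives a product `κ` of at most `m` letters of `X` and `k` with
`S ^ k = T * π κ * (π g)⁻¹` (`τ = t`). Apply to `π g (v0, 0, 0) = (j, 3 ^ n, 0)`: by `gens_wt`
`S ^ k (j, 3 ^ n, 0) = (v0, 1, m')`, `|m'| ≤ C₀ * m`. By `run_wt` (positivity from `ctl` and the
uniqueness of runs, `M.det`) `S ^ i (v0, 1, 0) = (j, 3 ^ n, - w)` with `w ≥ 2 ^ N` (the run starts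
again in `(mS, 2 ^ N)` at time `i₁`, `i₂ > 0` as `q mS = 2 ≠ 1 = q j`). Hence
`S ^ (k + i) (v0, 1, ·) = (v0, 1, ·)`; but `S ^ l (v0, 2 ^ l, ·) = (v0, 1, ·)` by `e0`, `p0`, so
`S ^ (-l) (v0, 1, ·) = (v0, 2 ^ l, ·)` and `k + i = 0`, `m' = w` (`shift`). So `2 ^ N ≤ C₀ * m`.

`expl`. `lam` = indicator of `v0`. `g₁ = s ^ n * a ^ (e u) * (s ^ n)⁻¹ * t` maps `(v0, 0, 0)` to
`(v0, 1)`, `(v0, 2 ^ n)`, `(u, 3 * 2 ^ n)`, `(u, 3 ^ (n + 1) * 2 ^ n)`, with weight `2 ^ n - 1`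
(`S⁻¹` adds the coordinate of the starting point at each step);
`g₂ = a ^ (e u) * (s ^ n)⁻¹ * (a ^ (e u))⁻¹ * s ^ n * a ^ (e u) * t` maps it to `(v0, 1)`, `(u, 3)`,
`(u, 3 ^ (n + 1))`, `(v0, 3 ^ n)`, `(v0, 3 ^ n * 2 ^ n)`, `(u, 3 ^ (n + 1) * 2 ^ n)` with weight
`3 ^ n * (2 ^ n - 1)`. `x = g₂⁻¹ * g₁` fixes `(v0, 0)` with weight `- (3 ^ n - 1) * (2 ^ n - 1)`, so
it is in `closure X` (`closure_of_fix`), and `W T₀ x m` implies `(3 ^ n - 1) * (2 ^ n - 1) ≤ C₀ * m`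
(`π ζ = 1`, `gens_wt`).
-/

namespace Pool.Agent.FBC

open Pool.Agent.helper12.FD

variable {V : Type} [Finite V] {M : RM V} {EA : V → ℕ → V → ℕ → Prop} {e : V → ℕ} {v0 : V}

/-- uniqueness of division with remainder -/
theorem Low_div {p : ℕ} {k k' : ℤ} {r r' : ℕ} (hr : r < p) (hr' : r' < p)
    (h : (p : ℤ) * k + r = p * k' + r') : k = k' ∧ r = r' := by
  have hp : (0 : ℤ) < p := by exact_mod_cast (Nat.zero_le r).trans_lt hr
  have h1 : k = k' := by
    have e1 : ((p : ℤ) * k + r) / p = k := by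
      rw [Int.mul_add_ediv_left _ _ hp.ne', Int.ediv_eq_zero_of_lt (by positivity)
        (by exact_mod_cast hr), add_zero]
    have e2 : ((p : ℤ) * k' + r') / p = k' := by
      rw [Int.mul_add_ediv_left _ _ hp.ne', Int.ediv_eq_zero_of_lt (by positivity)
        (by exact_mod_cast hr'), add_zero]
    rw [← e1, ← e2, h]
  refine ⟨h1, ?_⟩
  subst h1
  have : (r : ℤ) = r' := by linarith
  exact_mod_cast this

omit [Finite V] in
theorem Low_step_unique {b c c' : V × ℤ} (h : M.Step b c) (h' : M.Step b c') : c = c' := by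
  obtain ⟨k, r, d, hE, h1, h2⟩ := h
  obtain ⟨k', r', d', hE', h1', h2'⟩ := h'
  obtain ⟨rfl, rfl⟩ := Low_div (M.lt hE).1 (M.lt hE').1 (h1.symm.trans h1')
  obtain ⟨h3, rfl⟩ := M.det hE hE'
  refine Prod.ext h3 ?_
  rw [h2, h2', h3]

omit [Finite V] in
theorem Low_run_unique {n : ℕ} {b c c' : V × ℤ} (h : M.Run n b c) (h' : M.Run n b c') :
    c = c' := by
  induction h with
  | refl a => cases h'; rfl
  | step hs _ ih =>
    cases h' with
    | step hs' hr' =>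
      obtain rfl := Low_step_unique hs hs'
      exact ih hr'

omit [Finite V] in
theorem Low_run_trans {n n' : ℕ} {b c d : V × ℤ} (h : M.Run n b c) (h' : M.Run n' c d) :
    M.Run (n + n') b d := by
  induction h with
  | refl a => simpa using h'
  | step hs _ ih =>
    have := RM.Run.step hs (ih h')
    rwa [Nat.add_right_comm] at this

/-- elements of the subgroup act by left multiplication -/
theorem Low_rho {G K : Type} [Group G] [Group K] {t s a : G} {π : G →* K}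
    {ρ : G →* Equiv.Perm ((K → ℤ) × K)}
    (ht : ∀ f κ, ρ t (f, κ) = (f, π t * κ)) (hs : ∀ f κ, ρ s (f, κ) = (f, π s * κ))
    (ha : ∀ f κ, ρ a (f, κ) = (f, π a * κ)) {g : G} (hg : g ∈ Subgroup.closure {t, s, a}) :
    ∀ f κ, ρ g (f, κ) = (f, π g * κ) := by
  induction hg using Subgroup.closure_induction with
  | mem x hx =>
    rcases hx with rfl | rfl | rfl
    · exact ht
    · exact hs
    · exact ha
  | one => intro f κ; simp
  | mul x y _ _ hx hy =>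
    intro f κ
    rw [map_mul, Equiv.Perm.mul_apply, hy, hx, map_mul, mul_assoc]
  | inv x _ hx =>
    intro f κ
    rw [map_inv, Equiv.Perm.inv_eq_iff_eq, hx, map_inv, mul_inv_cancel_left]

section act

variable {lam : V → ℤ} {T S A : Equiv.Perm (V × ℤ × ℤ)}

omit [Finite V] in
theorem Low_S_u (h : ActS M EA e v0 lam T S A) {u : V} (pu : M.p u = 1) (qu : M.q u = 3)
    (eu : M.E u 0 u 0) (hl : lam u = 0) (x m : ℤ) (n : ℕ) :
    (S ^ n) (u, x, m) = (u, 3 ^ n * x, m) := by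
  have h1 : ∀ x m : ℤ, S (u, x, m) = (u, 3 * x, m) := by
    intro x m
    obtain ⟨k, r, c, w, hE, hz, hS⟩ := h.hS u x
    have hr : r = 0 := by
      have := (M.lt hE).1
      omega
    subst hr
    obtain ⟨rfl, rfl⟩ := M.det hE eu
    rw [hS]
    have hk : k = x := by
      rw [hz, pu]; simp
    simp [hk, qu, hl]
  induction n with
  | zero => simp
  | succ n ih =>
    rw [pow_succ', Equiv.Perm.mul_apply, ih, h1]
    simp [pow_succ', mul_assoc]

omit [Finite V] in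
theorem Low_S_v0 (h : ActS M EA e v0 lam T S A) (p0 : M.p v0 = 2) (q0 : M.q v0 = 1)
    (e0 : M.E v0 0 v0 0) (hl : lam v0 = 0) (m : ℤ) (n : ℕ) :
    (S ^ n) (v0, 2 ^ n, m) = (v0, 1, m) := by
  have h1 : ∀ x m : ℤ, S (v0, 2 * x, m) = (v0, x, m) := by
    intro x m
    obtain ⟨k, r, c, w, hE, hz, hS⟩ := h.hS v0 (2 * x)
    have hk : (2 : ℕ) * x + (0 : ℕ) = (2 : ℕ) * k + r := by
      rw [p0] at hz
      simpa using hz
    have hr2 : r < 2 := by
      have := (M.lt hE).1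
      omega
    obtain ⟨rfl, rfl⟩ := Low_div (by norm_num) hr2 hk
    obtain ⟨rfl, rfl⟩ := M.det hE e0
    rw [hS]
    simp [q0, hl]
  induction n with
  | zero => simp
  | succ n ih =>
    rw [pow_succ, Equiv.Perm.mul_apply, pow_succ', h1, ih]

omit [Finite V] in
/-- no recurrence at the start -/
theorem Low_no_rec (h : ActS M EA e v0 lam T S A) (p0 : M.p v0 = 2) (q0 : M.q v0 = 1)
    (e0 : M.E v0 0 v0 0) (hl : lam v0 = 0) {m m' : ℤ} {l : ℤ}
    (hS : (S ^ l) (v0, 1, m) = (v0, 1, m')) : m = m' := by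
  obtain ⟨n, rfl | rfl⟩ := l.eq_nat_or_neg
  · rw [zpow_natCast] at hS
    have h1 := Low_S_v0 h p0 q0 e0 hl m' n
    have h2 := (S ^ n).injective (hS.trans h1.symm)
    simp only [Prod.mk.injEq] at h2
    exact h2.2.2
  · rw [zpow_neg, zpow_natCast, Equiv.Perm.inv_eq_iff_eq] at hS
    have h1 := Low_S_v0 h p0 q0 e0 hl m n
    have h2 := (S ^ n).injective (h1.trans hS)
    simp only [Prod.mk.injEq] at h2
    exact h2.2.2

end act

theorem low (he : e v0 = 0)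
    (hEA : EAok M EA)
    (hact : ∀ lam : V → ℤ, ∃ T S A : Equiv.Perm (V × ℤ × ℤ), ActS M EA e v0 lam T S A)
    {u j mS : V} {Dm : ℕ → Prop} {nu lo Y : ℕ → ℕ} (hm : Mach M v0 u j mS Dm nu lo Y)
    {G : Type} [Group G] (t s z a : G) (hrel : Rel t s z a)
    (univ : ∀ (K : Type) [Group K] (T S Z A : K), Rel T S Z A →
      ∃ ρ : G →* K, ρ t = T ∧ ρ s = S ∧ ρ z = Z ∧ ρ a = A) :
    ∃ C₀ : ℕ, ∀ N, Dm N →
      ∃ x ∈ Subgroup.closure (insert (t⁻¹ * z * t) (gens M EA t s a e)),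
        W {t, s, z, a} x (C₀ * nu N + C₀) ∧
        ∀ m, W (insert (t⁻¹ * z * t) (gens M EA t s a e)) x m → 2 ^ N ≤ C₀ * m + C₀ := by
  classical
  obtain ⟨T, S, A, hA⟩ := hact (fun v => if v = mS then 1 else 0)
  set lam : V → ℤ := fun v => if v = mS then 1 else 0 with hlam
  have hrel' : Rel T S (1 : Equiv.Perm (V × ℤ × ℤ)) A :=
    ⟨hA.tt, Commute.one_left _, hA.at'⟩
  obtain ⟨π, rfl, rfl, hπz, rfl⟩ := univ _ T S 1 A hrel'
  obtain ⟨T', S', Z', A', hrel2, hT', hS', hA', hZ'⟩ := lampRep (π t) (π s) (π a) hrel'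
  obtain ⟨ρ, rfl, rfl, rfl, rfl⟩ := univ _ T' S' Z' A' hrel2
  have hρ : ∀ g ∈ Subgroup.closure ({t, s, a} : Set G), ∀ f κ, ρ g (f, κ) = (f, π g * κ) :=
    fun g hg => Low_rho hT' hS' hA' hg
  have hum : u ≠ mS := by
    rintro rfl
    have := hm.qu
    rw [hm.qm] at this
    omega
  have hvm : v0 ≠ mS := by
    rintro rfl
    have := hm.q0
    rw [hm.qm] at this
    omega
  have hjm : j ≠ mS := by
    rintro rfl
    have := hm.qj
    rw [hm.qm] at this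
    omega
  have hlu : lam u = 0 := by simp [hlam, hum]
  have hlv : lam v0 = 0 := by simp [hlam, hvm]
  have hlm : lam mS = 1 := by simp [hlam]
  have hl0 : ∀ v, 0 ≤ lam v := by
    intro v
    simp only [hlam]
    split_ifs <;> norm_num
  have tm : t ∈ Subgroup.closure ({t, s, a} : Set G) := Subgroup.subset_closure (by simp)
  have sm : s ∈ Subgroup.closure ({t, s, a} : Set G) := Subgroup.subset_closure (by simp)
  have am : a ∈ Subgroup.closure ({t, s, a} : Set G) := Subgroup.subset_closure (by simp)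
  have hpm : pt M t s a e u 1 ∈ Subgroup.closure ({t, s, a} : Set G) := pt_mem M t s a e u 1
  obtain ⟨K₁, hK₁⟩ := exists_W hpm
  obtain ⟨C₁, hC₁⟩ := gens_wt hA hEA
  refine ⟨C₁ + 2 * (e j + e u + 1 + K₁) + 3, fun N hN => ?_⟩
  obtain ⟨i₁, i₂, hr1, hr2⟩ := hm.hit N hN
  set n := nu N with hn
  set g : G := a ^ (e j) * (a ^ (e u))⁻¹ * s ^ (n + 1) * pt M t s a e u 1 with hg
  have gm : g ∈ Subgroup.closure ({t, s, a} : Set G) :=
    mul_mem (mul_mem (mul_mem (pow_mem am _) (inv_mem (pow_mem am _))) (pow_mem sm _)) hpm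
  have hsub : ({t, s, a} : Set G) ⊆ {t, s, z, a} := by
    rintro x (rfl | rfl | rfl) <;> simp
  have gW : W ({t, s, z, a} : Set G) g (e j + e u + (n + 1) + K₁) := by
    have hae : ∀ k : ℕ, W ({t, s, z, a} : Set G) (a ^ k) k := fun k => by
      simpa using W_pow (W_of_mem (S := ({t, s, z, a} : Set G)) (g := a) (by simp)) k
    have hse : ∀ k : ℕ, W ({t, s, z, a} : Set G) (s ^ k) k := fun k => by
      simpa using W_pow (W_of_mem (S := ({t, s, z, a} : Set G)) (g := s) (by simp)) k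
    exact W_mul (W_mul (W_mul (hae _) (W_inv (hae _))) (hse _)) (W_subset hsub hK₁)
  have xW : W ({t, s, z, a} : Set G) (g⁻¹ * z * g)
      (2 * (e j + e u + (n + 1) + K₁) + 1) := by
    have := W_mul (W_mul (W_inv gW) (W_of_mem (S := ({t, s, z, a} : Set G)) (g := z) (by simp))) gW
    exact W_mono this (by omega)
  -- the action of `g`
  have hπg : ∀ m : ℤ, π g (v0, 0, m) = (j, 3 ^ n, m) := by
    intro m
    have h1 : π (pt M t s a e u 1) (v0, 0, m) = (u, 1, m) := by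
      rw [pt_map, pt_apply hA]
      simp [hlu]
    have h2 : (π s ^ (n + 1)) (u, 1, m) = (u, 3 ^ (n + 1), m) := by
      rw [Low_S_u hA hm.pu hm.qu hm.eu hlu, mul_one]
    have h3 : ((π a ^ (e u))⁻¹) (u, 3 ^ (n + 1), m) = (v0, 3 ^ n, m) := by
      rw [Equiv.Perm.inv_eq_iff_eq]
      have := hA.hAe u (3 ^ n) m
      rw [hm.q0, hm.qu] at this
      simp only [Nat.cast_one, one_mul, Nat.cast_ofNat] at this
      rw [this, pow_succ']
    have h4 : (π a ^ (e j)) (v0, 3 ^ n, m) = (j, 3 ^ n, m) := by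
      have := hA.hAe j (3 ^ n) m
      rw [hm.q0, hm.qj] at this
      simpa using this
    rw [hg]
    simp only [map_mul, map_pow, map_inv, Equiv.Perm.mul_apply]
    rw [h1, h2, h3, h4]
  have hπt : ∀ m : ℤ, π t (v0, 0, m) = (v0, 1, m) := by
    intro m
    rw [hA.hT, hm.q0]
    simp
  -- the run
  have hpos : ∀ i', ∀ b', M.Run i' (v0, 1) b' → 1 ≤ b'.2 := by
    intro i' b' hb'
    obtain ⟨b, N', -, -, hb⟩ := hm.ctl i'
    obtain ⟨b'', h1, h2, -⟩ := hb i' le_rfl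
    rw [Low_run_unique hb' h1]
    exact h2
  obtain ⟨d₁, hd₁, -, hS₁⟩ := run_wt hA hl0 hr1 (fun i' _ b' hb' => hpos i' b' hb')
  obtain ⟨d₂, -, hd₂, hS₂⟩ := run_wt hA hl0 hr2
    (fun i' _ b' hb' => hpos (i₁ + i') b' (Low_run_trans hr1 hb'))
  have hi₂ : 0 < i₂ := by
    rcases Nat.eq_zero_or_pos i₂ with rfl | h
    · exact absurd (congrArg Prod.fst (Low_run_unique (RM.Run.refl _) hr2)).symm hjm
    · exact h
  have hd₂' : (2 : ℤ) ^ N ≤ d₂ := by
    have := hd₂ hi₂ hm.pm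
    simpa [hlm] using this
  have hSi : ∀ m : ℤ, (π s ^ (i₁ + i₂)) (v0, 1, m) = (j, 3 ^ n, m - (d₁ + d₂)) := by
    intro m
    rw [add_comm i₁ i₂, pow_add, Equiv.Perm.mul_apply, hS₁, hS₂, sub_sub]
  -- the element of the subgroup
  set h : G := g⁻¹ * s ^ (i₁ + i₂) * t with hh
  have hm' : h ∈ Subgroup.closure ({t, s, a} : Set G) :=
    mul_mem (mul_mem (inv_mem gm) (pow_mem sm _)) tm
  have hfix : π h (v0, 0, 0) = (v0, 0, 0 - (d₁ + d₂)) := by
    rw [hh]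
    simp only [map_mul, map_pow, map_inv, Equiv.Perm.mul_apply]
    rw [hπt, hSi, Equiv.Perm.inv_eq_iff_eq, hπg]
  have hcl : h ∈ Subgroup.closure (gens M EA t s a e) :=
    closure_of_fix hA hEA he t s a hrel.tt hrel.at' π rfl rfl rfl hm' hfix
  have hx : g⁻¹ * z * g = h * (t⁻¹ * z * t) * h⁻¹ := by
    have hc : z * s ^ (i₁ + i₂) = s ^ (i₁ + i₂) * z := (hrel.zs.pow_right _).eq
    rw [hh]
    have : g⁻¹ * s ^ (i₁ + i₂) * t * (t⁻¹ * z * t) * (g⁻¹ * s ^ (i₁ + i₂) * t)⁻¹ =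
        g⁻¹ * (s ^ (i₁ + i₂) * z) * (s ^ (i₁ + i₂))⁻¹ * g := by group
    rw [this, ← hc]
    group
  refine ⟨g⁻¹ * z * g, ?_, ?_, ?_⟩
  · rw [hx]
    have hcl' : h ∈ Subgroup.closure (insert (t⁻¹ * z * t) (gens M EA t s a e)) :=
      Subgroup.closure_mono (Set.subset_insert _ _) hcl
    exact mul_mem (mul_mem hcl' (Subgroup.subset_closure (Set.mem_insert _ _))) (inv_mem hcl')
  · refine W_mono xW ?_
    nlinarith
  · rintro m ⟨w, hw1, hw2, hw3⟩
    obtain ⟨l, hl1, hl2, k, hk⟩ := lamp_bound π s z t g (gens M EA t s a e) ρ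
      (fun x hx => hρ x (gens_mem M EA t s a e hx)) (hρ t tm) (hρ g gm) hZ' w hw2 hw3
    have hlW : W (gens M EA (π t) (π s) (π a) e) (π l.prod) m := by
      have h1 : W (gens M EA t s a e) l.prod m := ⟨l, hl1.trans hw1, hl2, rfl⟩
      have h2 := W_map π h1
      rwa [gens_map] at h2
    obtain ⟨c, hc1, hc2⟩ := hC₁ _ _ hlW
    -- the permutation `π s ^ k`
    have hSk : (π s ^ k) (j, 3 ^ n, 0) = (v0, 1, c) := by
      rw [hk]
      simp only [Equiv.Perm.mul_apply]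
      have : (π g)⁻¹ (j, 3 ^ n, 0) = (v0, 0, 0) := by
        rw [Equiv.Perm.inv_eq_iff_eq, hπg]
      rw [this, hc2, zero_add, hπt]
    have hSmem : π s ^ k ∈ Subgroup.closure ({π t, π s, π a} : Set _) :=
      zpow_mem (Subgroup.subset_closure (by simp)) _
    have hSk' : (π s ^ k) (j, 3 ^ n, 0 - (d₁ + d₂)) = (v0, 1, c - (d₁ + d₂)) := by
      have h1 := shift hA hSmem j (3 ^ n) 0 (-(d₁ + d₂))
      rw [hSk] at h1
      rw [sub_eq_add_neg, h1, sub_eq_add_neg]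
    have hrec : (π s ^ (k + ((i₁ + i₂ : ℕ) : ℤ))) (v0, 1, 0) = (v0, 1, c - (d₁ + d₂)) := by
      rw [zpow_add, Equiv.Perm.mul_apply, zpow_natCast, hSi, hSk']
    have h0 := Low_no_rec hA hm.p0 hm.q0 hm.e0 hlv hrec
    have h1 : (2 : ℤ) ^ N ≤ C₁ * m := by
      have := le_abs_self c
      linarith
    have h2 : 2 ^ N ≤ C₁ * m := by exact_mod_cast h1
    nlinarith [Nat.zero_le m, Nat.zero_le (e j), Nat.zero_le (e u), Nat.zero_le K₁,
      Nat.zero_le ((e j + e u + 1 + K₁) * m)]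

end Pool.Agent.FBC
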