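import Pool.Agent.FBC.Defs1
import Pool.Agent.helper12.FD.Wl

/-!
# FBC module Zpart: the normal form for the letter z

`G₀ = closure {t, s, a}` (as a subgroup), `r : G →* G₀` from `univ` (`z ↦ 1`), so `r` is the
identity on `G₀`. `N = FreeGroup (G₀ ⧸ zpowers s)`, `Γ = N ⋊ G₀` (`G₀` permutes the basis,
`FreeGroup.freeGroupCongr`), `ρ : G →* Γ` from `univ`: `t, s, a ↦ inr`, `z ↦ inl (of ⟦1⟧)`
(`z`, `s` commute because `s` fixes `⟦1⟧`). `β : Γ →* G`, `β (inl (of c)) = c.out * z * c.out⁻¹`,
`β (inr g) = g` (`SemidirectProduct.lift`; if `c' = g • c` then `c'.out = g * c.out * s ^ i` and `z`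
commutes with `s`). `β ∘ ρ = id` (check on `t, s, z, a`, `hgen`). `L = closure X`,
`O = {⟦l * τ⁻¹⟧ | l ∈ L}`, `κ : N →* N`, `κ (of c) = of c` if `c ∈ O`, `1` otherwise; `κ` commutes
with the action of `L`. The set of all `g ∈ G` with `r g ∈ L` and `κ (ρ g).left = (ρ g).left` is a
subgroup and contains `X` and `τ⁻¹ * z * τ` (`(ρ (τ⁻¹ z τ)).left = of ⟦τ⁻¹⟧`), so it contains `h`.
Hence `h = β (ρ h) = β (inl (κ ν)) * r h`, `ν = (ρ h).left`. For a word `w` of length `n` in
`t, s, z, a` (letters appended on the right) `ν` is the product of the `of ⟦γ⟧ ^ (±1)`, one factor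
for each letter `z^(±1)` of `w`, `γ = r (prefix)`, so `W {t, s, a} γ n`. `β` of a factor with
`⟦γ⟧ ∈ O`: `γ = l * τ⁻¹ * s ^ k` with `l ∈ L`, and `γ z γ⁻¹ = l (τ⁻¹ z τ) l⁻¹`, which has length at
most `2 * U + 1` by `hU1`; the factors with `⟦γ⟧ ∉ O` are killed by `κ`. Finally `r h ∈ L` and
`W {t, s, a} (r h) n`, `hU2`.
-/

namespace Pool.Agent.FBC

open Pool.Agent.helper12.FD

/-- induction on word length, letters appended on the right -/
theorem W_induction_right {G : Type*} [Group G] {S : Set G} {P : G → ℕ → Prop} (h1 : P 1 0)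
    (h2 : ∀ y g n, (y ∈ S ∨ y⁻¹ ∈ S) → P g n → P (g * y) (n + 1))
    (h3 : ∀ g m n, m ≤ n → P g m → P g n) {g : G} {n : ℕ} (hg : W S g n) : P g n := by
  obtain ⟨l, hl1, hl2, rfl⟩ := hg
  refine h3 _ _ _ hl1 ?_
  clear hl1
  induction l using List.reverseRecOn with
  | nil => simpa using h1
  | append_singleton l y ih =>
    rw [List.prod_append, List.length_append, List.prod_singleton, List.length_singleton]
    exact h2 _ _ _ (hl2 y (by simp)) (ih (fun x hx => hl2 x (by simp [hx])))

section act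

variable {H : Type} [Group H] (C : Subgroup H)

/-- `H` acts on the free group on `H ⧸ C` -/
def zact : H →* MulAut (FreeGroup (H ⧸ C)) where
  toFun g := FreeGroup.freeGroupCongr (MulAction.toPerm g)
  map_one' := by
    apply MulEquiv.toMonoidHom_injective
    apply FreeGroup.ext_hom
    intro c
    simp
  map_mul' g h := by
    apply MulEquiv.toMonoidHom_injective
    apply FreeGroup.ext_hom
    intro c
    simp [mul_smul]

theorem zact_of (g : H) (c : H ⧸ C) :
    zact C g (FreeGroup.of c) = FreeGroup.of (g • c) := by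
  simp [zact]

variable {G : Type} [Group G] (f : H →* G) (z : G)

/-- `of c ↦ c.out * z * c.out⁻¹` -/
noncomputable def zbeta : FreeGroup (H ⧸ C) →* G :=
  FreeGroup.lift (fun c : H ⧸ C => f c.out * z * (f c.out)⁻¹)

theorem zbeta_of (hz : ∀ c ∈ C, Commute z (f c)) (γ : H) :
    zbeta C f z (FreeGroup.of (γ : H ⧸ C)) = f γ * z * (f γ)⁻¹ := by
  obtain ⟨c, hc⟩ := QuotientGroup.mk_out_eq_mul C γ
  rw [zbeta, FreeGroup.lift_apply_of, hc, map_mul, mul_inv_rev]
  have h1 : z * (f c)⁻¹ = (f c)⁻¹ * z := ((hz c c.2).inv_right).eq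
  calc f γ * f c * z * ((f c)⁻¹ * (f γ)⁻¹) = f γ * f c * (z * (f c)⁻¹) * (f γ)⁻¹ := by group
    _ = _ := by rw [h1]; group

theorem zbeta_act (hz : ∀ c ∈ C, Commute z (f c)) (g : H) :
    (zbeta C f z).comp (zact C g).toMonoidHom =
      (MulAut.conj (f g)).toMonoidHom.comp (zbeta C f z) := by
  apply FreeGroup.ext_hom
  intro c
  obtain ⟨γ, rfl⟩ := QuotientGroup.mk_surjective c
  have h1 : (zact C g) (FreeGroup.of (γ : H ⧸ C)) = FreeGroup.of ((g * γ : H) : H ⧸ C) := by
    rw [zact_of]; rfl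
  simp only [MonoidHom.comp_apply, MulEquiv.toMonoidHom_eq_coe, MonoidHom.coe_coe]
  rw [h1, zbeta_of C f z hz, zbeta_of C f z hz, MulAut.conj_apply, map_mul]
  group

/-- the homomorphism `Γ →* G` -/
noncomputable def zB (hz : ∀ c ∈ C, Commute z (f c)) :
    SemidirectProduct (FreeGroup (H ⧸ C)) H (zact C) →* G :=
  SemidirectProduct.lift (zbeta C f z) f (zbeta_act C f z hz)

open Classical in
/-- the projection onto the part of the basis in `O` -/
noncomputable def zkap (O : Set (H ⧸ C)) : FreeGroup (H ⧸ C) →* FreeGroup (H ⧸ C) :=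
  FreeGroup.lift (fun c => if c ∈ O then FreeGroup.of c else 1)

theorem zkap_mem {O : Set (H ⧸ C)} {c : H ⧸ C} (hc : c ∈ O) :
    zkap C O (FreeGroup.of c) = FreeGroup.of c := by
  simp [zkap, hc]

theorem zkap_not_mem {O : Set (H ⧸ C)} {c : H ⧸ C} (hc : c ∉ O) :
    zkap C O (FreeGroup.of c) = 1 := by
  simp [zkap, hc]

theorem zkap_act {O : Set (H ⧸ C)} {l : H} (hl : ∀ c, l • c ∈ O ↔ c ∈ O)
    (ν : FreeGroup (H ⧸ C)) : zkap C O (zact C l ν) = zact C l (zkap C O ν) := by
  have h : (zkap C O).comp (zact C l).toMonoidHom = (zact C l).toMonoidHom.comp (zkap C O) := by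
    apply FreeGroup.ext_hom
    intro c
    simp only [MonoidHom.comp_apply, MulEquiv.toMonoidHom_eq_coe, MonoidHom.coe_coe]
    by_cases hc : c ∈ O
    · rw [zact_of, zkap_mem C ((hl c).2 hc), zkap_mem C hc, zact_of]
    · rw [zact_of, zkap_not_mem C (fun h => hc ((hl c).1 h)), zkap_not_mem C hc, map_one]
  exact DFunLike.congr_fun h ν

end act

theorem zpart {G : Type} [Group G] (t s z a : G) (hrel : Rel t s z a)
    (hgen : Subgroup.closure {t, s, z, a} = ⊤)
    (univ : ∀ (K : Type) [Group K] (T S Z A : K), Rel T S Z A →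
      ∃ ρ : G →* K, ρ t = T ∧ ρ s = S ∧ ρ z = Z ∧ ρ a = A)
    (X : Set G) (hX : ∀ x ∈ X, x ∈ Subgroup.closure {t, s, a}) (τ : G)
    (hτ : τ ∈ Subgroup.closure {t, s, a}) (n U : ℕ)
    (hU1 : ∀ (l : G) (k : ℤ), l ∈ Subgroup.closure X → W {t, s, a} (l * τ⁻¹ * s ^ k) n →
      W X l U)
    (hU2 : ∀ g ∈ Subgroup.closure X, W {t, s, a} g n → W X g U) (h : G)
    (hh : h ∈ Subgroup.closure (insert (τ⁻¹ * z * τ) X)) (hn : W {t, s, z, a} h n) :
    W (insert (τ⁻¹ * z * τ) X) h (n * (2 * U + 1) + U) := by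
  classical
  set G₀ : Subgroup G := Subgroup.closure {t, s, a} with hG₀
  have htm : t ∈ G₀ := Subgroup.subset_closure (by simp)
  have hsm : s ∈ G₀ := Subgroup.subset_closure (by simp)
  have ham : a ∈ G₀ := Subgroup.subset_closure (by simp)
  have hXL : Subgroup.closure X ≤ G₀ := (Subgroup.closure_le _).2 hX
  let t₀ : G₀ := ⟨t, htm⟩
  let s₀ : G₀ := ⟨s, hsm⟩
  let a₀ : G₀ := ⟨a, ham⟩
  let τ₀ : G₀ := ⟨τ, hτ⟩
  let C : Subgroup G₀ := Subgroup.zpowers s₀
  have hz : ∀ c ∈ C, Commute z (G₀.subtype c) := by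
    rintro c ⟨i, rfl⟩
    have : (G₀.subtype (s₀ ^ i)) = s ^ i := by simp [s₀]
    show Commute z (G₀.subtype (s₀ ^ i))
    rw [this]
    exact hrel.zs.zpow_right i
  -- the homomorphism `ρ`
  have hs1 : (s₀ • ((1 : G₀) : G₀ ⧸ C)) = ((1 : G₀) : G₀ ⧸ C) := by
    show (((s₀ * 1 : G₀)) : G₀ ⧸ C) = _
    rw [QuotientGroup.eq]
    simp only [mul_one]
    exact inv_mem (Subgroup.mem_zpowers s₀)
  have hRel : Rel (G := SemidirectProduct (FreeGroup (G₀ ⧸ C)) G₀ (zact C))
      (SemidirectProduct.inr t₀) (SemidirectProduct.inr s₀)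
      (SemidirectProduct.inl (FreeGroup.of ((1 : G₀) : G₀ ⧸ C))) (SemidirectProduct.inr a₀) := by
    refine ⟨?_, ?_, ?_⟩
    · have h1 : Commute t₀ (s₀⁻¹ * t₀ * s₀) := by
        have := hrel.tt
        apply Subtype.ext
        exact this.eq
      have h2 := h1.map (SemidirectProduct.inr (φ := zact C))
      simpa using h2
    · have h1 := SemidirectProduct.inl_aut (φ := zact C) s₀
        (FreeGroup.of ((1 : G₀) : G₀ ⧸ C))
      rw [zact_of, hs1] at h1
      rw [eq_comm, map_inv, mul_inv_eq_iff_eq_mul] at h1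
      exact h1.symm
    · have h1 : Commute a₀ t₀ := by
        apply Subtype.ext
        exact hrel.at'.eq
      exact h1.map (SemidirectProduct.inr (φ := zact C))
  obtain ⟨ρ, hρt, hρs, hρz, hρa⟩ := univ _ _ _ _ _ hRel
  have hBρ : ∀ g : G, zB C G₀.subtype z hz (ρ g) = g := by
    intro g
    have h1 : g ∈ Subgroup.closure ({t, s, z, a} : Set G) := by rw [hgen]; trivial
    induction h1 using Subgroup.closure_induction with
    | mem x hx =>
      rcases hx with rfl | rfl | rfl | rfl
      · rw [hρt, zB, SemidirectProduct.lift_inr]; rfl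
      · rw [hρs, zB, SemidirectProduct.lift_inr]; rfl
      · rw [hρz, zB, SemidirectProduct.lift_inl, zbeta_of C G₀.subtype _ hz]; simp
      · rw [hρa, zB, SemidirectProduct.lift_inr]; rfl
    | one => simp
    | mul x y _ _ hx hy => rw [map_mul, map_mul, hx, hy]
    | inv x _ hx => rw [map_inv, map_inv, hx]
  have hρ0 : ∀ g : G₀, ρ (g : G) = SemidirectProduct.inr g := by
    rintro ⟨g, hg⟩
    show ρ g = _
    induction hg using Subgroup.closure_induction with
    | mem x hx =>
      rcases hx with rfl | rfl | rfl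
      · rw [hρt]
      · rw [hρs]
      · rw [hρa]
    | one => rw [map_one]; exact (map_one (SemidirectProduct.inr (φ := zact C))).symm
    | mul x y hx' hy' hx hy =>
      rw [map_mul, hx, hy, ← map_mul]; rfl
    | inv x hx' hx => rw [map_inv, hx, ← map_inv]; rfl
  -- `L` and `O`
  let O : Set (G₀ ⧸ C) := {c | ∃ l : G₀, (l : G) ∈ Subgroup.closure X ∧ c = ((l * τ₀⁻¹ : G₀) : G₀ ⧸ C)}
  have hO : ∀ l : G₀, (l : G) ∈ Subgroup.closure X → ∀ c : G₀ ⧸ C, l • c ∈ O ↔ c ∈ O := by
    have key : ∀ l : G₀, (l : G) ∈ Subgroup.closure X → ∀ c : G₀ ⧸ C, c ∈ O → l • c ∈ O := by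
      rintro l hl c ⟨l', hl', rfl⟩
      refine ⟨l * l', ?_, ?_⟩
      · simpa using mul_mem hl hl'
      · show (((l * (l' * τ₀⁻¹) : G₀)) : G₀ ⧸ C) = _
        rw [mul_assoc]
    intro l hl c
    refine ⟨fun h => ?_, key l hl c⟩
    have := key l⁻¹ (by simpa using inv_mem hl) _ h
    simpa using this
  let Ks : Subgroup G :=
    { carrier := {g | ((ρ g).right : G) ∈ Subgroup.closure X ∧ zkap C O (ρ g).left = (ρ g).left}
      one_mem' := by
        constructor
        · simp
        · simp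
      mul_mem' := by
        rintro x y ⟨hx1, hx2⟩ ⟨hy1, hy2⟩
        constructor
        · rw [map_mul, SemidirectProduct.mul_right]
          simpa using mul_mem hx1 hy1
        · rw [map_mul, SemidirectProduct.mul_left, map_mul, hx2,
            zkap_act C (hO _ hx1), hy2]
      inv_mem' := by
        rintro x ⟨hx1, hx2⟩
        have h1 : ((ρ x).right⁻¹ : G₀).1 ∈ Subgroup.closure X := by simpa using inv_mem hx1
        constructor
        · rw [map_inv, SemidirectProduct.inv_right]
          exact h1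
        · rw [map_inv, SemidirectProduct.inv_left,
            zkap_act C (hO _ h1), map_inv (zkap C O), hx2] }
  have hζ : ρ (τ⁻¹ * z * τ) =
      SemidirectProduct.inl (FreeGroup.of ((τ₀⁻¹ : G₀) : G₀ ⧸ C)) := by
    have h1 := SemidirectProduct.inl_aut (φ := zact C) τ₀⁻¹
      (FreeGroup.of ((1 : G₀) : G₀ ⧸ C))
    have h2 : (τ₀⁻¹ • ((1 : G₀) : G₀ ⧸ C)) = ((τ₀⁻¹ : G₀) : G₀ ⧸ C) := by
      show (((τ₀⁻¹ * 1 : G₀)) : G₀ ⧸ C) = _
      rw [mul_one]
    rw [zact_of, h2, inv_inv] at h1
    rw [h1, map_mul, map_mul, map_inv, hρz]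
    have h3 : ρ τ = SemidirectProduct.inr τ₀ := hρ0 τ₀
    rw [h3, map_inv]
  have hle : Subgroup.closure (insert (τ⁻¹ * z * τ) X) ≤ Ks := by
    rw [Subgroup.closure_le]
    rintro x (rfl | hx)
    · refine ⟨?_, ?_⟩
      · rw [hζ]; simp
      · rw [hζ]
        simp only [SemidirectProduct.left_inl]
        exact zkap_mem C ⟨1, by simp, by simp⟩
    · have h1 := hρ0 ⟨x, hX x hx⟩
      have h2 : ρ x = SemidirectProduct.inr (⟨x, hX x hx⟩ : G₀) := h1
      refine ⟨?_, ?_⟩
      · rw [h2]
        simpa using Subgroup.subset_closure hx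
      · rw [h2]; simp
  obtain ⟨hK1, hK2⟩ := hle hh
  -- the word
  have hword : ∀ (g : G) (m : ℕ), W {t, s, z, a} g m → (m ≤ n →
      W {t, s, a} ((ρ g).right : G) m ∧
      W (insert (τ⁻¹ * z * τ) X) (zbeta C G₀.subtype z (zkap C O (ρ g).left))
        (m * (2 * U + 1))) := by
    intro g m hg
    refine W_induction_right (P := fun g m => m ≤ n →
      W {t, s, a} ((ρ g).right : G) m ∧
      W (insert (τ⁻¹ * z * τ) X) (zbeta C G₀.subtype z (zkap C O (ρ g).left))
        (m * (2 * U + 1))) ?_ ?_ ?_ hg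
    · intro _
      constructor
      · simpa using W_one 0
      · simpa using W_one 0
    · intro y g m hy ih hm
      obtain ⟨ih1, ih2⟩ := ih (by omega)
      -- letters `t, s, a`
      have hA : ∀ y₀ : G₀, y = y₀ → W {t, s, a} (y : G) 1 →
          W {t, s, a} ((ρ (g * y)).right : G) (m + 1) ∧
          W (insert (τ⁻¹ * z * τ) X) (zbeta C G₀.subtype z (zkap C O (ρ (g * y)).left))
            ((m + 1) * (2 * U + 1)) := by
        rintro y₀ hy0 hw
        have h1 : ρ y = SemidirectProduct.inr y₀ := by rw [hy0]; exact hρ0 y₀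
        constructor
        · rw [map_mul, SemidirectProduct.mul_right, h1, SemidirectProduct.right_inr]
          rw [hy0] at hw
          simpa using W_mul ih1 hw
        · rw [map_mul, SemidirectProduct.mul_left, h1, SemidirectProduct.left_inr, map_one,
            mul_one]
          exact W_mono ih2 (by nlinarith)
      -- the letter `z`
      have hZ0 : zkap C O (zact C (ρ g).right (FreeGroup.of ((1 : G₀) : G₀ ⧸ C))) = 1 ∨
          W (insert (τ⁻¹ * z * τ) X) (zbeta C G₀.subtype z
            (zkap C O (zact C (ρ g).right (FreeGroup.of ((1 : G₀) : G₀ ⧸ C))))) (2 * U + 1) := by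
        have h2 : ((ρ g).right • ((1 : G₀) : G₀ ⧸ C)) = (((ρ g).right : G₀) : G₀ ⧸ C) := by
          show ((((ρ g).right * 1 : G₀)) : G₀ ⧸ C) = _
          rw [mul_one]
        rw [zact_of, h2]
        by_cases hc : (((ρ g).right : G₀) : G₀ ⧸ C) ∈ O
        · right
          rw [zkap_mem C hc, zbeta_of C G₀.subtype z hz]
          obtain ⟨l, hl, hlc⟩ := hc
          rw [eq_comm, QuotientGroup.eq] at hlc
          obtain ⟨k, hk⟩ := hlc
          have hk' : (ρ g).right = l * τ₀⁻¹ * s₀ ^ k := by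
            have : s₀ ^ k = (l * τ₀⁻¹)⁻¹ * (ρ g).right := hk
            rw [this]; group
          have hk2 : ((ρ g).right : G) = l * τ⁻¹ * s ^ k := by
            rw [hk']; simp [τ₀, s₀]
          have hW : W X (l : G) U := by
            refine hU1 l k hl ?_
            rw [← hk2]
            exact W_mono ih1 (by omega)
          have h3 : (G₀.subtype (ρ g).right) * z * (G₀.subtype (ρ g).right)⁻¹ =
              (l : G) * (τ⁻¹ * z * τ) * (l : G)⁻¹ := by
            show ((ρ g).right : G) * z * ((ρ g).right : G)⁻¹ = _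
            rw [hk2]
            have h4 : s ^ k * z * (s ^ k)⁻¹ = z := by
              rw [← (hrel.zs.zpow_right k).eq]; group
            calc (l : G) * τ⁻¹ * s ^ k * z * ((l : G) * τ⁻¹ * s ^ k)⁻¹
                = (l : G) * τ⁻¹ * (s ^ k * z * (s ^ k)⁻¹) * τ * (l : G)⁻¹ := by group
              _ = _ := by rw [h4]; group
          rw [h3]
          have h5 : W (insert (τ⁻¹ * z * τ) X) (l : G) U :=
            W_subset (Set.subset_insert _ _) hW
          exact W_mono (W_mul (W_mul h5 (W_of_mem (Set.mem_insert _ _))) (W_inv h5))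
            (by omega)
        · left
          exact zkap_not_mem C hc
      have hZ1 : W (insert (τ⁻¹ * z * τ) X) (zbeta C G₀.subtype z
            (zkap C O (zact C (ρ g).right (FreeGroup.of ((1 : G₀) : G₀ ⧸ C))))) (2 * U + 1) := by
        rcases hZ0 with h | h
        · rw [h, map_one]; exact W_one _
        · exact h
      have hZr : ((ρ z).right : G₀) = 1 := by rw [hρz]; simp
      have hZl : (ρ z).left = FreeGroup.of ((1 : G₀) : G₀ ⧸ C) := by rw [hρz]; simp
      have htt : W ({t, s, a} : Set G) t 1 := W_of_mem (by simp)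
      have hss : W ({t, s, a} : Set G) s 1 := W_of_mem (by simp)
      have haa : W ({t, s, a} : Set G) a 1 := W_of_mem (by simp)
      rcases hy with hy | hy
      · rcases hy with rfl | rfl | rfl | rfl
        · exact hA t₀ rfl htt
        · exact hA s₀ rfl hss
        · constructor
          · rw [map_mul, SemidirectProduct.mul_right, hZr, mul_one]
            exact W_mono ih1 (by omega)
          · rw [map_mul, SemidirectProduct.mul_left, hZl, map_mul, map_mul]
            exact W_mono (W_mul ih2 hZ1) (by nlinarith)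
        · exact hA a₀ rfl haa
      · have hy' : y⁻¹ ∈ ({t, s, z, a} : Set G) := hy
        simp only [Set.mem_insert_iff, Set.mem_singleton_iff] at hy'
        rcases hy' with hy' | hy' | hy' | hy'
        · exact hA t₀⁻¹ (by rw [← inv_inv y, hy']; rfl) (by
            rw [← inv_inv y, hy']; exact W_inv htt)
        · exact hA s₀⁻¹ (by rw [← inv_inv y, hy']; rfl) (by
            rw [← inv_inv y, hy']; exact W_inv hss)
        · have hyz : y = z⁻¹ := by rw [← inv_inv y, hy']
          subst hyz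
          have h1 : (ρ z⁻¹).right = 1 := by
            rw [map_inv, SemidirectProduct.inv_right, hZr, inv_one]
          have h2 : (ρ z⁻¹).left = (FreeGroup.of ((1 : G₀) : G₀ ⧸ C))⁻¹ := by
            rw [map_inv, SemidirectProduct.inv_left, hZr, inv_one, map_one, hZl]; rfl
          constructor
          · rw [map_mul, SemidirectProduct.mul_right, h1, mul_one]
            exact W_mono ih1 (by omega)
          · rw [map_mul, SemidirectProduct.mul_left, h2, map_mul, map_mul, map_inv, map_inv,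
              map_inv]
            exact W_mono (W_mul ih2 (W_inv hZ1)) (by nlinarith)
        · exact hA a₀⁻¹ (by rw [← inv_inv y, hy']; rfl) (by
            rw [← inv_inv y, hy']; exact W_inv haa)
    · intro g m m' hmm ih hm'
      obtain ⟨ih1, ih2⟩ := ih (by omega)
      exact ⟨W_mono ih1 hmm, W_mono ih2 (Nat.mul_le_mul_right _ hmm)⟩
  obtain ⟨hw1, hw2⟩ := hword h n hn le_rfl
  rw [hK2] at hw2
  have hfin : h = zbeta C G₀.subtype z (ρ h).left * ((ρ h).right : G) := by
    have h1 := hBρ h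
    conv_lhs => rw [← h1]
    conv_lhs => rw [← SemidirectProduct.inl_left_mul_inr_right (ρ h)]
    rw [map_mul, zB, SemidirectProduct.lift_inl, SemidirectProduct.lift_inr]
    rfl
  rw [hfin]
  exact W_mul hw2 (W_subset (Set.subset_insert _ _) (hU2 _ hK1 hw1))

end Pool.Agent.FBC
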