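import Pool.Agent.FBC.Rew
import Pool.Agent.FBC.Wt
import Pool.Agent.FBC.Zpart

/-!
# FBC module Upp: the upper bound

`X = gens M EA t s a e`, `π : G →* Perm (V × ℤ × ℤ)` with `t, s, z, a ↦ T, S, 1, A` for
`lam = 0`; `B` from `rew`. Use `zpart` with `τ = t = pt v0 1`. `hU2`: `rew` with
`π g (v0, 0, 0) = (v0, 0, ·)` (`gens_wt`), `pt v0 0 = 1`: `W X g (n * B ^ n)`.
`hU1`: `γ = l * t⁻¹ * s ^ k`, `W {t, s, a} γ n`. Then
`π γ⁻¹ (v0, 0, 0) = S ^ (-k) (v0, 1, ·) =: (v, z, ·)` and by `rew` (for `γ⁻¹`) `|z| + 1 ≤ B ^ n`,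
`W X ((pt v z)⁻¹ * γ⁻¹) (n * B ^ n)`; `l⁻¹ = ((pt v0 1)⁻¹ * s ^ k * pt v z) * ((pt v z)⁻¹ * γ⁻¹)`.
* `k = b > 0`: `(v, z) = (v0, 2 ^ b)` (edge `e0`, `p0`, `q0`), `b ≤ 2 ^ b ≤ B ^ n`, and `rew_run` for
  the run `(v0, 2 ^ b) → … → (v0, 1)` gives `W X … (b * (2 * B ^ n + 1))`.
* `k = - i ≤ 0`: `(v, z)` is the point at time `i` of the forward orbit. By `ctl` (and uniqueness of
  runs, `M.det`) there is `N` with `2 ^ (lo N) ≤ 2 * z ≤ 2 * B ^ n ≤ B ^ (n + 1)`, so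
  `lo N ≤ B * (n + 1)`, `N ≤ g (B * (n + 1))` and all coordinates up to time `i` are in
  `[1, Y N]`, `Y N ≤ D ^ (N + 1)`. The points at times `≤ i` are different (otherwise some
  `S ^ l`, `l > 0`, fixes `(v0, 1)`, but `S ^ (-l) (v0, 1) = (v0, 2 ^ l)`), so
  `i + 1 ≤ card V * Y N`. `rew_run` (inverse) gives `W X … (i * (2 * Y N + 1))`.
Altogether `U ≤ n * B ^ n + B ^ n * (2 * B ^ n + 1) + card V * Y * (2 * Y + 1)` with
`Y = D ^ (g (B * (n + 1)) + 1)`, and `n * (2 * U + 1) + U ≤ C ^ (g (C * n + C) + 1)` for some `C`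
(`n ≤ g n`).
-/

namespace Pool.Agent.FBC

open Pool.Agent.helper12.FD

section aux

variable {V : Type} {M : RM V} {EA : V → ℕ → V → ℕ → Prop} {e : V → ℕ} {v0 : V}
  {lam : V → ℤ} {T S A : Equiv.Perm (V × ℤ × ℤ)}

theorem upp_run_det (h : ActS M EA e v0 lam T S A) {i : ℕ} {a b c : V × ℤ} (h1 : M.Run i a b)
    (h2 : M.Run i a c) : b = c := by
  obtain ⟨d1, h1'⟩ := run_S h h1
  obtain ⟨d2, h2'⟩ := run_S h h2
  have h3 := (h1' 0).symm.trans (h2' 0)
  simp only [Prod.mk.injEq] at h3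
  exact Prod.ext h3.1 h3.2.1

theorem upp_runJ {J : V × ℤ → Prop} {i : ℕ} {a b : V × ℤ} (hr : M.Run i a b) :
    (∀ i' ≤ i, ∀ b', M.Run i' a b' → J b') → M.RunJ J i a b := by
  induction hr with
  | refl a => intro _; exact RM.RunJ.refl a
  | @step n a b c hs hr ih =>
    intro hJ
    refine RM.RunJ.step (hJ 0 (Nat.zero_le _) a (RM.Run.refl a)) hs (ih ?_)
    intro i' hi' b' hb'
    exact hJ (i' + 1) (by omega) b' (RM.Run.step hs hb')

theorem upp_run_S (h : ActS M EA e v0 (fun _ => 0) T S A) {i : ℕ} {b c : V × ℤ}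
    (hr : M.Run i b c) : ∀ m, (S ^ i) (b.1, b.2, m) = (c.1, c.2, m) := by
  induction hr with
  | refl a => intro m; simp
  | @step n a b c hs _ ih =>
    intro m
    obtain ⟨k, _, hk⟩ := step_S h hs
    have h1 : S (a.1, a.2, m) = (b.1, b.2, m) := by simpa using hk m
    rw [pow_succ, Equiv.Perm.mul_apply, h1, ih]

theorem upp_half (p0 : M.p v0 = 2) (q0 : M.q v0 = 1) (e0 : M.E v0 0 v0 0) (b : ℕ) :
    M.Run b (v0, 2 ^ b) (v0, 1) := by
  induction b with
  | zero => simpa using RM.Run.refl (M := M) (v0, (1 : ℤ))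
  | succ b ih =>
    refine RM.Run.step ⟨2 ^ b, 0, 0, e0, ?_, ?_⟩ ih
    · simp only [p0]; push_cast; ring
    · simp only [q0]; push_cast; ring

theorem upp_halfJ (p0 : M.p v0 = 2) (q0 : M.q v0 = 1) (e0 : M.E v0 0 v0 0) (b Y : ℕ)
    (hY : 2 ^ b ≤ Y) : M.RunJ (fun b => b.2.natAbs ≤ Y) b (v0, 2 ^ b) (v0, 1) := by
  induction b with
  | zero => simpa using RM.RunJ.refl (M := M) (J := fun b => b.2.natAbs ≤ Y) (v0, (1 : ℤ))
  | succ b ih =>
    refine RM.RunJ.step ?_ ⟨2 ^ b, 0, 0, e0, ?_, ?_⟩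
      (ih ((Nat.pow_le_pow_right (by norm_num) (Nat.le_succ b)).trans hY))
    · change ((2 : ℤ) ^ (b + 1)).natAbs ≤ Y
      rw [Int.natAbs_pow]
      simpa using hY
    · simp only [p0]; push_cast; ring
    · simp only [q0]; push_cast; ring

/-- the points of the forward orbit of `(v0, 1)` are different -/
theorem upp_inj (h : ActS M EA e v0 (fun _ => 0) T S A) (p0 : M.p v0 = 2) (q0 : M.q v0 = 1)
    (e0 : M.E v0 0 v0 0) {i l : ℕ} {b : V × ℤ} (h1 : M.Run i (v0, 1) b)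
    (h2 : M.Run (i + l) (v0, 1) b) : l = 0 := by
  have e1 := upp_run_S h h1 0
  have e2 := upp_run_S h h2 0
  rw [pow_add, Equiv.Perm.mul_apply] at e2
  have e3 : (S ^ l) (v0, 1, 0) = (v0, 1, 0) := (S ^ i).injective (e2.trans e1.symm)
  have e4 : (S ^ l) (v0, 2 ^ l, 0) = (v0, 1, 0) := upp_run_S h (upp_half p0 q0 e0 l) 0
  have e5 := (S ^ l).injective (e3.trans e4.symm)
  simp only [Prod.mk.injEq, and_true, true_and] at e5
  by_contra hl
  have h6 : (2 : ℤ) ≤ 2 ^ l := by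
    calc (2 : ℤ) = 2 ^ 1 := by norm_num
      _ ≤ 2 ^ l := pow_le_pow_right₀ (by norm_num) (by omega)
  omega

end aux

theorem upp_arith (n B D K F : ℕ) (hn : n ≤ F) (hF : 1 ≤ F) (U E : ℕ) (hE : E + 1 ≤ F)
    (hU : U = n * B ^ n + B ^ n * (2 * B ^ n + 1) +
      K * (D + 1) ^ (E + 1) * (2 * (D + 1) ^ (E + 1) + 1)) :
    n * (2 * U + 1) + U ≤ ((B + D + K + 2) ^ 9) ^ F := by
  set Q := B + D + K + 2 with hQ
  have hQ2 : 2 ≤ Q := by omega
  set q := Q ^ F with hq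
  have hq1 : 1 ≤ q := Nat.one_le_pow _ _ (by omega)
  have hq2 : 2 ≤ q := by
    calc 2 = 2 ^ 1 := by norm_num
      _ ≤ 2 ^ F := Nat.pow_le_pow_right (by norm_num) hF
      _ ≤ Q ^ F := Nat.pow_le_pow_left hQ2 _
  have hnq : n ≤ q := by
    calc n ≤ F := hn
      _ ≤ 2 ^ F := Nat.lt_two_pow_self.le
      _ ≤ Q ^ F := Nat.pow_le_pow_left hQ2 _
  have hB : B ^ n ≤ q := by
    calc B ^ n ≤ Q ^ n := Nat.pow_le_pow_left (by omega) _
      _ ≤ Q ^ F := Nat.pow_le_pow_right (by omega) hn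
  have hD : (D + 1) ^ (E + 1) ≤ q := by
    calc (D + 1) ^ (E + 1) ≤ Q ^ (E + 1) := Nat.pow_le_pow_left (by omega) _
      _ ≤ Q ^ F := Nat.pow_le_pow_right (by omega) hE
  have hK : K ≤ q := by
    calc K ≤ Q := by omega
      _ = Q ^ 1 := (pow_one _).symm
      _ ≤ Q ^ F := Nat.pow_le_pow_right (by omega) hF
  have h1 : U ≤ q * q + q * (2 * q + 1) + q * q * (2 * q + 1) := by
    rw [hU]
    gcongr
  have h2 : U ≤ 6 * q ^ 3 := by nlinarith
  have h3 : n * (2 * U + 1) + U ≤ q * (2 * (6 * q ^ 3) + 1) + 6 * q ^ 3 := by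
    gcongr
  have h4 : q * (2 * (6 * q ^ 3) + 1) + 6 * q ^ 3 ≤ 32 * q ^ 4 := by
    have e1 : q ≤ q ^ 4 := Nat.le_self_pow (by norm_num) q
    have e2 : q ^ 3 ≤ q ^ 4 := Nat.pow_le_pow_right (by omega) (by norm_num)
    nlinarith
  have h5 : 32 ≤ q ^ 5 := by
    calc 32 = 2 ^ 5 := by norm_num
      _ ≤ q ^ 5 := Nat.pow_le_pow_left hq2 _
  calc n * (2 * U + 1) + U ≤ 32 * q ^ 4 := h3.trans h4
    _ ≤ q ^ 5 * q ^ 4 := Nat.mul_le_mul_right _ h5
    _ = ((Q ^ 9) ^ F) := by rw [← pow_add, hq, ← pow_mul, ← pow_mul, Nat.mul_comm]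

variable {V : Type} [Finite V] {M : RM V} {EA : V → ℕ → V → ℕ → Prop} {e : V → ℕ} {v0 : V}

theorem upp (he : e v0 = 0)
    (hEA : EAok M EA)
    (hact : ∀ lam : V → ℤ, ∃ T S A : Equiv.Perm (V × ℤ × ℤ), ActS M EA e v0 lam T S A)
    {u j mS : V} {Dm : ℕ → Prop} {nu lo Y : ℕ → ℕ} (hm : Mach M v0 u j mS Dm nu lo Y)
    {G : Type} [Group G] (t s z a : G) (hrel : Rel t s z a)
    (hgen : Subgroup.closure {t, s, z, a} = ⊤)
    (univ : ∀ (K : Type) [Group K] (T S Z A : K), Rel T S Z A →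
      ∃ ρ : G →* K, ρ t = T ∧ ρ s = S ∧ ρ z = Z ∧ ρ a = A)
    (D : ℕ) (hD : ∀ N, Y N ≤ D ^ (N + 1)) (g : ℕ → ℕ) (hg : Monotone g) (hg1 : ∀ n, n ≤ g n)
    (hgN : ∀ N n, lo N ≤ n → N ≤ g n) :
    ∃ C : ℕ, ∀ (n : ℕ) (x : G),
      x ∈ Subgroup.closure (insert (t⁻¹ * z * t) (gens M EA t s a e)) →
      W {t, s, z, a} x n →
      W (insert (t⁻¹ * z * t) (gens M EA t s a e)) x (C ^ (g (C * n + C) + 1)) := by
  classical
  obtain ⟨T, S, A, h⟩ := hact (fun _ => 0)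
  obtain ⟨π, ht, hs, -, ha⟩ := univ (Equiv.Perm (V × ℤ × ℤ)) T S 1 A
    ⟨h.tt, Commute.one_left S, h.at'⟩
  obtain ⟨B, hB2, hrew⟩ := rew h hEA he t s a hrel.tt hrel.at' π ht hs ha
  obtain ⟨C₀, hC₀⟩ := gens_wt h hEA
  set X := gens M EA t s a e with hX
  set K := Nat.card V with hK
  -- elements of the subgroup fix the base point
  have hfix : ∀ l ∈ Subgroup.closure X, ∃ c, π l (v0, 0, 0) = (v0, 0, c) := by
    intro l hl
    obtain ⟨n', hn'⟩ := exists_W hl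
    have h1 := W_map π hn'
    rw [hX, gens_map, ht, hs, ha] at h1
    obtain ⟨c, -, hc⟩ := hC₀ _ _ h1
    exact ⟨0 + c, hc 0⟩
  have hpt1 : pt M t s a e v0 1 = t := by
    unfold pt tau
    rw [if_pos hm.q0, he]; simp
  have hpt0 : pt M t s a e v0 0 = 1 := by
    unfold pt
    rw [he]; simp
  refine ⟨(B + D + K + 2) ^ 9, fun n x hx hWx => ?_⟩
  set U := n * B ^ n + B ^ n * (2 * B ^ n + 1) +
      K * (D + 1) ^ (g (B * (n + 1)) + 1) * (2 * (D + 1) ^ (g (B * (n + 1)) + 1) + 1) with hU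
  have hU2 : ∀ l ∈ Subgroup.closure X, W {t, s, a} l n → W X l U := by
    intro l hl hW
    obtain ⟨c, hc⟩ := hfix l hl
    obtain ⟨-, h2⟩ := hrew n l hW v0 0 c hc
    rw [hpt0, inv_one, one_mul] at h2
    exact W_mono h2 (by rw [hU]; omega)
  have hU1 : ∀ (l : G) (k : ℤ), l ∈ Subgroup.closure X → W {t, s, a} (l * t⁻¹ * s ^ k) n →
      W X l U := by
    intro l k hl hW
    obtain ⟨c, hc⟩ := hfix l⁻¹ (inv_mem hl)
    have hγ : π (l * t⁻¹ * s ^ k)⁻¹ (v0, 0, 0) = (S ^ (-k)) (v0, 1, c) := by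
      have e1 : (l * t⁻¹ * s ^ k)⁻¹ = s ^ (-k) * (t * l⁻¹) := by
        rw [zpow_neg]; group
      rw [e1, map_mul, map_mul, map_zpow, hs, ht, Equiv.Perm.mul_apply, Equiv.Perm.mul_apply, hc,
        h.hT, hm.q0]
      simp
    -- it suffices to treat the path along `s`
    have key : ∀ (v : V) (z m : ℤ), (S ^ (-k)) (v0, 1, c) = (v, z, m) →
        (∀ P : ℕ, z.natAbs + 1 ≤ B ^ n → P = B ^ n * (2 * B ^ n + 1) +
          K * (D + 1) ^ (g (B * (n + 1)) + 1) * (2 * (D + 1) ^ (g (B * (n + 1)) + 1) + 1) →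
        W X ((pt M t s a e v0 1)⁻¹ * s ^ k * pt M t s a e v z) P) → W X l U := by
      intro v z m hvz hP
      obtain ⟨h1, h2⟩ := hrew n _ (W_inv hW) v z m (hγ.trans hvz)
      have h3 := hP _ h1 rfl
      have h4 := W_inv (W_mul h3 h2)
      have e2 : ((pt M t s a e v0 1)⁻¹ * s ^ k * pt M t s a e v z *
          ((pt M t s a e v z)⁻¹ * (l * t⁻¹ * s ^ k)⁻¹))⁻¹ = l := by
        rw [hpt1]; group
      rw [e2] at h4
      exact W_mono h4 (by rw [hU]; omega)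
    rcases lt_or_ge 0 k with hk | hk
    · -- `k = b > 0`
      obtain ⟨b, rfl⟩ : ∃ b : ℕ, k = b := ⟨k.toNat, by omega⟩
      have e1 : (S ^ (-(b : ℤ))) (v0, 1, c) = (v0, 2 ^ b, c) := by
        have e2 : (S ^ b) (v0, 2 ^ b, c) = (v0, 1, c) :=
          upp_run_S h (upp_half hm.p0 hm.q0 hm.e0 b) c
        rw [zpow_neg, zpow_natCast, ← e2, ← Equiv.Perm.mul_apply, inv_mul_cancel]
        rfl
      refine key _ _ _ e1 (fun P hz hP => ?_)
      have hz' : 2 ^ b ≤ B ^ n := by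
        rw [Int.natAbs_pow] at hz
        have : (2 : ℤ).natAbs = 2 := rfl
        rw [this] at hz
        omega
      have hb : b ≤ B ^ n := (Nat.lt_two_pow_self.le).trans hz'
      have h5 := rew_run M EA t s a e hrel.tt (upp_halfJ hm.p0 hm.q0 hm.e0 b (B ^ n) hz')
      rw [zpow_natCast]
      refine W_mono h5 ?_
      rw [hP]
      exact (Nat.mul_le_mul_right _ hb).trans (Nat.le_add_right _ _)
    · -- `k = - i ≤ 0`
      obtain ⟨i, rfl⟩ : ∃ i : ℕ, k = -(i : ℤ) := ⟨(-k).toNat, by omega⟩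
      obtain ⟨b, N, hb, hlo, hall⟩ := hm.ctl i
      have e1 : (S ^ (-(-(i : ℤ)))) (v0, 1, c) = (b.1, b.2, c) := by
        rw [neg_neg, zpow_natCast]
        exact upp_run_S h hb c
      refine key _ _ _ e1 (fun P hz hP => ?_)
      -- bound for `N`
      have hb1 : 1 ≤ b.2 := by
        obtain ⟨b', hb', h1, -⟩ := hall i le_rfl
        rw [upp_run_det h hb hb']
        exact h1
      have hlo' : 2 ^ (lo N) ≤ B ^ (n + 1) := by
        have h1 : (2 : ℤ) ^ lo N ≤ 2 * (B ^ n : ℕ) := by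
          have : (b.2.natAbs : ℤ) = b.2 := by omega
          have : b.2 ≤ (B ^ n : ℕ) := by
            rw [← this]; exact_mod_cast (by omega : b.2.natAbs ≤ B ^ n)
          linarith
        have h2 : 2 ^ lo N ≤ 2 * B ^ n := by exact_mod_cast h1
        calc 2 ^ lo N ≤ 2 * B ^ n := h2
          _ ≤ B * B ^ n := Nat.mul_le_mul_right _ hB2
          _ = B ^ (n + 1) := by ring
      have hloN : lo N ≤ B * (n + 1) := by
        have h1 : B ^ (n + 1) ≤ 2 ^ (B * (n + 1)) := by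
          rw [pow_mul]
          exact Nat.pow_le_pow_left Nat.lt_two_pow_self.le _
        exact (Nat.pow_le_pow_iff_right (by norm_num)).1 (hlo'.trans h1)
      have hN : N ≤ g (B * (n + 1)) := hgN N _ hloN
      set Y' := (D + 1) ^ (g (B * (n + 1)) + 1) with hY'
      have hY : Y N ≤ Y' := by
        calc Y N ≤ D ^ (N + 1) := hD N
          _ ≤ (D + 1) ^ (N + 1) := Nat.pow_le_pow_left (Nat.le_succ D) _
          _ ≤ (D + 1) ^ (g (B * (n + 1)) + 1) := Nat.pow_le_pow_right (by omega) (by omega)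
      -- number of steps
      have hi : i + 1 ≤ K * Y N := by
        have hall' : ∀ i' : ℕ, ∃ b' : V × ℤ, i' ≤ i → (M.Run i' (v0, 1) b' ∧ 1 ≤ b'.2 ∧
            b'.2 ≤ (Y N : ℤ)) := by
          intro i'
          by_cases hi' : i' ≤ i
          · obtain ⟨b', h1⟩ := hall i' hi'
            exact ⟨b', fun _ => h1⟩
          · exact ⟨(v0, 0), fun h1 => absurd h1 hi'⟩
        choose f hf using hall'
        let φ : Fin (i + 1) → V × Fin (Y N) := fun x =>
          ((f x.1).1, ⟨((f x.1).2 - 1).toNat, by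
              have h1 := hf x.1 (Nat.lt_succ_iff.1 x.2)
              omega⟩)
        have hφ : Function.Injective φ := by
          intro x y hxy
          have h1 : (f x.1).1 = (f y.1).1 := congrArg (fun w : V × Fin (Y N) => w.1) hxy
          have h2 : ((f x.1).2 - 1).toNat = ((f y.1).2 - 1).toNat :=
            congrArg (fun w : V × Fin (Y N) => (w.2 : ℕ)) hxy
          obtain ⟨h6, h3, -⟩ := hf x.1 (Nat.lt_succ_iff.1 x.2)
          obtain ⟨h7, h4, -⟩ := hf y.1 (Nat.lt_succ_iff.1 y.2)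
          have h5 : f x.1 = f y.1 := Prod.ext h1 (by omega)
          rw [h5] at h6
          generalize f y.1 = w at h6 h7
          rcases le_total x.1 y.1 with hxy' | hxy'
          · obtain ⟨l', hl'⟩ := Nat.exists_eq_add_of_le hxy'
            rw [hl'] at h7
            have := upp_inj h hm.p0 hm.q0 hm.e0 h6 h7
            exact Fin.ext (by omega)
          · obtain ⟨l', hl'⟩ := Nat.exists_eq_add_of_le hxy'
            rw [hl'] at h6
            have := upp_inj h hm.p0 hm.q0 hm.e0 h7 h6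
            exact Fin.ext (by omega)
        have := Nat.card_le_card_of_injective φ hφ
        rwa [Nat.card_prod, Nat.card_eq_fintype_card, Fintype.card_fin,
          Nat.card_eq_fintype_card (α := Fin (Y N)), Fintype.card_fin] at this
      have hJ : M.RunJ (fun b => b.2.natAbs ≤ Y N) i (v0, 1) b := by
        refine upp_runJ hb (fun i' hi' b' hb' => ?_)
        obtain ⟨b'', h1, h2, h3⟩ := hall i' hi'
        rw [upp_run_det h hb' h1]
        omega
      have h5 := W_inv (rew_run M EA t s a e hrel.tt hJ)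
      have e3 : ((pt M t s a e b.1 b.2)⁻¹ * s ^ i * pt M t s a e v0 1)⁻¹ =
          (pt M t s a e v0 1)⁻¹ * s ^ (-(i : ℤ)) * pt M t s a e b.1 b.2 := by
        rw [zpow_neg, zpow_natCast]; group
      have h6 : W X ((pt M t s a e v0 1)⁻¹ * s ^ (-(i : ℤ)) * pt M t s a e b.1 b.2)
          (i * (2 * Y N + 1)) := by
        rw [← e3]; exact h5
      refine W_mono h6 ?_
      rw [hP]
      calc i * (2 * Y N + 1) ≤ (K * Y N) * (2 * Y N + 1) :=
            Nat.mul_le_mul_right _ (by omega)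
        _ ≤ (K * Y') * (2 * Y' + 1) := by gcongr
        _ ≤ _ := Nat.le_add_left _ _
  have hfin := zpart t s z a hrel hgen univ X (fun x hx => gens_mem M EA t s a e hx) t
    (Subgroup.subset_closure (by simp)) n U hU1 hU2 x hx hWx
  refine W_mono hfin ?_
  have hQ : B ≤ (B + D + K + 2) ^ 9 := by
    calc B ≤ B + D + K + 2 := by omega
      _ ≤ _ := Nat.le_self_pow (by norm_num) _
  have hQ1 : 1 ≤ (B + D + K + 2) ^ 9 := Nat.one_le_pow _ _ (by omega)
  refine upp_arith n B D K _ ?_ (Nat.succ_le_succ (Nat.zero_le _)) U (g (B * (n + 1))) ?_ hU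
  · have h1 : n ≤ (B + D + K + 2) ^ 9 * n + (B + D + K + 2) ^ 9 := by
      calc n = 1 * n := (one_mul n).symm
        _ ≤ (B + D + K + 2) ^ 9 * n := Nat.mul_le_mul_right _ hQ1
        _ ≤ _ := Nat.le_add_right _ _
    have h2 := hg h1
    have h3 := hg1 n
    exact (h3.trans h2).trans (Nat.le_succ _)
  · have h1 : B * (n + 1) ≤ (B + D + K + 2) ^ 9 * n + (B + D + K + 2) ^ 9 := by
      calc B * (n + 1) ≤ (B + D + K + 2) ^ 9 * (n + 1) := Nat.mul_le_mul_right _ hQ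
        _ = _ := Nat.mul_succ _ _
    exact Nat.succ_le_succ (hg h1)

end Pool.Agent.FBC
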