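import Pool.Agent.FBC.MachA
import Pool.Agent.FBC.MachB
import Pool.Agent.FBC.Act
import Pool.Agent.FBC.Low
import Pool.Agent.FBC.ExpL
import Pool.Agent.FBC.Upp
import Pool.Agent.FBC.DistUp
import Pool.Agent.FBC.Dist
import Pool.Agent.FBC.Grp

/-!
# FBC: the final theorems, for a group with the universal property
-/

namespace Pool.Agent.FBC

open Pool.Agent.helper12.FD

theorem comp_sum {f : ℕ → ℕ} (hf : Computable f) :
    Computable (fun n => ∑ i ∈ Finset.range n, f i) := by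
  have h : Computable (fun n : ℕ => Nat.rec (motive := fun _ => ℕ) 0
      (fun i acc => acc + f i) n) := by
    refine Computable.nat_rec (f := fun n : ℕ => n) (g := fun _ => 0)
      (h := fun _ p => p.2 + f p.1) Computable.id (Computable.const 0) ?_
    exact (Primrec.nat_add.to_comp).comp (Computable.snd.comp Computable.snd)
      (hf.comp (Computable.fst.comp Computable.snd))
  refine h.of_eq fun n => ?_
  induction n with
  | zero => simp
  | succ n ih => rw [Finset.sum_range_succ, ← ih]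

theorem rado {d : ℕ → ℕ} (hd : Monotone d)
    (h : ∀ g : ℕ → ℕ, Computable g → ∃ K, ∀ m, g m ≤ K * d (K * m + K) + K) (f : ℕ → ℕ)
    (hf : Computable f) : ∃ n0 : ℕ, ∀ n, n0 ≤ n → f n < d n := by
  have hsq : Computable (fun m : ℕ => m * m) :=
    (Primrec.nat_mul.comp Primrec.id Primrec.id).to_comp
  have hg : Computable (fun m : ℕ => m * (∑ i ∈ Finset.range (m * m), f i + 2)) :=
    Primrec.nat_mul.to_comp.comp Computable.id
      (Primrec.nat_add.to_comp.comp ((comp_sum hf).comp hsq) (Computable.const 2))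
  obtain ⟨K₀, hK₀⟩ := h _ hg
  obtain ⟨K, hK1, hK⟩ : ∃ K : ℕ, 1 ≤ K ∧
      ∀ m, m * (∑ i ∈ Finset.range (m * m), f i + 2) ≤ K * d (K * m + K) + K := by
    refine ⟨K₀ + 1, by omega, fun m => (hK₀ m).trans ?_⟩
    have h1 : d (K₀ * m + K₀) ≤ d ((K₀ + 1) * m + (K₀ + 1)) := hd (by nlinarith)
    have h2 : K₀ * d (K₀ * m + K₀) ≤ (K₀ + 1) * d ((K₀ + 1) * m + (K₀ + 1)) :=
      Nat.mul_le_mul (by omega) h1
    omega
  refine ⟨K * (2 * K + 4), fun n hn => ?_⟩
  have hq : 2 * K + 4 ≤ n / K := (Nat.le_div_iff_mul_le (by omega)).2 (by rw [mul_comm]; exact hn)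
  obtain ⟨m, hm⟩ : ∃ m, n / K = m + 1 := ⟨n / K - 1, by omega⟩
  have hm0 : 2 * K + 3 ≤ m := by omega
  have hm1 : K * m + K ≤ n := by
    have := Nat.mul_div_le n K
    rw [hm] at this
    linarith
  have hm2 : n < K * (m + 2) := by
    have := Nat.lt_mul_div_succ n (show 0 < K by omega)
    rw [hm] at this
    exact this
  have hm3 : n < m * m := by nlinarith
  have h1 : f n ≤ ∑ i ∈ Finset.range (m * m), f i :=
    Finset.single_le_sum (f := f) (fun _ _ => Nat.zero_le _) (Finset.mem_range.2 hm3)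
  have h2 := hK m
  have h3 : d (K * m + K) ≤ d n := hd hm1
  have h4 : K * (∑ i ∈ Finset.range (m * m), f i + 2) ≤ K * d n + K := by
    calc K * (∑ i ∈ Finset.range (m * m), f i + 2)
        ≤ m * (∑ i ∈ Finset.range (m * m), f i + 2) := Nat.mul_le_mul_right _ (by omega)
      _ ≤ K * d (K * m + K) + K := h2
      _ ≤ K * d n + K := Nat.add_le_add_right (Nat.mul_le_mul_left _ h3) _
  have h5 : K * (∑ i ∈ Finset.range (m * m), f i + 2) ≤ K * (d n + 1) := by linarith
  have h6 := Nat.le_of_mul_le_mul_left h5 (by omega)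
  omega

theorem not_dom {d : ℕ → ℕ}
    (h : ∀ f : ℕ → ℕ, Computable f → ∃ n0 : ℕ, ∀ n, n0 ≤ n → f n < d n) (f : ℕ → ℕ)
    (hf : Computable f) : ¬ Dom d f := by
  rintro ⟨C, -, hC⟩
  have h1 : Computable (fun n : ℕ => C * f (C * n + C) + C * n + C) := by
    have e1 : Computable (fun n : ℕ => C * n + C) :=
      (Primrec.nat_add.comp (Primrec.nat_mul.comp (Primrec.const C) Primrec.id)
        (Primrec.const C)).to_comp
    have e2 : Computable (fun n : ℕ => C * f (C * n + C)) :=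
      Primrec.nat_mul.to_comp.comp (Computable.const C) (hf.comp e1)
    have e3 : Computable (fun n : ℕ => C * n) :=
      (Primrec.nat_mul.comp (Primrec.const C) Primrec.id).to_comp
    exact Primrec.nat_add.to_comp.comp (Primrec.nat_add.to_comp.comp e2 e3) (Computable.const C)
  obtain ⟨n0, hn0⟩ := h _ h1
  have := hn0 n0 le_rfl
  have := hC n0
  omega

theorem dbl_iter {g : ℕ → ℕ} (hg : Monotone g) (h : ∃ C, ∀ n, 2 * g n ≤ g (C * n + C)) (j : ℕ) :
    ∃ C, ∀ n, 2 ^ j * g n ≤ g (C * n + C) := by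
  obtain ⟨C, hC⟩ := h
  induction j with
  | zero => exact ⟨1, fun n => by simpa using hg (show n ≤ 1 * n + 1 by omega)⟩
  | succ j ih =>
    obtain ⟨C', hC'⟩ := ih
    refine ⟨C * C' + C, fun n => ?_⟩
    calc 2 ^ (j + 1) * g n = 2 * (2 ^ j * g n) := by ring
      _ ≤ 2 * g (C' * n + C') := Nat.mul_le_mul_left _ (hC' n)
      _ ≤ g (C * (C' * n + C') + C) := hC _
      _ ≤ g ((C * C' + C) * n + (C * C' + C)) := hg (by nlinarith [Nat.zero_le (C * n)])

section

variable {G : Type} [Group G] {t s z a : G}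

theorem groupA (hrel : Rel t s z a)
    (univ : ∀ (K : Type) [Group K] (T S Z A : K), Rel T S Z A →
      ∃ ρ : G →* K, ρ t = T ∧ ρ s = S ∧ ρ z = Z ∧ ρ a = A) :
    ∃ H : Subgroup G, H.FG ∧ ∀ S T : Set G, S.Finite → Subgroup.closure S = ⊤ → T.Finite →
      Subgroup.closure T = H → ∀ f : ℕ → ℕ, Computable f →
        (∃ n0 : ℕ, ∀ n, n0 ≤ n → f n < dist S T H n) ∧ ¬ Dom (dist S T H) f := by
  obtain ⟨V, hV, M, v0, u, j, mS, Dm, nu, lo, Y, htot, hm, hdom⟩ := machA
  obtain ⟨e, EA, he, hEA, hact⟩ := act M htot v0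
  obtain ⟨C₀, hlow⟩ := low he hEA hact hm t s z a hrel univ
  have hfin : (insert (t⁻¹ * z * t) (gens M EA t s a e)).Finite :=
    (gens_finite M EA t s a e hEA).insert _
  refine ⟨Subgroup.closure (insert (t⁻¹ * z * t) (gens M EA t s a e)),
    (Subgroup.fg_iff _).2 ⟨_, rfl, hfin⟩, fun S T hS hS' hT hT' => ?_⟩
  obtain ⟨C, hC⟩ := dist_lower hS hS' hT hT' (S₀ := {t, s, z, a}) (by simp) rfl C₀
  have hmono : Monotone (dist S T (Subgroup.closure (insert (t⁻¹ * z * t) (gens M EA t s a e)))) :=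
    fun m n hmn => Dist_mono hS hS' hmn
  have key : ∀ f : ℕ → ℕ, Computable f → ∃ n0 : ℕ, ∀ n, n0 ≤ n → f n <
      dist S T (Subgroup.closure (insert (t⁻¹ * z * t) (gens M EA t s a e))) n := by
    refine rado hmono fun g hg => ?_
    obtain ⟨C', hC'⟩ := hdom g hg
    refine ⟨C * (C₀ * C' + C₀) + C, fun m => ?_⟩
    obtain ⟨N, h1, h2, h3⟩ := hC' m
    obtain ⟨x, hx, hx1, hx2⟩ := hlow N h1
    have h4 := hC x _ _ hx hx1 hx2
    have h5 : C * (C₀ * nu N + C₀) ≤ (C * (C₀ * C' + C₀) + C) * m + (C * (C₀ * C' + C₀) + C) := by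
      have : C₀ * nu N ≤ C₀ * (C' * (m + 1)) := Nat.mul_le_mul_left _ h2
      calc C * (C₀ * nu N + C₀) ≤ C * (C₀ * (C' * (m + 1)) + C₀) :=
            Nat.mul_le_mul_left _ (by omega)
        _ ≤ _ := by
          have e1 : C * (C₀ * (C' * (m + 1)) + C₀) = C * (C₀ * C') * m + C * (C₀ * C' + C₀) := by
            ring
          rw [e1]
          have e2 : C * (C₀ * C') * m ≤ (C * (C₀ * C' + C₀) + C) * m :=
            Nat.mul_le_mul_right _ (by nlinarith [Nat.zero_le (C * C₀)])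
          omega
    have h6 := hmono h5
    have h7 : N ≤ 2 ^ N := Nat.lt_two_pow_self.le
    calc g m ≤ N := h3
      _ ≤ 2 ^ N := h7
      _ ≤ C * _ + C := h4
      _ ≤ _ := Nat.add_le_add (Nat.mul_le_mul (by omega) h6) (by omega)
  exact fun f hf => ⟨key f hf, not_dom key f hf⟩

theorem groupB (hrel : Rel t s z a) (hgen : Subgroup.closure {t, s, z, a} = ⊤)
    (univ : ∀ (K : Type) [Group K] (T S Z A : K), Rel T S Z A →
      ∃ ρ : G →* K, ρ t = T ∧ ρ s = S ∧ ρ z = Z ∧ ρ a = A)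
    (R : ℕ → ℕ → Prop) (hR : Rud (fun v : Fin 2 → ℕ => R (v 0) (v 1)))
    (hfun : ∀ n N N', R n N → R n N' → N = N') (g : ℕ → ℕ)
    (hg : ∀ n, IsGreatest {N | N = n ∨ ∃ n', n' ≤ n ∧ R n' N} (g n)) :
    ∃ H : Subgroup G, H.FG ∧ ∀ S T : Set G, S.Finite → Subgroup.closure S = ⊤ → T.Finite →
      Subgroup.closure T = H →
        Dom (fun n => 2 ^ (g n)) (dist S T H) ∧ (∃ b : ℕ, Dom (dist S T H) (fun n => b ^ (g n))) ∧
        ((∃ C, ∀ n, 2 * g n ≤ g (C * n + C)) → Eqv (dist S T H) (fun n => 2 ^ (g n))) := by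
  obtain ⟨V, hV, M, v0, u, j, mS, Dm, nu, lo, Y, D, htot, hm, hY, hDm, hhit, hlo⟩ :=
    machB R hR hfun
  obtain ⟨e, EA, he, hEA, hact⟩ := act M htot v0
  have hg1 : ∀ n, n ≤ g n := fun n => (hg n).2 (Or.inl rfl)
  have hgm : Monotone g := by
    intro x y hxy
    rcases (hg x).1 with h | ⟨n', h1, h2⟩
    · exact h.le.trans (hxy.trans (hg1 y))
    · exact (hg y).2 (Or.inr ⟨n', h1.trans hxy, h2⟩)
  have hgN : ∀ N n, lo N ≤ n → N ≤ g n := by
    intro N n hn
    rcases hlo N with ⟨h1, h2⟩ | ⟨h1, h2⟩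
    · rw [h2] at hn
      exact (hg n).2 (Or.inr ⟨nu N, hn, (hDm N h1).1⟩)
    · rw [h2] at hn
      exact hn.trans (hg1 n)
  obtain ⟨C₀, hlow⟩ := low he hEA hact hm t s z a hrel univ
  obtain ⟨C₁, hexp⟩ := expl he hEA hact hm t s z a hrel univ
  obtain ⟨C₂, hupp⟩ := upp he hEA hact hm t s z a hrel hgen univ D hY g hgm hg1 hgN
  have hfin : (insert (t⁻¹ * z * t) (gens M EA t s a e)).Finite :=
    (gens_finite M EA t s a e hEA).insert _
  refine ⟨Subgroup.closure (insert (t⁻¹ * z * t) (gens M EA t s a e)),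
    (Subgroup.fg_iff _).2 ⟨_, rfl, hfin⟩, fun S T hS hS' hT hT' => ?_⟩
  -- upper bound
  set B : ℕ := C₂ + 2 with hB
  have hUm : Monotone (fun n => B ^ (g (B * n + B) + 1)) := by
    intro x y hxy
    apply Nat.pow_le_pow_right (by omega)
    have : g (B * x + B) ≤ g (B * y + B) := hgm (by nlinarith)
    omega
  obtain ⟨C, hC⟩ := dist_upper hS hS' hT hT' hgen hfin rfl
    (fun n => B ^ (g (B * n + B) + 1)) hUm (fun x hx n hn => by
      refine W_mono (hupp n x hx hn) ?_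
      calc C₂ ^ (g (C₂ * n + C₂) + 1) ≤ B ^ (g (C₂ * n + C₂) + 1) :=
            Nat.pow_le_pow_left (by omega) _
        _ ≤ B ^ (g (B * n + B) + 1) := by
            apply Nat.pow_le_pow_right (by omega)
            have : g (C₂ * n + C₂) ≤ g (B * n + B) := hgm (by nlinarith)
            omega)
  have hup : ∃ b : ℕ, Dom (dist S T (Subgroup.closure (insert (t⁻¹ * z * t)
      (gens M EA t s a e)))) (fun n => b ^ (g n)) := by
    refine ⟨B, C * B + B * C + B + 1, by omega, fun n => ?_⟩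
    set K : ℕ := C * B + B * C + B + 1 with hK
    have h1 : g (B * (C * n) + B) ≤ g (K * n + K) := by
      apply hgm
      have e1 : B * (C * n) = B * C * n := by ring
      rw [e1]
      exact Nat.add_le_add (Nat.mul_le_mul_right _ (by rw [hK]; omega)) (by rw [hK]; omega)
    calc dist S T _ n ≤ C * B ^ (g (B * (C * n) + B) + 1) := hC n
      _ = C * B * B ^ (g (B * (C * n) + B)) := by rw [pow_succ]; ring
      _ ≤ K * B ^ (g (K * n + K)) :=
          Nat.mul_le_mul (by rw [hK]; omega) (Nat.pow_le_pow_right (by omega) h1)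
      _ ≤ K * B ^ (g (K * n + K)) + K * n + K := by omega
  -- lower bound
  have hlo : Dom (fun n => 2 ^ (g n)) (dist S T (Subgroup.closure (insert (t⁻¹ * z * t)
      (gens M EA t s a e)))) := by
    obtain ⟨C, hC⟩ := dist_lower hS hS' hT hT' (S₀ := {t, s, z, a}) (by simp) rfl C₀
    obtain ⟨C', hC'⟩ := dist_lower hS hS' hT hT' (S₀ := {t, s, z, a}) (by simp) rfl C₁
    have hmono : ∀ m n, m ≤ n → dist S T (Subgroup.closure
        (insert (t⁻¹ * z * t) (gens M EA t s a e))) m ≤ dist S T (Subgroup.closure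
        (insert (t⁻¹ * z * t) (gens M EA t s a e))) n := fun m n hmn => Dist_mono hS hS' hmn
    set K : ℕ := C * C₀ + C' * C₁ + C + C' + 1 with hK
    refine ⟨K, by omega, fun n => ?_⟩
    rcases (hg n).1 with h | ⟨n', h1, h2⟩
    · obtain ⟨x, hx, hx1, hx2⟩ := hexp n
      have h4 := hC' x _ _ hx hx1 hx2
      have h5 := hmono (C' * (C₁ * n + C₁)) (K * n + K) (by
        have e1 : C' * (C₁ * n + C₁) = C' * C₁ * n + C' * C₁ := by ring
        rw [e1]
        exact Nat.add_le_add (Nat.mul_le_mul_right _ (by rw [hK]; omega)) (by rw [hK]; omega))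
      show 2 ^ g n ≤ _
      rw [h]
      calc 2 ^ n ≤ C' * _ + C' := h4
        _ ≤ K * _ + K * n + K :=
          Nat.add_le_add (le_trans (Nat.mul_le_mul (by rw [hK]; omega) h5) (Nat.le_add_right _ _))
            (by rw [hK]; omega)
    · have hn' : n' ≤ g n := h1.trans (hg1 n)
      obtain ⟨h3, h3'⟩ := hhit (g n) n' hn' h2
      obtain ⟨x, hx, hx1, hx2⟩ := hlow (g n) h3
      have h4 := hC x _ _ hx hx1 hx2
      have h5 := hmono (C * (C₀ * nu (g n) + C₀)) (K * n + K) (by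
        have e0 : C₀ * nu (g n) ≤ C₀ * n := Nat.mul_le_mul_left _ (h3'.trans h1)
        calc C * (C₀ * nu (g n) + C₀) ≤ C * (C₀ * n + C₀) := Nat.mul_le_mul_left _ (by omega)
          _ = C * C₀ * n + C * C₀ := by ring
          _ ≤ K * n + K :=
            Nat.add_le_add (Nat.mul_le_mul_right _ (by rw [hK]; omega)) (by rw [hK]; omega))
      show 2 ^ g n ≤ _
      calc 2 ^ g n ≤ C * _ + C := h4
        _ ≤ K * _ + K * n + K :=
          Nat.add_le_add (le_trans (Nat.mul_le_mul (by rw [hK]; omega) h5) (Nat.le_add_right _ _))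
            (by rw [hK]; omega)
  refine ⟨hlo, hup, fun hdbl => ⟨?_, hlo⟩⟩
  obtain ⟨C₃, hC₃⟩ := dbl_iter hgm hdbl B
  refine ⟨C * 2 ^ B + C₃ * (B * C + B) + C₃ + 1, by omega, fun n => ?_⟩
  set K : ℕ := C * 2 ^ B + C₃ * (B * C + B) + C₃ + 1 with hK
  have h1 : B * g (B * (C * n) + B) ≤ g (K * n + K) := by
    calc B * g (B * (C * n) + B) ≤ 2 ^ B * g (B * (C * n) + B) :=
          Nat.mul_le_mul_right _ Nat.lt_two_pow_self.le
      _ ≤ g (C₃ * (B * (C * n) + B) + C₃) := hC₃ _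
      _ ≤ g (K * n + K) := by
          apply hgm
          have e1 : C₃ * (B * (C * n) + B) + C₃ = C₃ * (B * C) * n + (C₃ * B + C₃) := by ring
          have e2 : C₃ * (B * C) ≤ K := by
            rw [hK]; nlinarith [Nat.zero_le (C * 2 ^ B), Nat.zero_le (C₃ * B)]
          have e3 : C₃ * B + C₃ ≤ K := by
            rw [hK]; nlinarith [Nat.zero_le (C * 2 ^ B), Nat.zero_le (C₃ * (B * C))]
          rw [e1]
          exact Nat.add_le_add (Nat.mul_le_mul_right _ e2) e3
  calc dist S T _ n ≤ C * B ^ (g (B * (C * n) + B) + 1) := hC n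
    _ ≤ C * (2 ^ B) ^ (g (B * (C * n) + B) + 1) :=
        Nat.mul_le_mul_left _ (Nat.pow_le_pow_left Nat.lt_two_pow_self.le _)
    _ = C * 2 ^ B * 2 ^ (B * g (B * (C * n) + B)) := by
        rw [← pow_mul, mul_add, mul_one, pow_add]; ring
    _ ≤ K * 2 ^ (g (K * n + K)) :=
        Nat.mul_le_mul (by rw [hK]; omega) (Nat.pow_le_pow_right (by omega) h1)
    _ ≤ K * 2 ^ (g (K * n + K)) + K * n + K := by omega

end

end Pool.Agent.FBC
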