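import Pool.Agent.FBC.Low
import Pool.Agent.FBC.Grp

/-!
# FBC module Undec: membership in the subgroup is undecidable

`undec_iff`: the element `(pt j (3 ^ n))⁻¹ * z * pt j (3 ^ n)` is in the subgroup iff the run from
`(v0, 1)` passes through `(j, 3 ^ n)`.
`undec`: if membership of these elements were decidable then the hitting time of `(j, 3 ^ n)` would be
a computable function of `n`; it is at least a constant times `N` for `n = nu N`, `N` in `Dm`, which
contradicts `hdom`.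
-/

namespace Pool.Agent.FBC

open Pool.Agent.helper12.FD

variable {V : Type} [Finite V] {M : RM V} {EA : V → ℕ → V → ℕ → Prop} {e : V → ℕ} {v0 : V}

omit [Finite V] in
theorem undec_run_S {T S A : Equiv.Perm (V × ℤ × ℤ)} (h : ActS M EA e v0 (fun _ => 0) T S A)
    {i : ℕ} {b c : V × ℤ} (hr : M.Run i b c) (m : ℤ) : (S ^ i) (b.1, b.2, m) = (c.1, c.2, m) := by
  induction hr with
  | refl a => simp
  | @step n a b c hs _ ih =>
    obtain ⟨k, _, hk⟩ := step_S h hs
    rw [pow_succ, Equiv.Perm.mul_apply, hk]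
    simpa using ih

omit [Finite V] in
/-- the time of a visit is unique -/
theorem undec_time {T S A : Equiv.Perm (V × ℤ × ℤ)} (h : ActS M EA e v0 (fun _ => 0) T S A)
    (p0 : M.p v0 = 2) (q0 : M.q v0 = 1) (e0 : M.E v0 0 v0 0) {k k' : ℕ} {b : V × ℤ}
    (hk : M.Run k (v0, 1) b) (hk' : M.Run k' (v0, 1) b) : k = k' := by
  have key : ∀ k k' : ℕ, k ≤ k' → M.Run k (v0, 1) b → M.Run k' (v0, 1) b → k = k' := by
    intro k k' hle h1 h2
    obtain ⟨l, rfl⟩ := Nat.exists_eq_add_of_le hle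
    have e1 := undec_run_S h h1 0
    have e2 := undec_run_S h h2 0
    rw [pow_add, Equiv.Perm.mul_apply] at e2
    have e3 := (S ^ k).injective (e1.trans e2.symm)
    have e4 := Low_S_v0 h p0 q0 e0 rfl 0 l
    have e5 := (S ^ l).injective (e4.trans e3)
    simp only [Prod.mk.injEq, true_and, and_true] at e5
    rcases Nat.eq_zero_or_pos l with rfl | hl
    · rfl
    · exfalso
      have : (1 : ℤ) < 2 ^ l := one_lt_pow₀ (by norm_num) hl.ne'
      omega
  rcases le_total k k' with hle | hle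
  · exact key k k' hle hk hk'
  · exact (key k' k hle hk' hk).symm

theorem undec_iff (he : e v0 = 0)
    (hEA : EAok M EA)
    (hact : ∀ lam : V → ℤ, ∃ T S A : Equiv.Perm (V × ℤ × ℤ), ActS M EA e v0 lam T S A)
    {u j mS : V} {Dm : ℕ → Prop} {nu lo Y : ℕ → ℕ} (hm : Mach M v0 u j mS Dm nu lo Y)
    {G : Type} [Group G] (t s z a : G) (hrel : Rel t s z a)
    (univ : ∀ (K : Type) [Group K] (T S Z A : K), Rel T S Z A →
      ∃ ρ : G →* K, ρ t = T ∧ ρ s = S ∧ ρ z = Z ∧ ρ a = A) (n : ℕ) :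
    (pt M t s a e j (3 ^ n))⁻¹ * z * pt M t s a e j (3 ^ n) ∈
      Subgroup.closure (insert (t⁻¹ * z * t) (gens M EA t s a e)) ↔
      ∃ k : ℕ, M.Run k (v0, 1) (j, 3 ^ n) := by
  classical
  obtain ⟨T, S, A, hA⟩ := hact (fun _ => 0)
  have hrel' : Rel T S (1 : Equiv.Perm (V × ℤ × ℤ)) A :=
    ⟨hA.tt, Commute.one_left _, hA.at'⟩
  obtain ⟨π, rfl, rfl, hπz, rfl⟩ := univ _ T S 1 A hrel'
  obtain ⟨T', S', Z', A', hrel2, hT', hS', hA', hZ'⟩ := lampRep (π t) (π s) (π a) hrel'
  obtain ⟨ρ, rfl, rfl, rfl, rfl⟩ := univ _ T' S' Z' A' hrel2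
  have hρ : ∀ g ∈ Subgroup.closure ({t, s, a} : Set G), ∀ f κ, ρ g (f, κ) = (f, π g * κ) :=
    fun g hg => Low_rho hT' hS' hA' hg
  have tm : t ∈ Subgroup.closure ({t, s, a} : Set G) := Subgroup.subset_closure (by simp)
  have sm : s ∈ Subgroup.closure ({t, s, a} : Set G) := Subgroup.subset_closure (by simp)
  have gm : pt M t s a e j (3 ^ n) ∈ Subgroup.closure ({t, s, a} : Set G) :=
    pt_mem M t s a e j (3 ^ n)
  have hπg : ∀ m : ℤ, π (pt M t s a e j (3 ^ n)) (v0, 0, m) = (j, 3 ^ n, m) := by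
    intro m
    rw [pt_map, pt_apply hA]
    simp
  have hπt : ∀ m : ℤ, π t (v0, 0, m) = (v0, 1, m) := by
    intro m
    rw [hA.hT, hm.q0]
    simp
  set g : G := pt M t s a e j (3 ^ n) with hg
  constructor
  · intro hx
    obtain ⟨m, w, hw1, hw2, hw3⟩ := exists_W hx
    obtain ⟨l, hl1, hl2, k, hk⟩ := lamp_bound π s z t g (gens M EA t s a e) ρ
      (fun x hx => hρ x (gens_mem M EA t s a e hx)) (hρ t tm) (hρ g gm) hZ' w hw2 hw3
    have hlW : W (gens M EA (π t) (π s) (π a) e) (π l.prod) l.length := by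
      have h1 : W (gens M EA t s a e) l.prod l.length := ⟨l, le_rfl, hl2, rfl⟩
      have h2 := W_map π h1
      rwa [gens_map] at h2
    obtain ⟨C₁, hC₁⟩ := gens_wt hA hEA
    obtain ⟨c, hc1, hc2⟩ := hC₁ _ _ hlW
    have hSk : (π s ^ k) (j, 3 ^ n, 0) = (v0, 1, c) := by
      rw [hk]
      simp only [Equiv.Perm.mul_apply]
      have : (π g)⁻¹ (j, 3 ^ n, 0) = (v0, 0, 0) := by
        rw [Equiv.Perm.inv_eq_iff_eq, hπg]
      rw [this, hc2, zero_add, hπt]
    obtain ⟨i, rfl | rfl⟩ := k.eq_nat_or_neg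
    · rw [zpow_natCast] at hSk
      have h1 := Low_S_v0 hA hm.p0 hm.q0 hm.e0 rfl c i
      have h2 := (π s ^ i).injective (hSk.trans h1.symm)
      simp only [Prod.mk.injEq] at h2
      obtain ⟨h3, h4, -⟩ := h2
      have hn : n = 0 := by
        by_contra hn
        have hi : i ≠ 0 := by
          rintro rfl
          have : (1 : ℤ) < 3 ^ n := one_lt_pow₀ (by norm_num) hn
          rw [h4] at this
          simp at this
        have h5 : (3 : ℕ) ^ n = 2 ^ i := by exact_mod_cast h4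
        have h6 : 2 ∣ 3 ^ n := by
          rw [h5]
          exact dvd_pow_self 2 hi
        have h7 := Nat.Prime.dvd_of_dvd_pow Nat.prime_two h6
        omega
      refine ⟨0, ?_⟩
      rw [h3, hn, pow_zero]
      exact RM.Run.refl _
    · rw [zpow_neg, zpow_natCast, Equiv.Perm.inv_eq_iff_eq] at hSk
      obtain ⟨b, N, hb, -, -⟩ := hm.ctl i
      refine ⟨i, ?_⟩
      have h1 := undec_run_S hA hb c
      rw [show ((v0, (1 : ℤ)) : V × ℤ).1 = v0 from rfl,
        show ((v0, (1 : ℤ)) : V × ℤ).2 = 1 from rfl, ← hSk] at h1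
      simp only [Prod.mk.injEq] at h1
      have h2 : b = (j, 3 ^ n) := Prod.ext h1.1.symm h1.2.1.symm
      rwa [h2] at hb
  · rintro ⟨i, hr⟩
    have hSi : ∀ m : ℤ, (π s ^ i) (v0, 1, m) = (j, 3 ^ n, m) := fun m => undec_run_S hA hr m
    set h : G := g⁻¹ * s ^ i * t with hh
    have hm' : h ∈ Subgroup.closure ({t, s, a} : Set G) :=
      mul_mem (mul_mem (inv_mem gm) (pow_mem sm _)) tm
    have hfix : π h (v0, 0, 0) = (v0, 0, 0) := by
      rw [hh]
      simp only [map_mul, map_pow, map_inv, Equiv.Perm.mul_apply]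
      rw [hπt, hSi, Equiv.Perm.inv_eq_iff_eq, hπg]
    have hcl : h ∈ Subgroup.closure (gens M EA t s a e) :=
      closure_of_fix hA hEA he t s a hrel.tt hrel.at' π rfl rfl rfl hm' hfix
    have hx : g⁻¹ * z * g = h * (t⁻¹ * z * t) * h⁻¹ := by
      have hc : z * s ^ i = s ^ i * z := (hrel.zs.pow_right _).eq
      rw [hh]
      have : g⁻¹ * s ^ i * t * (t⁻¹ * z * t) * (g⁻¹ * s ^ i * t)⁻¹ =
          g⁻¹ * (s ^ i * z) * (s ^ i)⁻¹ * g := by group
      rw [this, ← hc]
      group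
    rw [hx]
    have hcl' : h ∈ Subgroup.closure (insert (t⁻¹ * z * t) (gens M EA t s a e)) :=
      Subgroup.closure_mono (Set.subset_insert _ _) hcl
    exact mul_mem (mul_mem hcl' (Subgroup.subset_closure (Set.mem_insert _ _))) (inv_mem hcl')

/-! ## computability of the run -/

variable (M)

/-- one step is a primitive recursive function on `Fin m × ℕ` -/
theorem undec_step : ∃ (m : ℕ) (f : V ≃ Fin m) (F : Fin m × ℕ → Fin m × ℕ), Primrec F ∧
    ∀ b c, M.Step b c → 0 ≤ b.2 → 0 ≤ c.2 ∧ F (f b.1, b.2.toNat) = (f c.1, c.2.toNat) := by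
  classical
  obtain ⟨m, ⟨f⟩⟩ := Finite.exists_equiv_fin V
  obtain ⟨P, hP⟩ := (Set.finite_range M.p).bddAbove
  have hP' : ∀ v, M.p v ≤ P := fun v => hP ⟨v, rfl⟩
  let tab : Fin m × Fin (P + 1) → Fin m × ℕ := fun x =>
    if h : ∃ w c, M.E (f.symm x.1) x.2 w c then (f h.choose, h.choose_spec.choose) else (x.1, 0)
  have htab : ∀ (v w : V) (r c : ℕ) (hr : r < P + 1), M.E v r w c →
      tab (f v, ⟨r, hr⟩) = (f w, c) := by
    intro v w r c hr hE
    have h : ∃ w c, M.E (f.symm (f v)) r w c := ⟨w, c, by rwa [Equiv.symm_apply_apply]⟩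
    have h1 : tab (f v, ⟨r, hr⟩) = (f h.choose, h.choose_spec.choose) := dif_pos h
    rw [h1]
    have h2 := h.choose_spec.choose_spec
    have h3 : M.E (f.symm (f v)) r w c := by rwa [Equiv.symm_apply_apply]
    obtain ⟨h4, h5⟩ := M.det h2 h3
    exact Prod.ext (congrArg f h4) h5
  let g : Fin m × ℕ → Fin m × Fin (P + 1) := fun x =>
    (x.1, ⟨(x.2 % M.p (f.symm x.1)) % (P + 1), Nat.mod_lt _ (Nat.succ_pos P)⟩)
  let F : Fin m × ℕ → Fin m × ℕ := fun x =>
    ((tab (g x)).1, M.q (f.symm (tab (g x)).1) * (x.2 / M.p (f.symm x.1)) + (tab (g x)).2)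
  have hp : Primrec (fun x : Fin m × ℕ => M.p (f.symm x.1)) :=
    (Primrec.dom_finite (fun i : Fin m => M.p (f.symm i))).comp Primrec.fst
  have hmod : Primrec (fun x : Fin m × ℕ => (x.2 % M.p (f.symm x.1)) % (P + 1)) :=
    Primrec.nat_mod.comp (Primrec.nat_mod.comp Primrec.snd hp) (Primrec.const (P + 1))
  have hg : Primrec g := Primrec.pair Primrec.fst (Primrec.fin_val_iff.1 hmod)
  have ht : Primrec (fun x => tab (g x)) := (Primrec.dom_finite tab).comp hg
  have hq : Primrec (fun x => M.q (f.symm (tab (g x)).1)) :=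
    (Primrec.dom_finite (fun i : Fin m => M.q (f.symm i))).comp (Primrec.fst.comp ht)
  have hF : Primrec F := Primrec.pair (Primrec.fst.comp ht)
    (Primrec.nat_add.comp (Primrec.nat_mul.comp hq (Primrec.nat_div.comp Primrec.snd hp))
      (Primrec.snd.comp ht))
  refine ⟨m, f, F, hF, ?_⟩
  rintro ⟨v, x⟩ ⟨w, y⟩ ⟨k, r, c, hE, h1, h2⟩ h0
  simp only at hE h1 h2 h0 ⊢
  have hr := (M.lt hE).1
  have hk : 0 ≤ k := by
    by_contra hneg
    have h3 : k ≤ -1 := by omega
    have h4 : (M.p v : ℤ) * k ≤ M.p v * (-1) := mul_le_mul_of_nonneg_left h3 (by positivity)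
    have h5 : (r : ℤ) < M.p v := by exact_mod_cast hr
    linarith
  obtain ⟨k, rfl⟩ := Int.eq_ofNat_of_zero_le hk
  have h3 : x.toNat = M.p v * k + r := by
    rw [h1]
    exact_mod_cast Int.toNat_natCast (M.p v * k + r)
  have h4 : y = ((M.q w * k + c : ℕ) : ℤ) := by
    rw [h2]
    push_cast
    ring
  refine ⟨by rw [h4]; positivity, ?_⟩
  have h5 : x.toNat % M.p v = r := by
    rw [h3, Nat.mul_add_mod, Nat.mod_eq_of_lt hr]
  have h6 : x.toNat / M.p v = k := by
    rw [h3, Nat.mul_add_div (M.hp v), Nat.div_eq_of_lt hr, add_zero]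
  have h7 : r < P + 1 := by have := hP' v; omega
  have h8 : g (f v, x.toNat) = (f v, ⟨r, h7⟩) := by
    have e1 : f.symm (f v) = v := f.symm_apply_apply v
    refine Prod.ext rfl (Fin.ext ?_)
    show (x.toNat % M.p (f.symm (f v))) % (P + 1) = r
    rw [e1, h5, Nat.mod_eq_of_lt h7]
  have h9 : tab (g (f v, x.toNat)) = (f w, c) := by
    rw [h8]
    exact htab v w r c h7 hE
  show ((tab (g (f v, x.toNat))).1, M.q (f.symm (tab (g (f v, x.toNat))).1) *
    (x.toNat / M.p (f.symm (f v))) + (tab (g (f v, x.toNat))).2) = (f w, y.toNat)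
  rw [h9]
  simp only [Equiv.symm_apply_apply]
  rw [h6, h4, Int.toNat_natCast]

omit [Finite V] in
theorem undec_run {m : ℕ} {f : V ≃ Fin m} {F : Fin m × ℕ → Fin m × ℕ}
    (hF : ∀ b c, M.Step b c → 0 ≤ b.2 → 0 ≤ c.2 ∧ F (f b.1, b.2.toNat) = (f c.1, c.2.toNat))
    {k : ℕ} {b c : V × ℤ} (hr : M.Run k b c) :
    0 ≤ b.2 → 0 ≤ c.2 ∧ F^[k] (f b.1, b.2.toNat) = (f c.1, c.2.toNat) := by
  induction hr with
  | refl a => exact fun h => ⟨h, rfl⟩
  | @step n a b c hs _ ih =>
    intro h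
    obtain ⟨h1, h2⟩ := hF a b hs h
    obtain ⟨h3, h4⟩ := ih h1
    refine ⟨h3, ?_⟩
    rw [Function.iterate_succ_apply, h2, h4]

/-- growth of the coordinate -/
theorem undec_growth : ∃ Q : ℕ, 1 ≤ Q ∧ ∀ k b c, M.Run k b c → 0 ≤ b.2 →
    c.2 + 1 ≤ (Q : ℤ) ^ k * (b.2 + 1) := by
  obtain ⟨Q, hQ⟩ := (Set.finite_range M.q).bddAbove
  have hQ' : ∀ v, M.q v ≤ Q + 1 := fun v => (hQ ⟨v, rfl⟩).trans (Nat.le_succ Q)
  refine ⟨Q + 1, by omega, fun k b c hr => ?_⟩
  induction hr with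
  | refl a => intro _; simp
  | @step n a b c hs _ ih =>
    intro h0
    obtain ⟨l, r, d, hE, h1, h2⟩ := hs
    have hlt := M.lt hE
    have hp : (1 : ℤ) ≤ M.p a.1 := by exact_mod_cast M.hp a.1
    have hr' : (r : ℤ) < M.p a.1 := by exact_mod_cast hlt.1
    have hd' : (d : ℤ) + 1 ≤ M.q b.1 := by exact_mod_cast hlt.2
    have hq' : (M.q b.1 : ℤ) ≤ ((Q + 1 : ℕ) : ℤ) := by exact_mod_cast hQ' b.1
    have hr0 : (0 : ℤ) ≤ r := by positivity
    have hd0 : (0 : ℤ) ≤ d := by positivity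
    have hl : 0 ≤ l := by
      by_contra hneg
      have h3 : l ≤ -1 := by omega
      have h4 : (M.p a.1 : ℤ) * l ≤ M.p a.1 * (-1) := mul_le_mul_of_nonneg_left h3 (by positivity)
      linarith
    have hla : l ≤ a.2 := by nlinarith
    have hb0 : 0 ≤ b.2 := by
      rw [h2]
      positivity
    have hb : b.2 + 1 ≤ ((Q + 1 : ℕ) : ℤ) * (a.2 + 1) := by
      calc b.2 + 1 ≤ M.q b.1 * (l + 1) := by rw [h2]; linarith
        _ ≤ ((Q + 1 : ℕ) : ℤ) * (l + 1) := mul_le_mul_of_nonneg_right hq' (by linarith)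
        _ ≤ ((Q + 1 : ℕ) : ℤ) * (a.2 + 1) := mul_le_mul_of_nonneg_left (by linarith) (by positivity)
    calc c.2 + 1 ≤ ((Q + 1 : ℕ) : ℤ) ^ n * (b.2 + 1) := ih hb0
      _ ≤ ((Q + 1 : ℕ) : ℤ) ^ n * (((Q + 1 : ℕ) : ℤ) * (a.2 + 1)) :=
          mul_le_mul_of_nonneg_left hb (by positivity)
      _ = ((Q + 1 : ℕ) : ℤ) ^ (n + 1) * (a.2 + 1) := by ring

variable {M}

theorem undec_pow (b : ℕ) : Primrec (fun n : ℕ => b ^ n) := by
  have h : Primrec (fun n : ℕ => (fun x : ℕ => x * b)^[n] 1) :=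
    Primrec.nat_iterate Primrec.id (Primrec.const 1)
      ((Primrec.nat_mul.comp Primrec.snd (Primrec.const b)).to₂)
  refine h.of_eq fun n => ?_
  induction n with
  | zero => rfl
  | succ n ih => rw [Function.iterate_succ_apply', ih, pow_succ]

/-- sums of computable functions -/
theorem undec_sum {f : ℕ → ℕ} (hf : Computable f) :
    Computable (fun n => ∑ i ∈ Finset.range n, f i) := by
  have h : Computable (fun n : ℕ => Nat.rec (motive := fun _ => ℕ) 0
      (fun i acc => acc + f i) n) := by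
    refine Computable.nat_rec (f := fun n : ℕ => n) (g := fun _ => 0)
      (h := fun _ p => p.2 + f p.1) Computable.id (Computable.const 0) ?_
    exact (Primrec.nat_add.to_comp).comp (Computable.snd.comp Computable.snd)
      (hf.comp (Computable.fst.comp Computable.snd))
  refine h.of_eq fun n => ?_
  induction n with
  | zero => simp
  | succ n ih => rw [Finset.sum_range_succ, ← ih]

/-- total minimisation -/
theorem undec_find {q : ℕ → ℕ → Bool} (hq : Computable₂ q) (h : ∀ n, ∃ k, q n k = true) :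
    Computable (fun n => Nat.find (h n)) := by
  have h1 : Partrec (fun n => Nat.rfind (fun k => (q n k : Part Bool))) :=
    Partrec.rfind hq.partrec₂
  refine h1.of_eq fun n => Part.eq_some_iff.2 (Nat.mem_rfind.2 ⟨?_, fun {m} hm => ?_⟩)
  · show true ∈ Part.some (q n (Nat.find (h n)))
    rw [Part.mem_some_iff]
    exact (Nat.find_spec (h n)).symm
  · show false ∈ Part.some (q n m)
    rw [Part.mem_some_iff]
    exact (Bool.eq_false_iff.2 (Nat.find_min (h n) hm)).symm

theorem undec (he : e v0 = 0)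
    (hEA : EAok M EA)
    (hact : ∀ lam : V → ℤ, ∃ T S A : Equiv.Perm (V × ℤ × ℤ), ActS M EA e v0 lam T S A)
    {u j mS : V} {Dm : ℕ → Prop} {nu lo Y : ℕ → ℕ} (hm : Mach M v0 u j mS Dm nu lo Y)
    {G : Type} [Group G] (t s z a : G) (hrel : Rel t s z a)
    (univ : ∀ (K : Type) [Group K] (T S Z A : K), Rel T S Z A →
      ∃ ρ : G →* K, ρ t = T ∧ ρ s = S ∧ ρ z = Z ∧ ρ a = A)
    (hdom : ∀ g : ℕ → ℕ, Computable g →
      ∃ C : ℕ, ∀ m, ∃ N, Dm N ∧ nu N ≤ C * (m + 1) ∧ g m ≤ N) :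
    ¬ ComputablePred (fun n : ℕ => (pt M t s a e j (3 ^ n))⁻¹ * z * pt M t s a e j (3 ^ n) ∈
      Subgroup.closure (insert (t⁻¹ * z * t) (gens M EA t s a e))) := by
  intro hcomp
  obtain ⟨x, hx⟩ : ∃ x : ℕ → Prop, x = fun n => (pt M t s a e j (3 ^ n))⁻¹ * z *
      pt M t s a e j (3 ^ n) ∈ Subgroup.closure (insert (t⁻¹ * z * t) (gens M EA t s a e)) :=
    ⟨_, rfl⟩
  have hiff : ∀ n, x n ↔ ∃ k : ℕ, M.Run k (v0, 1) (j, 3 ^ n) := by
    intro n
    rw [hx]
    exact undec_iff he hEA hact hm t s z a hrel univ n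
  rw [← hx] at hcomp
  clear hx
  obtain ⟨D, hD⟩ := hcomp
  obtain ⟨m, f, F, hF, hstep⟩ := undec_step M
  obtain ⟨Q, hQ, hgrow⟩ := undec_growth M
  obtain ⟨T, S, A, hA⟩ := hact (fun _ => 0)
  -- visits
  have hvis : ∀ k n : ℕ, M.Run k (v0, 1) (j, 3 ^ n) ↔ F^[k] (f v0, 1) = (f j, 3 ^ n) := by
    intro k n
    constructor
    · intro hr
      have h1 := (undec_run M hstep hr (by norm_num)).2
      have h2 : ((3 : ℤ) ^ n).toNat = 3 ^ n := by
        have : ((3 : ℤ) ^ n) = ((3 ^ n : ℕ) : ℤ) := by push_cast; rfl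
        rw [this, Int.toNat_natCast]
      simpa [h2] using h1
    · intro hk
      obtain ⟨b, N, hb, -, hall⟩ := hm.ctl k
      obtain ⟨b', hb', hpos, -⟩ := hall k le_rfl
      obtain rfl := Low_run_unique hb hb'
      have h1 := (undec_run M hstep hb (by norm_num)).2
      have h2 : (f b.1, b.2.toNat) = (f j, 3 ^ n) := by
        rw [← h1, ← hk]
        rfl
      simp only [Prod.mk.injEq] at h2
      have h3 : b.1 = j := f.injective h2.1
      have h4 : b.2 = 3 ^ n := by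
        have h5 : ((b.2.toNat : ℕ) : ℤ) = b.2 := Int.toNat_of_nonneg (by linarith)
        rw [← h5, h2.2]
        push_cast
        rfl
      have h5 : b = (j, 3 ^ n) := Prod.ext h3 h4
      rwa [h5] at hb
  -- the hitting time
  let q : ℕ → ℕ → Bool := fun n k => !(decide (x n)) || decide (F^[k] (f v0, 1) = (f j, 3 ^ n))
  have hq : Computable₂ q := by
    have h1 : Computable (fun p : ℕ × ℕ => decide (x p.1)) := hD.comp Computable.fst
    have h2 : Primrec (fun p : ℕ × ℕ => F^[p.2] (f v0, 1)) :=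
      Primrec.nat_iterate Primrec.snd (Primrec.const _) (hF.comp Primrec.snd).to₂
    have h3 : Primrec (fun p : ℕ × ℕ => ((f j, 3 ^ p.1) : Fin m × ℕ)) :=
      Primrec.pair (Primrec.const _) ((undec_pow 3).comp Primrec.fst)
    have h4 : Primrec (fun p : ℕ × ℕ => decide (F^[p.2] (f v0, 1) = (f j, 3 ^ p.1))) :=
      (Primrec.eq.comp h2 h3).decide
    exact (Primrec.or.to_comp.comp (Primrec.not.to_comp.comp h1) h4.to_comp).to₂
  have hex : ∀ n, ∃ k, q n k = true := by
    intro n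
    by_cases hn : x n
    · obtain ⟨k, hk⟩ := (hiff n).1 hn
      refine ⟨k, ?_⟩
      have := (hvis k n).1 hk
      simp [q, this]
    · exact ⟨0, by simp [q, hn]⟩
  have hK := undec_find hq hex
  set K : ℕ → ℕ := fun n => Nat.find (hex n) with hKdef
  have hKspec : ∀ n k, M.Run k (v0, 1) (j, 3 ^ n) → K n = k := by
    intro n k hk
    have hxn : x n := (hiff n).2 ⟨k, hk⟩
    have h1 : q n (K n) = true := Nat.find_spec (hex n)
    have h2 : F^[K n] (f v0, 1) = (f j, 3 ^ n) := by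
      simpa [q, hxn] using h1
    exact undec_time hA hm.p0 hm.q0 hm.e0 ((hvis _ n).2 h2) hk
  -- the contradiction
  let g : ℕ → ℕ := fun m => Q * (∑ i ∈ Finset.range ((m + 1) * (m + 1) + 1), K i) + 2
  have hg : Computable g := by
    have e1 : Computable (fun m : ℕ => (m + 1) * (m + 1) + 1) :=
      (Primrec.succ.comp (Primrec.nat_mul.comp Primrec.succ Primrec.succ)).to_comp
    exact Primrec.nat_add.to_comp.comp (Primrec.nat_mul.to_comp.comp (Computable.const Q)
      ((undec_sum hK).comp e1)) (Computable.const 2)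
  obtain ⟨C, hC⟩ := hdom g hg
  obtain ⟨N, hN, hnu, hgN⟩ := hC C
  obtain ⟨i₁, i₂, hr1, hr2⟩ := hm.hit N hN
  have h1 : K (nu N) = i₁ + i₂ := hKspec _ _ (Low_run_trans hr1 hr2)
  have h2 : nu N ∈ Finset.range ((C + 1) * (C + 1) + 1) := by
    rw [Finset.mem_range]
    nlinarith
  have h3 : K (nu N) ≤ ∑ i ∈ Finset.range ((C + 1) * (C + 1) + 1), K i :=
    Finset.single_le_sum (f := K) (fun _ _ => Nat.zero_le _) h2
  have h4 : (2 : ℤ) ^ N + 1 ≤ (Q : ℤ) ^ i₁ * 2 := by
    have := hgrow i₁ _ _ hr1 (by norm_num)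
    norm_num at this
    linarith
  have h5 : 2 ^ N ≤ 2 ^ (Q * i₁ + 1) := by
    have h6 : 2 ^ N + 1 ≤ Q ^ i₁ * 2 := by exact_mod_cast h4
    have h7 : Q ^ i₁ ≤ 2 ^ (Q * i₁) := by
      rw [pow_mul]
      exact Nat.pow_le_pow_left Nat.lt_two_pow_self.le _
    rw [pow_succ]
    linarith
  have h6 : N ≤ Q * i₁ + 1 := (Nat.pow_le_pow_iff_right (by norm_num)).1 h5
  have h7 : Q * i₁ ≤ Q * ∑ i ∈ Finset.range ((C + 1) * (C + 1) + 1), K i :=
    Nat.mul_le_mul_left _ (by omega)
  have h8 : Q * (∑ i ∈ Finset.range ((C + 1) * (C + 1) + 1), K i) + 2 ≤ N := hgN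
  omega

/-! ## words -/

theorem undec_ev_rep {G : Type} [Group G] {α : Type} (ev : List α → G)
    (hev : ∀ u v, ev (u ++ v) = ev u * ev v) (l : α) (k : ℕ) :
    ev ((List.range k).map (fun _ => l)) = ev [l] ^ k := by
  have h0 : ev [] = 1 := by
    have := hev [] []
    rw [List.append_nil] at this
    exact left_eq_mul.1 this
  induction k with
  | zero => simpa using h0
  | succ k ih => rw [List.range_succ, List.map_append, hev, ih, pow_succ]; rfl

/-- Word form: there is no algorithm which decides whether a word represents an element of the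
subgroup. `ev` is any evaluation of words; `t1, t2, z1, a1, a2` are letters for
`t, t⁻¹, z, a, a⁻¹`. -/
theorem undec_word (he : e v0 = 0)
    (hEA : EAok M EA)
    (hact : ∀ lam : V → ℤ, ∃ T S A : Equiv.Perm (V × ℤ × ℤ), ActS M EA e v0 lam T S A)
    {u j mS : V} {Dm : ℕ → Prop} {nu lo Y : ℕ → ℕ} (hm : Mach M v0 u j mS Dm nu lo Y)
    {G : Type} [Group G] (t s z a : G) (hrel : Rel t s z a)
    (univ : ∀ (K : Type) [Group K] (T S Z A : K), Rel T S Z A →
      ∃ ρ : G →* K, ρ t = T ∧ ρ s = S ∧ ρ z = Z ∧ ρ a = A)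
    (hdom : ∀ g : ℕ → ℕ, Computable g →
      ∃ C : ℕ, ∀ m, ∃ N, Dm N ∧ nu N ≤ C * (m + 1) ∧ g m ≤ N)
    {α : Type} [Primcodable α] (ev : List α → G) (hev : ∀ u v, ev (u ++ v) = ev u * ev v)
    {t1 t2 z1 a1 a2 : α} (ht1 : ev [t1] = t) (ht2 : ev [t2] = t⁻¹) (hz1 : ev [z1] = z)
    (ha1 : ev [a1] = a) (ha2 : ev [a2] = a⁻¹) :
    ¬ ComputablePred (fun w : List α => ev w ∈
      Subgroup.closure (insert (t⁻¹ * z * t) (gens M EA t s a e))) := by
  rintro ⟨D, hD⟩
  refine undec he hEA hact hm t s z a hrel univ hdom ?_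
  let wd : ℕ → List α := fun n =>
    (List.range (e j)).map (fun _ => a2) ++ ((List.range (3 ^ n)).map (fun _ => t2) ++ ([z1] ++
      ((List.range (3 ^ n)).map (fun _ => t1) ++ (List.range (e j)).map (fun _ => a1))))
  have hwd : Primrec wd := by
    have h1 : ∀ l : α, Primrec (fun n : ℕ => (List.range (3 ^ n)).map (fun _ => l)) := fun l =>
      Primrec.list_map (Primrec.list_range.comp (undec_pow 3)) (Primrec.const l).to₂
    exact Primrec.list_append.comp (Primrec.const _) (Primrec.list_append.comp (h1 t2)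
      (Primrec.list_append.comp (Primrec.const _) (Primrec.list_append.comp (h1 t1)
        (Primrec.const _))))
  have hval : ∀ n, ev (wd n) = (pt M t s a e j (3 ^ n))⁻¹ * z * pt M t s a e j (3 ^ n) := by
    intro n
    have h1 : pt M t s a e j (3 ^ n) = t ^ (3 ^ n : ℕ) * a ^ (e j) := by
      unfold pt tau
      rw [if_pos hm.qj]
      congr 1
      rw [← zpow_natCast]
      push_cast
      rfl
    rw [h1]
    simp only [wd]
    rw [hev, hev, hev, hev, undec_ev_rep ev hev, undec_ev_rep ev hev, undec_ev_rep ev hev,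
      undec_ev_rep ev hev, ht1, ht2, hz1, ha1, ha2]
    group
  have hfun : (fun n : ℕ => (pt M t s a e j (3 ^ n))⁻¹ * z * pt M t s a e j (3 ^ n) ∈
      Subgroup.closure (insert (t⁻¹ * z * t) (gens M EA t s a e))) = fun n : ℕ => ev (wd n) ∈
      Subgroup.closure (insert (t⁻¹ * z * t) (gens M EA t s a e)) := by
    funext n
    rw [hval n]
  rw [hfun]
  exact ⟨fun n => D (wd n), hD.comp hwd.to_comp⟩

/-- the elements represented by the letters; `none` = the stable letter, `some i` = the generator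
`i` of the free group, `false` = inverse -/
def evL (x : Option (Fin 4) × Bool) : GG :=
  match x with
  | (none, b) => cond b gt gt⁻¹
  | (some i, b) => cond b (gi (FreeGroup.of i)) (gi (FreeGroup.of i))⁻¹

/-- the element represented by a word -/
def evG (w : List (Option (Fin 4) × Bool)) : GG := (w.map evL).prod

theorem evG_append (u v : List (Option (Fin 4) × Bool)) : evG (u ++ v) = evG u * evG v := by
  unfold evG
  rw [List.map_append, List.prod_append]

theorem evG_single (x : Option (Fin 4) × Bool) : evG [x] = evL x := by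
  simp [evG]

end Pool.Agent.FBC
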