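import Pool.Agent.FBC.Final
import Pool.Agent.FBC.Undec

/-!
# FBC: distortion above all computable functions and undecidable membership, for one subgroup
-/

namespace Pool.Agent.FBC

open Pool.Agent.helper12.FD

theorem groupA2 {G : Type} [Group G] {t s z a : G} (hrel : Rel t s z a)
    (univ : ∀ (K : Type) [Group K] (T S Z A : K), Rel T S Z A →
      ∃ ρ : G →* K, ρ t = T ∧ ρ s = S ∧ ρ z = Z ∧ ρ a = A)
    {α : Type} [Primcodable α] (ev : List α → G) (hev : ∀ u v, ev (u ++ v) = ev u * ev v)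
    {t1 t2 z1 a1 a2 : α} (ht1 : ev [t1] = t) (ht2 : ev [t2] = t⁻¹) (hz1 : ev [z1] = z)
    (ha1 : ev [a1] = a) (ha2 : ev [a2] = a⁻¹) :
    ∃ H : Subgroup G, H.FG ∧ (∀ S T : Set G, S.Finite → Subgroup.closure S = ⊤ → T.Finite →
      Subgroup.closure T = H → ∀ f : ℕ → ℕ, Computable f →
        (∃ n0 : ℕ, ∀ n, n0 ≤ n → f n < dist S T H n) ∧ ¬ Dom (dist S T H) f) ∧
      ¬ ComputablePred (fun w : List α => ev w ∈ H) := by
  obtain ⟨V, hV, M, v0, u, j, mS, Dm, nu, lo, Y, htot, hm, hdom⟩ := machA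
  obtain ⟨e, EA, he, hEA, hact⟩ := act M htot v0
  obtain ⟨C₀, hlow⟩ := low he hEA hact hm t s z a hrel univ
  have hfin : (insert (t⁻¹ * z * t) (gens M EA t s a e)).Finite :=
    (gens_finite M EA t s a e hEA).insert _
  refine ⟨Subgroup.closure (insert (t⁻¹ * z * t) (gens M EA t s a e)),
    (Subgroup.fg_iff _).2 ⟨_, rfl, hfin⟩, fun S T hS hS' hT hT' => ?_,
    undec_word he hEA hact hm t s z a hrel univ hdom ev hev ht1 ht2 hz1 ha1 ha2⟩
  obtain ⟨C, hC⟩ := dist_lower hS hS' hT hT' (S₀ := {t, s, z, a}) (by simp) rfl C₀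
  have hmono : Monotone (dist S T (Subgroup.closure (insert (t⁻¹ * z * t) (gens M EA t s a e)))) :=
    fun m n hmn => Dist_mono hS hS' hmn
  have key : ∀ f : ℕ → ℕ, Computable f → ∃ n0 : ℕ, ∀ n, n0 ≤ n → f n <
      dist S T (Subgroup.closure (insert (t⁻¹ * z * t) (gens M EA t s a e))) n := by
    refine rado hmono fun g hg => ?_
    obtain ⟨C', hC'⟩ := hdom g hg
    refine ⟨C * (C₀ * C' + C₀) + C, fun m => ?_⟩
    obtain ⟨N, h1, h2, h3⟩ := hC' m
    obtain ⟨x, hx, hx1, hx2⟩ := hlow N h1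
    have h4 := hC x _ _ hx hx1 hx2
    have h5 : C * (C₀ * nu N + C₀) ≤ (C * (C₀ * C' + C₀) + C) * m + (C * (C₀ * C' + C₀) + C) := by
      have : C₀ * nu N ≤ C₀ * (C' * (m + 1)) := Nat.mul_le_mul_left _ h2
      calc C * (C₀ * nu N + C₀) ≤ C * (C₀ * (C' * (m + 1)) + C₀) :=
            Nat.mul_le_mul_left _ (by omega)
        _ ≤ _ := by
          have e1 : C * (C₀ * (C' * (m + 1)) + C₀) = C * (C₀ * C') * m + C * (C₀ * C' + C₀) := by
            ring
          rw [e1]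
          have e2 : C * (C₀ * C') * m ≤ (C * (C₀ * C' + C₀) + C) * m :=
            Nat.mul_le_mul_right _ (by nlinarith [Nat.zero_le (C * C₀)])
          omega
    have h6 := hmono h5
    have h7 : N ≤ 2 ^ N := Nat.lt_two_pow_self.le
    calc g m ≤ N := h3
      _ ≤ 2 ^ N := h7
      _ ≤ C * _ + C := h4
      _ ≤ _ := Nat.add_le_add (Nat.mul_le_mul (by omega) h6) (by omega)
  exact fun f hf => ⟨key f hf, not_dom key f hf⟩

/-- the group `F_4 ⋊ ℤ` -/
theorem groupA_gg :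
    ∃ H : Subgroup GG, H.FG ∧ (∀ S T : Set GG, S.Finite → Subgroup.closure S = ⊤ → T.Finite →
      Subgroup.closure T = H → ∀ f : ℕ → ℕ, Computable f →
        (∃ n0 : ℕ, ∀ n, n0 ≤ n → f n < dist S T H n) ∧ ¬ Dom (dist S T H) f) ∧
      ¬ ComputablePred (fun w : List (Option (Fin 4) × Bool) => evG w ∈ H) :=
  groupA2 rel_gg lift_gg evG evG_append (t1 := (none, true)) (t2 := (none, false))
    (z1 := (some 2, true)) (a1 := (some 3, true)) (a2 := (some 3, false))
    (evG_single _) (evG_single _) (evG_single _) (evG_single _) (evG_single _)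

end Pool.Agent.FBC
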