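import Pool.Agent.FBC.Defs1

/-!
# FBC module Lamp: the lower bound argument

`lampRep`: for a group `K` with `Rel`-elements `T, S, A` (and `Z = 1`) the permutations of
`(K → ℤ) × K`: `x ∈ {T, S, A}` acts by `(f, κ) ↦ (f, x * κ)`, the lamp by
`(f, κ) ↦ (f + ind κ, κ)`, `ind κ g = 1` if `κ * g ∈ zpowers S`, `0` otherwise.
-/

namespace Pool.Agent.FBC

open Classical in
/-- indicator of the coset `κ⁻¹ ⟨S⟩` -/
noncomputable def ind {K : Type*} [Group K] (S κ : K) : K → ℤ :=
  fun g => if κ * g ∈ Subgroup.zpowers S then 1 else 0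

/-- left multiplication on the second component -/
def lmul {K : Type} [Group K] (x : K) : Equiv.Perm ((K → ℤ) × K) where
  toFun p := (p.1, x * p.2)
  invFun p := (p.1, x⁻¹ * p.2)
  left_inv p := by simp
  right_inv p := by simp

/-- the lamp -/
noncomputable def lampP {K : Type} [Group K] (S : K) : Equiv.Perm ((K → ℤ) × K) where
  toFun p := (p.1 + ind S p.2, p.2)
  invFun p := (p.1 - ind S p.2, p.2)
  left_inv p := by simp
  right_inv p := by simp

theorem lmul_mul {K : Type} [Group K] (x y : K) : lmul (x * y) = lmul x * lmul y := by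
  ext p
  · rfl
  · show x * y * p.2 = x * (y * p.2)
    rw [mul_assoc]

theorem lmul_one {K : Type} [Group K] : lmul (1 : K) = 1 := by
  ext p
  · rfl
  · show 1 * p.2 = p.2
    rw [one_mul]

/-- left multiplication as a homomorphism -/
def lmulHom (K : Type) [Group K] : K →* Equiv.Perm ((K → ℤ) × K) where
  toFun := lmul
  map_one' := lmul_one
  map_mul' := lmul_mul

theorem ind_mul {K : Type} [Group K] (S κ : K) : ind S (S * κ) = ind S κ := by
  funext g
  unfold ind
  have : S * κ * g ∈ Subgroup.zpowers S ↔ κ * g ∈ Subgroup.zpowers S := by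
    rw [mul_assoc]
    exact Subgroup.mul_mem_cancel_left _ (Subgroup.mem_zpowers S)
  simp only [this]

theorem lampRep {K : Type} [Group K] (T S A : K) (h : Rel T S 1 A) :
    ∃ T' S' Z' A' : Equiv.Perm ((K → ℤ) × K), Rel T' S' Z' A' ∧
      (∀ f κ, T' (f, κ) = (f, T * κ)) ∧ (∀ f κ, S' (f, κ) = (f, S * κ)) ∧
      (∀ f κ, A' (f, κ) = (f, A * κ)) ∧ (∀ f κ, Z' (f, κ) = (f + ind S κ, κ)) := by
  refine ⟨lmulHom K T, lmulHom K S, lampP S, lmulHom K A, ⟨?_, ?_, ?_⟩, fun _ _ => rfl,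
    fun _ _ => rfl, fun _ _ => rfl, fun _ _ => rfl⟩
  · have := h.tt.map (lmulHom K)
    simpa using this
  · show lampP S * lmul S = lmul S * lampP S
    ext p
    · show (p.1 + ind S (S * p.2)) _ = (p.1 + ind S p.2) _
      rw [ind_mul]
    · rfl
  · exact h.at'.map (lmulHom K)

theorem lamp_bound {G K : Type} [Group G] [Group K] (π : G →* K) (s z τ v : G) (X : Set G)
    (ρ : G →* Equiv.Perm ((K → ℤ) × K))
    (hX : ∀ x ∈ X, ∀ f κ, ρ x (f, κ) = (f, π x * κ))
    (hτ : ∀ f κ, ρ τ (f, κ) = (f, π τ * κ)) (hv : ∀ f κ, ρ v (f, κ) = (f, π v * κ))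
    (hz : ∀ f κ, ρ z (f, κ) = (f + ind (π s) κ, κ))
    (w : List G)
    (hw : ∀ x ∈ w, x ∈ insert (τ⁻¹ * z * τ) X ∨ x⁻¹ ∈ insert (τ⁻¹ * z * τ) X)
    (hprod : w.prod = v⁻¹ * z * v) :
    ∃ l : List G, l.length ≤ w.length ∧ (∀ x ∈ l, x ∈ X ∨ x⁻¹ ∈ X) ∧
      ∃ i : ℤ, (π s) ^ i = π τ * π l.prod * (π v)⁻¹ := by
  -- action of the inverses
  have hinv : ∀ y : G, (∀ f κ, ρ y (f, κ) = (f, π y * κ)) →
      ∀ f κ, ρ y⁻¹ (f, κ) = (f, (π y)⁻¹ * κ) := by
    intro y hy f κ
    rw [map_inv, Equiv.Perm.inv_eq_iff_eq, hy]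
    simp
  have hzinv : ∀ f κ, ρ z⁻¹ (f, κ) = (f - ind (π s) κ, κ) := by
    intro f κ
    rw [map_inv, Equiv.Perm.inv_eq_iff_eq, hz]
    simp
  have hζ : ∀ f κ, ρ (τ⁻¹ * z * τ) (f, κ) = (f + ind (π s) (π τ * κ), κ) := by
    intro f κ
    rw [map_mul, map_mul, Equiv.Perm.mul_apply, Equiv.Perm.mul_apply, hτ, hz, hinv τ hτ]
    simp
  have hζinv : ∀ f κ, ρ (τ⁻¹ * z * τ)⁻¹ (f, κ) = (f - ind (π s) (π τ * κ), κ) := by
    intro f κ
    rw [map_inv, Equiv.Perm.inv_eq_iff_eq, hζ]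
    simp
  -- the main induction
  have main : ∀ w : List G,
      (∀ x ∈ w, x ∈ insert (τ⁻¹ * z * τ) X ∨ x⁻¹ ∈ insert (τ⁻¹ * z * τ) X) →
      ∃ (f : K → ℤ) (l : List G), l.length ≤ w.length ∧ (∀ x ∈ l, x ∈ X ∨ x⁻¹ ∈ X) ∧
        ρ w.prod (0, 1) = (f, π l.prod) ∧
        ∀ g, f g ≠ 0 → ∃ l' : List G, l'.length ≤ w.length ∧ (∀ x ∈ l', x ∈ X ∨ x⁻¹ ∈ X) ∧
          π τ * π l'.prod * g ∈ Subgroup.zpowers (π s) := by
    intro w
    induction w with
    | nil =>
      intro _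
      exact ⟨0, [], le_rfl, by simp, by simp, fun g hg => absurd rfl hg⟩
    | cons x w ih =>
      intro hw
      obtain ⟨f, l, h1, h2, h3, h4⟩ := ih (fun y hy => hw y (List.mem_cons_of_mem _ hy))
      have hx := hw x List.mem_cons_self
      have hlen : (x :: w).length = w.length + 1 := rfl
      have h4' : ∀ g, f g ≠ 0 → ∃ l' : List G, l'.length ≤ w.length + 1 ∧
          (∀ x ∈ l', x ∈ X ∨ x⁻¹ ∈ X) ∧ π τ * π l'.prod * g ∈ Subgroup.zpowers (π s) := by
        intro g hg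
        obtain ⟨l', a1, a2, a3⟩ := h4 g hg
        exact ⟨l', by omega, a2, a3⟩
      rw [List.prod_cons, map_mul, hlen]
      simp only [Equiv.Perm.mul_apply, h3]
      simp only [Set.mem_insert_iff] at hx
      -- lamp letters
      have hlamp : ∀ c : ℤ, ∀ F : K → ℤ, F = f + (fun g => c * ind (π s) (π τ * π l.prod) g) →
          ∀ g, F g ≠ 0 → ∃ l' : List G, l'.length ≤ w.length + 1 ∧
          (∀ x ∈ l', x ∈ X ∨ x⁻¹ ∈ X) ∧ π τ * π l'.prod * g ∈ Subgroup.zpowers (π s) := by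
        intro c F hF g hg
        by_cases hfg : f g = 0
        · refine ⟨l, by omega, h2, ?_⟩
          by_contra hcon
          apply hg
          rw [hF]
          show f g + c * ind (π s) (π τ * π l.prod) g = 0
          have : ind (π s) (π τ * π l.prod) g = 0 := by
            unfold ind
            rw [if_neg hcon]
          rw [hfg, this]
          ring
        · exact h4' g hfg
      rcases hx with (hx | hx) | (hx | hx)
      · subst hx
        refine ⟨_, l, by omega, h2, hζ _ _, hlamp 1 _ ?_⟩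
        funext g
        show f g + _ = f g + _
        ring
      · refine ⟨f, x :: l, by simpa using h1, ?_, ?_, h4'⟩
        · intro y hy
          rcases List.mem_cons.1 hy with rfl | hy
          · exact Or.inl hx
          · exact h2 y hy
        · rw [hX x hx, List.prod_cons, map_mul]
      · have hx' : x = (τ⁻¹ * z * τ)⁻¹ := by rw [← hx, inv_inv]
        subst hx'
        refine ⟨_, l, by omega, h2, hζinv _ _, hlamp (-1) _ ?_⟩
        funext g
        show f g - _ = f g + _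
        ring
      · refine ⟨f, x :: l, by simpa using h1, ?_, ?_, h4'⟩
        · intro y hy
          rcases List.mem_cons.1 hy with rfl | hy
          · exact Or.inr hx
          · exact h2 y hy
        · have := hinv x⁻¹ (hX x⁻¹ hx) f (π l.prod)
          rw [inv_inv, map_inv, inv_inv] at this
          rw [this, List.prod_cons, map_mul]
  obtain ⟨f, l, h1, h2, h3, h4⟩ := main w hw
  have h5 : ρ (v⁻¹ * z * v) (0, 1) = (0 + ind (π s) (π v * 1), 1) := by
    rw [map_mul, map_mul, Equiv.Perm.mul_apply, Equiv.Perm.mul_apply, hv, hz, hinv v hv]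
    simp
  rw [hprod, h5] at h3
  have h6 : f = 0 + ind (π s) (π v * 1) := (congrArg Prod.fst h3).symm
  obtain ⟨l', b1, b2, b3⟩ := h4 (π v)⁻¹ (by
    rw [h6]
    show (0 : ℤ) + ind (π s) (π v * 1) (π v)⁻¹ ≠ 0
    unfold ind
    simp)
  obtain ⟨i, hi⟩ := Subgroup.mem_zpowers_iff.1 b3
  exact ⟨l', b1, b2, i, hi⟩

end Pool.Agent.FBC
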