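import Pool.Agent.FBC.Defs

/-!
# FBC module RevA: reversible programs, basic facts; the first clean programs
-/

namespace Pool.Agent.FBC

theorem mass_update {R i : ℕ} (hi : i < R) (x : ℕ → ℕ) (c : ℕ) :
    mass R (Function.update x i c) + x i = mass R x + c := by
  have hmem : i ∈ Finset.range R := Finset.mem_range.2 hi
  unfold mass
  rw [Finset.sum_update_of_mem hmem]
  have h := Finset.add_sum_erase (Finset.range R) x hmem
  rw [Finset.sdiff_singleton_eq_erase]
  omega

theorem mass_inc {R i : ℕ} (hi : i < R) (x : ℕ → ℕ) : mass R (inc i x) = mass R x + 1 := by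
  have h := mass_update hi x (x i + 1)
  unfold inc
  omega

theorem inv_inv (P : Prog) : P.inv.inv = P := by
  induction P with
  | skip => rfl
  | inc i => rfl
  | dec i => rfl
  | seq P Q hP hQ => simp only [Prog.inv, hP, hQ]
  | cond i j P Q hP hQ => simp only [Prog.inv, hP, hQ]
  | loop i j P hP => simp only [Prog.inv, hP]

theorem in_inv {U : Set ℕ} {P : Prog} (h : P.In U) : P.inv.In U := by
  induction P with
  | skip => trivial
  | inc i => exact h
  | dec i => exact h
  | seq P Q hP hQ => exact ⟨hQ h.2, hP h.1⟩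
  | cond i j P Q hP hQ => exact ⟨h.2.1, h.1, hP h.2.2.1, hQ h.2.2.2⟩
  | loop i j P hP => exact ⟨h.2.1, h.1, hP h.2.2⟩

theorem in_mono {U U' : Set ℕ} (hU : U ⊆ U') {P : Prog} (h : P.In U) : P.In U' := by
  induction P with
  | skip => trivial
  | inc i => exact hU h
  | dec i => exact hU h
  | seq P Q hP hQ => exact ⟨hP h.1, hQ h.2⟩
  | cond i j P Q hP hQ => exact ⟨hU h.1, hU h.2.1, hP h.2.2.1, hQ h.2.2.2⟩
  | loop i j P hP => exact ⟨hU h.1, hU h.2.1, hP h.2.2⟩

theorem big_left {I : (ℕ → ℕ) → Prop} {P : Prog} {x y : ℕ → ℕ} (h : Big I P x y) : I x := by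
  induction P generalizing x y with
  | skip => exact h.2
  | inc i => exact h.2.1
  | dec i => exact h.2.1
  | seq P Q hP hQ => obtain ⟨z, h1, _⟩ := h; exact hP h1
  | cond i j P Q hP hQ => exact h.1
  | loop i j P hP => exact h.1

theorem big_right {I : (ℕ → ℕ) → Prop} {P : Prog} {x y : ℕ → ℕ} (h : Big I P x y) : I y := by
  induction P generalizing x y with
  | skip => exact h.1 ▸ h.2
  | inc i => exact h.2.2
  | dec i => exact h.2.2
  | seq P Q hP hQ => obtain ⟨z, _, h2⟩ := h; exact hQ h2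
  | cond i j P Q hP hQ => exact h.2.1
  | loop i j P hP => exact h.2.1

theorem rtg_swap {α : Type*} {r p : α → α → Prop} (h : ∀ u v, r u v → p v u) {x y : α}
    (H : Relation.ReflTransGen r x y) : Relation.ReflTransGen p y x := by
  induction H with
  | refl => exact Relation.ReflTransGen.refl
  | tail _ h1 ih => exact Relation.ReflTransGen.head (h _ _ h1) ih

theorem rtg_mono {α : Type*} {r p : α → α → Prop} (h : ∀ u v, r u v → p u v) {x y : α}
    (H : Relation.ReflTransGen r x y) : Relation.ReflTransGen p x y :=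
  Relation.ReflTransGen.mono h x y H

theorem big_inv_aux {I : (ℕ → ℕ) → Prop} {P : Prog} {x y : ℕ → ℕ} (h : Big I P x y) :
    Big I P.inv y x := by
  induction P generalizing x y with
  | skip => exact ⟨h.1.symm, h.1 ▸ h.2⟩
  | inc i => exact ⟨h.1, h.2.2, h.2.1⟩
  | dec i => exact ⟨h.1, h.2.2, h.2.1⟩
  | seq P Q hP hQ => obtain ⟨z, h1, h2⟩ := h; exact ⟨z, hQ h2, hP h1⟩
  | cond i j P Q hP hQ =>
    refine ⟨h.2.1, h.1, ?_⟩
    rcases h.2.2 with ⟨h1, h2, h3⟩ | ⟨x', y', h1, h2, h3⟩
    · exact Or.inl ⟨h3, hP h2, h1⟩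
    · exact Or.inr ⟨y', x', h3, hQ h2, h1⟩
  | loop i j P hP =>
    obtain ⟨h1, h2, h3, h4, h5⟩ := h
    refine ⟨h2, h1, h4, h3, rtg_swap ?_ h5⟩
    rintro u v ⟨h6, h7, u', v', h8, h9, h10⟩
    exact ⟨h7, h6, v', u', h10, hP h9, h8⟩

theorem big_inv {I : (ℕ → ℕ) → Prop} {P : Prog} {x y : ℕ → ℕ} :
    Big I P.inv y x ↔ Big I P x y := by
  refine ⟨fun h => ?_, big_inv_aux⟩
  have h' := big_inv_aux h
  rwa [inv_inv] at h'

theorem big_mono {I I' : (ℕ → ℕ) → Prop} (hI : ∀ u, I u → I' u) {P : Prog} {x y : ℕ → ℕ}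
    (h : Big I P x y) : Big I' P x y := by
  induction P generalizing x y with
  | skip => exact ⟨h.1, hI _ h.2⟩
  | inc i => exact ⟨h.1, hI _ h.2.1, hI _ h.2.2⟩
  | dec i => exact ⟨h.1, hI _ h.2.1, hI _ h.2.2⟩
  | seq P Q hP hQ => obtain ⟨z, h1, h2⟩ := h; exact ⟨z, hP h1, hQ h2⟩
  | cond i j P Q hP hQ =>
    refine ⟨hI _ h.1, hI _ h.2.1, ?_⟩
    rcases h.2.2 with ⟨h1, h2, h3⟩ | ⟨x', y', h1, h2, h3⟩
    · exact Or.inl ⟨h1, hP h2, h3⟩
    · exact Or.inr ⟨x', y', h1, hQ h2, h3⟩
  | loop i j P hP =>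
    obtain ⟨h1, h2, h3, h4, h5⟩ := h
    refine ⟨hI _ h1, hI _ h2, h3, h4, rtg_mono ?_ h5⟩
    rintro u v ⟨h6, h7, u', v', h8, h9, h10⟩
    exact ⟨hI _ h6, hI _ h7, u', v', h8, hP h9, h10⟩

theorem big_frame_aux {I : (ℕ → ℕ) → Prop} {U : Set ℕ} {P : Prog} (hP : P.In U)
    (x₀ : ℕ → ℕ) {x y : ℕ → ℕ} (h : Big I P x y) (hx : ∀ r ∉ U, x r = x₀ r) :
    Big (fun u => I u ∧ ∀ r ∉ U, u r = x₀ r) P x y := by
  have key : ∀ {i : ℕ} {u v : ℕ → ℕ}, i ∈ U → u = FBC.inc i v →
      ((∀ r ∉ U, u r = x₀ r) ↔ ∀ r ∉ U, v r = x₀ r) := by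
    intro i u v hi huv
    refine forall_congr' fun r => forall_congr' fun hr => ?_
    have hri : r ≠ i := fun h => hr (h ▸ hi)
    rw [huv, FBC.inc, Function.update_of_ne hri]
  induction P generalizing x y with
  | skip => exact ⟨h.1, h.2, hx⟩
  | inc i => exact ⟨h.1, ⟨h.2.1, hx⟩, h.2.2, (key hP h.1).2 hx⟩
  | dec i => exact ⟨h.1, ⟨h.2.1, hx⟩, h.2.2, (key hP h.1).1 hx⟩
  | seq P Q ihP ihQ =>
    obtain ⟨z, h1, h2⟩ := h
    have h3 := ihP hP.1 h1 hx
    exact ⟨z, h3, ihQ hP.2 h2 (big_right h3).2⟩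
  | cond i j P Q ihP ihQ =>
    rcases h.2.2 with ⟨h1, h2, h3⟩ | ⟨x', y', h1, h2, h3⟩
    · have h4 := ihP hP.2.2.1 h2 hx
      exact ⟨⟨h.1, hx⟩, big_right h4, Or.inl ⟨h1, h4, h3⟩⟩
    · have h4 := ihQ hP.2.2.2 h2 ((key hP.1 h1).1 hx)
      exact ⟨⟨h.1, hx⟩, ⟨h.2.1, (key hP.2.1 h3).2 (big_right h4).2⟩,
        Or.inr ⟨x', y', h1, h4, h3⟩⟩
  | loop i j P ihP =>
    obtain ⟨h1, h2, h3, h4, h5⟩ := h
    have h6 : ∀ z, Relation.ReflTransGen (fun u v => I u ∧ I v ∧
        ∃ u' v', u = FBC.inc j u' ∧ Big I P u' v' ∧ v = FBC.inc i v') x z →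
        Relation.ReflTransGen (fun u v => (I u ∧ ∀ r ∉ U, u r = x₀ r) ∧
          (I v ∧ ∀ r ∉ U, v r = x₀ r) ∧ ∃ u' v', u = FBC.inc j u' ∧
            Big (fun u => I u ∧ ∀ r ∉ U, u r = x₀ r) P u' v' ∧ v = FBC.inc i v') x z ∧
        ∀ r ∉ U, z r = x₀ r := by
      intro z hz
      induction hz with
      | refl => exact ⟨Relation.ReflTransGen.refl, hx⟩
      | tail _ h7 ih =>
        obtain ⟨h8, h9, u', v', h10, h11, h12⟩ := h7
        have h13 := ihP hP.2.2 h11 ((key hP.2.1 h10).1 ih.2)
        have h14 := (key hP.1 h12).2 (big_right h13).2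
        exact ⟨ih.1.tail ⟨⟨h8, ih.2⟩, ⟨h9, h14⟩, u', v', h10, h13, h12⟩, h14⟩
    exact ⟨⟨h1, hx⟩, ⟨h2, (h6 y h5).2⟩, h3, h4, (h6 y h5).1⟩

theorem big_frame {I : (ℕ → ℕ) → Prop} {U : Set ℕ} {P : Prog} (hP : P.In U) {x y : ℕ → ℕ}
    (h : Big I P x y) : Big (fun u => I u ∧ ∀ r ∉ U, u r = x r) P x y :=
  big_frame_aux hP x h fun _ _ => rfl

theorem copy_in {U : Set ℕ} {i out t : ℕ} (h1 : i ∈ U) (h2 : out ∈ U) (h3 : t ∈ U) :
    (copy i out t).In U :=
  ⟨⟨h3, h1, h2⟩, h1, h3, trivial⟩

/-- the states during a copy -/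
def copySt (i out t : ℕ) (x : ℕ → ℕ) (a b c : ℕ) : ℕ → ℕ :=
  Function.update (Function.update (Function.update x i a) out b) t c

theorem inc_copySt_i {i out t : ℕ} (h1 : i ≠ out) (h2 : i ≠ t) (x : ℕ → ℕ) (a b c : ℕ) :
    inc i (copySt i out t x a b c) = copySt i out t x (a + 1) b c := by
  funext r
  by_cases hi : r = i
  · subst hi
    simp [inc, copySt, Function.update_of_ne h1, Function.update_of_ne h2]
  · by_cases ho : r = out
    · subst ho
      by_cases ht : r = t
      · subst ht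
        simp [inc, copySt, Function.update_of_ne hi]
      · simp [inc, copySt, Function.update_of_ne hi, Function.update_of_ne ht]
    · by_cases ht : r = t
      · subst ht
        simp [inc, copySt, Function.update_of_ne hi]
      · simp [inc, copySt, Function.update_of_ne hi, Function.update_of_ne ht,
          Function.update_of_ne ho]

theorem inc_copySt_out {i out t : ℕ} (h3 : out ≠ t) (x : ℕ → ℕ) (a b c : ℕ) :
    inc out (copySt i out t x a b c) = copySt i out t x a (b + 1) c := by
  funext r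
  by_cases ho : r = out
  · subst ho
    simp [inc, copySt, Function.update_of_ne h3]
  · by_cases ht : r = t
    · subst ht
      simp [inc, copySt, Function.update_of_ne ho]
    · simp [inc, copySt, Function.update_of_ne ht, Function.update_of_ne ho]

theorem inc_copySt_t {i out t : ℕ} (x : ℕ → ℕ) (a b c : ℕ) :
    inc t (copySt i out t x a b c) = copySt i out t x a b (c + 1) := by
  funext r
  by_cases ht : r = t
  · subst ht
    simp [inc, copySt]
  · simp [inc, copySt, Function.update_of_ne ht]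

theorem copySt_self {i out t : ℕ} (h3 : out ≠ t) (x : ℕ → ℕ) (hx : x t = 0) (b : ℕ) :
    copySt i out t x (x i) b 0 = Function.update x out b := by
  unfold copySt
  rw [Function.update_eq_self i x]
  have h : (0 : ℕ) = Function.update x out b t := by
    rw [Function.update_of_ne h3.symm, hx]
  rw [h, Function.update_eq_self]

theorem copySt_t {i out t : ℕ} (x : ℕ → ℕ) (a b c : ℕ) : copySt i out t x a b c t = c := by
  simp [copySt]

theorem copySt_i {i out t : ℕ} (h1 : i ≠ out) (h2 : i ≠ t) (x : ℕ → ℕ) (a b c : ℕ) :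
    copySt i out t x a b c i = a := by
  simp [copySt, Function.update_of_ne h1, Function.update_of_ne h2]

theorem mass_copySt {R i out t : ℕ} (hi : i < R) (ho : out < R) (ht : t < R) (h1 : i ≠ out)
    (h2 : i ≠ t) (h3 : out ≠ t) (x : ℕ → ℕ) (hx : x t = 0) (a b c : ℕ) :
    mass R (copySt i out t x a b c) + x i + x out = mass R x + a + b + c := by
  have e1 := mass_update hi x a
  have e2 := mass_update ho (Function.update x i a) b
  have e3 := mass_update ht (Function.update (Function.update x i a) out b) c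
  rw [Function.update_of_ne h1.symm] at e2
  rw [Function.update_of_ne h3.symm, Function.update_of_ne h2.symm, hx] at e3
  unfold copySt
  omega

theorem big_copy {R i out t : ℕ} (hi : i < R) (ho : out < R) (ht : t < R) (h1 : i ≠ out)
    (h2 : i ≠ t) (h3 : out ≠ t) (x : ℕ → ℕ) (hx : x t = 0) :
    Big (fun u => mass R x ≤ mass R u + 1 ∧ mass R u ≤ mass R x + x i) (copy i out t) x
      (Function.update x out (x out + x i)) := by
  have hI : ∀ a b c, x i + x out ≤ a + b + c + 1 → a + b + c ≤ x i + x out + x i →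
      (mass R x ≤ mass R (copySt i out t x a b c) + 1 ∧
        mass R (copySt i out t x a b c) ≤ mass R x + x i) := by
    intro a b c h4 h5
    have h := mass_copySt hi ho ht h1 h2 h3 x hx a b c
    constructor <;> omega
  have e0 : copySt i out t x (x i) (x out) 0 = x := by
    rw [copySt_self h3 x hx, Function.update_eq_self]
  refine ⟨copySt i out t x 0 (x out + x i) (x i), ?_, ?_⟩
  · refine ⟨?_, hI _ _ _ (by omega) (by omega), hx, copySt_i h1 h2 _ _ _ _, ?_⟩
    · constructor <;> omega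
    · have key : ∀ l a, a + l = x i → Relation.ReflTransGen
          (fun u v => (mass R x ≤ mass R u + 1 ∧ mass R u ≤ mass R x + x i) ∧
            (mass R x ≤ mass R v + 1 ∧ mass R v ≤ mass R x + x i) ∧ ∃ u' v',
              u = FBC.inc i u' ∧ Big (fun u => mass R x ≤ mass R u + 1 ∧
                mass R u ≤ mass R x + x i) (.inc out) u' v' ∧ v = FBC.inc t v')
          (copySt i out t x (x i) (x out) 0) (copySt i out t x a (x out + l) l) := by
        intro l
        induction l with
        | zero =>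
          intro a ha
          rw [Nat.add_zero] at ha
          rw [ha]
          exact Relation.ReflTransGen.refl
        | succ l ih =>
          intro a ha
          refine (ih (a + 1) (by omega)).tail ⟨hI _ _ _ (by omega) (by omega),
            hI _ _ _ (by omega) (by omega), copySt i out t x a (x out + l) l,
            copySt i out t x a (x out + l + 1) l, ?_, ⟨?_, ?_, ?_⟩, ?_⟩
          · rw [inc_copySt_i h1 h2]
          · rw [inc_copySt_out h3]
          · exact hI _ _ _ (by omega) (by omega)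
          · exact hI _ _ _ (by omega) (by omega)
          · rw [inc_copySt_t]
            rfl
      have h := key (x i) 0 (by omega)
      rw [e0] at h
      exact h
  · refine ⟨hI _ _ _ (by omega) (by omega), ?_, copySt_i h1 h2 _ _ _ _, ?_, ?_⟩
    · rw [← copySt_self h3 x hx]
      exact hI _ _ _ (by omega) (by omega)
    · rw [Function.update_of_ne h3.symm, hx]
    · have key : ∀ l a, a + l = x i → Relation.ReflTransGen
          (fun u v => (mass R x ≤ mass R u + 1 ∧ mass R u ≤ mass R x + x i) ∧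
            (mass R x ≤ mass R v + 1 ∧ mass R v ≤ mass R x + x i) ∧ ∃ u' v',
              u = FBC.inc t u' ∧ Big (fun u => mass R x ≤ mass R u + 1 ∧
                mass R u ≤ mass R x + x i) .skip u' v' ∧ v = FBC.inc i v')
          (copySt i out t x 0 (x out + x i) (x i)) (copySt i out t x l (x out + x i) a) := by
        intro l
        induction l with
        | zero =>
          intro a ha
          rw [Nat.add_zero] at ha
          rw [ha]
        | succ l ih =>
          intro a ha
          refine (ih (a + 1) (by omega)).tail ⟨hI _ _ _ (by omega) (by omega),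
            hI _ _ _ (by omega) (by omega), copySt i out t x l (x out + x i) a,
            copySt i out t x l (x out + x i) a, ?_, ⟨rfl, ?_⟩, ?_⟩
          · rw [inc_copySt_t]
          · exact hI _ _ _ (by omega) (by omega)
          · rw [inc_copySt_i h1 h2]
      have h := key (x i) 0 (by omega)
      rw [copySt_self h3 x hx] at h
      exact h

theorem clean_mono {k : ℕ} {f σ σ' : (Fin k → ℕ) → ℕ} (hf : Clean f σ) (h : ∀ v, σ v ≤ σ' v) :
    Clean f σ' := by
  obtain ⟨m, hm⟩ := hf
  refine ⟨m, fun inp out b h1 h2 h3 => ?_⟩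
  obtain ⟨P, hP, hB⟩ := hm inp out b h1 h2 h3
  refine ⟨P, hP, fun R x h4 h5 => big_mono ?_ (hB R x h4 h5)⟩
  intro u hu
  exact hu.trans (Nat.add_le_add_left (h _) _)

theorem clean_proj {k : ℕ} (i : Fin k) :
    Clean (fun v : Fin k → ℕ => v i) (fun v => v i) := by
  refine ⟨1, fun inp out b h1 h2 h3 => ⟨copy (inp i) out b, ?_, fun R x h4 h5 => ?_⟩⟩
  · exact copy_in (Or.inr (Or.inl ⟨i, rfl⟩)) (Or.inl rfl) (Or.inr (Or.inr ⟨le_rfl, by omega⟩))
  · have h6 := h1 i
    refine big_mono ?_ (big_copy (R := R) (i := inp i) (out := out) (t := b) (by omega) (by omega)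
      (by omega) (h3 i) (by omega) (by omega) x (h5 b le_rfl (by omega)))
    intro u hu
    exact hu.2

/-- `out += n` -/
def addConst (out : ℕ) : ℕ → Prog
  | 0 => .skip
  | n + 1 => .seq (addConst out n) (.inc out)

theorem addConst_in {U : Set ℕ} {out : ℕ} (h : out ∈ U) (n : ℕ) : (addConst out n).In U := by
  induction n with
  | zero => trivial
  | succ n ih => exact ⟨ih, h⟩

theorem big_addConst {R out : ℕ} (ho : out < R) (n N : ℕ) (hn : n ≤ N) (x : ℕ → ℕ) :
    Big (fun u => mass R u ≤ mass R x + N) (addConst out n) x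
      (Function.update x out (x out + n)) := by
  induction n with
  | zero =>
    refine ⟨?_, by omega⟩
    rw [Nat.add_zero, Function.update_eq_self]
  | succ n ih =>
    have h1 := mass_update ho x (x out + n)
    have h2 := mass_update ho x (x out + (n + 1))
    refine ⟨_, ih (by omega), ?_, ?_, ?_⟩
    · rw [inc, Function.update_self, Function.update_idem, Nat.add_assoc]
    · show mass R _ ≤ _
      omega
    · show mass R _ ≤ _
      omega

theorem clean_const {k : ℕ} (n : ℕ) :
    Clean (fun _ : Fin k → ℕ => n) (fun _ => n) := by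
  refine ⟨0, fun inp out b h1 h2 h3 => ⟨addConst out n, addConst_in (Or.inl rfl) n,
    fun R x h4 h5 => ?_⟩⟩
  exact big_addConst (by omega) n n le_rfl x

theorem clean_add {k : ℕ} {f g σ τ : (Fin k → ℕ) → ℕ} (hf : Clean f σ) (hg : Clean g τ) :
    Clean (fun v => f v + g v) (fun v => σ v + τ v + f v + g v) := by
  obtain ⟨m₁, hm₁⟩ := hf
  obtain ⟨m₂, hm₂⟩ := hg
  refine ⟨max m₁ m₂, fun inp out b h1 h2 h3 => ?_⟩
  obtain ⟨P₁, hP₁, hB₁⟩ := hm₁ inp out b h1 h2 h3
  obtain ⟨P₂, hP₂, hB₂⟩ := hm₂ inp out b h1 h2 h3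
  have l1 : m₁ ≤ max m₁ m₂ := le_max_left _ _
  have l2 : m₂ ≤ max m₁ m₂ := le_max_right _ _
  refine ⟨.seq P₁ P₂, ⟨in_mono ?_ hP₁, in_mono ?_ hP₂⟩, fun R x h4 h5 => ?_⟩
  · rintro r (h | h | h)
    · exact Or.inl h
    · exact Or.inr (Or.inl h)
    · exact Or.inr (Or.inr ⟨h.1, by omega⟩)
  · rintro r (h | h | h)
    · exact Or.inl h
    · exact Or.inr (Or.inl h)
    · exact Or.inr (Or.inr ⟨h.1, by omega⟩)
  · have hv : (fun i => Function.update x out (x out + f fun i => x (inp i)) (inp i)) =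
        fun i => x (inp i) := by
      funext i
      rw [Function.update_of_ne (h3 i)]
    have b1 := hB₁ R x (by omega) (fun r h6 h7 => h5 r h6 (by omega))
    have b2 := hB₂ R (Function.update x out (x out + f fun i => x (inp i))) (by omega)
      (fun r h6 h7 => by
        rw [Function.update_of_ne (by omega)]
        exact h5 r h6 (by omega))
    rw [hv, Function.update_self, Function.update_idem, Nat.add_assoc] at b2
    have hm := mass_update (R := R) (i := out) (by omega) x (x out + f fun i => x (inp i))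
    refine ⟨_, big_mono ?_ b1, big_mono ?_ b2⟩
    · intro u hu
      show mass R u ≤ mass R x + ((σ fun i => x (inp i)) + (τ fun i => x (inp i)) +
        (f fun i => x (inp i)) + (g fun i => x (inp i)))
      have hu' : mass R u ≤ mass R x + σ fun i => x (inp i) := hu
      omega
    · intro u hu
      show mass R u ≤ mass R x + ((σ fun i => x (inp i)) + (τ fun i => x (inp i)) +
        (f fun i => x (inp i)) + (g fun i => x (inp i)))
      have hu' : mass R u ≤ mass R (Function.update x out (x out + f fun i => x (inp i))) +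
        τ fun i => x (inp i) := hu
      omega

end Pool.Agent.FBC
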