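import Pool.Agent.FBC.Comp
import Pool.Agent.FBC.RevA

/-!
# FBC module MMach: the main machine

Fragments `F1` (for `P1`), `F2` (`P2`), `F3` (`P2.inv`), `F4` (`P1.inv`) (`compile`, `in_inv`,
`big_inv`). Vertices: those of the four fragments and `v0` (`p = 2, q = 1`), `mS` (`p = 1, q = 2`),
`d` (`p = 5, q = 1`), `mZ` (`p = 1, q = 5`), `dZ` (`p = 5, q = 1`), `m` (`p = 1, q = 5`),
`j` (`p = q = 1`), `u` (`p = 1, q = 3`), `w` (`p = 2, q = 1`), `k` (`p = 1, q = 2`). Edges: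
`(v0,0) → (v0,0)`, `(v0,1) → (mS,1)`, `(u,0) → (u,0)`, `(w,0) → (w,0)`, `(w,1) → (u,1)`,
`(k,0) → (k,0)`, `(mS,0) → (F1.inn,0)`,
`(F1.out,0) → (d,0)`, `(d,0) → (m,0)`, `(d,r) → (mZ,r)` for `r = 1,2,3,4`, `(mZ,0) → (F2.inn,0)`,
`(F2.out,0) → (j,0)`, `(j,0) → (F3.inn,0)`, `(F3.out,0) → (dZ,0)`, `(dZ,r) → (m,r)` for
`r = 1,2,3,4`, `(m,0) → (F4.inn,0)`, `(F4.out,0) → (mS,0)`.
Run for the number `N`: `(mS, 2 ^ N = code (st N 0 0)) → (F1.inn, ·) → (F1.out, code (st N 0 c)) →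
(d, ·)`; if `c ≠ 0` (the code is divisible by `5`) `→ (m, same) → (F4.inn, ·) → (F4.out, 2 ^ N) →
(mS, 2 ^ (N + 1))`; if `c = 0`: `→ (mZ, 2 ^ N) → (F2.inn, ·) → (F2.out, code (st 0 (nu N) 0)) →
(j, 3 ^ (nu N)) → (F3.inn, ·) → (F3.out, 2 ^ N) → (dZ, 2 ^ N) → (m, 2 ^ N) → …`.
(`Nat.nth Nat.Prime 0 = 2`, `1 ↦ 3`, `2 ↦ 5`: `Nat.nth_prime_zero_eq_two` etc., or
`Nat.nth_count` with `decide`.)
-/

namespace Pool.Agent.FBC

/-- vertices of the main machine -/
inductive VM (A B C D : Type) : Type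
  | F1 (v : A)
  | F2 (v : B)
  | F3 (v : C)
  | F4 (v : D)
  | v0
  | mS
  | d
  | mZ
  | dZ
  | m
  | j
  | u
  | w
  | k

theorem VM.fin {A B C D : Type} [Finite A] [Finite B] [Finite C] [Finite D] :
    Finite (VM A B C D) := by
  refine Finite.of_injective (β := A ⊕ B ⊕ C ⊕ D ⊕ Fin 10) (fun v => match v with
    | .F1 v => .inl v
    | .F2 v => .inr (.inl v)
    | .F3 v => .inr (.inr (.inl v))
    | .F4 v => .inr (.inr (.inr (.inl v)))
    | .v0 => .inr (.inr (.inr (.inr 0)))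
    | .mS => .inr (.inr (.inr (.inr 1)))
    | .d => .inr (.inr (.inr (.inr 2)))
    | .mZ => .inr (.inr (.inr (.inr 3)))
    | .dZ => .inr (.inr (.inr (.inr 4)))
    | .m => .inr (.inr (.inr (.inr 5)))
    | .j => .inr (.inr (.inr (.inr 6)))
    | .u => .inr (.inr (.inr (.inr 7)))
    | .w => .inr (.inr (.inr (.inr 8)))
    | .k => .inr (.inr (.inr (.inr 9)))) ?_
  intro v w h
  cases v <;> cases w <;> simp_all

/-- modulus of the source -/
def VM.p {A B C D : Type} (pA : A → ℕ) (pB : B → ℕ) (pC : C → ℕ) (pD : D → ℕ) : VM A B C D → ℕ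
  | .F1 v => pA v
  | .F2 v => pB v
  | .F3 v => pC v
  | .F4 v => pD v
  | .v0 => 2
  | .mS => 1
  | .d => 5
  | .mZ => 1
  | .dZ => 5
  | .m => 1
  | .j => 1
  | .u => 1
  | .w => 2
  | .k => 1

/-- modulus of the target -/
def VM.q {A B C D : Type} (pA : A → ℕ) (pB : B → ℕ) (pC : C → ℕ) (pD : D → ℕ) : VM A B C D → ℕ
  | .F1 v => pA v
  | .F2 v => pB v
  | .F3 v => pC v
  | .F4 v => pD v
  | .v0 => 1
  | .mS => 2
  | .d => 1
  | .mZ => 5
  | .dZ => 1
  | .m => 5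
  | .j => 1
  | .u => 3
  | .w => 1
  | .k => 2

/-- the edges of the main machine -/
inductive MainE (F1 F2 F3 F4 : Frag) :
    VM F1.V F2.V F3.V F4.V → ℕ → VM F1.V F2.V F3.V F4.V → ℕ → Prop
  | F1 {v r w c} : F1.M.E v r w c → MainE F1 F2 F3 F4 (.F1 v) r (.F1 w) c
  | F2 {v r w c} : F2.M.E v r w c → MainE F1 F2 F3 F4 (.F2 v) r (.F2 w) c
  | F3 {v r w c} : F3.M.E v r w c → MainE F1 F2 F3 F4 (.F3 v) r (.F3 w) c
  | F4 {v r w c} : F4.M.E v r w c → MainE F1 F2 F3 F4 (.F4 v) r (.F4 w) c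
  | v00 : MainE F1 F2 F3 F4 .v0 0 .v0 0
  | v01 : MainE F1 F2 F3 F4 .v0 1 .mS 1
  | u0 : MainE F1 F2 F3 F4 .u 0 .u 0
  | w0 : MainE F1 F2 F3 F4 .w 0 .w 0
  | w1 : MainE F1 F2 F3 F4 .w 1 .u 1
  | k0 : MainE F1 F2 F3 F4 .k 0 .k 0
  | s0 : MainE F1 F2 F3 F4 .mS 0 (.F1 F1.inn) 0
  | a1 : MainE F1 F2 F3 F4 (.F1 F1.out) 0 .d 0
  | d0 : MainE F1 F2 F3 F4 .d 0 .m 0
  | d1 {r} : 0 < r → r < 5 → MainE F1 F2 F3 F4 .d r .mZ r
  | z0 : MainE F1 F2 F3 F4 .mZ 0 (.F2 F2.inn) 0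
  | b1 : MainE F1 F2 F3 F4 (.F2 F2.out) 0 .j 0
  | j0 : MainE F1 F2 F3 F4 .j 0 (.F3 F3.inn) 0
  | c1 : MainE F1 F2 F3 F4 (.F3 F3.out) 0 .dZ 0
  | e1 {r} : 0 < r → r < 5 → MainE F1 F2 F3 F4 .dZ r .m r
  | m0 : MainE F1 F2 F3 F4 .m 0 (.F4 F4.inn) 0
  | f1 : MainE F1 F2 F3 F4 (.F4 F4.out) 0 .mS 0

/-- the main machine -/
def mainM (F1 F2 F3 F4 : Frag) : RM (VM F1.V F2.V F3.V F4.V) where
  p := VM.p F1.M.p F2.M.p F3.M.p F4.M.p
  q := VM.q F1.M.q F2.M.q F3.M.q F4.M.q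
  E := MainE F1 F2 F3 F4
  hp := by
    intro v
    cases v with
    | F1 v => exact F1.M.hp v
    | F2 v => exact F2.M.hp v
    | F3 v => exact F3.M.hp v
    | F4 v => exact F4.M.hp v
    | v0 => exact Nat.succ_pos _
    | mS => exact Nat.succ_pos _
    | d => exact Nat.succ_pos _
    | mZ => exact Nat.succ_pos _
    | dZ => exact Nat.succ_pos _
    | m => exact Nat.succ_pos _
    | j => exact Nat.succ_pos _
    | u => exact Nat.succ_pos _
    | w => exact Nat.succ_pos _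
    | k => exact Nat.succ_pos _
  hq := by
    intro v
    cases v with
    | F1 v => exact F1.M.hq v
    | F2 v => exact F2.M.hq v
    | F3 v => exact F3.M.hq v
    | F4 v => exact F4.M.hq v
    | v0 => exact Nat.succ_pos _
    | mS => exact Nat.succ_pos _
    | d => exact Nat.succ_pos _
    | mZ => exact Nat.succ_pos _
    | dZ => exact Nat.succ_pos _
    | m => exact Nat.succ_pos _
    | j => exact Nat.succ_pos _
    | u => exact Nat.succ_pos _
    | w => exact Nat.succ_pos _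
    | k => exact Nat.succ_pos _
  one := by
    intro v
    cases v with
    | F1 v => exact F1.M.one v
    | F2 v => exact F2.M.one v
    | F3 v => exact F3.M.one v
    | F4 v => exact F4.M.one v
    | v0 => exact Or.inr rfl
    | mS => exact Or.inl rfl
    | d => exact Or.inr rfl
    | mZ => exact Or.inl rfl
    | dZ => exact Or.inr rfl
    | m => exact Or.inl rfl
    | j => exact Or.inl rfl
    | u => exact Or.inl rfl
    | w => exact Or.inr rfl
    | k => exact Or.inl rfl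
  lt := by
    intro v r w c h
    cases h with
    | F1 h => exact F1.M.lt h
    | F2 h => exact F2.M.lt h
    | F3 h => exact F3.M.lt h
    | F4 h => exact F4.M.lt h
    | v00 => exact ⟨Nat.succ_pos _, Nat.succ_pos _⟩
    | v01 => exact ⟨Nat.lt_succ_self _, Nat.lt_succ_self _⟩
    | u0 => exact ⟨Nat.succ_pos _, Nat.succ_pos _⟩
    | w0 => exact ⟨Nat.succ_pos _, Nat.succ_pos _⟩
    | w1 => exact ⟨Nat.lt_succ_self _, Nat.succ_lt_succ (Nat.succ_pos _)⟩
    | k0 => exact ⟨Nat.succ_pos _, Nat.succ_pos _⟩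
    | s0 => exact ⟨Nat.succ_pos _, by simp only [VM.q]; rw [F1.qin]; exact one_pos⟩
    | a1 => exact ⟨by simp only [VM.p]; rw [F1.pout]; exact one_pos, Nat.succ_pos _⟩
    | d0 => exact ⟨Nat.succ_pos _, Nat.succ_pos _⟩
    | d1 h1 h2 => exact ⟨h2, h2⟩
    | z0 => exact ⟨Nat.succ_pos _, by simp only [VM.q]; rw [F2.qin]; exact one_pos⟩
    | b1 => exact ⟨by simp only [VM.p]; rw [F2.pout]; exact one_pos, Nat.succ_pos _⟩
    | j0 => exact ⟨Nat.succ_pos _, by simp only [VM.q]; rw [F3.qin]; exact one_pos⟩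
    | c1 => exact ⟨by simp only [VM.p]; rw [F3.pout]; exact one_pos, Nat.succ_pos _⟩
    | e1 h1 h2 => exact ⟨h2, h2⟩
    | m0 => exact ⟨Nat.succ_pos _, by simp only [VM.q]; rw [F4.qin]; exact one_pos⟩
    | f1 => exact ⟨by simp only [VM.p]; rw [F4.pout]; exact one_pos, Nat.succ_pos _⟩
  det := by
    intro v r w c w' c' h h'
    cases h with
    | F1 h =>
      cases h' with
      | F1 h' =>
        obtain ⟨rfl, rfl⟩ := F1.M.det h h'
        exact ⟨rfl, rfl⟩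
      | a1 => exact (F1.noout h).elim
    | F2 h =>
      cases h' with
      | F2 h' =>
        obtain ⟨rfl, rfl⟩ := F2.M.det h h'
        exact ⟨rfl, rfl⟩
      | b1 => exact (F2.noout h).elim
    | F3 h =>
      cases h' with
      | F3 h' =>
        obtain ⟨rfl, rfl⟩ := F3.M.det h h'
        exact ⟨rfl, rfl⟩
      | c1 => exact (F3.noout h).elim
    | F4 h =>
      cases h' with
      | F4 h' =>
        obtain ⟨rfl, rfl⟩ := F4.M.det h h'
        exact ⟨rfl, rfl⟩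
      | f1 => exact (F4.noout h).elim
    | v00 => cases h'; exact ⟨rfl, rfl⟩
    | v01 => cases h'; exact ⟨rfl, rfl⟩
    | u0 => cases h'; exact ⟨rfl, rfl⟩
    | w0 => cases h'; exact ⟨rfl, rfl⟩
    | w1 => cases h'; exact ⟨rfl, rfl⟩
    | k0 => cases h'; exact ⟨rfl, rfl⟩
    | s0 => cases h'; exact ⟨rfl, rfl⟩
    | a1 =>
      cases h' with
      | F1 h' => exact (F1.noout h').elim
      | a1 => exact ⟨rfl, rfl⟩
    | d0 =>
      cases h' with
      | d0 => exact ⟨rfl, rfl⟩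
      | d1 h1 h2 => exact (lt_irrefl _ h1).elim
    | d1 h1 h2 =>
      cases h' with
      | d0 => exact (lt_irrefl _ h1).elim
      | d1 h1' h2' => exact ⟨rfl, rfl⟩
    | z0 => cases h'; exact ⟨rfl, rfl⟩
    | b1 =>
      cases h' with
      | F2 h' => exact (F2.noout h').elim
      | b1 => exact ⟨rfl, rfl⟩
    | j0 => cases h'; exact ⟨rfl, rfl⟩
    | c1 =>
      cases h' with
      | F3 h' => exact (F3.noout h').elim
      | c1 => exact ⟨rfl, rfl⟩
    | e1 h1 h2 => cases h'; exact ⟨rfl, rfl⟩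
    | m0 => cases h'; exact ⟨rfl, rfl⟩
    | f1 =>
      cases h' with
      | F4 h' => exact (F4.noout h').elim
      | f1 => exact ⟨rfl, rfl⟩
  inj := by
    intro v r v' r' w c h h'
    cases h with
    | F1 h =>
      cases h' with
      | F1 h' =>
        obtain ⟨rfl, rfl⟩ := F1.M.inj h h'
        exact ⟨rfl, rfl⟩
      | s0 => exact (F1.noin h).elim
    | F2 h =>
      cases h' with
      | F2 h' =>
        obtain ⟨rfl, rfl⟩ := F2.M.inj h h'
        exact ⟨rfl, rfl⟩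
      | z0 => exact (F2.noin h).elim
    | F3 h =>
      cases h' with
      | F3 h' =>
        obtain ⟨rfl, rfl⟩ := F3.M.inj h h'
        exact ⟨rfl, rfl⟩
      | j0 => exact (F3.noin h).elim
    | F4 h =>
      cases h' with
      | F4 h' =>
        obtain ⟨rfl, rfl⟩ := F4.M.inj h h'
        exact ⟨rfl, rfl⟩
      | m0 => exact (F4.noin h).elim
    | v00 => cases h'; exact ⟨rfl, rfl⟩
    | v01 => cases h'; exact ⟨rfl, rfl⟩
    | u0 => cases h'; exact ⟨rfl, rfl⟩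
    | w0 => cases h'; exact ⟨rfl, rfl⟩
    | w1 => cases h'; exact ⟨rfl, rfl⟩
    | k0 => cases h'; exact ⟨rfl, rfl⟩
    | s0 =>
      cases h' with
      | F1 h' => exact (F1.noin h').elim
      | s0 => exact ⟨rfl, rfl⟩
    | a1 => cases h'; exact ⟨rfl, rfl⟩
    | d0 =>
      cases h' with
      | d0 => exact ⟨rfl, rfl⟩
      | e1 h1 h2 => exact (lt_irrefl _ h1).elim
    | d1 h1 h2 => cases h'; exact ⟨rfl, rfl⟩
    | z0 =>
      cases h' with
      | F2 h' => exact (F2.noin h').elim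
      | z0 => exact ⟨rfl, rfl⟩
    | b1 => cases h'; exact ⟨rfl, rfl⟩
    | j0 =>
      cases h' with
      | F3 h' => exact (F3.noin h').elim
      | j0 => exact ⟨rfl, rfl⟩
    | c1 => cases h'; exact ⟨rfl, rfl⟩
    | e1 h1 h2 =>
      cases h' with
      | d0 => exact (lt_irrefl _ h1).elim
      | e1 h1' h2' => exact ⟨rfl, rfl⟩
    | m0 =>
      cases h' with
      | F4 h' => exact (F4.noin h').elim
      | m0 => exact ⟨rfl, rfl⟩
    | f1 => cases h'; exact ⟨rfl, rfl⟩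

theorem nth_prime_0 : Nat.nth Nat.Prime 0 = 2 := by
  have h := Nat.nth_count (p := Nat.Prime) (n := 2) (by norm_num)
  have e : Nat.count Nat.Prime 2 = 0 := by decide
  rwa [e] at h

theorem nth_prime_1 : Nat.nth Nat.Prime 1 = 3 := by
  have h := Nat.nth_count (p := Nat.Prime) (n := 3) (by norm_num)
  have e : Nat.count Nat.Prime 3 = 1 := by decide
  rwa [e] at h

theorem nth_prime_2 : Nat.nth Nat.Prime 2 = 5 := by
  have h := Nat.nth_count (p := Nat.Prime) (n := 5) (by norm_num)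
  have e : Nat.count Nat.Prime 5 = 2 := by decide
  rwa [e] at h

theorem code_st {R : ℕ} (hR : 3 ≤ R) (n a f : ℕ) :
    code R (st n a f) = (2 : ℤ) ^ n * 3 ^ a * 5 ^ f := by
  unfold code
  obtain ⟨R', rfl⟩ : ∃ R', R = R' + 3 := ⟨R - 3, by omega⟩
  have h : ∏ i ∈ Finset.range (R' + 3), (Nat.nth Nat.Prime i) ^ (st n a f i) =
      2 ^ n * 3 ^ a * 5 ^ f := by
    rw [Finset.prod_range_succ', Finset.prod_range_succ', Finset.prod_range_succ']
    have e : ∏ i ∈ Finset.range R', (Nat.nth Nat.Prime (i + 1 + 1 + 1)) ^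
        (st n a f (i + 1 + 1 + 1)) = 1 := by
      refine Finset.prod_eq_one fun i _ => ?_
      have : st n a f (i + 1 + 1 + 1) = 0 := by
        unfold st
        rw [if_neg (by omega), if_neg (by omega), if_neg (by omega)]
      rw [this, pow_zero]
    rw [e]
    have e0 : st n a f 0 = n := rfl
    have e1 : st n a f (0 + 1) = a := rfl
    have e2 : st n a f (0 + 1 + 1) = f := rfl
    rw [e0, e1, e2, nth_prime_0, show 0 + 1 = 1 from rfl, nth_prime_1,
      show 1 + 1 = 2 from rfl, nth_prime_2]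
    ring
  rw [h]
  push_cast
  ring

theorem main_mach (R : ℕ) (hR : 3 ≤ R) (Dm : ℕ → Prop) (nu : ℕ → ℕ)
    (I : ℕ → (ℕ → ℕ) → Prop) (P1 P2 : Prog) (h1 : P1.In {r | r < R}) (h2 : P2.In {r | r < R})
    (hP1 : ∀ N, ∃ c : ℕ, (c = 0 ↔ Dm N) ∧ Big (I N) P1 (st N 0 0) (st N 0 c))
    (hP2 : ∀ N, Dm N → Big (I N) P2 (st N 0 0) (st 0 (nu N) 0)) :
    ∃ (V : Type) (_ : Finite V) (M : RM V) (v0 u j mS : V), M.p v0 = 2 ∧ M.q v0 = 1 ∧
      M.E v0 0 v0 0 ∧ M.p u = 1 ∧ M.q u = 3 ∧ M.E u 0 u 0 ∧ M.q j = 1 ∧ M.p mS = 1 ∧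
      M.q mS = 2 ∧ M.Ld u ∧ M.Step (v0, 1) (mS, 1) ∧
      (∀ N, ∃ n, M.RunJ (Jc R (I N)) n (mS, 2 ^ N) (mS, 2 ^ (N + 1))) ∧
      (∀ N, Dm N → ∃ n, M.RunJ (Jc R (I N)) n (mS, 2 ^ N) (j, 3 ^ (nu N))) := by
  obtain ⟨A1, hA1⟩ := compile R P1 h1
  obtain ⟨A2, hA2⟩ := compile R P2 h2
  obtain ⟨A3, hA3⟩ := compile R P2.inv (in_inv h2)
  obtain ⟨A4, hA4⟩ := compile R P1.inv (in_inv h1)
  have i1 := A1.fin
  have i2 := A2.fin
  have i3 := A3.fin
  have i4 := A4.fin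
  set M := mainM A1 A2 A3 A4 with hM
  refine ⟨VM A1.V A2.V A3.V A4.V, VM.fin, M, .v0, .u, .j, .mS, rfl, rfl, MainE.v00, rfl, rfl,
    MainE.u0, rfl, rfl, rfl, ⟨.w, .k, rfl, rfl, MainE.w0, MainE.w1, rfl, rfl, MainE.k0⟩,
    ⟨0, 1, 1, MainE.v01, by simp, by simp⟩, ?_, ?_⟩
  all_goals
    have c0 : ∀ N, code R (st N 0 0) = (2 : ℤ) ^ N := fun N => by rw [code_st hR]; simp
    have c1 : ∀ N, code R (st 0 N 0) = (3 : ℤ) ^ N := fun N => by rw [code_st hR]; simp
    have c5 : ∀ N c, code R (st N 0 (c + 1)) = 5 * ((2 : ℤ) ^ N * 5 ^ c) := fun N c => by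
      rw [code_st hR, pow_succ]; ring
    -- from mS to d
    have t1 : ∀ N, Rch M (Jc R (I N)) (.mS, 2 ^ N) (.F1 A1.inn, 2 ^ N) := by
      intro N
      obtain ⟨c, -, hc⟩ := hP1 N
      refine Rch.edge (2 ^ N) MainE.s0 ?_ ?_ ⟨st N 0 0, big_left' _ hc, (c0 N).symm⟩
      · have : M.p .mS = 1 := rfl
        rw [this]; simp
      · have : M.q (.F1 A1.inn) = 1 := A1.qin
        rw [this]; simp
    have t2 : ∀ N c, Big (I N) P1 (st N 0 0) (st N 0 c) →
        Rch M (Jc R (I N)) (.mS, 2 ^ N) (.d, code R (st N 0 c)) := by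
      intro N c hc
      have r1 : Rch M (Jc R (I N)) (.F1 A1.inn, code R (st N 0 0))
          (.F1 A1.out, code R (st N 0 c)) :=
        Rch.map (M := A1.M) (M' := M) VM.F1 (fun _ => rfl) (fun _ => rfl)
          (fun _ _ _ _ h => MainE.F1 h) (fun _ _ h => h) (hA1 (I N) _ _ hc)
      have r2 : Rch M (Jc R (I N)) (.F1 A1.out, code R (st N 0 c)) (.d, code R (st N 0 c)) := by
        refine Rch.edge (code R (st N 0 c)) MainE.a1 ?_ ?_ (jc (big_right' _ hc) _)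
        · have : M.p (.F1 A1.out) = 1 := A1.pout
          rw [this]; simp
        · have : M.q .d = 1 := rfl
          rw [this]; simp
      rw [c0] at r1
      exact (t1 N).trans (r1.trans r2)
    -- from d to j
    have t3 : ∀ N, Dm N → Rch M (Jc R (I N)) (.d, 2 ^ N) (.j, 3 ^ (nu N)) := by
      intro N hN
      have hc := hP2 N hN
      obtain ⟨k, r, hr0, hr, hk⟩ := code_zero (R := R) (i := 2) (by omega) (st N 0 0) rfl
      rw [nth_prime_2] at hr hk
      rw [c0] at hk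
      have hj : ∀ v, Jc R (I N) ((v, 2 ^ N) : VM A1.V A2.V A3.V A4.V × ℤ) := fun v =>
        ⟨st N 0 0, big_left' _ hc, (c0 N).symm⟩
      have hj' : ∀ v, Jc R (I N) ((v, 3 ^ (nu N)) : VM A1.V A2.V A3.V A4.V × ℤ) := fun v =>
        ⟨st 0 (nu N) 0, big_right' _ hc, (c1 (nu N)).symm⟩
      have r1 : Rch M (Jc R (I N)) (.d, 2 ^ N) (.mZ, 2 ^ N) :=
        Rch.edge k (MainE.d1 hr0 hr) hk hk (hj _)
      have r2 : Rch M (Jc R (I N)) (.mZ, 2 ^ N) (.F2 A2.inn, 2 ^ N) := by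
        refine Rch.edge (2 ^ N) MainE.z0 ?_ ?_ (hj _)
        · have : M.p .mZ = 1 := rfl
          rw [this]; simp
        · have : M.q (.F2 A2.inn) = 1 := A2.qin
          rw [this]; simp
      have r3 : Rch M (Jc R (I N)) (.F2 A2.inn, code R (st N 0 0))
          (.F2 A2.out, code R (st 0 (nu N) 0)) :=
        Rch.map (M := A2.M) (M' := M) VM.F2 (fun _ => rfl) (fun _ => rfl)
          (fun _ _ _ _ h => MainE.F2 h) (fun _ _ h => h) (hA2 (I N) _ _ hc)
      rw [c0, c1] at r3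
      have r4 : Rch M (Jc R (I N)) (.F2 A2.out, 3 ^ (nu N)) (.j, 3 ^ (nu N)) := by
        refine Rch.edge (3 ^ (nu N)) MainE.b1 ?_ ?_ (hj' _)
        · have : M.p (.F2 A2.out) = 1 := A2.pout
          rw [this]; simp
        · have : M.q .j = 1 := rfl
          rw [this]; simp
      exact r1.trans (r2.trans (r3.trans r4))
    -- from j to m
    have t4 : ∀ N, Dm N → Rch M (Jc R (I N)) (.j, 3 ^ (nu N)) (.m, 2 ^ N) := by
      intro N hN
      have hc := hP2 N hN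
      have hj : ∀ v, Jc R (I N) ((v, 2 ^ N) : VM A1.V A2.V A3.V A4.V × ℤ) := fun v =>
        ⟨st N 0 0, big_left' _ hc, (c0 N).symm⟩
      have hj' : ∀ v, Jc R (I N) ((v, 3 ^ (nu N)) : VM A1.V A2.V A3.V A4.V × ℤ) := fun v =>
        ⟨st 0 (nu N) 0, big_right' _ hc, (c1 (nu N)).symm⟩
      obtain ⟨k, r, hr0, hr, hk⟩ := code_zero (R := R) (i := 2) (by omega) (st N 0 0) rfl
      rw [nth_prime_2] at hr hk
      rw [c0] at hk
      have r1 : Rch M (Jc R (I N)) (.j, 3 ^ (nu N)) (.F3 A3.inn, 3 ^ (nu N)) := by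
        refine Rch.edge (3 ^ (nu N)) MainE.j0 ?_ ?_ (hj' _)
        · have : M.p .j = 1 := rfl
          rw [this]; simp
        · have : M.q (.F3 A3.inn) = 1 := A3.qin
          rw [this]; simp
      have r2 : Rch M (Jc R (I N)) (.F3 A3.inn, code R (st 0 (nu N) 0))
          (.F3 A3.out, code R (st N 0 0)) :=
        Rch.map (M := A3.M) (M' := M) VM.F3 (fun _ => rfl) (fun _ => rfl)
          (fun _ _ _ _ h => MainE.F3 h) (fun _ _ h => h) (hA3 (I N) _ _ (big_inv.2 hc))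
      rw [c0, c1] at r2
      have r3 : Rch M (Jc R (I N)) (.F3 A3.out, 2 ^ N) (.dZ, 2 ^ N) := by
        refine Rch.edge (2 ^ N) MainE.c1 ?_ ?_ (hj _)
        · have : M.p (.F3 A3.out) = 1 := A3.pout
          rw [this]; simp
        · have : M.q .dZ = 1 := rfl
          rw [this]; simp
      have r4 : Rch M (Jc R (I N)) (.dZ, 2 ^ N) (.m, 2 ^ N) :=
        Rch.edge k (MainE.e1 hr0 hr) hk hk (hj _)
      exact r1.trans (r2.trans (r3.trans r4))
    -- from m to mS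
    have t5 : ∀ N c, Big (I N) P1 (st N 0 0) (st N 0 c) →
        Rch M (Jc R (I N)) (.m, code R (st N 0 c)) (.mS, 2 ^ (N + 1)) := by
      intro N c hc
      have r1 : Rch M (Jc R (I N)) (.m, code R (st N 0 c)) (.F4 A4.inn, code R (st N 0 c)) := by
        refine Rch.edge (code R (st N 0 c)) MainE.m0 ?_ ?_ (jc (big_right' _ hc) _)
        · have : M.p .m = 1 := rfl
          rw [this]; simp
        · have : M.q (.F4 A4.inn) = 1 := A4.qin
          rw [this]; simp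
      have r2 : Rch M (Jc R (I N)) (.F4 A4.inn, code R (st N 0 c))
          (.F4 A4.out, code R (st N 0 0)) :=
        Rch.map (M := A4.M) (M' := M) VM.F4 (fun _ => rfl) (fun _ => rfl)
          (fun _ _ _ _ h => MainE.F4 h) (fun _ _ h => h) (hA4 (I N) _ _ (big_inv.2 hc))
      rw [c0] at r2
      have r3 : Rch M (Jc R (I N)) (.F4 A4.out, 2 ^ N) (.mS, 2 ^ (N + 1)) := by
        refine Rch.edge (2 ^ N) MainE.f1 ?_ ?_ ⟨st N 0 0, big_left' _ hc, (c0 N).symm⟩
        · have : M.p (.F4 A4.out) = 1 := A4.pout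
          rw [this]; simp
        · have : M.q .mS = 2 := rfl
          rw [this, pow_succ]; simp; ring
      exact r1.trans (r2.trans r3)
  · intro N
    obtain ⟨c, hc0, hc⟩ := hP1 N
    rcases Nat.eq_zero_or_pos c with rfl | hpos
    · have hN := hc0.1 rfl
      have q1 := t2 N 0 hc
      rw [c0] at q1
      have q2 := t5 N 0 hc
      rw [c0] at q2
      exact q1.trans ((t3 N hN).trans ((t4 N hN).trans q2))
    · obtain ⟨c', rfl⟩ : ∃ c', c = c' + 1 := ⟨c - 1, by omega⟩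
      have q1 := t2 N _ hc
      have q2 := t5 N _ hc
      refine q1.trans (Rch.trans ?_ q2)
      refine Rch.edge ((2 : ℤ) ^ N * 5 ^ c') MainE.d0 ?_ ?_ (jc (big_right' _ hc) _)
      · have : M.p .d = 5 := rfl
        rw [this, c5]; simp
      · have : M.q .m = 5 := rfl
        rw [this, c5]; simp
  · intro N hN
    obtain ⟨c, hc0, hc⟩ := hP1 N
    obtain rfl := hc0.2 hN
    have q1 := t2 N 0 hc
    rw [c0] at q1
    exact q1.trans (t3 N hN)

end Pool.Agent.FBC
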