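import Pool.Agent.FBC.Ctl
import Pool.Agent.FBC.ClC
import Pool.Agent.FBC.ClB
import Pool.Agent.FBC.Halt

/-!
# FBC: the machine whose late hits dominate all computable functions
-/

namespace Pool.Agent.FBC

/-- the first zero below `k` of `k' ↦ E a k'`, or `k` -/
noncomputable def mA (E : ℕ → ℕ → ℕ) (a k : ℕ) : ℕ :=
  Nat.find (p := fun k' => E a k' * (k - k') = 0) ⟨k, by simp⟩

theorem mA_spec (E : ℕ → ℕ → ℕ) (a k : ℕ) : E a (mA E a k) * (k - mA E a k) = 0 :=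
  Nat.find_spec (p := fun k' => E a k' * (k - k') = 0) ⟨k, by simp⟩

theorem mA_min (E : ℕ → ℕ → ℕ) (a k n : ℕ) (h : n < mA E a k) : E a n * (k - n) ≠ 0 :=
  Nat.find_min (p := fun k' => E a k' * (k - k') = 0) ⟨k, by simp⟩ h

theorem mA_le (E : ℕ → ℕ → ℕ) (a k : ℕ) : mA E a k ≤ k :=
  Nat.find_min' (p := fun k' => E a k' * (k - k') = 0) ⟨k, by simp⟩ (by simp)

/-- zero iff `N = pair a k` with `k` the first zero of `E a` -/
noncomputable def TA (E : ℕ → ℕ → ℕ) (a N : ℕ) : ℕ :=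
  (N.unpair.1 - a) + (a - N.unpair.1) + (E a N.unpair.2 + (N.unpair.2 - mA E a N.unpair.2))

theorem TA_zero (E : ℕ → ℕ → ℕ) (a N : ℕ) : TA E a N = 0 ↔
    N.unpair.1 = a ∧ E a N.unpair.2 = 0 ∧ ∀ k' < N.unpair.2, E a k' ≠ 0 := by
  unfold TA
  constructor
  · intro h
    have h1 : N.unpair.1 = a := by omega
    have h2 : E a N.unpair.2 = 0 := by omega
    have h3 : N.unpair.2 ≤ mA E a N.unpair.2 := by omega
    refine ⟨h1, h2, fun k' hk' h0 => ?_⟩
    exact mA_min E a N.unpair.2 k' (by omega) (by simp [h0])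
  · rintro ⟨h1, h2, h3⟩
    have h4 := mA_spec E a N.unpair.2
    have h5 := mA_le E a N.unpair.2
    have h6 : N.unpair.2 ≤ mA E a N.unpair.2 := by
      by_contra hlt
      rcases Nat.mul_eq_zero.1 h4 with h | h
      · exact h3 _ (by omega) h
      · omega
    omega

theorem cl_mA {E : ℕ → ℕ → ℕ} (hE : Nat.Primrec (fun n => E n.unpair.1 n.unpair.2)) :
    Cl (fun v : Fin 2 → ℕ => mA E (v 0) (v 1).unpair.2) := by
  have h1 : Cl (fun w : Fin 3 → ℕ => E (w 1) (w 0)) := by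
    have := primrec_cl hE (Cl.pair (Cl.proj (k := 3) 1) (Cl.proj (k := 3) 0))
    simpa using this
  have h2 : Cl (fun w : Fin 3 → ℕ => E (w 1) (w 0) * ((w 2).unpair.2 - w 0)) :=
    Cl.mul h1 (Cl.sub (Cl.right (Cl.proj 2)) (Cl.proj 0))
  refine Cl.mu' h2 (fun v => mA E (v 0) (v 1).unpair.2) (fun v => ?_) (fun v n hn => ?_)
  · exact mA_spec E (v 0) (v 1).unpair.2
  · exact mA_min E (v 0) (v 1).unpair.2 n hn

theorem cl_TA {E : ℕ → ℕ → ℕ} (hE : Nat.Primrec (fun n => E n.unpair.1 n.unpair.2)) :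
    Cl (fun v : Fin 2 → ℕ => TA E (v 0) (v 1)) := by
  have h1 : Cl (fun v : Fin 2 → ℕ => E (v 0) (v 1).unpair.2) := by
    have := primrec_cl hE (Cl.pair (Cl.proj (k := 2) 0) (Cl.right (Cl.proj (k := 2) 1)))
    simpa using this
  exact Cl.add (Cl.add (Cl.sub (Cl.left (Cl.proj 1)) (Cl.proj 0))
    (Cl.sub (Cl.proj 0) (Cl.left (Cl.proj 1))))
    (Cl.add h1 (Cl.sub (Cl.right (Cl.proj 1)) (cl_mA hE)))

theorem machA : ∃ (V : Type) (_ : Finite V) (M : RM V) (v0 u j mS : V) (Dm : ℕ → Prop)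
    (nu lo Y : ℕ → ℕ), M.Total ∧ Mach M v0 u j mS Dm nu lo Y ∧
    ∀ g : ℕ → ℕ, Computable g → ∃ C : ℕ, ∀ m, ∃ N, Dm N ∧ nu N ≤ C * (m + 1) ∧ g m ≤ N := by
  classical
  obtain ⟨E, hE, hdom⟩ := halt
  obtain ⟨σT, hT⟩ := cl_clean (cl_TA hE)
  obtain ⟨σn, hn⟩ := cl_clean (Cl.left (Cl.proj (k := 1) 0))
  set nu : ℕ → ℕ := fun N => N.unpair.1 with hnu
  let b : ℕ → ℕ := fun i => i + nu i + σn ![i] +
    ∑ m ∈ Finset.range (i + 1), (TA E (nu i) m + σT ![nu i, m])
  let s : ℕ → ℕ := fun N => ∑ i ∈ Finset.range (N + 1), b i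
  have hs : Monotone s := by
    intro x y hxy
    exact Finset.sum_le_sum_of_subset (fun i hi => by
      simp only [Finset.mem_range] at hi ⊢; omega)
  have hb : ∀ N, b N ≤ s N := fun N =>
    Finset.single_le_sum (f := b) (fun i _ => Nat.zero_le _) (Finset.mem_range.2 (Nat.lt_succ_self N))
  have hb3 : ∀ N m, m ≤ N → TA E (nu N) m + σT ![nu N, m] ≤ b N := by
    intro N m hm
    have : TA E (nu N) m + σT ![nu N, m] ≤
        ∑ m ∈ Finset.range (N + 1), (TA E (nu N) m + σT ![nu N, m]) :=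
      Finset.single_le_sum (f := fun m => TA E (nu N) m + σT ![nu N, m])
        (fun i _ => Nat.zero_le _) (Finset.mem_range.2 (Nat.lt_succ_of_le hm))
    show _ ≤ N + nu N + σn ![N] + _
    omega
  have hle : ∀ N, nu N ≤ N := fun N => Nat.unpair_left_le N
  obtain ⟨V, hV, M, v0, u, j, mS, D, htot, hD, hm⟩ := mach_exists (TA E) nu σT σn hT hn
    (by
      intro a N N' h h'
      rw [TA_zero] at h h'
      obtain ⟨h1, h2, h3⟩ := h
      obtain ⟨h1', h2', h3'⟩ := h'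
      have h4 : N.unpair.2 = N'.unpair.2 := by
        rcases lt_trichotomy N.unpair.2 N'.unpair.2 with h | h | h
        · exact absurd h2 (h3' _ h)
        · exact h
        · exact absurd h2' (h3 _ h)
      rw [← Nat.pair_unpair N, ← Nat.pair_unpair N', h4, h1, h1'])
    (fun N _ => hle N) s hs
    (fun N => le_trans (by show N ≤ N + nu N + σn ![N] + _; omega) (hb N))
    (fun N => le_trans (by show nu N ≤ N + nu N + σn ![N] + _; omega) (hb N))
    (fun N => le_trans (by show σn ![N] ≤ N + nu N + σn ![N] + _; omega) (hb N))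
    (fun N m hmN => by
      have h1 := hb3 N m hmN
      have h2 := hb N
      constructor <;> omega)
  refine ⟨V, hV, M, v0, u, j, mS, _, _, _, _, htot, hm, fun g hg => ?_⟩
  obtain ⟨C, hC⟩ := hdom g hg
  refine ⟨C, fun m => ?_⟩
  obtain ⟨a, k, h1, h2, h3, h4⟩ := hC m
  refine ⟨Nat.pair a k, ?_, ?_, ?_⟩
  · show TA E (nu (Nat.pair a k)) (Nat.pair a k) = 0
    rw [TA_zero]
    simp only [hnu, Nat.unpair_pair]
    exact ⟨trivial, h3, h4⟩
  · simpa [hnu] using h1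
  · exact h2.trans (Nat.right_le_pair a k)

end Pool.Agent.FBC
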