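import Mathlib

/-!
# Reversible register programs
-/

namespace Pool.Agent.FBC

open Function

/-- A state: the contents of the registers. -/
abbrev St := ℕ → ℕ

/-- Reversible programs. -/
inductive Prog
  | skip
  | inc (i : ℕ)
  | dec (i : ℕ)
  | seq (P Q : Prog)
  /-- from `j = 0` while `i ≠ 0` do `P` -/
  | loop (i j : ℕ) (P : Prog)
  /-- if `i ≠ 0` then `P` (then `j ≠ 0`) else `Q` (then `j = 0`) -/
  | ite (i j : ℕ) (P Q : Prog)

namespace Prog

/-- The relation computed by a program. -/
def Run : Prog → St → St → Prop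
  | skip => fun a b => a = b
  | inc i => fun a b => b = update a i (a i + 1)
  | dec i => fun a b => a = update b i (b i + 1)
  | seq P Q => fun a b => ∃ c, Run P a c ∧ Run Q c b
  | loop i j P => fun a b => a j = 0 ∧ b i = 0 ∧
      Relation.ReflTransGen (fun a c => a i ≠ 0 ∧ Run P a c ∧ c j ≠ 0) a b
  | ite i j P Q => fun a b => (a i ≠ 0 ∧ Run P a b ∧ b j ≠ 0) ∨ (a i = 0 ∧ Run Q a b ∧ b j = 0)

/-- The inverse program. -/
def inv : Prog → Prog
  | skip => skip
  | inc i => dec i
  | dec i => inc i
  | seq P Q => seq Q.inv P.inv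
  | loop i j P => loop j i P.inv
  | ite i j P Q => ite j i P.inv Q.inv

theorem run_inv (P : Prog) : ∀ a b, Run P.inv b a ↔ Run P a b := by
  induction P with
  | skip => intro a b; exact eq_comm
  | inc i => intro a b; exact Iff.rfl
  | dec i => intro a b; exact Iff.rfl
  | seq P Q hP hQ =>
    intro a b
    simp only [inv, Run, hP, hQ]
    exact exists_congr fun c => and_comm
  | loop i j P hP =>
    intro a b
    simp only [inv, Run, hP]
    have key : ∀ a b, Relation.ReflTransGen (fun a c => a j ≠ 0 ∧ Run P c a ∧ c i ≠ 0) b a ↔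
        Relation.ReflTransGen (fun a c => a i ≠ 0 ∧ Run P a c ∧ c j ≠ 0) a b := by
      intro a b
      rw [← Relation.reflTransGen_swap]
      refine iff_of_eq ?_
      congr 1
      funext x y
      simp only [swap, eq_iff_iff]
      tauto
    rw [key]
    tauto
  | ite i j P Q hP hQ =>
    intro a b
    simp only [inv, Run, hP, hQ]
    tauto

/-- a bound for the registers used by a program -/
def bd : Prog → ℕ
  | skip => 0
  | inc i => i + 1
  | dec i => i + 1
  | seq P Q => max P.bd Q.bd
  | loop i j P => max (max (i + 1) (j + 1)) P.bd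
  | ite i j P Q => max (max (i + 1) (j + 1)) (max P.bd Q.bd)

theorem bd_inv (P : Prog) : P.inv.bd = P.bd := by
  induction P with
  | skip => rfl
  | inc i => rfl
  | dec i => rfl
  | seq P Q hP hQ => simp only [inv, bd, hP, hQ, max_comm]
  | loop i j P hP => simp only [inv, bd, hP, max_comm (i + 1)]
  | ite i j P Q hP hQ => simp only [inv, bd, hP, hQ, max_comm (i + 1)]

theorem Run.seq {P Q : Prog} {a b c : St} (h1 : Run P a b) (h2 : Run Q b c) :
    Run (P.seq Q) a c := ⟨b, h1, h2⟩

theorem run_inc (i : ℕ) (a : St) : Run (inc i) a (update a i (a i + 1)) := rfl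

theorem run_dec (i : ℕ) (a : St) (h : a i ≠ 0) : Run (dec i) a (update a i (a i - 1)) := by
  show a = _
  rw [update_self, update_idem, Nat.sub_add_cancel (Nat.pos_of_ne_zero h), update_eq_self]

/-- A loop with a counting variable. -/
theorem Run.loop {P : Prog} {i j : ℕ} (σ : ℕ → St) (K : ℕ) (h0 : σ 0 j = 0) (hK : σ K i = 0)
    (hs : ∀ k < K, σ k i ≠ 0 ∧ Run P (σ k) (σ (k + 1)) ∧ σ (k + 1) j ≠ 0) :
    Run (loop i j P) (σ 0) (σ K) := by
  refine ⟨h0, hK, ?_⟩
  clear hK h0
  induction K with
  | zero => exact Relation.ReflTransGen.refl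
  | succ K ih =>
    exact (ih fun k hk => hs k (Nat.lt_succ_of_lt hk)).tail (hs K (Nat.lt_succ_self K))

end Prog

end Pool.Agent.FBC
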