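import Pool.Agent.FBC.RevA

/-!
# FBC module RevM: products are cleanly computable

Scratch `A = b`, `B = b + 1`, `D = b + 2`, `E = b + 3`, scratch of `f`, `g` from `b + 4` on.
`U`: `A += f`, then `B += g`. Core: `loop D A (copy B out E)` (from `D = 0`, while `A ≠ 0`: dec A;
out += B; inc D), then `loop A D skip` restores `A`. Then `U.inv` (`big_inv`; applied to the run of
`U` from the state in which `out` is already increased by `f * g`).
Space: `mass R x + f + g + f * g + g` in the core, `mass R x + f * g + f + σ` etc. outside.
-/

namespace Pool.Agent.FBC

/-- the state `x` with the registers `A, D, out` changed -/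
def revM_s (x : ℕ → ℕ) (A D out a d o : ℕ) : ℕ → ℕ :=
  Function.update (Function.update (Function.update x A a) D d) out o

theorem revM_mass {R A D out : ℕ} (hA : A < R) (hD : D < R) (ho : out < R) (h1 : A ≠ D)
    (h2 : A ≠ out) (h3 : D ≠ out) (x : ℕ → ℕ) (a d o : ℕ) :
    mass R (revM_s x A D out a d o) + x A + x D + x out = mass R x + a + d + o := by
  unfold revM_s
  have e1 := mass_update hA x a
  have e2 := mass_update hD (Function.update x A a) d
  have e3 := mass_update ho (Function.update (Function.update x A a) D d) o
  rw [Function.update_of_ne h1.symm] at e2
  rw [Function.update_of_ne h3.symm, Function.update_of_ne h2.symm] at e3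
  omega

theorem revM_core {R A B D E out : ℕ} (hA : A < R) (hB : B < R) (hD : D < R) (hE : E < R)
    (ho : out < R) (hAB : A ≠ B) (hAD : A ≠ D) (hAE : A ≠ E) (hAo : A ≠ out) (hBD : B ≠ D)
    (hBE : B ≠ E) (hBo : B ≠ out) (hDE : D ≠ E) (hDo : D ≠ out) (hEo : E ≠ out) (x : ℕ → ℕ)
    (hxD : x D = 0) (hxE : x E = 0) :
    Big (fun u => mass R u ≤ mass R x + x A * x B + x B) (.loop D A (copy B out E)) x
      (revM_s x A D out 0 (x A) (x out + x A * x B)) := by
  have hm : ∀ a d o, mass R (revM_s x A D out a d o) + x A + x out = mass R x + a + d + o := by
    intro a d o
    have := revM_mass hA hD ho hAD hAo hDo x a d o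
    omega
  have h0 : x = revM_s x A D out (x A - 0) 0 (x out + 0 * x B) := by
    funext r
    unfold revM_s
    simp only [Function.update_apply]
    split_ifs with h1 h2 h3
    · subst h1; simp
    · subst h2; exact hxD
    · subst h3; simp
    · rfl
  refine ⟨?_, ?_, hxD, ?_, ?_⟩
  · show mass R x ≤ _
    omega
  · show mass R _ ≤ _
    have := hm 0 (x A) (x out + x A * x B)
    omega
  · simp [revM_s, Function.update_apply, hAD, hAo]
  · have key : ∀ l, l ≤ x A → Relation.ReflTransGen (fun u v => (mass R u ≤ mass R x + x A * x B + x B)
        ∧ (mass R v ≤ mass R x + x A * x B + x B) ∧ ∃ u' v', u = inc A u' ∧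
        Big (fun u => mass R u ≤ mass R x + x A * x B + x B) (copy B out E) u' v' ∧ v = inc D v') x
        (revM_s x A D out (x A - l) l (x out + l * x B)) := by
      intro l
      induction l with
      | zero =>
        intro _
        rw [← h0]
      | succ l ih =>
        intro hl
        have hle : (l + 1) * x B ≤ x A * x B := Nat.mul_le_mul_right _ hl
        have hle' : (l + 1) * x B = l * x B + x B := by ring
        refine (ih (by omega)).tail ⟨?_, ?_, ?_⟩
        · have := hm (x A - l) l (x out + l * x B)
          omega
        · have := hm (x A - (l + 1)) (l + 1) (x out + (l + 1) * x B)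
          omega
        · refine ⟨revM_s x A D out (x A - (l + 1)) l (x out + l * x B),
            revM_s x A D out (x A - (l + 1)) l (x out + (l + 1) * x B), ?_, ?_, ?_⟩
          · funext r
            unfold revM_s inc
            simp only [Function.update_apply]
            split_ifs with h1 h2 h3 <;> first | omega | rfl | (subst_vars; omega)
          · have hc := big_copy hB ho hE hBo hBE (Ne.symm hEo)
              (revM_s x A D out (x A - (l + 1)) l (x out + l * x B)) (by
                simp [revM_s, Function.update_apply, hEo, hDE.symm, hAE.symm, hxE])
            have e : Function.update (revM_s x A D out (x A - (l + 1)) l (x out + l * x B)) out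
                (revM_s x A D out (x A - (l + 1)) l (x out + l * x B) out +
                  revM_s x A D out (x A - (l + 1)) l (x out + l * x B) B) =
                revM_s x A D out (x A - (l + 1)) l (x out + (l + 1) * x B) := by
              have eB : revM_s x A D out (x A - (l + 1)) l (x out + l * x B) B = x B := by
                simp [revM_s, Function.update_apply, hBo, hBD, hAB.symm]
              have eo : revM_s x A D out (x A - (l + 1)) l (x out + l * x B) out =
                  x out + l * x B := by
                simp [revM_s]
              rw [eB, eo]
              unfold revM_s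
              rw [Function.update_idem]
              congr 1
              omega
            rw [e] at hc
            refine big_mono ?_ hc
            intro u hu
            have h1 := hm (x A - (l + 1)) l (x out + l * x B)
            have eB : revM_s x A D out (x A - (l + 1)) l (x out + l * x B) B = x B := by
              simp [revM_s, Function.update_apply, hBo, hBD, hAB.symm]
            have h2 := hu.2
            rw [eB] at h2
            omega
          · funext r
            unfold revM_s inc
            simp only [Function.update_apply]
            split_ifs with h1 h2 h3 <;> first | omega | rfl | (subst_vars; omega)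
    have := key (x A) le_rfl
    rwa [Nat.sub_self] at this

theorem revM_restore {R A D : ℕ} (hA : A < R) (hD : D < R) (hAD : A ≠ D) (x : ℕ → ℕ)
    (hxA : x A = 0) :
    Big (fun u => mass R u ≤ mass R x) (.loop A D .skip) x
      (Function.update (Function.update x D 0) A (x D)) := by
  have hm : ∀ a d, mass R (Function.update (Function.update x D d) A a) + x D =
      mass R x + a + d := by
    intro a d
    have e1 := mass_update hD x d
    have e2 := mass_update hA (Function.update x D d) a
    rw [Function.update_of_ne hAD] at e2
    omega
  have h0 : x = Function.update (Function.update x D (x D - 0)) A 0 := by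
    funext r
    simp only [Function.update_apply]
    split_ifs with h1 h2
    · subst h1; exact hxA
    · subst h2; simp
    · rfl
  refine ⟨?_, ?_, hxA, ?_, ?_⟩
  · show mass R x ≤ _
    omega
  · show mass R _ ≤ _
    have := hm (x D) 0
    omega
  · simp [Function.update_apply, hAD.symm]
  · have key : ∀ l, l ≤ x D → Relation.ReflTransGen (fun u v => (mass R u ≤ mass R x)
        ∧ (mass R v ≤ mass R x) ∧ ∃ u' v', u = inc D u' ∧
        Big (fun u => mass R u ≤ mass R x) Prog.skip u' v' ∧ v = inc A v') x
        (Function.update (Function.update x D (x D - l)) A l) := by
      intro l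
      induction l with
      | zero =>
        intro _
        rw [← h0]
      | succ l ih =>
        intro hl
        refine (ih (by omega)).tail ⟨?_, ?_, ?_⟩
        · have := hm l (x D - l)
          omega
        · have := hm (l + 1) (x D - (l + 1))
          omega
        · refine ⟨Function.update (Function.update x D (x D - (l + 1))) A l,
            Function.update (Function.update x D (x D - (l + 1))) A l, ?_, ⟨rfl, ?_⟩, ?_⟩
          · funext r
            unfold inc
            simp only [Function.update_apply]
            split_ifs with h1 h2 <;> first | omega | rfl | (subst_vars; omega)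
          · have := hm l (x D - (l + 1))
            omega
          · funext r
            unfold inc
            simp only [Function.update_apply]
            split_ifs with h1 h2 <;> first | omega | rfl | (subst_vars; omega)
    have := key (x D) le_rfl
    rwa [Nat.sub_self] at this

theorem clean_mul {k : ℕ} {f g σ τ : (Fin k → ℕ) → ℕ} (hf : Clean f σ) (hg : Clean g τ) :
    Clean (fun v => f v * g v) (fun v => σ v + τ v + f v * g v + 2 * f v + 2 * g v + 2) := by
  obtain ⟨mf, hf⟩ := hf
  obtain ⟨mg, hg⟩ := hg
  refine ⟨4 + (mf + mg), ?_⟩
  intro inp out b hinp hout hne
  obtain ⟨P, hP, hP'⟩ := hf inp b (b + 4) (fun i => (hinp i).trans (by omega)) (by omega)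
    (fun i => (hinp i).ne)
  obtain ⟨Q, hQ, hQ'⟩ := hg inp (b + 1) (b + 4) (fun i => (hinp i).trans (by omega)) (by omega)
    (fun i => ((hinp i).trans (by omega)).ne)
  have hPU : P.In {r | r = out ∨ (∃ i, r = inp i) ∨ (b ≤ r ∧ r < b + (4 + (mf + mg)))} := by
    refine in_mono ?_ hP
    rintro r (h | h | h)
    · right; right; omega
    · right; left; exact h
    · right; right; omega
  have hQU : Q.In {r | r = out ∨ (∃ i, r = inp i) ∨ (b ≤ r ∧ r < b + (4 + (mf + mg)))} := by
    refine in_mono ?_ hQ
    rintro r (h | h | h)
    · right; right; omega
    · right; left; exact h
    · right; right; omega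
  have hr : ∀ j, j < 4 → b + j ∈
      {r | r = out ∨ (∃ i, r = inp i) ∨ (b ≤ r ∧ r < b + (4 + (mf + mg)))} := by
    intro j hj
    right; right; omega
  have hoU : out ∈ {r | r = out ∨ (∃ i, r = inp i) ∨ (b ≤ r ∧ r < b + (4 + (mf + mg)))} := by
    left; rfl
  refine ⟨.seq P (.seq Q (.seq (.loop (b + 2) b (copy (b + 1) out (b + 3)))
    (.seq (.loop b (b + 2) .skip) (.seq Q.inv P.inv)))), ?_, ?_⟩
  · refine ⟨hPU, hQU, ⟨hr 2 (by norm_num), hr 0 (by norm_num), copy_in (hr 1 (by norm_num)) hoU
      (hr 3 (by norm_num))⟩, ⟨hr 0 (by norm_num), hr 2 (by norm_num), trivial⟩, in_inv hQU,
      in_inv hPU⟩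
  intro R x hR hx
  set F := f (fun i => x (inp i)) with hF
  set G := g (fun i => x (inp i)) with hG
  have hxb : x b = 0 := hx b le_rfl (by omega)
  have hxb1 : x (b + 1) = 0 := hx (b + 1) (by omega) (by omega)
  have hxb2 : x (b + 2) = 0 := hx (b + 2) (by omega) (by omega)
  have hxb3 : x (b + 3) = 0 := hx (b + 3) (by omega) (by omega)
  -- the states with out register equal to o
  have hinpo : ∀ (o a c : ℕ), (fun i => Function.update (Function.update (Function.update x out o)
      b a) (b + 1) c (inp i)) = fun i => x (inp i) := by
    intro o a c
    funext i
    rw [Function.update_of_ne (by have := hinp i; omega),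
      Function.update_of_ne (by have := hinp i; omega), Function.update_of_ne (hne i)]
  have hinpo2 : ∀ (o a : ℕ), (fun i => Function.update (Function.update x out o)
      b a (inp i)) = fun i => x (inp i) := by
    intro o a
    funext i
    rw [Function.update_of_ne (by have := hinp i; omega), Function.update_of_ne (hne i)]
  have hinpo1 : ∀ (o : ℕ), (fun i => Function.update x out o (inp i)) = fun i => x (inp i) := by
    intro o
    funext i
    rw [Function.update_of_ne (hne i)]
  have hm1 : ∀ o, mass R (Function.update x out o) + x out = mass R x + o :=
    fun o => mass_update (by omega) x o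
  have hm2 : ∀ o a, mass R (Function.update (Function.update x out o) b a) + x out =
      mass R x + o + a := by
    intro o a
    have h1 := hm1 o
    have h2 := mass_update (R := R) (i := b) (by omega) (Function.update x out o) a
    rw [Function.update_of_ne (by omega), hxb] at h2
    omega
  have hm3 : ∀ o a c, mass R (Function.update (Function.update (Function.update x out o) b a)
      (b + 1) c) + x out = mass R x + o + a + c := by
    intro o a c
    have h1 := hm2 o a
    have h2 := mass_update (R := R) (i := b + 1) (by omega)
      (Function.update (Function.update x out o) b a) c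
    rw [Function.update_of_ne (by omega), Function.update_of_ne (by omega), hxb1] at h2
    omega
  -- the run of P from the state with out register equal to o
  have runP : ∀ o, Big (fun u => mass R u + x out ≤ mass R x + o + σ (fun i => x (inp i))) P
      (Function.update x out o) (Function.update (Function.update x out o) b F) := by
    intro o
    have h := hP' R (Function.update x out o) (by omega) (by
      intro r h1 h2
      rw [Function.update_of_ne (by omega)]
      exact hx r (by omega) (by omega))
    rw [hinpo1 o, Function.update_of_ne (show b ≠ out by omega), hxb, zero_add] at h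
    refine big_mono ?_ h
    intro u hu
    have := hm1 o
    omega
  have runQ : ∀ o, Big (fun u => mass R u + x out ≤ mass R x + o + F + τ (fun i => x (inp i))) Q
      (Function.update (Function.update x out o) b F)
      (Function.update (Function.update (Function.update x out o) b F) (b + 1) G) := by
    intro o
    have h := hQ' R (Function.update (Function.update x out o) b F) (by omega) (by
      intro r h1 h2
      rw [Function.update_of_ne (by omega), Function.update_of_ne (by omega)]
      exact hx r (by omega) (by omega))
    rw [hinpo2 o F, Function.update_of_ne (show b + 1 ≠ b by omega),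
      Function.update_of_ne (show b + 1 ≠ out by omega), hxb1, zero_add] at h
    refine big_mono ?_ h
    intro u hu
    have := hm2 o F
    omega
  set y := Function.update (Function.update (Function.update x out (x out)) b F) (b + 1) G with hy
  have hyb : y b = F := by
    rw [hy, Function.update_of_ne (by omega), Function.update_self]
  have hyb1 : y (b + 1) = G := by
    rw [hy, Function.update_self]
  have hyb2 : y (b + 2) = 0 := by
    rw [hy, Function.update_of_ne (by omega), Function.update_of_ne (by omega),
      Function.update_of_ne (by omega), hxb2]
  have hyb3 : y (b + 3) = 0 := by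
    rw [hy, Function.update_of_ne (by omega), Function.update_of_ne (by omega),
      Function.update_of_ne (by omega), hxb3]
  have hyo : y out = x out := by
    rw [hy, Function.update_of_ne (by omega), Function.update_of_ne (by omega),
      Function.update_self]
  have hmy : mass R y = mass R x + F + G := by
    have := hm3 (x out) F G
    rw [← hy] at this
    omega
  have core := revM_core (R := R) (A := b) (B := b + 1) (D := b + 2) (E := b + 3) (out := out)
    (by omega) (by omega) (by omega) (by omega) (by omega) (by omega) (by omega) (by omega)
    (by omega) (by omega) (by omega) (by omega) (by omega) (by omega) (by omega) y hyb2 hyb3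
  rw [hyb, hyb1, hyo, hmy] at core
  set z := revM_s y b (b + 2) out 0 F (x out + F * G) with hz
  have hzb : z b = 0 := by
    rw [hz, revM_s, Function.update_of_ne (by omega), Function.update_of_ne (by omega),
      Function.update_self]
  have hzb2 : z (b + 2) = F := by
    rw [hz, revM_s, Function.update_of_ne (by omega), Function.update_self]
  have hmz : mass R z = mass R x + F + G + F * G := by
    have := revM_mass (R := R) (A := b) (D := b + 2) (out := out) (by omega) (by omega) (by omega)
      (by omega) (by omega) (by omega) y 0 F (x out + F * G)
    rw [← hz, hyb, hyb2, hyo, hmy] at this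
    omega
  have rest := revM_restore (R := R) (A := b) (D := b + 2) (by omega) (by omega) (by omega) z hzb
  rw [hzb2, hmz] at rest
  have hw : Function.update (Function.update z (b + 2) 0) b F =
      Function.update (Function.update (Function.update x out (x out + F * G)) b F) (b + 1) G := by
    funext r
    rw [hz, revM_s, hy]
    simp only [Function.update_apply]
    by_cases h1 : r = b
    · subst h1; simp
    by_cases h2 : r = b + 2
    · subst h2
      simp [show b + 2 ≠ out by omega, hxb2]
    by_cases h3 : r = out
    · subst h3
      simp [show r ≠ b by omega, show r ≠ b + 1 by omega, show r ≠ b + 2 by omega]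
    · simp [h1, h2, h3]
  rw [hw] at rest
  have hx0 : Function.update x out (x out) = x := Function.update_eq_self _ _
  have runP0 := runP (x out)
  have runQ0 := runQ (x out)
  rw [← hy] at runQ0
  rw [hx0] at runP0 runQ0
  have hFG : F * G + 0 = F * G := rfl
  refine ⟨_, big_mono ?_ runP0, _, big_mono ?_ runQ0, _, big_mono ?_ core, _, big_mono ?_ rest, _,
    big_mono ?_ (big_inv.2 (runQ (x out + F * G))), big_mono ?_ (big_inv.2 (runP (x out + F * G)))⟩
  all_goals
    intro u hu
    dsimp only at hu ⊢
    rw [← hF, ← hG]
    omega

end Pool.Agent.FBC
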