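import Pool.Agent.FBC.Defs
import Pool.Agent.helper12.FD.Wl

/-!
# FBC module Sub: the subgroup generated by the residue machine; rewriting

Write `t' = s⁻¹ t s`, so `s t' = t s`; `t`, `t'` commute, `a`, `t` commute. `τ_v = tau v`.
For `q v = 1` (`τ_v = t`): `γ_v = (t ^ p)⁻¹ t'` commutes with `τ_v`, generator
`g_v = (a ^ e)⁻¹ γ_v a ^ e`, `t ^ (p k) = t' ^ k γ_v ^ (-k)`. For `q v ≠ 1` (`τ_v = t'`, `p v = 1`
by `M.one`): `δ_v = (t' ^ q)⁻¹ t` commutes with `τ_v`, generator `h_v = (a ^ e)⁻¹ δ_v a ^ e`,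
`t' ^ (q k) = t ^ k δ_v ^ (-k)`.
`rew_s`: `s * pt v (p k + r) = t ^ k * (s * pt v r) * g_v ^ (-k)` (if `q v = 1`; without the last
factor if `q v ≠ 1`), and `(pt w (q k + c))⁻¹ * t ^ k = h_w ^ k * (pt w c)⁻¹` (if `q w ≠ 1`;
without `h_w ^ k` if `q w = 1`). `rew_a` is the same with `a t ^ k = t ^ k a`.
`rew_t`: it is `1` if `q v = 1` and `h_v` otherwise.
`rew_run`: induction on the run; `z = p k + r`, `0 ≤ r < p` gives `|k| ≤ |z|`.
`gens_finite`: `V` is finite and only finitely many `(v, r, w, c)` satisfy `M.E` (`M.lt`).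
-/

namespace Pool.Agent.FBC

open Pool.Agent.helper12.FD

variable {V : Type} (M : RM V) (EA : V → ℕ → V → ℕ → Prop) {G : Type*} [Group G] (t s a : G)
  (e : V → ℕ)

theorem gens_finite [Finite V] (hEA : EAok M EA) :
    (gens M EA t s a e).Finite := by
  have h1 : ({g : G | ∃ v, M.q v = 1 ∧
      g = (a ^ (e v))⁻¹ * ((t ^ (M.p v))⁻¹ * (s⁻¹ * t * s)) * a ^ (e v)} : Set G).Finite := by
    refine (Set.finite_range (fun v : V =>
      (a ^ (e v))⁻¹ * ((t ^ (M.p v))⁻¹ * (s⁻¹ * t * s)) * a ^ (e v))).subset ?_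
    rintro g ⟨v, -, rfl⟩
    exact ⟨v, rfl⟩
  have h2 : ({g : G | ∃ v, M.q v ≠ 1 ∧
      g = (a ^ (e v))⁻¹ * (((s⁻¹ * t * s) ^ (M.q v))⁻¹ * t) * a ^ (e v)} : Set G).Finite := by
    refine (Set.finite_range (fun v : V =>
      (a ^ (e v))⁻¹ * (((s⁻¹ * t * s) ^ (M.q v))⁻¹ * t) * a ^ (e v))).subset ?_
    rintro g ⟨v, -, rfl⟩
    exact ⟨v, rfl⟩
  have h3 : ({g : G | ∃ v r w c, M.E v r w c ∧
      g = (pt M t s a e w c)⁻¹ * s * pt M t s a e v r} : Set G).Finite := by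
    have hfin : Finite (Σ v : V, Σ w : V, Fin (M.p v) × Fin (M.q w)) := inferInstance
    refine (Set.finite_range (fun x : (Σ v : V, Σ w : V, Fin (M.p v) × Fin (M.q w)) =>
      (pt M t s a e x.2.1 ((x.2.2.2 : ℕ) : ℤ))⁻¹ * s *
        pt M t s a e x.1 ((x.2.2.1 : ℕ) : ℤ))).subset ?_
    rintro g ⟨v, r, w, c, hE, rfl⟩
    exact ⟨⟨v, w, ⟨r, (M.lt hE).1⟩, ⟨c, (M.lt hE).2⟩⟩, rfl⟩
  have h4 : ({g : G | ∃ v c w c', EA v c w c' ∧
      g = (pt M t s a e w c')⁻¹ * a * pt M t s a e v c} : Set G).Finite := by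
    refine (Set.finite_range (fun x : (Σ v : V, Σ w : V, Fin (M.q v) × Fin (M.q w)) =>
      (pt M t s a e x.2.1 ((x.2.2.2 : ℕ) : ℤ))⁻¹ * a *
        pt M t s a e x.1 ((x.2.2.1 : ℕ) : ℤ))).subset ?_
    rintro g ⟨v, c, w, c', hE, rfl⟩
    exact ⟨⟨v, w, ⟨c, (hEA.lt hE).1⟩, ⟨c', (hEA.lt hE).2⟩⟩, rfl⟩
  exact ((h1.union h2).union h3).union h4

theorem tau_map {K : Type*} [Group K] (f : G →* K) (v : V) :
    f (tau M t s v) = tau M (f t) (f s) v := by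
  unfold tau
  split <;> simp

theorem pt_map {K : Type*} [Group K] (f : G →* K) (v : V) (z : ℤ) :
    f (pt M t s a e v z) = pt M (f t) (f s) (f a) e v z := by
  unfold pt
  rw [map_mul, map_zpow, map_pow, tau_map]

theorem gens_map {K : Type*} [Group K] (f : G →* K) :
    f '' gens M EA t s a e = gens M EA (f t) (f s) (f a) e := by
  ext x
  constructor
  · rintro ⟨g, hg, rfl⟩
    rcases hg with ((⟨v, hv, rfl⟩ | ⟨v, hv, rfl⟩) | ⟨v, r, w, c, hE, rfl⟩) | ⟨v, c, w, c', hE, rfl⟩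
    · left; left; left
      exact ⟨v, hv, by simp only [map_mul, map_inv, map_pow]⟩
    · left; left; right
      exact ⟨v, hv, by simp only [map_mul, map_inv, map_pow]⟩
    · left; right
      exact ⟨v, r, w, c, hE, by simp only [map_mul, map_inv, pt_map]⟩
    · right
      exact ⟨v, c, w, c', hE, by simp only [map_mul, map_inv, pt_map]⟩
  · intro hx
    rcases hx with ((⟨v, hv, rfl⟩ | ⟨v, hv, rfl⟩) | ⟨v, r, w, c, hE, rfl⟩) | ⟨v, c, w, c', hE, rfl⟩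
    · exact ⟨_, Or.inl (Or.inl (Or.inl ⟨v, hv, rfl⟩)), by simp only [map_mul, map_inv, map_pow]⟩
    · exact ⟨_, Or.inl (Or.inl (Or.inr ⟨v, hv, rfl⟩)), by simp only [map_mul, map_inv, map_pow]⟩
    · exact ⟨_, Or.inl (Or.inr ⟨v, r, w, c, hE, rfl⟩), by simp only [map_mul, map_inv, pt_map]⟩
    · exact ⟨_, Or.inr ⟨v, c, w, c', hE, rfl⟩, by simp only [map_mul, map_inv, pt_map]⟩

theorem mem3 : t ∈ Subgroup.closure ({t, s, a} : Set G) ∧ s ∈ Subgroup.closure ({t, s, a} : Set G) ∧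
    a ∈ Subgroup.closure ({t, s, a} : Set G) :=
  ⟨Subgroup.subset_closure (by simp), Subgroup.subset_closure (by simp),
    Subgroup.subset_closure (by simp)⟩

theorem pt_mem (v : V) (z : ℤ) : pt M t s a e v z ∈ Subgroup.closure {t, s, a} := by
  obtain ⟨ht, hs, ha⟩ := mem3 t s a
  unfold pt tau
  refine mul_mem (Subgroup.zpow_mem _ ?_ _) (Subgroup.pow_mem _ ha _)
  split
  · exact ht
  · exact mul_mem (mul_mem (inv_mem hs) ht) hs

theorem gens_mem {x : G} (hx : x ∈ gens M EA t s a e) : x ∈ Subgroup.closure {t, s, a} := by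
  obtain ⟨ht, hs, ha⟩ := mem3 t s a
  have hst : s⁻¹ * t * s ∈ Subgroup.closure ({t, s, a} : Set G) :=
    mul_mem (mul_mem (inv_mem hs) ht) hs
  rcases hx with ((⟨v, hv, rfl⟩ | ⟨v, hv, rfl⟩) | ⟨v, r, w, c, hE, rfl⟩) | ⟨v, c, w, c', hE, rfl⟩
  · exact mul_mem (mul_mem (inv_mem (pow_mem ha _)) (mul_mem (inv_mem (pow_mem ht _)) hst))
      (pow_mem ha _)
  · exact mul_mem (mul_mem (inv_mem (pow_mem ha _)) (mul_mem (inv_mem (pow_mem hst _)) ht))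
      (pow_mem ha _)
  · exact mul_mem (mul_mem (inv_mem (pt_mem M t s a e _ _)) hs) (pt_mem M t s a e _ _)
  · exact mul_mem (mul_mem (inv_mem (pt_mem M t s a e _ _)) ha) (pt_mem M t s a e _ _)

theorem tau_one {v : V} (hv : M.q v = 1) : tau M t s v = t := if_pos hv

theorem tau_ne {v : V} (hv : M.q v ≠ 1) : tau M t s v = s⁻¹ * t * s := if_neg hv

/-- conjugates of zpowers -/
theorem conj_zpow' (x y : G) (k : ℤ) : (x⁻¹ * y * x) ^ k = x⁻¹ * y ^ k * x := by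
  have h := conj_zpow (a := x⁻¹) (b := y) (i := k)
  rw [inv_inv] at h
  exact h

theorem left_part (h : Commute t (s⁻¹ * t * s)) (w : V) (c : ℕ) (k : ℤ) :
    ∃ x, W (gens M EA t s a e) x k.natAbs ∧
      (pt M t s a e w (M.q w * k + c))⁻¹ * t ^ k = x * (pt M t s a e w c)⁻¹ := by
  by_cases hw : M.q w = 1
  · refine ⟨1, W_one _, ?_⟩
    unfold pt
    rw [tau_one M t s hw, hw]
    have h1 : t ^ (((1 : ℕ) : ℤ) * k + (c : ℤ)) = t ^ k * t ^ (c : ℤ) := by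
      rw [Nat.cast_one, one_mul, zpow_add]
    rw [h1, one_mul, mul_inv_rev, mul_inv_rev, mul_assoc, mul_assoc, inv_mul_cancel, mul_one,
      mul_inv_rev]
  · set t' : G := s⁻¹ * t * s with ht'
    have hg : (a ^ (e w))⁻¹ * ((t' ^ (M.q w))⁻¹ * t) * a ^ (e w) ∈ gens M EA t s a e :=
      Or.inl (Or.inl (Or.inr ⟨w, hw, rfl⟩))
    refine ⟨((a ^ (e w))⁻¹ * ((t' ^ (M.q w))⁻¹ * t) * a ^ (e w)) ^ k,
      W_mono (W_zpow (W_of_mem hg) k) (by simp), ?_⟩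
    unfold pt
    rw [tau_ne M t s hw, ← ht', conj_zpow' (a ^ (e w)) ((t' ^ (M.q w))⁻¹ * t) k]
    have hc1 : Commute ((t' ^ (M.q w))⁻¹) t := ((h.symm.pow_left _).inv_left)
    have h1 : ((t' ^ (M.q w))⁻¹ * t) ^ k = (t' ^ ((M.q w : ℤ) * k))⁻¹ * t ^ k := by
      rw [hc1.mul_zpow, inv_zpow, ← zpow_natCast t', ← zpow_mul]
    have hc2 : Commute (t' ^ (c : ℤ)) (t ^ k) := (h.symm.zpow_left _).zpow_right _
    rw [h1, zpow_add, mul_inv_rev, mul_inv_rev, mul_inv_rev]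
    have hc3 : (t' ^ (c : ℤ))⁻¹ * (t' ^ ((M.q w : ℤ) * k))⁻¹ =
        (t' ^ ((M.q w : ℤ) * k))⁻¹ * (t' ^ (c : ℤ))⁻¹ := by
      rw [← mul_inv_rev, ← mul_inv_rev, ← zpow_add, ← zpow_add, add_comm]
    have hc4 : (t' ^ (c : ℤ))⁻¹ * t ^ k = t ^ k * (t' ^ (c : ℤ))⁻¹ := hc2.inv_left.eq
    calc (a ^ e w)⁻¹ * ((t' ^ (c : ℤ))⁻¹ * (t' ^ ((M.q w : ℤ) * k))⁻¹) * t ^ k
        = (a ^ e w)⁻¹ * ((t' ^ ((M.q w : ℤ) * k))⁻¹ * ((t' ^ (c : ℤ))⁻¹ * t ^ k)) := by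
          rw [hc3]; simp only [mul_assoc]
      _ = (a ^ e w)⁻¹ * ((t' ^ ((M.q w : ℤ) * k))⁻¹ * (t ^ k * (t' ^ (c : ℤ))⁻¹)) := by rw [hc4]
      _ = (a ^ e w)⁻¹ * ((t' ^ ((M.q w : ℤ) * k))⁻¹ * t ^ k) * a ^ e w *
          ((a ^ e w)⁻¹ * (t' ^ (c : ℤ))⁻¹) := by
          simp only [mul_assoc, mul_inv_cancel_left]

theorem right_part_s (h : Commute t (s⁻¹ * t * s)) (v : V) (r : ℕ) (k : ℤ) :
    ∃ y, W (gens M EA t s a e) y k.natAbs ∧
      s * pt M t s a e v (M.p v * k + r) = t ^ k * (s * pt M t s a e v r) * y := by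
  set t' : G := s⁻¹ * t * s with ht'
  have hst : ∀ k : ℤ, s * t' ^ k = t ^ k * s := by
    intro k
    have h0 : t' ^ k = s⁻¹ * t ^ k * s := conj_zpow' s t k
    rw [h0]
    group
  by_cases hv : M.q v = 1
  · have hg : (a ^ (e v))⁻¹ * ((t ^ (M.p v))⁻¹ * t') * a ^ (e v) ∈ gens M EA t s a e :=
      Or.inl (Or.inl (Or.inl ⟨v, hv, rfl⟩))
    refine ⟨(((a ^ (e v))⁻¹ * ((t ^ (M.p v))⁻¹ * t') * a ^ (e v)) ^ k)⁻¹,
      W_inv (W_mono (W_zpow (W_of_mem hg) k) (by simp)), ?_⟩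
    unfold pt
    rw [tau_one M t s hv, conj_zpow' (a ^ (e v)) ((t ^ (M.p v))⁻¹ * t') k]
    have hc1 : Commute ((t ^ (M.p v))⁻¹) t' := ((h.pow_left _).inv_left)
    have h1 : ((t ^ (M.p v))⁻¹ * t') ^ k = (t ^ ((M.p v : ℤ) * k))⁻¹ * t' ^ k := by
      rw [hc1.mul_zpow, inv_zpow, ← zpow_natCast t, ← zpow_mul]
    rw [h1, zpow_add]
    have hc2 : t' ^ k * t ^ ((M.p v : ℤ) * k) = t ^ ((M.p v : ℤ) * k) * t' ^ k :=
      ((h.symm.zpow_left _).zpow_right _).eq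
    have hc3 : (t' ^ k)⁻¹ * t ^ ((M.p v : ℤ) * k) = t ^ ((M.p v : ℤ) * k) * (t' ^ k)⁻¹ :=
      (((h.symm.zpow_left _).zpow_right _).inv_left).eq
    have hc4 : t ^ (r : ℤ) * t ^ ((M.p v : ℤ) * k) = t ^ ((M.p v : ℤ) * k) * t ^ (r : ℤ) := by
      rw [← zpow_add, ← zpow_add, add_comm]
    have hc5 : t ^ (r : ℤ) * (t' ^ k)⁻¹ = (t' ^ k)⁻¹ * t ^ (r : ℤ) :=
      (((h.zpow_left _).zpow_right _).inv_right).eq
    have e1 : t ^ k * (s * (t ^ (r : ℤ) * a ^ e v)) *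
        ((a ^ e v)⁻¹ * ((t ^ ((M.p v : ℤ) * k))⁻¹ * t' ^ k) * a ^ e v)⁻¹ =
        t ^ k * s * (t ^ (r : ℤ) * ((t' ^ k)⁻¹ * t ^ ((M.p v : ℤ) * k))) * a ^ e v := by
      group
    have hc6 : t ^ (r : ℤ) * (t ^ ((M.p v : ℤ) * k) * (t' ^ k)⁻¹) =
        t ^ ((M.p v : ℤ) * k) * ((t' ^ k)⁻¹ * t ^ (r : ℤ)) := by
      rw [← mul_assoc, hc4, mul_assoc, hc5]
    rw [e1, hc3, ← hst, hc6]
    have e2 : s * t' ^ k * (t ^ ((M.p v : ℤ) * k) * ((t' ^ k)⁻¹ * t ^ (r : ℤ))) * a ^ e v =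
        s * ((t' ^ k * t ^ ((M.p v : ℤ) * k)) * (t' ^ k)⁻¹) * t ^ (r : ℤ) * a ^ e v := by
      group
    rw [e2, hc2]
    group
  · refine ⟨1, W_one _, ?_⟩
    have hp : M.p v = 1 := (M.one v).resolve_right hv
    unfold pt
    rw [tau_ne M t s hv, ← ht', hp, Nat.cast_one, one_mul, zpow_add, mul_one, ← mul_assoc,
      ← mul_assoc, hst]
    simp only [mul_assoc]

theorem right_part_a (h : Commute t (s⁻¹ * t * s)) (ha : Commute a t) (v : V) (c : ℕ) (k : ℤ) :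
    ∃ y, W (gens M EA t s a e) y k.natAbs ∧
      a * pt M t s a e v (M.q v * k + c) = t ^ k * (a * pt M t s a e v c) * y := by
  set t' : G := s⁻¹ * t * s with ht'
  have hat : ∀ k : ℤ, a * t ^ k = t ^ k * a := fun k => (ha.zpow_right k).eq
  by_cases hv : M.q v = 1
  · refine ⟨1, W_one _, ?_⟩
    unfold pt
    rw [tau_one M t s hv, hv, Nat.cast_one, one_mul, zpow_add, mul_one, ← mul_assoc,
      ← mul_assoc, hat]
    simp only [mul_assoc]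
  · have hg : (a ^ (e v))⁻¹ * ((t' ^ (M.q v))⁻¹ * t) * a ^ (e v) ∈ gens M EA t s a e :=
      Or.inl (Or.inl (Or.inr ⟨v, hv, rfl⟩))
    refine ⟨(((a ^ (e v))⁻¹ * ((t' ^ (M.q v))⁻¹ * t) * a ^ (e v)) ^ k)⁻¹,
      W_inv (W_mono (W_zpow (W_of_mem hg) k) (by simp)), ?_⟩
    unfold pt
    rw [tau_ne M t s hv, ← ht', conj_zpow' (a ^ (e v)) ((t' ^ (M.q v))⁻¹ * t) k]
    have hc1 : Commute ((t' ^ (M.q v))⁻¹) t := ((h.symm.pow_left _).inv_left)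
    have h1 : ((t' ^ (M.q v))⁻¹ * t) ^ k = (t' ^ ((M.q v : ℤ) * k))⁻¹ * t ^ k := by
      rw [hc1.mul_zpow, inv_zpow, ← zpow_natCast t', ← zpow_mul]
    rw [h1, zpow_add]
    have hc4 : t' ^ (c : ℤ) * t' ^ ((M.q v : ℤ) * k) = t' ^ ((M.q v : ℤ) * k) * t' ^ (c : ℤ) := by
      rw [← zpow_add, ← zpow_add, add_comm]
    have hc5 : t' ^ (c : ℤ) * (t ^ k)⁻¹ = (t ^ k)⁻¹ * t' ^ (c : ℤ) :=
      (((h.symm.zpow_left _).zpow_right _).inv_right).eq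
    have hc3 : (t ^ k)⁻¹ * t' ^ ((M.q v : ℤ) * k) = t' ^ ((M.q v : ℤ) * k) * (t ^ k)⁻¹ :=
      (((h.zpow_left _).zpow_right _).inv_left).eq
    have hc2 : t ^ k * t' ^ ((M.q v : ℤ) * k) = t' ^ ((M.q v : ℤ) * k) * t ^ k :=
      ((h.zpow_left _).zpow_right _).eq
    have e1 : t ^ k * (a * (t' ^ (c : ℤ) * a ^ e v)) *
        ((a ^ e v)⁻¹ * ((t' ^ ((M.q v : ℤ) * k))⁻¹ * t ^ k) * a ^ e v)⁻¹ =
        t ^ k * a * (t' ^ (c : ℤ) * ((t ^ k)⁻¹ * t' ^ ((M.q v : ℤ) * k))) * a ^ e v := by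
      group
    have hc6 : t' ^ (c : ℤ) * (t' ^ ((M.q v : ℤ) * k) * (t ^ k)⁻¹) =
        t' ^ ((M.q v : ℤ) * k) * ((t ^ k)⁻¹ * t' ^ (c : ℤ)) := by
      rw [← mul_assoc, hc4, mul_assoc, hc5]
    rw [e1, hc3, ← hat, hc6]
    have e2 : a * t ^ k * (t' ^ ((M.q v : ℤ) * k) * ((t ^ k)⁻¹ * t' ^ (c : ℤ))) * a ^ e v =
        a * ((t ^ k * t' ^ ((M.q v : ℤ) * k)) * (t ^ k)⁻¹) * t' ^ (c : ℤ) * a ^ e v := by
      group
    rw [e2, hc2]
    group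

theorem rew_t (h : Commute t (s⁻¹ * t * s)) (v : V) (z : ℤ) :
    W (gens M EA t s a e) ((pt M t s a e v (z + M.q v))⁻¹ * t * pt M t s a e v z) 1 := by
  by_cases hv : M.q v = 1
  · have h1 : (pt M t s a e v (z + M.q v))⁻¹ * t * pt M t s a e v z = 1 := by
      unfold pt
      rw [tau_one M t s hv, hv, Nat.cast_one, zpow_add, zpow_one, mul_inv_rev, mul_inv_rev]
      group
    rw [h1]
    exact W_one _
  · set t' : G := s⁻¹ * t * s with ht'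
    have hg : (a ^ (e v))⁻¹ * ((t' ^ (M.q v))⁻¹ * t) * a ^ (e v) ∈ gens M EA t s a e :=
      Or.inl (Or.inl (Or.inr ⟨v, hv, rfl⟩))
    have h1 : (pt M t s a e v (z + M.q v))⁻¹ * t * pt M t s a e v z =
        (a ^ (e v))⁻¹ * ((t' ^ (M.q v))⁻¹ * t) * a ^ (e v) := by
      unfold pt
      rw [tau_ne M t s hv, ← ht', zpow_add, zpow_natCast]
      have hc : t * t' ^ z = t' ^ z * t := (h.zpow_right z).eq
      have hc' : t' ^ z * t' ^ M.q v = t' ^ M.q v * t' ^ z := by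
        rw [← zpow_natCast, ← zpow_add, ← zpow_add, add_comm]
      rw [hc', mul_inv_rev, mul_inv_rev]
      have e1 : (a ^ e v)⁻¹ * ((t' ^ z)⁻¹ * (t' ^ M.q v)⁻¹) * t * (t' ^ z * a ^ e v) =
          (a ^ e v)⁻¹ * ((t' ^ z)⁻¹ * (t' ^ M.q v)⁻¹) * (t * t' ^ z) * a ^ e v := by
        simp only [mul_assoc]
      rw [e1, hc, ← mul_inv_rev, ← hc', mul_inv_rev]
      simp only [mul_assoc, inv_mul_cancel_left]
    rw [h1]
    exact W_of_mem hg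

theorem rew_s (h : Commute t (s⁻¹ * t * s)) {v w : V} {r c : ℕ} (hE : M.E v r w c) (k : ℤ) :
    W (gens M EA t s a e)
      ((pt M t s a e w (M.q w * k + c))⁻¹ * s * pt M t s a e v (M.p v * k + r))
      (2 * k.natAbs + 1) := by
  obtain ⟨x, hx, hx'⟩ := left_part M EA t s a e h w c k
  obtain ⟨y, hy, hy'⟩ := right_part_s M EA t s a e h v r k
  have hg : (pt M t s a e w c)⁻¹ * s * pt M t s a e v r ∈ gens M EA t s a e :=
    Or.inl (Or.inr ⟨v, r, w, c, hE, rfl⟩)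
  have h1 : (pt M t s a e w (M.q w * k + c))⁻¹ * s * pt M t s a e v (M.p v * k + r) =
      x * ((pt M t s a e w c)⁻¹ * s * pt M t s a e v r) * y := by
    rw [mul_assoc _ s, hy', ← mul_assoc, ← mul_assoc, hx']
    simp only [mul_assoc]
  rw [h1]
  exact W_mono (W_mul (W_mul hx (W_of_mem hg)) hy) (by omega)

theorem rew_a (h : Commute t (s⁻¹ * t * s)) (ha : Commute a t) {v w : V} {c c' : ℕ}
    (hE : EA v c w c') (k : ℤ) :
    W (gens M EA t s a e)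
      ((pt M t s a e w (M.q w * k + c'))⁻¹ * a * pt M t s a e v (M.q v * k + c))
      (2 * k.natAbs + 1) := by
  obtain ⟨x, hx, hx'⟩ := left_part M EA t s a e h w c' k
  obtain ⟨y, hy, hy'⟩ := right_part_a M EA t s a e h ha v c k
  have hg : (pt M t s a e w c')⁻¹ * a * pt M t s a e v c ∈ gens M EA t s a e :=
    Or.inr ⟨v, c, w, c', hE, rfl⟩
  have h1 : (pt M t s a e w (M.q w * k + c'))⁻¹ * a * pt M t s a e v (M.q v * k + c) =
      x * ((pt M t s a e w c')⁻¹ * a * pt M t s a e v c) * y := by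
    rw [mul_assoc _ a, hy', ← mul_assoc, ← mul_assoc, hx']
    simp only [mul_assoc]
  rw [h1]
  exact W_mono (W_mul (W_mul hx (W_of_mem hg)) hy) (by omega)

theorem natAbs_le_of_step {p r : ℕ} (hr : r < p) (k : ℤ) :
    k.natAbs ≤ ((p : ℤ) * k + r).natAbs := by
  rcases le_or_gt 0 k with hk | hk
  · have h1 : k ≤ (p : ℤ) * k + r := by nlinarith
    omega
  · have h1 : (p : ℤ) * k + r ≤ k := by
      have h2 : (r : ℤ) + 1 ≤ p := by exact_mod_cast hr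
      nlinarith
    omega

theorem rew_run (h : Commute t (s⁻¹ * t * s)) {n Y : ℕ} {b c : V × ℤ}
    (hr : M.RunJ (fun b => b.2.natAbs ≤ Y) n b c) :
    W (gens M EA t s a e) ((pt M t s a e c.1 c.2)⁻¹ * s ^ n * pt M t s a e b.1 b.2)
      (n * (2 * Y + 1)) := by
  induction hr with
  | refl a' =>
    rw [pow_zero, mul_one, inv_mul_cancel]
    exact W_one _
  | @step n b b' c hJ hs hr ih =>
    obtain ⟨k, r, c', hE, hb, hb'⟩ := hs
    have hk : k.natAbs ≤ Y := by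
      have h1 := natAbs_le_of_step (M.lt hE).1 k
      rw [← hb] at h1
      exact h1.trans hJ
    have h1 := rew_s M EA t s a e h hE k
    rw [← hb, ← hb'] at h1
    have h2 : (pt M t s a e c.1 c.2)⁻¹ * s ^ (n + 1) * pt M t s a e b.1 b.2 =
        ((pt M t s a e c.1 c.2)⁻¹ * s ^ n * pt M t s a e b'.1 b'.2) *
          ((pt M t s a e b'.1 b'.2)⁻¹ * s * pt M t s a e b.1 b.2) := by
      rw [pow_succ]
      group
    rw [h2]
    refine W_mono (W_mul ih h1) ?_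
    have : (n + 1) * (2 * Y + 1) = n * (2 * Y + 1) + (2 * Y + 1) := by ring
    omega

end Pool.Agent.FBC
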